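import Pool.Agent.LibMC34.Defs

set_option autoImplicit false

/-! Block G (helper9): definitions of the graded formalism, see L28_ed98ad_helper34.md section 1. -/

namespace Pool.Agent.LibMC34

open MvPolynomial

section

variable {σ τ : Type} {K : Type} [CommRing K]

/-- the component of degree mu of a vector -/
noncomputable def cm (w : σ → Dg) {I : Type} (deg : I → Dg) (μ : Dg) (v : I → MvPolynomial σ K) :
    I → MvPolynomial σ K := fun i => weightedHomogeneousComponent w (μ - deg i) (v i)

/-- homogeneous submodule -/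
def HS (w : σ → Dg) {I : Type} (deg : I → Dg)
    (N : Submodule (MvPolynomial σ K) (I → MvPolynomial σ K)) : Prop :=
  ∀ μ v, v ∈ N → cm w deg μ v ∈ N

/-- graded surjection with a graded section and kernel (x), x a nonzerodivisor -/
structure GSurj (K : Type) [CommRing K] (w : σ → Dg) (w' : τ → Dg) (x : MvPolynomial σ K) where
  π : MvPolynomial σ K →+* MvPolynomial τ K
  sec : MvPolynomial τ K →+* MvPolynomial σ K
  π_sec : ∀ f, π (sec f) = f
  hπ : ∀ f μ, IsWeightedHomogeneous w f μ → IsWeightedHomogeneous w' (π f) μ
  hsec : ∀ f μ, IsWeightedHomogeneous w' f μ → IsWeightedHomogeneous w (sec f) μ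
  π_x : π x = 0
  ker : ∀ f, π f = 0 → ∃ g, f = x * g
  reg : ∀ f, x * f = 0 → f = 0

end

end Pool.Agent.LibMC34
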