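import Pool.Agent.LibRG7.Defs
import Pool.Agent.LibMC34.GDefs

set_option autoImplicit false

/-! Block P1a (helper9): definitions; see L28_ed98ad_helper34.md section 2. The ring is LibRG7.S k = MvPolynomial Ix k. -/

namespace Pool.Agent.LibMC34

open MvPolynomial

/-- shift of the single type (t, c) -/
def Pt (t : Bool) (c : Fin 3) : Bool → Fin 3 → Bool := fun t' c' => decide (t' = t) && decide (c' = c)

/-- the section of the shift on indices -/
def ixs (P : Bool → Fin 3 → Bool) (x : Ix) : Ix :=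
  if P x.1 x.2.1 = true then (x.1, x.2.1, x.2.2 + 1) else x

/-- the shifted weights -/
def wsh (P : Bool → Fin 3 → Bool) (w : Ix → Dg) : Ix → Dg := fun x => w (ixs P x)

/-- the weights allowed in P1a -/
def Wok (w : Ix → Dg) : Prop :=
  (∀ x, 0 ≤ (w x).1 ∧ 0 ≤ (w x).2) ∧ (∀ x, w x ≠ 0) ∧ (∀ x, (w x).1 ≤ 1) ∧
    (∀ c j, (w (true, c, j)).1 = 0)

/-- the minors of the columns a, c are homogeneous below the level L -/
def Cp (w : Ix → Dg) (a c : Fin 3) (L : ℕ) : Prop :=
  ∀ l, l < L → ∃ μ : Dg, ∀ i j, i + j = l →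
    w (false, a, i) + w (true, c, j) = μ ∧ w (false, c, i) + w (true, a, j) = μ

/-- the ideal K a b is homogeneous -/
def Compat (w : Ix → Dg) (a b : ℕ) : Prop := Cp w 0 1 a ∧ Cp w 0 2 a ∧ Cp w 1 2 b

end Pool.Agent.LibMC34
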