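import Pool.Agent.LibMC34.G1

set_option autoImplicit false

/-! [MC34 G2] (MEDIUM, Mathlib + G1). Homogeneous submodules, syzygies, elementary facts on Good.
 mem_span_fam: Submodule.mem_span_range_iff_exists_fun. hs_syz: cm_comb. Good.hs: cases c. exists_hv_of_mem: take
 coefficients and then their components (cm_comb, cm_same). Good.succ: induction; Good 0 gives Good 1 with J = Empty.
 hs_image: take v in N homogeneous components (hπ, exists_sum_cm): cm of pi v = pi of cm v. -/

namespace Pool.Agent.LibMC34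

open MvPolynomial

variable {σ τ : Type} {K : Type} [CommRing K] {w : σ → Dg} {w' : τ → Dg}

theorem mem_syz {R : Type} [CommRing R] {I J : Type} [Fintype J] {g : J → I → R} {c : J → R} :
    c ∈ syz g ↔ ∑ a, c a • g a = 0 := Iff.rfl

theorem mem_syz' {R : Type} [CommRing R] {I J : Type} [Fintype J] {g : J → I → R} {c : J → R} :
    c ∈ syz g ↔ ∀ i, ∑ a, c a * g a i = 0 := by
  rw [mem_syz]
  constructor
  · intro h i
    have := congrFun h i
    simpa [Finset.sum_apply] using this
  · intro h
    funext i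
    simpa [Finset.sum_apply] using h i

theorem mem_span_fam {R : Type} [CommRing R] {I J : Type} [Fintype J] {g : J → I → R} {v : I → R} :
    v ∈ Submodule.span R (Set.range g) ↔ ∃ c : J → R, ∑ a, c a • g a = v :=
  Submodule.mem_span_range_iff_exists_fun R

theorem mem_idealSub {R : Type} [CommRing R] {N : Ideal R} {v : Unit → R} :
    v ∈ idealSub N ↔ v () ∈ N := Iff.rfl

theorem hs_span {I J : Type} [Fintype J] {deg : I → Dg} {e : J → Dg}
    {g : J → I → MvPolynomial σ K} (hg : ∀ a, HV w deg (g a) (e a)) :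
    HS w deg (Submodule.span (MvPolynomial σ K) (Set.range g)) := by
  intro μ v hv
  obtain ⟨c, rfl⟩ := mem_span_fam.1 hv
  rw [cm_comb hg μ c]
  exact mem_span_fam.2 ⟨_, rfl⟩

theorem hs_syz {I J : Type} [Fintype J] {deg : I → Dg} {e : J → Dg}
    {g : J → I → MvPolynomial σ K} (hg : ∀ a, HV w deg (g a) (e a)) : HS w e (syz g) := by
  intro μ c hc
  rw [mem_syz] at *
  rw [← cm_comb hg μ c, hc, cm_zero]

theorem hs_bot {I : Type} {deg : I → Dg} :
    HS w deg (⊥ : Submodule (MvPolynomial σ K) (I → MvPolynomial σ K)) := by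
  intro μ v hv
  rw [Submodule.mem_bot] at *
  subst hv
  exact cm_zero μ

theorem Good.hs {lo d : ℤ} {c : ℕ} {I : Type} {deg : I → Dg}
    {N : Submodule (MvPolynomial σ K) (I → MvPolynomial σ K)} (h : Good w lo c I deg N d) :
    HS w deg N := by
  cases c with
  | zero =>
    change N = ⊥ at h
    subst h
    exact hs_bot
  | succ c =>
    obtain ⟨J, _, e, g, hg, _, rfl, _⟩ := h
    exact hs_span hg

theorem exists_hv_of_mem {I J : Type} [Fintype J] {deg : I → Dg} {e : J → Dg}
    {g : J → I → MvPolynomial σ K} (hg : ∀ a, HV w deg (g a) (e a)) {μ : Dg}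
    {v : I → MvPolynomial σ K} (hv : HV w deg v μ)
    (h : v ∈ Submodule.span (MvPolynomial σ K) (Set.range g)) :
    ∃ c : J → MvPolynomial σ K, HV w e c μ ∧ ∑ a, c a • g a = v := by
  obtain ⟨c, rfl⟩ := mem_span_fam.1 h
  refine ⟨cm w e μ c, hv_cm μ c, ?_⟩
  rw [← cm_comb hg μ c, cm_same hv]

theorem Good.succ {lo d : ℤ} {c : ℕ} {I : Type} {deg : I → Dg}
    {N : Submodule (MvPolynomial σ K) (I → MvPolynomial σ K)} (h : Good w lo c I deg N d) :
    Good w lo (c + 1) I deg N d := by
  induction c generalizing I d with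
  | zero =>
    change N = ⊥ at h
    subst h
    refine ⟨Empty, inferInstance, fun a => a.elim, fun a => a.elim, fun a => a.elim,
      fun a => a.elim, ?_, ?_⟩
    · simp
    · change syz _ = ⊥
      exact Subsingleton.elim _ _
  | succ c ih =>
    obtain ⟨J, i1, e, g, hg, he, hs, h4⟩ := h
    exact ⟨J, i1, e, g, hg, he, hs, ih h4⟩

theorem Good.of_le {lo d : ℤ} {c c' : ℕ} (hc : c ≤ c') {I : Type} {deg : I → Dg}
    {N : Submodule (MvPolynomial σ K) (I → MvPolynomial σ K)} (h : Good w lo c I deg N d) :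
    Good w lo c' I deg N d := by
  induction hc with
  | refl => exact h
  | step _ ih => exact ih.succ

theorem Good.mono {lo lo' d d' : ℤ} (hlo : lo' ≤ lo) (hd : d ≤ d') {c : ℕ} {I : Type}
    {deg : I → Dg} {N : Submodule (MvPolynomial σ K) (I → MvPolynomial σ K)}
    (h : Good w lo c I deg N d) : Good w lo' c I deg N d' := by
  induction c generalizing I d d' with
  | zero => exact h
  | succ c ih =>
    obtain ⟨J, i1, e, g, hg, he, hs, h4⟩ := h
    exact ⟨J, i1, e, g, hg, fun a => ⟨hlo.trans (he a).1, (he a).2.trans hd⟩, hs,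
      ih (by omega) h4⟩

/-- the image of a homogeneous submodule under a graded surjection is homogeneous -/
theorem hs_image {x : MvPolynomial σ K} (S : GSurj K w w' x) {I : Type} [Finite I] {deg : I → Dg}
    {N : Submodule (MvPolynomial σ K) (I → MvPolynomial σ K)}
    {N' : Submodule (MvPolynomial τ K) (I → MvPolynomial τ K)} (hN : HS w deg N)
    (h : ∀ v', v' ∈ N' ↔ ∃ v ∈ N, (fun i => S.π (v i)) = v') : HS w' deg N' := by
  intro μ v' hv'
  obtain ⟨v, hv, rfl⟩ := (h v').1 hv'
  rw [h]
  refine ⟨cm w deg μ v, hN μ v hv, ?_⟩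
  obtain ⟨s, hs1, hs2⟩ := exists_sum_cm (w := w) (deg := deg) v
  have hhv : ∀ ν, HV w' deg (fun i => S.π (cm w deg ν v i)) ν := by
    intro ν i
    exact S.hπ _ _ (hv_cm ν v i)
  have e1 : (fun i => S.π (v i)) = ∑ ν ∈ s, (fun i => S.π (cm w deg ν v i)) := by
    funext i
    rw [Finset.sum_apply, ← map_sum]
    congr 1
    have := congrFun hs2 i
    rw [Finset.sum_apply] at this
    exact this
  rw [e1, cm_sum]
  by_cases hμ : μ ∈ s
  · rw [Finset.sum_eq_single μ]
    · rw [cm_same (hhv μ)]
    · intro ν _ hν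
      exact cm_ne (Ne.symm hν) (hhv ν)
    · intro h0
      exact absurd hμ h0
  · rw [Finset.sum_eq_zero]
    · funext i
      rw [hs1 μ hμ]
      simp
    · intro ν hν
      refine cm_ne ?_ (hhv ν)
      rintro rfl
      exact hμ hν

/-- an ideal generated by homogeneous elements -/
theorem hs_ideal_span {d : Dg} {G : Set (MvPolynomial σ K)}
    (hG : ∀ f ∈ G, ∃ μ, IsWeightedHomogeneous w f μ) :
    HS w (fun _ : Unit => d) (idealSub (Ideal.span G)) := by
  intro μ v hv
  rw [mem_idealSub] at *
  obtain ⟨n, f, g, hfg⟩ := Submodule.mem_span_set'.1 hv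
  choose ν hν using fun i : Fin n => hG (g i) (g i).2
  have hg : ∀ i : Fin n, HV w (fun _ : Unit => d) (fun _ : Unit => (g i : MvPolynomial σ K))
      (ν i + d) := by
    intro i _
    rw [add_sub_cancel_right]
    exact hν i
  have e1 : v = ∑ i, f i • (fun _ : Unit => (g i : MvPolynomial σ K)) := by
    funext u
    rw [Finset.sum_apply, ← hfg]
    rfl
  rw [e1, cm_comb hg μ f, Finset.sum_apply]
  refine Ideal.sum_mem _ fun i _ => ?_
  exact Ideal.mul_mem_left _ _ (Ideal.subset_span (g i).2)

end Pool.Agent.LibMC34
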