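import Pool.Agent.LibRG7.J1
import Pool.Agent.LibRG7.J2
import Pool.Agent.LibMC34.G2
import Pool.Agent.LibMC34.ADefs

set_option autoImplicit false

/-! [MC34 A1] (MEDIUM, Mathlib + LibRG7 Defs J1). The single shifts sh k (Pt t c) as graded surjections.
 exists_shG: pi = sh, sec = sc (sh_sc). hsec: sc k P = rename (ixs P) (algHom_ext); both preserve homogeneity: check on
 monomials / write f as the sum of its monomials (a homogeneous polynomial is a sum of monomials of weight mu; the image of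
 the monomial m is 0 or the monomial with the same weight). ker: f - sc (sh f) is in kil k (Pt t c) = span (X (t,c,0))
 (sub_sc_sh_mem). reg: MvPolynomial Ix k is a domain.
 sh_comp_*: algHom_ext (case distinctions on Bool, Fin 3, zero / succ index). wsh_comp_*: funext, the same. -/

namespace Pool.Agent.LibMC34

open MvPolynomial
open Pool.Agent.LibRG7 (sh sc Pu P0 P1 Pu12)

variable {k : Type} [Field k]

private theorem A1_hom {σ τ : Type} {K : Type} [CommRing K] {w : σ → Dg} {w' : τ → Dg}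
    (g : σ → MvPolynomial τ K) (hg : ∀ x, IsWeightedHomogeneous w' (g x) (w x))
    (f : MvPolynomial σ K) (μ : Dg) (hf : IsWeightedHomogeneous w f μ) :
    IsWeightedHomogeneous w' (aeval g f) μ := by
  rw [MvPolynomial.aeval_def, MvPolynomial.eval₂_eq]
  refine IsWeightedHomogeneous.sum _ _ _ ?_
  intro m hm
  have hm' : Finsupp.weight w m = μ := hf (MvPolynomial.mem_support_iff.1 hm)
  have h1 : IsWeightedHomogeneous w' (∏ i ∈ m.support, g i ^ m i) (∑ i ∈ m.support, m i • w i) :=
    IsWeightedHomogeneous.prod _ _ _ (fun i _ => (hg i).pow (m i))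
  have h2 : ∑ i ∈ m.support, m i • w i = μ := by
    rw [← hm', Finsupp.weight_apply]
    rfl
  rw [h2] at h1
  exact h1.C_mul _

private theorem A1_sh_X (P : Bool → Fin 3 → Bool) (x : Ix) :
    sh k P (X x) = if P x.1 x.2.1 = true then
      (if x.2.2 = 0 then 0 else X (x.1, x.2.1, x.2.2 - 1)) else X x := by
  unfold sh
  rw [aeval_X]

private theorem A1_sh (P : Bool → Fin 3 → Bool) (w : Ix → Dg) (f : MvPolynomial Ix k) (μ : Dg)
    (hf : IsWeightedHomogeneous w f μ) : IsWeightedHomogeneous (wsh P w) (sh k P f) μ := by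
  unfold sh
  refine A1_hom (w := w) _ ?_ f μ hf
  rintro ⟨t, c, j⟩
  by_cases hP : P t c = true
  · rw [if_pos hP]
    by_cases hj : j = 0
    · rw [if_pos hj]
      exact isWeightedHomogeneous_zero _ _ _
    · rw [if_neg hj]
      have h1 : wsh P w (t, c, j - 1) = w (t, c, j) := by
        unfold wsh ixs
        rw [if_pos hP]
        have : j - 1 + 1 = j := by omega
        simp only [this]
      have h2 := isWeightedHomogeneous_X k (wsh P w) ((t, c, j - 1) : Ix)
      rw [h1] at h2
      exact h2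
  · rw [if_neg hP]
    have h1 : wsh P w (t, c, j) = w (t, c, j) := by
      unfold wsh ixs
      rw [if_neg hP]
    have h2 := isWeightedHomogeneous_X k (wsh P w) ((t, c, j) : Ix)
    rw [h1] at h2
    exact h2

private theorem A1_sc (P : Bool → Fin 3 → Bool) (w : Ix → Dg) (f : MvPolynomial Ix k) (μ : Dg)
    (hf : IsWeightedHomogeneous (wsh P w) f μ) : IsWeightedHomogeneous w (sc k P f) μ := by
  unfold sc
  refine A1_hom (w := wsh P w) _ ?_ f μ hf
  rintro ⟨t, c, j⟩
  by_cases hP : P t c = true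
  · rw [if_pos hP]
    have h1 : wsh P w (t, c, j) = w (t, c, j + 1) := by
      unfold wsh ixs
      rw [if_pos hP]
    have h2 := isWeightedHomogeneous_X k w ((t, c, j + 1) : Ix)
    rw [← h1] at h2
    exact h2
  · rw [if_neg hP]
    have h1 : wsh P w (t, c, j) = w (t, c, j) := by
      unfold wsh ixs
      rw [if_neg hP]
    have h2 := isWeightedHomogeneous_X k w ((t, c, j) : Ix)
    rw [← h1] at h2
    exact h2

theorem exists_shG (k : Type) [Field k] (t : Bool) (c : Fin 3) (w : Ix → Dg) :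
    ∃ G : GSurj k w (wsh (Pt t c) w) (MvPolynomial.X (t, c, 0) : MvPolynomial Ix k),
      ∀ f, G.π f = sh k (Pt t c) f := by
  refine ⟨{ π := ((sh k (Pt t c) : MvPolynomial Ix k →ₐ[k] MvPolynomial Ix k) : MvPolynomial Ix k →+* MvPolynomial Ix k)
            sec := ((sc k (Pt t c) : MvPolynomial Ix k →ₐ[k] MvPolynomial Ix k) : MvPolynomial Ix k →+* MvPolynomial Ix k)
            π_sec := fun f => Pool.Agent.LibRG7.sh_sc (Pt t c) f
            hπ := fun f μ hf => A1_sh (Pt t c) w f μ hf
            hsec := fun f μ hf => A1_sc (Pt t c) w f μ hf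
            π_x := ?_
            ker := ?_
            reg := ?_ }, fun f => rfl⟩
  · change sh k (Pt t c) (X (t, c, 0)) = 0
    rw [A1_sh_X]
    simp [Pt]
  · intro f hf
    have hf' : sh k (Pt t c) f = 0 := hf
    have h1 := Pool.Agent.LibRG7.sub_sc_sh_mem (Pt t c) f
    rw [hf', map_zero, sub_zero] at h1
    have h2 : Pool.Agent.LibRG7.kil k (Pt t c) ≤ Ideal.span {(MvPolynomial.X (t, c, 0) : MvPolynomial Ix k)} := by
      unfold Pool.Agent.LibRG7.kil
      rw [Ideal.span_le]
      rintro x ⟨t', c', hP, rfl⟩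
      simp only [Pt, Bool.and_eq_true, decide_eq_true_eq] at hP
      obtain ⟨rfl, rfl⟩ := hP
      exact Ideal.mem_span_singleton_self _
    exact Ideal.mem_span_singleton'.1 (h2 h1) |>.imp (fun g hg => by rw [← hg, mul_comm])
  · intro f hf
    exact (mul_eq_zero.1 hf).resolve_left (MvPolynomial.X_ne_zero _)

private theorem A1_ext2 (P Q R : Bool → Fin 3 → Bool)
    (h : ∀ x : Ix, sh k P (sh k Q (X x)) = sh k R (X x)) (f : MvPolynomial Ix k) :
    sh k P (sh k Q f) = sh k R f := by
  have h1 : (sh k P).comp (sh k Q) = sh k R := by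
    apply MvPolynomial.algHom_ext
    intro x
    exact h x
  exact congrArg (fun φ => φ f) h1

private theorem A1_ext3 (O P Q R : Bool → Fin 3 → Bool)
    (h : ∀ x : Ix, sh k O (sh k P (sh k Q (X x))) = sh k R (X x)) (f : MvPolynomial Ix k) :
    sh k O (sh k P (sh k Q f)) = sh k R f := by
  have h1 : (sh k O).comp ((sh k P).comp (sh k Q)) = sh k R := by
    apply MvPolynomial.algHom_ext
    intro x
    exact h x
  exact congrArg (fun φ => φ f) h1

theorem sh_comp_Pu (f : MvPolynomial Ix k) :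
    sh k (Pt false 2) (sh k (Pt false 1) (sh k (Pt false 0) f)) = sh k Pu f := by
  apply A1_ext3
  rintro ⟨t, c, j⟩
  cases t <;> fin_cases c <;> cases j <;> simp [A1_sh_X, Pt, Pu]

theorem sh_comp_P0 (f : MvPolynomial Ix k) :
    sh k (Pt true 0) (sh k (Pt false 0) f) = sh k P0 f := by
  apply A1_ext2
  rintro ⟨t, c, j⟩
  cases t <;> fin_cases c <;> cases j <;> simp [A1_sh_X, Pt, P0]

theorem sh_comp_Pu12 (f : MvPolynomial Ix k) :
    sh k (Pt false 2) (sh k (Pt false 1) f) = sh k Pu12 f := by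
  apply A1_ext2
  rintro ⟨t, c, j⟩
  cases t <;> fin_cases c <;> cases j <;> simp [A1_sh_X, Pt, Pu12]

theorem sh_comp_P1 (f : MvPolynomial Ix k) :
    sh k (Pt true 1) (sh k (Pt false 1) f) = sh k P1 f := by
  apply A1_ext2
  rintro ⟨t, c, j⟩
  cases t <;> fin_cases c <;> cases j <;> simp [A1_sh_X, Pt, P1]

theorem wsh_comp_Pu (w : Ix → Dg) :
    wsh (Pt false 2) (wsh (Pt false 1) (wsh (Pt false 0) w)) = wsh Pu w := by
  funext x
  obtain ⟨t, c, j⟩ := x
  cases t <;> fin_cases c <;> simp [wsh, ixs, Pt, Pu]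

theorem wsh_comp_P0 (w : Ix → Dg) : wsh (Pt true 0) (wsh (Pt false 0) w) = wsh P0 w := by
  funext x
  obtain ⟨t, c, j⟩ := x
  cases t <;> fin_cases c <;> simp [wsh, ixs, Pt, P0]

theorem wsh_comp_Pu12 (w : Ix → Dg) :
    wsh (Pt false 2) (wsh (Pt false 1) w) = wsh Pu12 w := by
  funext x
  obtain ⟨t, c, j⟩ := x
  cases t <;> fin_cases c <;> simp [wsh, ixs, Pt, Pu12]

theorem wsh_comp_P1 (w : Ix → Dg) : wsh (Pt true 1) (wsh (Pt false 1) w) = wsh P1 w := by
  funext x
  obtain ⟨t, c, j⟩ := x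
  cases t <;> fin_cases c <;> simp [wsh, ixs, Pt, P1]

end Pool.Agent.LibMC34
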