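import Pool.Agent.LibRG7.J7
import Pool.Agent.LibMC34.A1

set_option autoImplicit false

/-! [MC34 A2] (MEDIUM, Mathlib + LibRG7 J1-J7 + A1). Colon ideals of K1 = image of K (a+1) (b+1) under sh (Pt false 0), in
 the ring S1. sh (Pt false 0) is surjective (section sc), Ideal.mem_map_iff_of_surjective.
 e1 ->: F := sc (Pt false 0) s; sh Pu F = sh sh s in K a b (sh_comp_Pu, sh_sc), comap_u: F in K + (U00, U10, U20); apply
 sh (Pt false 0): s in K1 + (U10, U20) (U00 goes to 0, U10, U20 are fixed); U10 * W00, U20 * W00 are in K1 (images of rel_10,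
 rel_20). <-: apply sh (Pt false 2) o sh (Pt false 1): K1 goes into K a b (K_le_u, sh_comp_Pu), W00 is fixed; K_prime,
 W_not_mem. e2: comap_0, K_le_0, sh_comp_P0. e3: K_prime, U_not_mem. -/

namespace Pool.Agent.LibMC34

open MvPolynomial
open Pool.Agent.LibRG7 (sh sc Pu P0 P1 Pu12 U W)

variable {k : Type} [Field k]

private theorem A2_fix (P : Bool → Fin 3 → Bool) (t : Bool) (c : Fin 3) (i : ℕ) (h : P t c = false) :
    sh k P (X (t, c, i)) = X (t, c, i) := by
  simp [sh, h]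

private theorem A2_zero (P : Bool → Fin 3 → Bool) (t : Bool) (c : Fin 3) (h : P t c = true) :
    sh k P (X (t, c, 0)) = 0 := by
  simp [sh, h]

private theorem A2_surj (P : Bool → Fin 3 → Bool) : Function.Surjective (sh k P) :=
  fun s => ⟨sc k P s, LibRG7.sh_sc P s⟩

private theorem A2_map {P : Bool → Fin 3 → Bool} {I : Ideal (MvPolynomial Ix k)} {x : MvPolynomial Ix k} :
    x ∈ Ideal.map (sh k P) I ↔ ∃ y ∈ I, sh k P y = x :=
  Ideal.mem_map_iff_of_surjective _ (A2_surj P)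

private theorem A2_span {P : Bool → Fin 3 → Bool} {I : Ideal (MvPolynomial Ix k)} {u x : MvPolynomial Ix k}
    (hu : sh k P u = 0) (hx : x ∈ I ⊔ Ideal.span {u}) : sh k P x ∈ Ideal.map (sh k P) I := by
  obtain ⟨y, hy, z, hz, rfl⟩ := Submodule.mem_sup.mp hx
  obtain ⟨a, rfl⟩ := Ideal.mem_span_singleton'.mp hz
  rw [map_add, map_mul, hu, mul_zero, add_zero]
  exact Ideal.mem_map_of_mem _ hy

theorem e1 {a b : ℕ} (hab : a ≤ b) (s : MvPolynomial Ix k) :
    s ∈ Ideal.comap (sh k (Pt false 1)) (Ideal.comap (sh k (Pt false 2)) (LibRG7.K k a b)) ↔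
      s * W k 0 0 ∈ Ideal.map (sh k (Pt false 0)) (LibRG7.K k (a + 1) (b + 1)) := by
  have hU0 : sh k (Pt false 0) (U k 0 0) = 0 := A2_zero _ _ _ rfl
  have hW0 : ∀ c, sh k (Pt false c) (W k 0 0) = W k 0 0 := fun c => A2_fix _ _ _ _ rfl
  have hU1 : sh k (Pt false 0) (U k 1 0) = U k 1 0 := A2_fix _ _ _ _ rfl
  have hU2 : sh k (Pt false 0) (U k 2 0) = U k 2 0 := A2_fix _ _ _ _ rfl
  have h10 : U k 1 0 * W k 0 0 ∈ Ideal.map (sh k (Pt false 0)) (LibRG7.K k (a + 1) (b + 1)) := by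
    have h := A2_span hU0 (LibRG7.rel_10 (k := k) a (b + 1))
    rwa [map_mul, hU1, hW0] at h
  have h20 : U k 2 0 * W k 0 0 ∈ Ideal.map (sh k (Pt false 0)) (LibRG7.K k (a + 1) (b + 1)) := by
    have h := A2_span hU0 (LibRG7.rel_20 (k := k) a (b + 1))
    rwa [map_mul, hU2, hW0] at h
  constructor
  · intro hs
    have hs' : sh k (Pt false 2) (sh k (Pt false 1) s) ∈ LibRG7.K k a b := hs
    set F := sc k (Pt false 0) s with hF
    have hFs : sh k (Pt false 0) F = s := LibRG7.sh_sc _ s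
    have h1 : sh k Pu F ∈ LibRG7.K k a b := by
      rw [← sh_comp_Pu, hFs]
      exact hs'
    obtain ⟨κ, hκ, y, hy, he⟩ := Submodule.mem_sup.mp (LibRG7.comap_u h1)
    obtain ⟨a0, z, hz, rfl⟩ := Ideal.mem_span_insert.mp hy
    obtain ⟨a1, z2, hz2, rfl⟩ := Ideal.mem_span_insert.mp hz
    obtain ⟨a2, rfl⟩ := Ideal.mem_span_singleton'.mp hz2
    rw [← hFs, ← he, map_add, map_add, map_add, map_mul, map_mul, map_mul, hU0, hU1, hU2, mul_zero, zero_add,
      add_mul, add_mul, mul_assoc, mul_assoc]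
    refine add_mem (Ideal.mul_mem_right _ _ (Ideal.mem_map_of_mem _ hκ)) (add_mem ?_ ?_)
    · exact Ideal.mul_mem_left _ _ h10
    · exact Ideal.mul_mem_left _ _ h20
  · intro hs
    obtain ⟨F, hF, hFs⟩ := A2_map.1 hs
    have h1 := LibRG7.K_le_u a b hF
    rw [← sh_comp_Pu, hFs, map_mul, map_mul, hW0, hW0] at h1
    exact ((LibRG7.K_prime _ a b rfl hab).mem_or_mem h1).resolve_right (LibRG7.W_not_mem a b 0 0)

theorem e2 {a b : ℕ} (hab : a ≤ b) :
    Ideal.map (sh k (Pt false 0)) (LibRG7.K k (a + 1) (b + 1)) ⊔ Ideal.span {W k 0 0} =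
      Ideal.comap (sh k (Pt true 0)) (LibRG7.K k a (b + 1)) := by
  apply le_antisymm
  · refine sup_le ?_ ?_
    · intro x hx
      obtain ⟨F, hF, rfl⟩ := A2_map.1 hx
      change sh k (Pt true 0) (sh k (Pt false 0) F) ∈ LibRG7.K k a (b + 1)
      rw [sh_comp_P0]
      exact LibRG7.K_le_0 a (b + 1) hF
    · rw [Ideal.span_le]
      rintro x rfl
      change sh k (Pt true 0) (W k 0 0) ∈ LibRG7.K k a (b + 1)
      have h : sh k (Pt true 0) (W k 0 0) = 0 := A2_zero _ _ _ rfl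
      rw [h]
      exact zero_mem _
  · intro s hs
    have hs' : sh k (Pt true 0) s ∈ LibRG7.K k a (b + 1) := hs
    set F := sc k (Pt false 0) s with hF
    have hFs : sh k (Pt false 0) F = s := LibRG7.sh_sc _ s
    have h1 : sh k P0 F ∈ LibRG7.K k a (b + 1) := by
      rw [← sh_comp_P0, hFs]
      exact hs'
    obtain ⟨κ, hκ, y, hy, he⟩ := Submodule.mem_sup.mp (LibRG7.comap_0 h1)
    obtain ⟨a0, z, hz, rfl⟩ := Ideal.mem_span_insert.mp hy
    obtain ⟨a1, rfl⟩ := Ideal.mem_span_singleton'.mp hz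
    have hU0 : sh k (Pt false 0) (U k 0 0) = 0 := A2_zero _ _ _ rfl
    have hW0 : sh k (Pt false 0) (W k 0 0) = W k 0 0 := A2_fix _ _ _ _ rfl
    rw [← hFs, ← he, map_add, map_add, map_mul, map_mul, hU0, hW0, mul_zero, zero_add]
    exact add_mem (Ideal.mem_sup_left (Ideal.mem_map_of_mem _ hκ))
      (Ideal.mem_sup_right (Ideal.mul_mem_left _ _ (Ideal.subset_span rfl)))

theorem e3 {a b : ℕ} (hab : a ≤ b) (c : Fin 3) {s : MvPolynomial Ix k}
    (h : U k c 0 * s ∈ LibRG7.K k a b) : s ∈ LibRG7.K k a b :=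
  ((LibRG7.K_prime _ a b rfl hab).mem_or_mem h).resolve_left (LibRG7.U_not_mem a b c 0)

end Pool.Agent.LibMC34
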