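import Pool.Agent.LibRG7.J7
import Pool.Agent.LibMC34.A1

set_option autoImplicit false

/-! [MC34 A3] (MEDIUM, Mathlib + LibRG7 J1-J7 + A1). The case a = 0: K1 = image of K 0 (b+1) under sh (Pt false 1).
 f1 ->: F := sc (Pt false 1) s; sh Pu12 F = sh (Pt false 2) s in K 0 b, comap_u12: F in K + (U10, U20); apply
 sh (Pt false 1): s in K1 + (U20); U20 * W10 in K1 (image of rel_21 with a = 0). <-: apply sh (Pt false 2): K_le_u12,
 sh_comp_Pu12, K_prime, W_not_mem. f2: comap_1, K_le_1, sh_comp_P1. -/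

namespace Pool.Agent.LibMC34

open MvPolynomial
open Pool.Agent.LibRG7 (sh sc Pu P0 P1 Pu12 U W)

variable {k : Type} [Field k]

private theorem A3_sU10 : sh k (Pt false 1) (U k 1 0) = 0 := by
  simp [sh, U, Pt]

private theorem A3_sU20 : sh k (Pt false 1) (U k 2 0) = U k 2 0 := by
  simp [sh, U, Pt]

private theorem A3_sW10 : sh k (Pt false 1) (W k 1 0) = W k 1 0 := by
  simp [sh, W, Pt]

private theorem A3_sW10' : sh k (Pt false 2) (W k 1 0) = W k 1 0 := by
  simp [sh, W, Pt]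

private theorem A3_sW10'' : sh k (Pt true 1) (W k 1 0) = 0 := by
  simp [sh, W, Pt]

/-- image of `K + (U10)` -/
private theorem A3_map_one (b : ℕ) {F : MvPolynomial Ix k}
    (h : F ∈ LibRG7.K k 0 (b + 1) ⊔ Ideal.span {U k 1 0}) :
    sh k (Pt false 1) F ∈ Ideal.map (sh k (Pt false 1)) (LibRG7.K k 0 (b + 1)) := by
  have h1 := Ideal.mem_map_of_mem (sh k (Pt false 1)) h
  rw [Ideal.map_sup, Ideal.map_span, Set.image_singleton, A3_sU10,
    Ideal.span_singleton_eq_bot.mpr rfl, sup_bot_eq] at h1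
  exact h1

/-- image of `K + (U10, y)` with `y` fixed -/
private theorem A3_map_two (b : ℕ) {F y : MvPolynomial Ix k} (hy : sh k (Pt false 1) y = y)
    (h : F ∈ LibRG7.K k 0 (b + 1) ⊔ Ideal.span {U k 1 0, y}) :
    sh k (Pt false 1) F ∈ Ideal.map (sh k (Pt false 1)) (LibRG7.K k 0 (b + 1)) ⊔ Ideal.span {y} := by
  have h1 := Ideal.mem_map_of_mem (sh k (Pt false 1)) h
  rw [Ideal.map_sup, Ideal.map_span, Set.image_pair, A3_sU10, hy] at h1
  have h2 : Ideal.span ({0, y} : Set (MvPolynomial Ix k)) = Ideal.span {y} := by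
    rw [Ideal.span_insert, Ideal.span_singleton_eq_bot.mpr rfl, bot_sup_eq]
  rw [h2] at h1
  exact h1

theorem f1 (b : ℕ) (s : MvPolynomial Ix k) :
    s ∈ Ideal.comap (sh k (Pt false 2)) (LibRG7.K k 0 b) ↔
      s * W k 1 0 ∈ Ideal.map (sh k (Pt false 1)) (LibRG7.K k 0 (b + 1)) := by
  constructor
  · intro hs
    have hs' : sh k (Pt false 2) s ∈ LibRG7.K k 0 b := hs
    have h1 : sh k Pu12 (sc k (Pt false 1) s) ∈ LibRG7.K k 0 b := by
      rw [← sh_comp_Pu12, LibRG7.sh_sc]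
      exact hs'
    have h2 := A3_map_two b A3_sU20 (LibRG7.comap_u12 h1)
    rw [LibRG7.sh_sc] at h2
    obtain ⟨x, hx, y, hy, rfl⟩ := Submodule.mem_sup.mp h2
    obtain ⟨r, rfl⟩ := Ideal.mem_span_singleton'.mp hy
    have h3 := A3_map_one b (LibRG7.rel_21 (k := k) 0 b)
    rw [map_mul, A3_sU20, A3_sW10] at h3
    rw [add_mul, mul_assoc]
    exact Ideal.add_mem _ (Ideal.mul_mem_right _ _ hx) (Ideal.mul_mem_left _ _ h3)
  · intro hs
    have hle : Ideal.map (sh k (Pt false 1)) (LibRG7.K k 0 (b + 1)) ≤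
        Ideal.comap (sh k (Pt false 2)) (LibRG7.K k 0 b) := by
      rw [Ideal.map_le_iff_le_comap]
      intro F hF
      rw [Ideal.mem_comap, Ideal.mem_comap, sh_comp_Pu12]
      exact LibRG7.K_le_u12 b hF
    have h1 := hle hs
    rw [Ideal.mem_comap, map_mul, A3_sW10'] at h1
    rcases (LibRG7.K_prime (k := k) _ 0 b rfl (Nat.zero_le b)).mem_or_mem h1 with h2 | h2
    · exact h2
    · exact absurd h2 (LibRG7.W_not_mem 0 b 1 0)

theorem f2 (b : ℕ) :
    Ideal.map (sh k (Pt false 1)) (LibRG7.K k 0 (b + 1)) ⊔ Ideal.span {W k 1 0} =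
      Ideal.comap (sh k (Pt true 1)) (LibRG7.K k 0 b) := by
  apply le_antisymm
  · apply sup_le
    · rw [Ideal.map_le_iff_le_comap]
      intro F hF
      rw [Ideal.mem_comap, Ideal.mem_comap, sh_comp_P1]
      exact LibRG7.K_le_1 b hF
    · rw [Ideal.span_le, Set.singleton_subset_iff]
      change sh k (Pt true 1) (W k 1 0) ∈ LibRG7.K k 0 b
      rw [A3_sW10'']
      exact Ideal.zero_mem _
  · intro s hs
    have hs' : sh k (Pt true 1) s ∈ LibRG7.K k 0 b := hs
    have h1 : sh k P1 (sc k (Pt false 1) s) ∈ LibRG7.K k 0 b := by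
      rw [← sh_comp_P1, LibRG7.sh_sc]
      exact hs'
    have h2 := A3_map_two b A3_sW10 (LibRG7.comap_1 h1)
    rw [LibRG7.sh_sc] at h2
    exact h2

end Pool.Agent.LibMC34
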