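import Pool.Agent.LibRG7.J2
import Pool.Agent.LibMC34.G2
import Pool.Agent.LibMC34.ADefs

set_option autoImplicit false

/-! [MC34 A4] (MEDIUM, Mathlib + G2 + LibRG7 Defs). Weights. hs_K: the generators mn a' c' l (l below the level) of K are
 weighted homogeneous (Cp: every monomial has the same weight), hs_ideal_span. Compat is stable: index bookkeeping. -/

namespace Pool.Agent.LibMC34

open MvPolynomial
open Pool.Agent.LibRG7 (sh sc Pu P0 P1 Pu12)

variable {k : Type} [Field k]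

private theorem A4_mn {w : Ix → Dg} {a c : Fin 3} {L l : ℕ} (h : Cp w a c L) (hl : l < L) :
    ∃ μ, IsWeightedHomogeneous w (LibRG7.mn k a c l) μ := by
  obtain ⟨μ, hμ⟩ := h l hl
  refine ⟨μ, ?_⟩
  unfold LibRG7.mn
  apply IsWeightedHomogeneous.sum
  intro p hp
  rw [Finset.HasAntidiagonal.mem_antidiagonal] at hp
  obtain ⟨h1, h2⟩ := hμ p.1 p.2 hp
  apply IsWeightedHomogeneous.sub
  · rw [← h1]
    exact (isWeightedHomogeneous_X k w _).mul (isWeightedHomogeneous_X k w _)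
  · rw [← h2]
    exact (isWeightedHomogeneous_X k w _).mul (isWeightedHomogeneous_X k w _)

theorem hs_K (k : Type) [Field k] {w : Ix → Dg} {a b : ℕ} (hc : Compat w a b) (δ : Dg) :
    HS w (fun _ : Unit => δ) (idealSub (LibRG7.K k a b)) := by
  unfold LibRG7.K
  apply hs_ideal_span
  rintro f ((⟨l, hl, rfl⟩ | ⟨l, hl, rfl⟩) | ⟨l, hl, rfl⟩)
  · exact A4_mn hc.1 hl
  · exact A4_mn hc.2.1 hl
  · exact A4_mn hc.2.2 hl

theorem Wok.wsh {w : Ix → Dg} (hw : Wok w) (P : Bool → Fin 3 → Bool) : Wok (wsh P w) := by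
  obtain ⟨h1, h2, h3, h4⟩ := hw
  refine ⟨fun x => h1 _, fun x => h2 _, fun x => h3 _, fun c j => ?_⟩
  unfold LibMC34.wsh ixs
  by_cases h : P (true, c, j).1 (true, c, j).2.1 = true
  · rw [if_pos h]; exact h4 c (j + 1)
  · rw [if_neg h]; exact h4 c j

theorem compat_Pu {w : Ix → Dg} {a b : ℕ} (h : Compat w (a + 1) (b + 1)) :
    Compat (wsh Pu w) a b := by
  obtain ⟨h1, h2, h3⟩ := h
  refine ⟨?_, ?_, ?_⟩
  · intro l hl
    obtain ⟨μ, hμ⟩ := h1 (l + 1) (by omega)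
    refine ⟨μ, fun i j hij => ?_⟩
    have := hμ (i + 1) j (by omega)
    simpa [wsh, ixs, Pu] using this
  · intro l hl
    obtain ⟨μ, hμ⟩ := h2 (l + 1) (by omega)
    refine ⟨μ, fun i j hij => ?_⟩
    have := hμ (i + 1) j (by omega)
    simpa [wsh, ixs, Pu] using this
  · intro l hl
    obtain ⟨μ, hμ⟩ := h3 (l + 1) (by omega)
    refine ⟨μ, fun i j hij => ?_⟩
    have := hμ (i + 1) j (by omega)
    simpa [wsh, ixs, Pu] using this

theorem compat_P0 {w : Ix → Dg} {a b : ℕ} (h : Compat w (a + 1) (b + 1)) :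
    Compat (wsh P0 w) a (b + 1) := by
  obtain ⟨h1, h2, h3⟩ := h
  refine ⟨?_, ?_, ?_⟩
  · intro l hl
    obtain ⟨μ, hμ⟩ := h1 (l + 1) (by omega)
    refine ⟨μ, fun i j hij => ?_⟩
    have e1 := (hμ (i + 1) j (by omega)).1
    have e2 := (hμ i (j + 1) (by omega)).2
    constructor
    · simpa [wsh, ixs, P0] using e1
    · simpa [wsh, ixs, P0] using e2
  · intro l hl
    obtain ⟨μ, hμ⟩ := h2 (l + 1) (by omega)
    refine ⟨μ, fun i j hij => ?_⟩
    have e1 := (hμ (i + 1) j (by omega)).1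
    have e2 := (hμ i (j + 1) (by omega)).2
    constructor
    · simpa [wsh, ixs, P0] using e1
    · simpa [wsh, ixs, P0] using e2
  · intro l hl
    obtain ⟨μ, hμ⟩ := h3 l (by omega)
    refine ⟨μ, fun i j hij => ?_⟩
    have := hμ i j hij
    simpa [wsh, ixs, P0] using this

theorem compat_Pu12 {w : Ix → Dg} {b : ℕ} (h : Compat w 0 (b + 1)) :
    Compat (wsh Pu12 w) 0 b := by
  obtain ⟨h1, h2, h3⟩ := h
  refine ⟨fun l hl => absurd hl (by omega), fun l hl => absurd hl (by omega), ?_⟩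
  intro l hl
  obtain ⟨μ, hμ⟩ := h3 (l + 1) (by omega)
  refine ⟨μ, fun i j hij => ?_⟩
  have := hμ (i + 1) j (by omega)
  simpa [wsh, ixs, Pu12] using this

theorem compat_P1 {w : Ix → Dg} {b : ℕ} (h : Compat w 0 (b + 1)) :
    Compat (wsh P1 w) 0 b := by
  obtain ⟨h1, h2, h3⟩ := h
  refine ⟨fun l hl => absurd hl (by omega), fun l hl => absurd hl (by omega), ?_⟩
  intro l hl
  obtain ⟨μ, hμ⟩ := h3 (l + 1) (by omega)
  refine ⟨μ, fun i j hij => ?_⟩
  have e1 := (hμ (i + 1) j (by omega)).1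
  have e2 := (hμ i (j + 1) (by omega)).2
  constructor
  · simpa [wsh, ixs, P1] using e1
  · simpa [wsh, ixs, P1] using e2

end Pool.Agent.LibMC34
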