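import Pool.Agent.LibMC34.G5a

set_option autoImplicit false

/-! [MC34 G5b] (MEDIUM, Mathlib + G2, G3, G5a). ELIMINATION of a block: induction on the finite type A
 (Finite.induction_empty_option, or induction on Nat.card), graph1 for the reindexing along Option a + I = Option (a + I)
 and along A = A' (iota an equivalence: h1, h2 are trivial). -/

namespace Pool.Agent.LibMC34

open MvPolynomial

variable {σ : Type} {K : Type} [Field K] {w : σ → Dg}

private theorem G5b_mem {R : Type} [CommRing R] {X Y : Type} {ι : X → Y} (hι : Function.Surjective ι)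
    (N : Submodule R (Y → R)) (z : Y → R) :
    (fun a => z (ι a)) ∈ N.map (LinearMap.funLeft R R ι) ↔ z ∈ N := by
  rw [Submodule.mem_map]
  constructor
  · rintro ⟨z', hz', e⟩
    have h : z' = z := by
      funext y
      obtain ⟨x, rfl⟩ := hι y
      exact congrFun e x
    rw [← h]
    exact hz'
  · intro hz
    exact ⟨z, hz, rfl⟩

private theorem G5b_reindex {lo d : ℤ} {c : ℕ} {X Y : Type} {ι : X → Y} (hι : Function.Surjective ι)
    {deg : Y → Dg} {N : Submodule (MvPolynomial σ K) (Y → MvPolynomial σ K)}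
    (h : Good w lo c Y deg N d) :
    Good w lo c X (fun a => deg (ι a))
      (N.map (LinearMap.funLeft (MvPolynomial σ K) (MvPolynomial σ K) ι)) d := by
  refine graph1 ι (Z := N) ?_ ?_ h
  · intro y
    rw [Submodule.mem_map]
    exact Iff.rfl
  · intro z _ hz
    funext y
    obtain ⟨x, rfl⟩ := hι y
    exact hz x

/-- the statement without decidability -/
private def G5b_P (w : σ → Dg) (K : Type) [Field K] (A : Type) : Prop :=
  ∀ (lo d : ℤ) (c : ℕ) (I : Type) (dA : A → Dg) (dI : I → Dg)
    (N : Submodule (MvPolynomial σ K) (A ⊕ I → MvPolynomial σ K))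
    (N1 : Submodule (MvPolynomial σ K) (I → MvPolynomial σ K)),
    (∀ x : I → MvPolynomial σ K, x ∈ N1 ↔ Sum.elim (0 : A → MvPolynomial σ K) x ∈ N) →
    (∀ a : A, ∃ (e : A → MvPolynomial σ K) (v : I → MvPolynomial σ K), e a = 1 ∧ (∀ b, b ≠ a → e b = 0) ∧
      Sum.elim e v ∈ N) →
    Good w lo c (A ⊕ I) (Sum.elim dA dI) N d → Good w lo c I dI N1 d

private theorem G5b_equiv {A B : Type} (e : A ≃ B) (hP : G5b_P w K A) : G5b_P w K B := by
  intro lo d c I dB dI N N1 h1 hv h
  have hι : Function.Surjective (Sum.map e id : A ⊕ I → B ⊕ I) := by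
    rintro (b | i)
    · exact ⟨Sum.inl (e.symm b), by rw [Sum.map_inl, Equiv.apply_symm_apply]⟩
    · exact ⟨Sum.inr i, rfl⟩
  have h2 := G5b_reindex hι h
  have hd : (fun a => Sum.elim dB dI ((Sum.map e id : A ⊕ I → B ⊕ I) a)) = Sum.elim (fun a => dB (e a)) dI := by
    funext a
    rcases a with a | i <;> rfl
  rw [hd] at h2
  refine hP lo d c I (fun a => dB (e a)) dI _ N1 ?_ ?_ h2
  · intro x
    rw [h1 x, ← G5b_mem hι N]
    have h3 : (fun a => Sum.elim (0 : B → MvPolynomial σ K) x ((Sum.map e id : A ⊕ I → B ⊕ I) a)) =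
        Sum.elim (0 : A → MvPolynomial σ K) x := by
      funext a
      rcases a with a | i <;> rfl
    rw [h3]
  · intro a
    obtain ⟨e', v, h4, h5, h6⟩ := hv (e a)
    refine ⟨fun b => e' (e b), v, h4, fun b hb => h5 _ fun h7 => hb (e.injective h7), ?_⟩
    rw [← G5b_mem hι N] at h6
    have h3 : (fun a => Sum.elim e' v ((Sum.map e id : A ⊕ I → B ⊕ I) a)) = Sum.elim (fun b => e' (e b)) v := by
      funext a
      rcases a with a | i <;> rfl
    rw [h3] at h6
    exact h6

private theorem G5b_empty : G5b_P w K PEmpty.{1} := by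
  intro lo d c I dA dI N N1 h1 _ h
  have h2 : ∀ z : PEmpty.{1} ⊕ I → MvPolynomial σ K, Sum.elim (0 : PEmpty.{1} → MvPolynomial σ K) (fun i => z (Sum.inr i)) = z := by
    intro z
    funext a
    rcases a with a | i
    · exact a.elim
    · rfl
  refine graph1 (Sum.inr : I → PEmpty.{1} ⊕ I) (Z := N) (deg := Sum.elim dA dI) ?_ ?_ h
  · intro y
    rw [h1 y]
    constructor
    · intro hy
      exact ⟨_, hy, rfl⟩
    · rintro ⟨z, hz, rfl⟩
      rw [h2]
      exact hz
  · intro z _ hz
    funext a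
    rcases a with a | i
    · exact a.elim
    · exact hz i

/-- the reindexing of `Option A ⊕ I` -/
private def G5b_io {A I : Type} : Option (A ⊕ I) → Option A ⊕ I
  | none => Sum.inl none
  | some (Sum.inl a) => Sum.inl (some a)
  | some (Sum.inr i) => Sum.inr i

private theorem G5b_io_surj {A I : Type} : Function.Surjective (G5b_io : Option (A ⊕ I) → Option A ⊕ I) := by
  rintro ((_ | a) | i)
  · exact ⟨none, rfl⟩
  · exact ⟨some (Sum.inl a), rfl⟩
  · exact ⟨some (Sum.inr i), rfl⟩

/-- extension by zero at `none` -/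
private def G5b_ext (R : Type) [CommRing R] (X : Type) : (X → R) →ₗ[R] (Option X → R) where
  toFun x := fun o => o.elim 0 x
  map_add' := by
    intro x y
    funext o
    rcases o with _ | o
    · exact (add_zero 0).symm
    · rfl
  map_smul' := by
    intro r x
    funext o
    rcases o with _ | o
    · exact (mul_zero r).symm
    · rfl

private theorem G5b_option (hw : ∀ x, 0 ≤ (w x).1 ∧ 0 ≤ (w x).2) (hw0 : ∀ x, w x ≠ 0) {A : Type}
    (hP : G5b_P w K A) : G5b_P w K (Option A) := by
  intro lo d c I dA dI N N1 h1 hv h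
  have h2 := G5b_reindex (G5b_io_surj (A := A) (I := I)) h
  have hd : (fun a => Sum.elim dA dI ((G5b_io : Option (A ⊕ I) → Option A ⊕ I) a)) =
      fun o : Option (A ⊕ I) => o.elim (dA none) (Sum.elim (fun a => dA (some a)) dI) := by
    funext a
    rcases a with _ | a | i <;> rfl
  rw [hd] at h2
  obtain ⟨e0, v0, h3, h4, h5⟩ := hv none
  have h6 : (fun o : Option (A ⊕ I) => o.elim 1 (Sum.elim (0 : A → MvPolynomial σ K) v0)) ∈
      N.map (LinearMap.funLeft (MvPolynomial σ K) (MvPolynomial σ K) (G5b_io : Option (A ⊕ I) → Option A ⊕ I)) := by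
    rw [← G5b_mem G5b_io_surj N] at h5
    have h7 : (fun a => Sum.elim e0 v0 ((G5b_io : Option (A ⊕ I) → Option A ⊕ I) a)) =
        fun o : Option (A ⊕ I) => o.elim 1 (Sum.elim (0 : A → MvPolynomial σ K) v0) := by
      funext a
      rcases a with _ | a | i
      · exact h3
      · exact h4 (some a) (by simp)
      · rfl
    rw [h7] at h5
    exact h5
  have h8 := elimOpt (N1 := (N.map (LinearMap.funLeft (MvPolynomial σ K) (MvPolynomial σ K)
    (G5b_io : Option (A ⊕ I) → Option A ⊕ I))).comap (G5b_ext (MvPolynomial σ K) (A ⊕ I)))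
    hw hw0 (fun x => Iff.rfl) _ h6 h2
  refine hP lo d c I (fun a => dA (some a)) dI _ N1 ?_ ?_ h8
  · intro x
    rw [h1 x, ← G5b_mem G5b_io_surj N, Submodule.mem_comap]
    have h7 : (fun a => Sum.elim (0 : Option A → MvPolynomial σ K) x ((G5b_io : Option (A ⊕ I) → Option A ⊕ I) a)) =
        G5b_ext (MvPolynomial σ K) (A ⊕ I) (Sum.elim (0 : A → MvPolynomial σ K) x) := by
      funext a
      rcases a with _ | a | i <;> rfl
    rw [h7]
  · intro a
    obtain ⟨e, v, h9, h10, h11⟩ := hv (some a)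
    refine ⟨fun b => e (some b), v, h9, fun b hb => h10 _ fun h12 => hb (Option.some.inj h12), ?_⟩
    rw [Submodule.mem_comap]
    rw [← G5b_mem G5b_io_surj N] at h11
    have h7 : (fun a => Sum.elim e v ((G5b_io : Option (A ⊕ I) → Option A ⊕ I) a)) =
        G5b_ext (MvPolynomial σ K) (A ⊕ I) (Sum.elim (fun b => e (some b)) v) := by
      funext a'
      rcases a' with _ | a' | i
      · exact h10 none (by simp)
      · rfl
      · rfl
    rw [h7] at h11
    exact h11

theorem elimBlock (hw : ∀ x, 0 ≤ (w x).1 ∧ 0 ≤ (w x).2) (hw0 : ∀ x, w x ≠ 0) (A : Type) [Finite A]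
    [DecidableEq A] {lo d : ℤ} {c : ℕ} {I : Type} {dA : A → Dg} {dI : I → Dg}
    {N : Submodule (MvPolynomial σ K) (A ⊕ I → MvPolynomial σ K)}
    {N1 : Submodule (MvPolynomial σ K) (I → MvPolynomial σ K)}
    (h1 : ∀ x : I → MvPolynomial σ K, x ∈ N1 ↔ Sum.elim (0 : A → MvPolynomial σ K) x ∈ N)
    (hv : ∀ a : A, ∃ v : I → MvPolynomial σ K,
      Sum.elim (Pi.single a 1 : A → MvPolynomial σ K) v ∈ N)
    (h : Good w lo c (A ⊕ I) (Sum.elim dA dI) N d) : Good w lo c I dI N1 d := by
  have hP : G5b_P w K A := by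
    refine Finite.induction_empty_option (P := fun A => G5b_P w K A) ?_ ?_ ?_ A
    · intro α β e hα
      exact G5b_equiv e hα
    · exact G5b_empty
    · intro α _ hα
      exact G5b_option hw hw0 hα
  refine hP lo d c I dA dI N N1 h1 (fun a => ?_) h
  obtain ⟨v, hv⟩ := hv a
  exact ⟨Pi.single a 1, v, Pi.single_eq_same a 1, fun b hb => Pi.single_eq_of_ne hb 1, hv⟩

end Pool.Agent.LibMC34
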