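import Pool.Agent.LibMC34.G4
import Pool.Agent.LibMC34.G5b

set_option autoImplicit false

/-! [MC34 G10] Cyclic modules: 0 -> R/b (shift g) -f-> R/a -> R/(a + (f)) -> 0. -/

namespace Pool.Agent.LibMC34

open MvPolynomial

variable {σ : Type} {K : Type} [Field K] {w : σ → Dg}

private def G10_N {R : Type} [CommRing R] (a : Ideal R) (f : R) (p q : Unit ⊕ Unit) :
    Submodule R (Unit ⊕ Unit → R) where
  carrier := {z | z p + z q * f ∈ a}
  add_mem' := by
    intro x y hx hy
    change (x p + y p) + (x q + y q) * f ∈ a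
    have h := a.add_mem hx hy
    have e : (x p + y p) + (x q + y q) * f = (x p + x q * f) + (y p + y q * f) := by ring
    rw [e]
    exact h
  zero_mem' := by
    change (0 : R) + 0 * f ∈ a
    rw [zero_mul, zero_add]
    exact a.zero_mem
  smul_mem' := by
    intro r x hx
    change r * x p + (r * x q) * f ∈ a
    have h := a.mul_mem_left r hx
    have e : r * x p + (r * x q) * f = r * (x p + x q * f) := by ring
    rw [e]
    exact h

private theorem G10_mem {R : Type} [CommRing R] {a : Ideal R} {f : R} {p q : Unit ⊕ Unit}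
    {z : Unit ⊕ Unit → R} : z ∈ G10_N a f p q ↔ z p + z q * f ∈ a := Iff.rfl

theorem cyc (hw : ∀ x, 0 ≤ (w x).1 ∧ 0 ≤ (w x).2) (hw0 : ∀ x, w x ≠ 0) {lo d : ℤ} {c : ℕ}
    {δ g : Dg} {a b : Ideal (MvPolynomial σ K)} {f : MvPolynomial σ K}
    (hf : IsWeightedHomogeneous w f g) (ha : HS w (fun _ : Unit => δ) (idealSub a))
    (hb : ∀ s, s ∈ b ↔ s * f ∈ a)
    (rb : Good w lo c Unit (fun _ => δ + g) (idealSub b) d)
    (rc : Good w lo c Unit (fun _ => δ) (idealSub (a ⊔ Ideal.span {f})) d) :
    Good w lo c Unit (fun _ => δ) (idealSub a) d := by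
  have hs : HS w (Sum.elim (fun _ : Unit => δ) (fun _ : Unit => δ + g))
      (G10_N a f (Sum.inl ()) (Sum.inr ())) := by
    intro μ z hz
    rw [G10_mem] at hz ⊢
    have h1 : (fun _ : Unit => z (Sum.inl ()) + z (Sum.inr ()) * f) ∈ idealSub a :=
      mem_idealSub.2 hz
    have h2 := mem_idealSub.1 (ha μ _ h1)
    have h3 : (fun _ : Unit => z (Sum.inl ()) + z (Sum.inr ()) * f) =
        (fun _ : Unit => z (Sum.inl ())) + f • (fun _ : Unit => z (Sum.inr ())) := by
      funext _
      change z (Sum.inl ()) + z (Sum.inr ()) * f = z (Sum.inl ()) + f * z (Sum.inr ())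
      rw [mul_comm f]
    have h4 : cm w (fun _ : Unit => δ) μ (f • (fun _ : Unit => z (Sum.inr ()))) =
        f • cm w (fun _ : Unit => δ) (μ - g) (fun _ : Unit => z (Sum.inr ())) := by
      have h5 := cm_smul_left (deg := fun _ : Unit => δ) hf (μ - g) (fun _ : Unit => z (Sum.inr ()))
      have h6 : g + (μ - g) = μ := by abel
      rw [h6] at h5
      exact h5
    rw [h3, cm_add, h4] at h2
    have h7 : μ - (δ + g) = μ - g - δ := by abel
    change weightedHomogeneousComponent w (μ - δ) (z (Sum.inl ())) +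
      weightedHomogeneousComponent w (μ - (δ + g)) (z (Sum.inr ())) * f ∈ a
    change weightedHomogeneousComponent w (μ - δ) (z (Sum.inl ())) +
      f * weightedHomogeneousComponent w (μ - g - δ) (z (Sum.inr ())) ∈ a at h2
    rw [h7, mul_comm _ f]
    exact h2
  have h1 := horseshoe c lo d Unit Unit (fun _ => δ) (fun _ => δ + g)
    (G10_N a f (Sum.inl ()) (Sum.inr ())) (idealSub b) (idealSub (a ⊔ Ideal.span {f})) hs
    (fun x => by
      rw [mem_idealSub, G10_mem, hb]
      change x () * f ∈ a ↔ (0 : MvPolynomial σ K) + x () * f ∈ a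
      rw [zero_add])
    (fun y => by
      rw [mem_idealSub, Submodule.mem_sup]
      constructor
      · rintro ⟨u, hu, v, hv, huv⟩
        obtain ⟨r, hr⟩ := Ideal.mem_span_singleton'.1 hv
        refine ⟨fun _ => -r, ?_⟩
        rw [G10_mem]
        change y () + -r * f ∈ a
        have e : y () + -r * f = u := by
          rw [← huv, ← hr]
          ring
        rw [e]
        exact hu
      · rintro ⟨x, hx⟩
        rw [G10_mem] at hx
        change y () + x () * f ∈ a at hx
        refine ⟨_, hx, -x () * f, Ideal.mem_span_singleton'.2 ⟨-x (), rfl⟩, ?_⟩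
        ring) rb rc
  have h2 := graph1 (ι := (Sum.swap : Unit ⊕ Unit → Unit ⊕ Unit))
    (Z' := G10_N a f (Sum.inr ()) (Sum.inl ()))
    (fun y => by
      constructor
      · intro hy
        rw [G10_mem] at hy
        refine ⟨fun t => y (Sum.swap t), ?_, funext fun t => by
        change y (Sum.swap (Sum.swap t)) = y t
        rw [Sum.swap_swap]⟩
        rw [G10_mem]
        exact hy
      · rintro ⟨z, hz, rfl⟩
        rw [G10_mem] at hz ⊢
        exact hz)
    (fun z _ hz => by
      funext t
      have := hz (Sum.swap t)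
      rw [Sum.swap_swap] at this
      exact this) h1
  have h3 : (fun t : Unit ⊕ Unit => (Sum.elim (fun _ : Unit => δ) (fun _ : Unit => δ + g))
      (Sum.swap t)) = Sum.elim (fun _ : Unit => δ + g) (fun _ : Unit => δ) := by
    funext t
    rcases t with t | t <;> rfl
  rw [h3] at h2
  refine elimBlock hw hw0 Unit (fun x => ?_) (fun t => ?_) h2
  · rw [mem_idealSub, G10_mem]
    change x () ∈ a ↔ x () + (0 : MvPolynomial σ K) * f ∈ a
    rw [zero_mul, add_zero]
  · refine ⟨fun _ => -f, ?_⟩
    rw [G10_mem]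
    change -f + (Pi.single t (1 : MvPolynomial σ K) : Unit → MvPolynomial σ K) () * f ∈ a
    have e : (Pi.single t (1 : MvPolynomial σ K) : Unit → MvPolynomial σ K) () = 1 := by
      cases t
      exact Pi.single_eq_same _ _
    rw [e, one_mul, neg_add_cancel]
    exact a.zero_mem

end Pool.Agent.LibMC34
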