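import Pool.Agent.LibMC34.G7a

set_option autoImplicit false

/-! [MC34 G7b] (MEDIUM, Mathlib + G1, G2, G7a). LIFT. Induction on c. c = 0: N' = bot, so every v in N is x u, u in N
 (hreg); nak with M = bot (take components: x v homogeneous of degree mu, v replaced by cm w deg (mu - wx) v,
 cm_smul_left and reg). c + 1: (J,e,g') for N'; for a choose v in N with pi v = g' a and replace it by its component of
 degree e a (pi_cm, cm_same): g a in N, homogeneous of degree e a, pi (g a) = g' a. nak: N = span g (z in N homogeneous: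
 pi z = sum c'_a g'_a with c' homogeneous (exists_hv_of_mem), z - sum sec(c'_a) g_a = x v, v in N by hreg).
 syz g and syz g' satisfy the hypotheses again: hs_syz; x c in syz g => c in syz g (reg); c' in syz g' iff some c in syz g
 maps to c' (c := sec c', sum c_a g_a = x v with v in N = span g, v = sum b_a g_a, c - x b in syz g). -/

namespace Pool.Agent.LibMC34

open MvPolynomial

variable {σ τ : Type} {K : Type} [CommRing K] {w : σ → Dg} {w' : τ → Dg}

private theorem pi_comb {x : MvPolynomial σ K} (S : GSurj K w w' x) {I J : Type} [Fintype J]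
    (c : J → MvPolynomial σ K) (g : J → I → MvPolynomial σ K) :
    (fun i => S.π ((∑ a, c a • g a) i)) = ∑ a, S.π (c a) • (fun i => S.π (g a i)) := by
  funext i
  simp [Finset.sum_apply, map_sum, map_mul]

private theorem ker_vec {x : MvPolynomial σ K} (S : GSurj K w w' x) {I : Type}
    {N : Submodule (MvPolynomial σ K) (I → MvPolynomial σ K)}
    (hsat : ∀ v : I → MvPolynomial σ K, x • v ∈ N → v ∈ N) {z : I → MvPolynomial σ K} (hz : z ∈ N)
    (h0 : ∀ i, S.π (z i) = 0) : ∃ v ∈ N, z = x • v := by
  choose v hv using fun i => S.ker (z i) (h0 i)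
  have h1 : z = x • v := by
    funext i
    rw [Pi.smul_apply, smul_eq_mul]
    exact hv i
  exact ⟨v, hsat v (h1 ▸ hz), h1⟩

private theorem ker_hom {x : MvPolynomial σ K} (S : GSurj K w w' x) {wx : Dg}
    (hx : IsWeightedHomogeneous w x wx) {I : Type} {deg : I → Dg}
    {N : Submodule (MvPolynomial σ K) (I → MvPolynomial σ K)} (hN : HS w deg N)
    (hsat : ∀ v : I → MvPolynomial σ K, x • v ∈ N → v ∈ N) {z : I → MvPolynomial σ K} (hz : z ∈ N)
    {μ : Dg} (hzμ : HV w deg z μ) (h0 : ∀ i, S.π (z i) = 0) :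
    ∃ v ∈ N, HV w deg v (μ - wx) ∧ z = x • v := by
  obtain ⟨v, hv, h1⟩ := ker_vec S hsat hz h0
  refine ⟨cm w deg (μ - wx) v, hN _ _ hv, hv_cm _ _, ?_⟩
  rw [← cm_smul_left hx, ← h1, add_sub_cancel, cm_same hzμ]

theorem lift (hw : ∀ y, 0 ≤ (w y).1 ∧ 0 ≤ (w y).2) {x : MvPolynomial σ K} (S : GSurj K w w' x)
    {wx : Dg} (hx : IsWeightedHomogeneous w x wx) (hx0 : 0 < wx.1 + wx.2) (c : ℕ) :
    ∀ (lo d : ℤ) (I : Type) [Finite I] (deg : I → Dg)
      (N : Submodule (MvPolynomial σ K) (I → MvPolynomial σ K))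
      (N' : Submodule (MvPolynomial τ K) (I → MvPolynomial τ K)),
    HS w deg N → (∀ v : I → MvPolynomial σ K, x • v ∈ N → v ∈ N) →
    (∀ v', v' ∈ N' ↔ ∃ v ∈ N, (fun i => S.π (v i)) = v') →
    Good w' lo c I deg N' d → Good w lo c I deg N d := by
  induction c with
  | zero =>
    intro lo d I _ deg N N' hN hsat hNN' hG
    change N' = ⊥ at hG
    change N = ⊥
    rw [eq_bot_iff]
    refine nak hw hN x hx0 ?_
    intro μ z hz hzμ
    have h0 : ∀ i, S.π (z i) = 0 := by
      have h1 : (fun i => S.π (z i)) ∈ N' := (hNN' _).mpr ⟨z, hz, rfl⟩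
      rw [hG, Submodule.mem_bot] at h1
      intro i
      exact congrFun h1 i
    obtain ⟨v, hv, hvμ, h1⟩ := ker_hom S hx hN hsat hz hzμ h0
    exact ⟨0, Submodule.zero_mem _, v, hv, hvμ, by rw [zero_add]; exact h1⟩
  | succ c ih =>
    intro lo d I _ deg N N' hN hsat hNN' hG
    obtain ⟨J, fJ, e, g', hg', he, hspan', hgood⟩ := hG
    have hlift : ∀ a : J, ∃ v ∈ N, HV w deg v (e a) ∧ (fun i => S.π (v i)) = g' a := by
      intro a
      have h1 : g' a ∈ N' := by
        rw [← hspan']
        exact Submodule.subset_span ⟨a, rfl⟩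
      obtain ⟨v, hv, hvπ⟩ := (hNN' _).mp h1
      refine ⟨cm w deg (e a) v, hN _ _ hv, hv_cm _ _, ?_⟩
      rw [← pi_cm S deg (e a) v, hvπ, cm_same (hg' a)]
    choose g hgN hgHV hgπ using hlift
    have hcomb : ∀ c : J → MvPolynomial σ K, ∑ a, c a • g a ∈ N := fun c =>
      Submodule.sum_mem _ fun a _ => Submodule.smul_mem _ _ (hgN a)
    have hspan : Submodule.span (MvPolynomial σ K) (Set.range g) = N := by
      apply le_antisymm
      · rw [Submodule.span_le]
        rintro _ ⟨a, rfl⟩
        exact hgN a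
      · refine nak hw hN x hx0 ?_
        intro μ z hz hzμ
        have h1 : (fun i => S.π (z i)) ∈ Submodule.span (MvPolynomial τ K) (Set.range g') := by
          rw [hspan']
          exact (hNN' _).mpr ⟨z, hz, rfl⟩
        have h2 : HV w' deg (fun i => S.π (z i)) μ := fun i => S.hπ _ _ (hzμ i)
        obtain ⟨c', hc', hcs⟩ := exists_hv_of_mem hg' h2 h1
        have h3 : HV w e (fun a => S.sec (c' a)) μ := fun a => S.hsec _ _ (hc' a)
        have h4 : HV w deg (z - ∑ a, S.sec (c' a) • g a) μ := HV.sub hzμ (hv_comb hgHV h3)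
        have h5 : z - ∑ a, S.sec (c' a) • g a ∈ N := Submodule.sub_mem _ hz (hcomb _)
        have h6 : ∀ i, S.π ((z - ∑ a, S.sec (c' a) • g a) i) = 0 := by
          intro i
          have h7 := congrFun (pi_comb S (fun a => S.sec (c' a)) g) i
          rw [Pi.sub_apply, map_sub, h7]
          have h8 : (∑ a, S.π (S.sec (c' a)) • (fun i => S.π (g a i))) =
              fun i => S.π (z i) := by
            rw [← hcs]
            exact Finset.sum_congr rfl fun a _ => by rw [S.π_sec, hgπ]
          rw [h8, sub_self]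
        obtain ⟨v, hv, hvμ, h7⟩ := ker_hom S hx hN hsat h5 h4 h6
        refine ⟨∑ a, S.sec (c' a) • g a, ?_, v, hv, hvμ, ?_⟩
        · rw [mem_span_fam]
          exact ⟨_, rfl⟩
        · rw [← h7, add_sub_cancel]
    refine ⟨J, fJ, e, g, hgHV, he, hspan, ?_⟩
    refine ih lo (d + 1) J e (syz g) (syz g') (hs_syz hgHV) ?_ ?_ hgood
    · intro c hc
      rw [mem_syz] at hc ⊢
      have h1 : x • (∑ a, c a • g a) = 0 := by
        rw [← hc, Finset.smul_sum]
        exact Finset.sum_congr rfl fun a _ => by rw [Pi.smul_apply, smul_eq_mul, mul_smul]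
      funext i
      exact S.reg _ (congrFun h1 i)
    · intro c'
      constructor
      · intro hc'
        rw [mem_syz] at hc'
        have h1 : ∀ i, S.π ((∑ a, S.sec (c' a) • g a) i) = 0 := by
          intro i
          have h7 := congrFun (pi_comb S (fun a => S.sec (c' a)) g) i
          rw [h7]
          have h8 : (∑ a, S.π (S.sec (c' a)) • (fun i => S.π (g a i))) = 0 := by
            rw [← hc']
            exact Finset.sum_congr rfl fun a _ => by rw [S.π_sec, hgπ]
          rw [h8]
          rfl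
        obtain ⟨v, hv, h2⟩ := ker_vec S hsat (hcomb fun a => S.sec (c' a)) h1
        rw [← hspan, mem_span_fam] at hv
        obtain ⟨b, hb⟩ := hv
        refine ⟨fun a => S.sec (c' a) - x * b a, ?_, ?_⟩
        · rw [mem_syz]
          have h3 : ∑ a, (S.sec (c' a) - x * b a) • g a =
              ∑ a, S.sec (c' a) • g a - x • ∑ a, b a • g a := by
            rw [Finset.smul_sum, ← Finset.sum_sub_distrib]
            exact Finset.sum_congr rfl fun a _ => by rw [sub_smul, mul_smul]
          rw [h3, hb, ← h2, sub_self]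
        · funext a
          rw [map_sub, map_mul, S.π_x, zero_mul, sub_zero, S.π_sec]
      · rintro ⟨c, hc, rfl⟩
        rw [mem_syz] at hc ⊢
        have h1 := pi_comb S c g
        rw [hc] at h1
        have h2 : ∑ a, S.π (c a) • (fun i => S.π (g a i)) = ∑ a, S.π (c a) • g' a :=
          Finset.sum_congr rfl fun a _ => by rw [hgπ]
        rw [← h2, ← h1]
        funext i
        simp

end Pool.Agent.LibMC34
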