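import Pool.Agent.LibMC34.G6
import Pool.Agent.LibMC34.G7b
import Pool.Agent.LibMC34.G10
import Pool.Agent.LibMC34.A2
import Pool.Agent.LibMC34.A4

set_option autoImplicit false

/-! [MC34 A5] (MEDIUM, Mathlib + G2, G6, G7b, G10, A1, A2, A4). Induction step for column 0.
 w1 = wsh (Pt false 0) w. K1 = image of K (a+1) (b+1).
 (i) kill along (Pt false 2) and then (Pt false 1) (exists_shG; weights wsh_comp_Pu) from h3 with the degree
   delta' = delta + w1 (true,0,0) (same first coordinate by Wok): Good w1 (a+b+2) (idealSub (comap comap K a b)).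
 (ii) kill along (Pt true 0) (wsh_comp_P0) from h1: Good w1 (a+(b+1)+1) (idealSub (comap K a (b+1))).
 (iii) cyc with f = W 0 0 (e1, e2): Good w1 (a+1+(b+1)) (idealSub K1); HS of idealSub K1 by hs_image and hs_K.
 (iv) lift along (Pt false 0): hreg from e3, image: Ideal.mem_map_iff_of_surjective. 0 < wx.1 + wx.2 by Wok.
 The bounds in kill: deg.1 + wx.1 is delta.1 or delta.1 + 1 (Wok). -/

namespace Pool.Agent.LibMC34

open MvPolynomial
open Pool.Agent.LibRG7 (sh sc Pu P0 P1 Pu12 U W)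

variable {k : Type} [Field k]

theorem step_a {a b : ℕ} (hab : a ≤ b) {w : Ix → Dg} (hw : Wok w) (hc : Compat w (a + 1) (b + 1))
    (h1 : ∀ δ : Dg, Good (wsh P0 w) δ.1 (a + (b + 1)) Unit (fun _ => δ)
      (idealSub (LibRG7.K k a (b + 1))) (δ.1 + 1))
    (h3 : ∀ δ : Dg, Good (wsh Pu w) δ.1 (a + b) Unit (fun _ => δ)
      (idealSub (LibRG7.K k a b)) (δ.1 + 1)) (δ : Dg) :
    Good w δ.1 (a + 1 + (b + 1)) Unit (fun _ => δ)
      (idealSub (LibRG7.K k (a + 1) (b + 1))) (δ.1 + 1) := by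
  have hw1 : Wok (wsh (Pt false 0) w) := hw.wsh _
  have hw2 : Wok (wsh (Pt false 1) (wsh (Pt false 0) w)) := hw1.wsh _
  obtain ⟨S0, hS0⟩ := exists_shG k false 0 w
  obtain ⟨S1, hS1⟩ := exists_shG k false 1 (wsh (Pt false 0) w)
  obtain ⟨S2, hS2⟩ := exists_shG k false 2 (wsh (Pt false 1) (wsh (Pt false 0) w))
  obtain ⟨St, hSt⟩ := exists_shG k true 0 (wsh (Pt false 0) w)
  have hg1 : (wsh (Pt false 0) w (true, 0, 0)).1 = 0 := hw1.2.2.2 0 0
  -- (i)
  have i1 : Good (wsh (Pt false 0) w) δ.1 (a + 1 + (b + 1)) Unit (fun _ => δ + wsh (Pt false 0) w (true, 0, 0))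
      (idealSub (Ideal.comap (sh k (Pt false 1)) (Ideal.comap (sh k (Pt false 2)) (LibRG7.K k a b)))) (δ.1 + 1) := by
    have j0 := h3 (δ + wsh (Pt false 0) w (true, 0, 0))
    have hd : (δ + wsh (Pt false 0) w (true, 0, 0)).1 = δ.1 := by
      rw [Prod.fst_add, hg1, add_zero]
    rw [hd, ← wsh_comp_Pu] at j0
    have j1 := kill S2 (isWeightedHomogeneous_X (R := k) (w := wsh (Pt false 1) (wsh (Pt false 0) w)) (false, 2, 0))
      (hw2.1 _).1 (hw2.2.2.1 _) (a + b) δ.1 (δ.1 + 1) Unit (fun _ => δ + wsh (Pt false 0) w (true, 0, 0))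
      (idealSub (Ideal.comap (sh k (Pt false 2)) (LibRG7.K k a b))) (idealSub (LibRG7.K k a b)) (by
        intro v
        rw [mem_idealSub, mem_idealSub, Ideal.mem_comap, hS2]) (by
        intro _
        have h5 := (hw2.1 (false, 2, 0)).1
        have h6 := hw2.2.2.1 (false, 2, 0)
        constructor <;> omega) j0
    have j2 := kill S1 (isWeightedHomogeneous_X (R := k) (w := wsh (Pt false 0) w) (false, 1, 0))
      (hw1.1 _).1 (hw1.2.2.1 _) (a + b + 1) δ.1 (δ.1 + 1) Unit (fun _ => δ + wsh (Pt false 0) w (true, 0, 0))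
      (idealSub (Ideal.comap (sh k (Pt false 1)) (Ideal.comap (sh k (Pt false 2)) (LibRG7.K k a b))))
      (idealSub (Ideal.comap (sh k (Pt false 2)) (LibRG7.K k a b))) (by
        intro v
        rw [mem_idealSub, mem_idealSub, Ideal.mem_comap, hS1]) (by
        intro _
        have h5 := (hw1.1 (false, 1, 0)).1
        have h6 := hw1.2.2.1 (false, 1, 0)
        constructor <;> omega) j1
    have hc2 : a + b + 1 + 1 = a + 1 + (b + 1) := by omega
    rw [hc2] at j2
    exact j2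
  -- (ii)
  have i2 : Good (wsh (Pt false 0) w) δ.1 (a + 1 + (b + 1)) Unit (fun _ => δ)
      (idealSub (Ideal.comap (sh k (Pt true 0)) (LibRG7.K k a (b + 1)))) (δ.1 + 1) := by
    have j0 := h1 δ
    rw [← wsh_comp_P0] at j0
    have j1 := kill St (isWeightedHomogeneous_X (R := k) (w := wsh (Pt false 0) w) (true, 0, 0))
      (hw1.1 _).1 (hw1.2.2.1 _) (a + (b + 1)) δ.1 (δ.1 + 1) Unit (fun _ => δ)
      (idealSub (Ideal.comap (sh k (Pt true 0)) (LibRG7.K k a (b + 1)))) (idealSub (LibRG7.K k a (b + 1))) (by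
        intro v
        rw [mem_idealSub, mem_idealSub, Ideal.mem_comap, hSt]) (by
        intro _
        have h5 := (hw1.1 (true, 0, 0)).1
        have h6 := hw1.2.2.1 (true, 0, 0)
        constructor <;> omega) j0
    have hc2 : a + (b + 1) + 1 = a + 1 + (b + 1) := by omega
    rw [hc2] at j1
    exact j1
  have hsurj : Function.Surjective (sh k (Pt false 0)) := fun f => ⟨S0.sec f, by rw [← hS0]; exact S0.π_sec f⟩
  have himg : ∀ v' : Unit → MvPolynomial Ix k, v' ∈ idealSub (Ideal.map (sh k (Pt false 0)) (LibRG7.K k (a + 1) (b + 1))) ↔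
      ∃ v ∈ idealSub (LibRG7.K k (a + 1) (b + 1)), (fun i => S0.π (v i)) = v' := by
    intro v'
    rw [mem_idealSub, Ideal.mem_map_iff_of_surjective _ hsurj]
    constructor
    · rintro ⟨f, hf, hfv⟩
      refine ⟨fun _ => f, ?_, ?_⟩
      · rw [mem_idealSub]; exact hf
      · funext i
        show S0.π f = v' i
        rw [hS0]
        exact hfv
    · rintro ⟨v, hv, rfl⟩
      exact ⟨v (), (mem_idealSub.1 hv), (hS0 (v ())).symm⟩
  -- (iii)
  have i3 : Good (wsh (Pt false 0) w) δ.1 (a + 1 + (b + 1)) Unit (fun _ => δ)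
      (idealSub (Ideal.map (sh k (Pt false 0)) (LibRG7.K k (a + 1) (b + 1)))) (δ.1 + 1) := by
    refine cyc hw1.1 hw1.2.1 (f := W k 0 0) (g := wsh (Pt false 0) w (true, 0, 0)) ?_ ?_ (fun s => e1 hab s) i1 ?_
    · exact isWeightedHomogeneous_X (R := k) (w := wsh (Pt false 0) w) (true, 0, 0)
    · exact hs_image S0 (hs_K k hc δ) himg
    · rw [e2 hab]; exact i2
  -- (iv)
  refine lift hw.1 S0 (isWeightedHomogeneous_X (R := k) (w := w) (false, 0, 0)) ?_ (a + 1 + (b + 1)) δ.1 (δ.1 + 1) Unit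
    (fun _ => δ) _ _ (hs_K k hc δ) ?_ himg i3
  · have h5 := hw.1 (false, 0, 0)
    have h6 := hw.2.1 (false, 0, 0)
    by_contra h7
    apply h6
    apply Prod.ext
    · show (w (false, 0, 0)).1 = 0
      omega
    · show (w (false, 0, 0)).2 = 0
      omega
  · intro v hv
    rw [mem_idealSub] at hv ⊢
    exact e3 (a := a + 1) (b := b + 1) (by omega) 0 hv

end Pool.Agent.LibMC34
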