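import Pool.Agent.LibMC34.G6
import Pool.Agent.LibMC34.G7b
import Pool.Agent.LibMC34.G10
import Pool.Agent.LibMC34.A2
import Pool.Agent.LibMC34.A3
import Pool.Agent.LibMC34.A4

set_option autoImplicit false

/-! [MC34 A6] (MEDIUM, Mathlib + G2, G6, G7b, G10, A1-A4). Induction step for a = 0: the same as A5 with
 w1 = wsh (Pt false 1) w, kill along (Pt false 2) (wsh_comp_Pu12) from h3 and along (Pt true 1) (wsh_comp_P1) from h1,
 cyc with f = W 1 0 (f1, f2), lift along (Pt false 1) (e3). -/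

namespace Pool.Agent.LibMC34

open MvPolynomial
open Pool.Agent.LibRG7 (sh sc Pu P0 P1 Pu12 U W)

variable {k : Type} [Field k]

private theorem A6_pos {x : Dg} (h : 0 ≤ x.1 ∧ 0 ≤ x.2) (h0 : x ≠ 0) : 0 < x.1 + x.2 := by
  by_contra hc
  apply h0
  apply Prod.ext
  · change x.1 = 0
    omega
  · change x.2 = 0
    omega

/-- kill one variable in front of an ideal -/
private theorem A6_kill {w : Ix → Dg} (hw : Wok w) {t : Bool} {c : Fin 3} {n : ℕ} {δ : Dg} {lo : ℤ}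
    (hlo : δ.1 = lo) {I : Ideal (MvPolynomial Ix k)}
    (h : Good (wsh (Pt t c) w) lo n Unit (fun _ => δ) (idealSub I) (lo + 1)) :
    Good w lo (n + 1) Unit (fun _ => δ) (idealSub (Ideal.comap (sh k (Pt t c)) I)) (lo + 1) := by
  obtain ⟨G, hG⟩ := exists_shG k t c w
  have h1 := hw.1 (t, c, 0)
  have h2 := hw.2.2.1 (t, c, 0)
  refine kill G (isWeightedHomogeneous_X k w (t, c, 0)) h1.1 h2 n lo (lo + 1) Unit (fun _ => δ) _ _
    ?_ ?_ h
  · intro v
    rw [mem_idealSub, mem_idealSub, Ideal.mem_comap, hG]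
  · intro _
    constructor <;> omega

theorem step_0 {b : ℕ} {w : Ix → Dg} (hw : Wok w) (hc : Compat w 0 (b + 1))
    (h1 : ∀ δ : Dg, Good (wsh P1 w) δ.1 b Unit (fun _ => δ)
      (idealSub (LibRG7.K k 0 b)) (δ.1 + 1))
    (h3 : ∀ δ : Dg, Good (wsh Pu12 w) δ.1 b Unit (fun _ => δ)
      (idealSub (LibRG7.K k 0 b)) (δ.1 + 1)) (δ : Dg) :
    Good w δ.1 (b + 1) Unit (fun _ => δ) (idealSub (LibRG7.K k 0 (b + 1))) (δ.1 + 1) := by
  have hw1 : Wok (wsh (Pt false 1) w) := hw.wsh _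
  obtain ⟨G, hG⟩ := exists_shG k false 1 w
  have himg : ∀ v' : Unit → MvPolynomial Ix k,
      v' ∈ idealSub (Ideal.map (sh k (Pt false 1)) (LibRG7.K k 0 (b + 1))) ↔
        ∃ v ∈ idealSub (LibRG7.K k 0 (b + 1)), (fun i => G.π (v i)) = v' := by
    intro v'
    rw [mem_idealSub, Ideal.mem_map_iff_of_surjective (sh k (Pt false 1))
      (fun y => ⟨sc k (Pt false 1) y, LibRG7.sh_sc _ _⟩)]
    constructor
    · rintro ⟨y, hy, hy'⟩
      refine ⟨fun _ => y, hy, ?_⟩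
      funext i
      rw [hG, hy']
    · rintro ⟨v, hv, rfl⟩
      exact ⟨v (), hv, (hG _).symm⟩
  -- (i)
  have hδ' : (δ + wsh (Pt false 1) w (true, 1, 0)).1 = δ.1 := by
    have := hw1.2.2.2 1 0
    rw [Prod.fst_add, this, add_zero]
  have r1 : Good (wsh (Pt false 1) w) δ.1 (b + 1) Unit
      (fun _ => δ + wsh (Pt false 1) w (true, 1, 0))
      (idealSub (Ideal.comap (sh k (Pt false 2)) (LibRG7.K k 0 b))) (δ.1 + 1) := by
    refine A6_kill hw1 hδ' ?_
    rw [wsh_comp_Pu12, ← hδ']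
    exact h3 _
  -- (ii)
  have r2 : Good (wsh (Pt false 1) w) δ.1 (b + 1) Unit (fun _ => δ)
      (idealSub (Ideal.comap (sh k (Pt true 1)) (LibRG7.K k 0 b))) (δ.1 + 1) := by
    refine A6_kill hw1 rfl ?_
    rw [wsh_comp_P1]
    exact h1 _
  -- (iii)
  have r3 : Good (wsh (Pt false 1) w) δ.1 (b + 1) Unit (fun _ => δ)
      (idealSub (Ideal.map (sh k (Pt false 1)) (LibRG7.K k 0 (b + 1)))) (δ.1 + 1) := by
    refine cyc (f := W k 1 0) (g := wsh (Pt false 1) w (true, 1, 0))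
      (b := Ideal.comap (sh k (Pt false 2)) (LibRG7.K k 0 b)) hw1.1 hw1.2.1
      (isWeightedHomogeneous_X k _ _) ?_ (f1 b) r1 ?_
    · exact hs_image G (hs_K k hc δ) himg
    · rw [f2]
      exact r2
  -- (iv)
  refine lift hw.1 G (isWeightedHomogeneous_X k w (false, 1, 0)) (A6_pos (hw.1 _) (hw.2.1 _))
    (b + 1) δ.1 (δ.1 + 1) Unit (fun _ => δ) _ _ (hs_K k hc δ) ?_ himg r3
  intro v hv
  rw [mem_idealSub] at hv ⊢
  exact e3 (Nat.zero_le (b + 1)) 1 hv

end Pool.Agent.LibMC34
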