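import Pool.Agent.LibMC34.A5
import Pool.Agent.LibMC34.A6

set_option autoImplicit false

/-! [MC34 A7] (SHORT, Mathlib + A4, A5, A6). THEOREM P1a: induction on s = a + b (a = 0, b = 0: K 0 0 is the span of the
 empty set, idealSub is bot; a = 0: step_0; a >= 1: step_a). -/

namespace Pool.Agent.LibMC34

open MvPolynomial
open Pool.Agent.LibRG7 (Pu P0 P1 Pu12)

private theorem A7_K00 (k : Type) [Field k] : LibRG7.K k 0 0 = ⊥ := by
  unfold LibRG7.K
  rw [Ideal.span_eq_bot]
  intro x hx
  simp at hx

theorem P1a_aux (k : Type) [Field k] : ∀ (s a b : ℕ), a + b = s → a ≤ b → ∀ (w : Ix → Dg),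
    Wok w → Compat w a b → ∀ δ : Dg, Good w δ.1 (a + b) Unit (fun _ => δ)
      (idealSub (LibRG7.K k a b)) (δ.1 + 1) := by
  intro s
  induction s using Nat.strong_induction_on with
  | _ s ih =>
    intro a b hs hab w hw hc δ
    rcases a with _ | a
    · rcases b with _ | b
      · show idealSub (LibRG7.K k 0 0) = ⊥
        rw [A7_K00]
        ext v
        rw [mem_idealSub, Submodule.mem_bot, Submodule.mem_bot]
        constructor
        · intro h; funext u; exact h
        · intro h; rw [h]; rfl
      · have h1 := fun δ => ih b (by omega) 0 b (by omega) (by omega) (wsh P1 w) (hw.wsh P1)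
          (compat_P1 hc) δ
        have h3 := fun δ => ih b (by omega) 0 b (by omega) (by omega) (wsh Pu12 w) (hw.wsh Pu12)
          (compat_Pu12 hc) δ
        simp only [Nat.zero_add] at h1 h3 ⊢
        exact step_0 hw hc h1 h3 δ
    · rcases b with _ | b
      · omega
      · have h1 := fun δ => ih (a + (b + 1)) (by omega) a (b + 1) rfl (by omega) (wsh P0 w)
          (hw.wsh P0) (compat_P0 hc) δ
        have h3 := fun δ => ih (a + b) (by omega) a b rfl (by omega) (wsh Pu w) (hw.wsh Pu)
          (compat_Pu hc) δ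
        exact step_a (by omega) hw hc h1 h3 δ

theorem P1a (k : Type) [Field k] {a b : ℕ} (hab : a ≤ b) {w : Ix → Dg} (hw : Wok w)
    (hc : Compat w a b) (δ : Dg) : Good w δ.1 (a + b) Unit (fun _ => δ)
      (idealSub (LibRG7.K k a b)) (δ.1 + 1) := P1a_aux k (a + b) a b rfl hab w hw hc δ

end Pool.Agent.LibMC34
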