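import Pool.Agent.LibMC34.BDefs

set_option autoImplicit false

/-! ROW [MC34 B1] (MEDIUM, only Mathlib + BDefs). Homogeneity of the remainders.
 General lemma (private): R = MvPolynomial σ K, w : σ -> Dg. Call f : R[X] graded of degree μ : Dg if
   ∀ j, IsWeightedHomogeneous w (f.coeff j) (μ - (0, (j : ℤ))).
 (i) sums/differences of graded of the same degree are graded; f graded μ, g graded ν => f * g graded μ + ν
     (Polynomial.coeff_mul, IsWeightedHomogeneous.mul, IsWeightedHomogeneous.sum, (μ - (0,i)) + (ν - (0,j)) = μ+ν - (0,i+j)).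
 (ii) D monic, graded of degree (0, m), D.natDegree = m (or D.degree = m): f graded μ => f %ₘ D graded μ. Strong induction on n with
     f.degree < n (or on f.natDegree): if f.degree < D.degree then f %ₘ D = f (Polynomial.modByMonic_eq_self_iff); otherwise with N = natDegree f ≥ m
     f' := f - C (f.coeff N) * X^(N-m) * D is graded of degree μ (C (f.coeff N) * X^(N-m) has the only coefficient N-m, of weight
     μ - (0,N) = (μ - (0,m)) - (0,N-m)), has smaller degree, and f' %ₘ D = f %ₘ D (Polynomial.sub_modByMonic / add_modByMonic, the multiple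
     of D has remainder 0: Polynomial.modByMonic_eq_zero_iff_dvd or mul_modByMonic). Nontrivial R may be assumed
     (subsingleton_or_nontrivial; in a subsingleton all is 0).
 Apply: UUE k m a is graded of degree (1, m), WWE k m c of degree (0, m), ddE k m monic of degree m (Polynomial.monic_X_pow_add
 (Polynomial.degree_sum_fin_lt _)), graded of degree (0, m): coefficient j < m is C (X j) * ep^(m-j) of weight (0, m-j).
 isWeightedHomogeneous_X, isWeightedHomogeneous_C, IsWeightedHomogeneous.pow. See F1_UU, F1_dd_lt in LibRG7/F1.lean for the coefficients. -/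

namespace Pool.Agent.LibMC34

open MvPolynomial

variable {k : Type} [CommRing k] {m : ℕ}

section general

variable {σ K : Type} [CommRing K] {w : σ → Dg}

private theorem B1_sub {μ : Dg} {f g : MvPolynomial σ K} (hf : IsWeightedHomogeneous w f μ)
    (hg : IsWeightedHomogeneous w g μ) : IsWeightedHomogeneous w (f - g) μ := by
  rw [← mem_weightedHomogeneousSubmodule] at *
  exact Submodule.sub_mem _ hf hg

private theorem B1_mul {μ ν ρ : Dg} {f g : MvPolynomial σ K} (hf : IsWeightedHomogeneous w f μ)
    (hg : IsWeightedHomogeneous w g ν) (h : μ + ν = ρ) : IsWeightedHomogeneous w (f * g) ρ := by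
  rw [← h]
  exact hf.mul hg

/-- graded polynomials -/
private def B1_Gr (w : σ → Dg) (μ : Dg) (f : Polynomial (MvPolynomial σ K)) : Prop :=
  ∀ j : ℕ, IsWeightedHomogeneous w (f.coeff j) ((μ.1, μ.2 - (j : ℤ)) : Dg)

private theorem B1_Gr_sub {μ : Dg} {f g : Polynomial (MvPolynomial σ K)} (hf : B1_Gr w μ f)
    (hg : B1_Gr w μ g) : B1_Gr w μ (f - g) := by
  intro j
  rw [Polynomial.coeff_sub]
  exact B1_sub (hf j) (hg j)

private theorem B1_Gr_mul {μ ν ρ : Dg} {f g : Polynomial (MvPolynomial σ K)} (hf : B1_Gr w μ f)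
    (hg : B1_Gr w ν g) (h : μ + ν = ρ) : B1_Gr w ρ (f * g) := by
  intro j
  rw [Polynomial.coeff_mul, ← mem_weightedHomogeneousSubmodule]
  refine Submodule.sum_mem _ fun x hx => ?_
  rw [mem_weightedHomogeneousSubmodule]
  refine B1_mul (hf x.1) (hg x.2) ?_
  rw [Finset.HasAntidiagonal.mem_antidiagonal] at hx
  rw [← h]
  ext
  · rfl
  · show (μ.2 - (x.1 : ℤ)) + (ν.2 - (x.2 : ℤ)) = (μ.2 + ν.2) - (j : ℤ)
    rw [← hx]
    push_cast
    ring

private theorem B1_Gr_mod [Nontrivial (MvPolynomial σ K)] {m : ℕ}
    {D : Polynomial (MvPolynomial σ K)} (hD : D.Monic) (hdeg : D.natDegree = m)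
    (hg : B1_Gr w ((0, (m : ℤ)) : Dg) D) (μ : Dg) :
    ∀ (n : ℕ) (f : Polynomial (MvPolynomial σ K)), (∀ j, n ≤ j → f.coeff j = 0) →
      B1_Gr w μ f → B1_Gr w μ (f %ₘ D) := by
  intro n
  induction n with
  | zero =>
    intro f hf hfg
    have h0 : f = 0 := by
      ext1 j
      rw [hf j (Nat.zero_le _), Polynomial.coeff_zero]
    rw [h0, Polynomial.zero_modByMonic, ← h0]
    exact hfg
  | succ n ih =>
    intro f hf hfg
    by_cases hnm : n < m
    · have h1 : f %ₘ D = f := by
        rw [Polynomial.modByMonic_eq_self_iff hD, Polynomial.degree_eq_natDegree hD.ne_zero, hdeg,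
          Polynomial.degree_lt_iff_coeff_zero]
        intro j hj
        exact hf j (by omega)
      rw [h1]
      exact hfg
    · push Not at hnm
      have hcD : D.coeff m = 1 := by
        rw [← hdeg]
        exact hD.coeff_natDegree
      have hP : ∀ j, (Polynomial.C (f.coeff n) * (Polynomial.X ^ (n - m) * D)).coeff j =
          f.coeff n * (if n - m ≤ j then D.coeff (j - (n - m)) else 0) := by
        intro j
        rw [Polynomial.coeff_C_mul, Polynomial.coeff_X_pow_mul']
      have h2 : (f - Polynomial.C (f.coeff n) * (Polynomial.X ^ (n - m) * D)) %ₘ D = f %ₘ D := by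
        rw [Polynomial.sub_modByMonic]
        have h3 : (Polynomial.C (f.coeff n) * (Polynomial.X ^ (n - m) * D)) %ₘ D = 0 := by
          rw [Polynomial.modByMonic_eq_zero_iff_dvd hD]
          exact ⟨Polynomial.C (f.coeff n) * Polynomial.X ^ (n - m), by ring⟩
        rw [h3, sub_zero]
      rw [← h2]
      apply ih
      · intro j hj
        rw [Polynomial.coeff_sub, hP]
        rcases Nat.eq_or_lt_of_le hj with h4 | h4
        · subst h4
          rw [if_pos (by omega), show n - (n - m) = m by omega, hcD, mul_one, sub_self]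
        · rw [hf j (by omega), if_pos (by omega),
            Polynomial.coeff_eq_zero_of_natDegree_lt
              (show D.natDegree < j - (n - m) by rw [hdeg]; omega), mul_zero, sub_zero]
      · apply B1_Gr_sub hfg
        intro j
        rw [hP]
        split_ifs with h5
        · refine B1_mul (hfg n) (hg (j - (n - m))) ?_
          ext
          · show μ.1 + 0 = μ.1
            ring
          · show (μ.2 - (n : ℤ)) + ((m : ℤ) - ((j - (n - m) : ℕ) : ℤ)) = μ.2 - (j : ℤ)
            have h6 : ((j - (n - m) : ℕ) : ℤ) = (j : ℤ) - ((n : ℤ) - (m : ℤ)) := by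
              rw [Nat.cast_sub h5, Nat.cast_sub hnm]
            rw [h6]
            ring
        · rw [mul_zero]
          exact isWeightedHomogeneous_zero _ _ _

end general

private theorem B1_UU (c : Fin 3) : B1_Gr (wE m) ((1, (m : ℤ)) : Dg) (UUE k m c) := by
  intro j
  have h : (UUE k m c).coeff j = if j < m then Ue k m c j else 0 := by
    unfold UUE
    rw [Polynomial.finsetSum_coeff]
    simp only [Polynomial.coeff_C_mul_X_pow]
    split_ifs with h
    · rw [Finset.sum_eq_single j]
      · rw [if_pos rfl]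
      · intro i _ hi
        rw [if_neg (Ne.symm hi)]
      · intro h1
        exact absurd (Finset.mem_range.2 h) h1
    · refine Finset.sum_eq_zero fun i hi => ?_
      rw [Finset.mem_range] at hi
      rw [if_neg (by omega)]
  rw [h]
  split_ifs with h1
  · have h2 := isWeightedHomogeneous_X (Kd k m) (wE m) (some (false, c, j))
    have h3 : wE m (some (false, c, j)) = ((1, (m : ℤ) - (j : ℤ)) : Dg) := by
      show wB m (false, c, j) = _
      unfold wB
      rw [if_pos h1, if_neg (by simp)]
    rw [h3] at h2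
    exact h2
  · exact isWeightedHomogeneous_zero _ _ _

private theorem B1_WW (c : Fin 3) : B1_Gr (wE m) ((0, (m : ℤ)) : Dg) (WWE k m c) := by
  intro j
  have h : (WWE k m c).coeff j = if j < m then We k m c j else 0 := by
    unfold WWE
    rw [Polynomial.finsetSum_coeff]
    simp only [Polynomial.coeff_C_mul_X_pow]
    split_ifs with h
    · rw [Finset.sum_eq_single j]
      · rw [if_pos rfl]
      · intro i _ hi
        rw [if_neg (Ne.symm hi)]
      · intro h1
        exact absurd (Finset.mem_range.2 h) h1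
    · refine Finset.sum_eq_zero fun i hi => ?_
      rw [Finset.mem_range] at hi
      rw [if_neg (by omega)]
  rw [h]
  split_ifs with h1
  · have h2 := isWeightedHomogeneous_X (Kd k m) (wE m) (some (true, c, j))
    have h3 : wE m (some (true, c, j)) = ((0, (m : ℤ) - (j : ℤ)) : Dg) := by
      show wB m (true, c, j) = _
      unfold wB
      rw [if_pos h1, if_pos rfl]
    rw [h3] at h2
    exact h2
  · exact isWeightedHomogeneous_zero _ _ _

private theorem B1_tail_deg : (∑ j : Fin m, Polynomial.C (C (X j) * ep k m ^ (m - (j : ℕ))) *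
    (Polynomial.X : Polynomial (SE k m)) ^ (j : ℕ)).degree < (m : WithBot ℕ) :=
  Polynomial.degree_sum_fin_lt _

private theorem B1_dd_monic : (ddE k m).Monic := Polynomial.monic_X_pow_add B1_tail_deg

private theorem B1_dd_natDegree [Nontrivial (SE k m)] : (ddE k m).natDegree = m :=
  (Polynomial.natDegree_add_eq_left_of_degree_lt
    (by rw [Polynomial.degree_X_pow]; exact B1_tail_deg)).trans (Polynomial.natDegree_X_pow m)

private theorem B1_dd_lt {l : ℕ} (hl : l < m) :
    (ddE k m).coeff l = C (X (⟨l, hl⟩ : Fin m)) * ep k m ^ (m - l) := by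
  unfold ddE
  rw [Polynomial.coeff_add, Polynomial.coeff_X_pow, if_neg (by omega), zero_add,
    Polynomial.finsetSum_coeff]
  simp only [Polynomial.coeff_C_mul_X_pow]
  rw [Finset.sum_eq_single (⟨l, hl⟩ : Fin m)]
  · rw [if_pos rfl]
  · intro j _ hj
    rw [if_neg]
    intro h
    exact hj (Fin.ext h.symm)
  · intro h
    exact absurd (Finset.mem_univ _) h

private theorem B1_dd [Nontrivial (SE k m)] : B1_Gr (wE m) ((0, (m : ℤ)) : Dg) (ddE k m) := by
  intro j
  rcases lt_trichotomy j m with h | h | h
  · rw [B1_dd_lt h]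
    have h1 : IsWeightedHomogeneous (wE m) (ep k m) ((0, 1) : Dg) :=
      isWeightedHomogeneous_X (Kd k m) (wE m) none
    have h2 := h1.pow (m - j)
    refine B1_mul (isWeightedHomogeneous_C (wE m) _) h2 ?_
    ext
    · show (0 : ℤ) + ((m - j) • ((0, 1) : ℤ × ℤ)).1 = 0
      simp
    · show (0 : ℤ) + ((m - j) • ((0, 1) : ℤ × ℤ)).2 = (m : ℤ) - (j : ℤ)
      simp [Nat.cast_sub h.le]
  · subst h
    have h1 : (ddE k j).coeff j = 1 := by
      have h2 := (B1_dd_monic (k := k) (m := j)).coeff_natDegree
      rwa [B1_dd_natDegree] at h2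
    rw [h1]
    have h3 : (((0, (j : ℤ)) : Dg).1, ((0, (j : ℤ)) : Dg).2 - (j : ℤ)) = (0 : Dg) := by
      ext
      · rfl
      · show (j : ℤ) - (j : ℤ) = 0
        ring
    rw [h3]
    exact isWeightedHomogeneous_one _ _
  · rw [Polynomial.coeff_eq_zero_of_natDegree_lt (by rw [B1_dd_natDegree]; exact h)]
    exact isWeightedHomogeneous_zero _ _ _

theorem relE_hom (a c : Fin 3) (l : ℕ) :
    IsWeightedHomogeneous (wE m) ((relE k m a c).coeff l) ((1, 2 * (m : ℤ) - l) : Dg) := by
  rcases subsingleton_or_nontrivial (SE k m) with hs | hs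
  · rw [Subsingleton.elim ((relE k m a c).coeff l) 0]
    exact isWeightedHomogeneous_zero _ _ _
  have h1 : B1_Gr (wE m) ((1, 2 * (m : ℤ)) : Dg)
      (UUE k m a * WWE k m c - UUE k m c * WWE k m a) := by
    apply B1_Gr_sub
    · refine B1_Gr_mul (B1_UU a) (B1_WW c) ?_
      ext
      · rfl
      · show (m : ℤ) + (m : ℤ) = 2 * (m : ℤ)
        ring
    · refine B1_Gr_mul (B1_UU c) (B1_WW a) ?_
      ext
      · rfl
      · show (m : ℤ) + (m : ℤ) = 2 * (m : ℤ)
        ring
  have h2 := B1_Gr_mod (B1_dd_monic (k := k) (m := m)) B1_dd_natDegree B1_dd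
    ((1, 2 * (m : ℤ)) : Dg)
    ((UUE k m a * WWE k m c - UUE k m c * WWE k m a).natDegree + 1)
    (UUE k m a * WWE k m c - UUE k m c * WWE k m a)
    (fun j hj => Polynomial.coeff_eq_zero_of_natDegree_lt (by omega)) h1
  exact h2 l

end Pool.Agent.LibMC34
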