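import Pool.Agent.LibMC34.B9

set_option autoImplicit false

/-! ROW [MC34 B10] (MEDIUM, Mathlib + BDefs2 + the values phiV_C .. phiV_V of B9). Identification of the ideal.
 R' := MvPolynomial (T m ⊕ Fin v) (K1 k m), θ : MvPolynomial Ix (Kd k m) →+* R', θ = phiV ∘ rename inl.
 map θ (ddO) = map C (pK k m) =: P (coefficients: θ (C (X j)) = C (dK k m j)), map θ (WWO c) = map C (wpK k m c) =: Wc,
 map θ (UUO a) = ∑ i : Fin m, C (X (inl (a, i))) * X^i =: Va  (Finset.sum_range to pass from range m to Fin m).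
 So θ ((relO a c).coeff l) = ((Va * Wc - Vc * Wa) %ₘ P).coeff l  (Polynomial.map_modByMonic, ddO monic: Polynomial.monic_X_pow_add
 (Polynomial.degree_sum_fin_lt _)); expand Va * Wc = ∑ i, C (X (inl (a,i))) * (X^i * Wc); %ₘ P is additive and R'-linear in the constants
 (Polynomial.modByMonicHom / smul_modByMonic), (X^i * Wc) %ₘ P = map C ((X^i * wpK c) %ₘ pK), hence
 = ∑ i, X (inl (a,i)) * C (((X^i * wpK c) %ₘ pK).coeff l) - ∑ i, X (inl (c,i)) * C (((X^i * wpK a) %ₘ pK).coeff l) = linS m v (relv m pK wpK a c l)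
 (sum over T m = Fin 3 × Fin m: Fintype.sum_prod_type, the ite on x.1 = a: Finset.sum_ite_eq).
 For l >= m the coefficient is 0 (degree of the remainder < m; K1 k m nontrivial or subsingleton).
 Then the ideals: both spans have the same generators (l : ℕ on the left, l : Fin m on the right, zero for l >= m). Ideal.map_sup, Ideal.map_span,
 Ideal.map_map. -/

namespace Pool.Agent.LibMC34

open MvPolynomial

variable (k : Type) [CommRing k] (m v : ℕ)

private theorem B10_sum {K : Type} [CommRing K] (a : Fin 3) (f : Fin m → K) :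
    ∑ x : T m, (C (if x.1 = a then f x.2 else 0) * X (Sum.inl x) : MvPolynomial (T m ⊕ Fin v) K) =
      ∑ i : Fin m, C (f i) * X (Sum.inl (a, i)) := by
  rw [Fintype.sum_prod_type, Finset.sum_eq_single a]
  · refine Finset.sum_congr rfl fun i _ => ?_
    rw [if_pos rfl]
  · intro b _ hb
    refine Finset.sum_eq_zero fun i _ => ?_
    rw [if_neg hb, C_0, zero_mul]
  · intro h
    exact absurd (Finset.mem_univ a) h

/-- the ring homomorphism `phiV ∘ rename inl` -/
private noncomputable def B10_th : MvPolynomial Ix (Kd k m) →+* MvPolynomial (T m ⊕ Fin v) (K1 k m) :=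
  (phiV m v k : MvPolynomial (Ix ⊕ Fin v) (Kd k m) →+* MvPolynomial (T m ⊕ Fin v) (K1 k m)).comp
    (rename Sum.inl : MvPolynomial Ix (Kd k m) →ₐ[Kd k m] MvPolynomial (Ix ⊕ Fin v) (Kd k m)).toRingHom

private theorem B10_th_apply (f : MvPolynomial Ix (Kd k m)) :
    B10_th k m v f = phiV m v k (rename Sum.inl f) := rfl

private theorem B10_th_d (j : Fin m) : B10_th k m v (C (X j)) = C (dK k m j) := by
  rw [B10_th_apply, rename_C, phiV_C]
  rfl

private theorem B10_th_u (c : Fin 3) (i : Fin m) :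
    B10_th k m v (X (false, c, (i : ℕ))) = X (Sum.inl (c, i)) := by
  rw [B10_th_apply, rename_X, phiV_U]

private theorem B10_th_w (c : Fin 3) (i : Fin m) :
    B10_th k m v (X (true, c, (i : ℕ))) = C (wK k m c i) := by
  rw [B10_th_apply, rename_X, phiV_J k m v (true, c, (i : ℕ)) (by simp)]
  rfl

private theorem B10_dd : (ddO k m).map (B10_th k m v) = (pK k m).map (C : K1 k m →+* MvPolynomial (T m ⊕ Fin v) (K1 k m)) := by
  unfold ddO pK
  rw [Polynomial.map_add, Polynomial.map_add, Polynomial.map_pow, Polynomial.map_pow, Polynomial.map_X,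
    Polynomial.map_X, Polynomial.map_sum, Polynomial.map_sum]
  congr 1
  refine Finset.sum_congr rfl fun j _ => ?_
  rw [Polynomial.map_mul, Polynomial.map_mul, Polynomial.map_C, Polynomial.map_C, Polynomial.map_pow,
    Polynomial.map_pow, Polynomial.map_X, Polynomial.map_X, B10_th_d]

private theorem B10_WW (c : Fin 3) :
    (WWO k m c).map (B10_th k m v) = (wpK k m c).map (C : K1 k m →+* MvPolynomial (T m ⊕ Fin v) (K1 k m)) := by
  unfold WWO wpK
  rw [Finset.sum_range, Polynomial.map_sum, Polynomial.map_sum]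
  refine Finset.sum_congr rfl fun j _ => ?_
  rw [Polynomial.map_mul, Polynomial.map_mul, Polynomial.map_C, Polynomial.map_C, Polynomial.map_pow,
    Polynomial.map_pow, Polynomial.map_X, Polynomial.map_X, B10_th_w]

private theorem B10_UU (c : Fin 3) :
    (UUO k m c).map (B10_th k m v) =
      ∑ i : Fin m, Polynomial.C (X (Sum.inl (c, i)) : MvPolynomial (T m ⊕ Fin v) (K1 k m)) * Polynomial.X ^ (i : ℕ) := by
  unfold UUO
  rw [Finset.sum_range, Polynomial.map_sum]
  refine Finset.sum_congr rfl fun j _ => ?_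
  rw [Polynomial.map_mul, Polynomial.map_C, Polynomial.map_pow, Polynomial.map_X, B10_th_u]

private theorem B10_monic : (ddO k m).Monic := by
  unfold ddO
  exact Polynomial.monic_X_pow_add (Polynomial.degree_sum_fin_lt _)

private theorem B10_pmonic : (pK k m).Monic := by
  unfold pK
  exact Polynomial.monic_X_pow_add (Polynomial.degree_sum_fin_lt _)

private theorem B10_red (a c : Fin 3) (l : ℕ) :
    (((∑ i : Fin m, Polynomial.C (X (Sum.inl (a, i)) : MvPolynomial (T m ⊕ Fin v) (K1 k m)) * Polynomial.X ^ (i : ℕ)) *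
      (wpK k m c).map (C : K1 k m →+* MvPolynomial (T m ⊕ Fin v) (K1 k m))) %ₘ
        (pK k m).map (C : K1 k m →+* MvPolynomial (T m ⊕ Fin v) (K1 k m))).coeff l =
      ∑ i : Fin m, C (((Polynomial.X ^ (i : ℕ) * wpK k m c) %ₘ pK k m).coeff l) * X (Sum.inl (a, i)) := by
  have h1 : (∑ i : Fin m, Polynomial.C (X (Sum.inl (a, i)) : MvPolynomial (T m ⊕ Fin v) (K1 k m)) * Polynomial.X ^ (i : ℕ)) *
      (wpK k m c).map (C : K1 k m →+* MvPolynomial (T m ⊕ Fin v) (K1 k m)) =
      ∑ i : Fin m, (X (Sum.inl (a, i)) : MvPolynomial (T m ⊕ Fin v) (K1 k m)) •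
        ((Polynomial.X ^ (i : ℕ) * wpK k m c).map (C : K1 k m →+* MvPolynomial (T m ⊕ Fin v) (K1 k m))) := by
    rw [Finset.sum_mul]
    refine Finset.sum_congr rfl fun i _ => ?_
    rw [Polynomial.map_mul, Polynomial.map_pow, Polynomial.map_X, Polynomial.smul_eq_C_mul, mul_assoc]
  rw [h1]
  have h2 : ∀ q : Polynomial (MvPolynomial (T m ⊕ Fin v) (K1 k m)),
      q %ₘ (pK k m).map (C : K1 k m →+* MvPolynomial (T m ⊕ Fin v) (K1 k m)) =
        Polynomial.modByMonicHom ((pK k m).map (C : K1 k m →+* MvPolynomial (T m ⊕ Fin v) (K1 k m))) q := fun q => rfl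
  rw [h2, map_sum, Polynomial.finsetSum_coeff]
  refine Finset.sum_congr rfl fun i _ => ?_
  rw [map_smul, ← h2, ← Polynomial.map_modByMonic _ (B10_pmonic k m), Polynomial.coeff_smul, Polynomial.coeff_map,
    smul_eq_mul, mul_comm]

theorem phiV_rel (a c : Fin 3) (l : ℕ) :
    phiV m v k (rename Sum.inl ((relO k m a c).coeff l)) =
      linS m v (relv m (pK k m) (wpK k m) a c l) := by
  rw [← B10_th_apply, ← Polynomial.coeff_map]
  unfold relO
  rw [Polynomial.map_modByMonic _ (B10_monic k m), Polynomial.map_sub, Polynomial.map_mul, Polynomial.map_mul,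
    B10_UU, B10_UU, B10_WW, B10_WW, B10_dd]
  rw [Polynomial.sub_modByMonic, Polynomial.coeff_sub, B10_red, B10_red]
  unfold linS relv
  rw [← B10_sum m v a (fun i => ((Polynomial.X ^ (i : ℕ) * wpK k m c) %ₘ pK k m).coeff l),
    ← B10_sum m v c (fun i => ((Polynomial.X ^ (i : ℕ) * wpK k m a) %ₘ pK k m).coeff l), ← Finset.sum_sub_distrib]
  refine Finset.sum_congr rfl fun x _ => ?_
  rw [C_sub, sub_mul]

theorem relO_ge (a c : Fin 3) {l : ℕ} (hl : m ≤ l) : (relO k m a c).coeff l = 0 := by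
  rcases subsingleton_or_nontrivial (MvPolynomial Ix (Kd k m)) with hs | hn
  · exact Subsingleton.elim _ _
  · unfold relO
    refine Polynomial.coeff_eq_zero_of_degree_lt ?_
    refine (Polynomial.degree_modByMonic_lt _ (B10_monic k m)).trans_le ?_
    unfold ddO
    rw [Polynomial.degree_add_eq_left_of_degree_lt
      (by rw [Polynomial.degree_X_pow]; exact Polynomial.degree_sum_fin_lt _), Polynomial.degree_X_pow]
    exact_mod_cast hl

theorem map_JV : (JV k m v).map (phiV m v k : MvPolynomial (Ix ⊕ Fin v) (Kd k m) →+*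
      MvPolynomial (T m ⊕ Fin v) (K1 k m)) = idS m v (pK k m) (wpK k m) := by
  unfold JV idS
  rw [Ideal.map_sup, Ideal.map_map, Ideal.span_union]
  congr 1
  · unfold JO
    rw [Ideal.map_span]
    apply le_antisymm
    · rw [Ideal.span_le]
      rintro _ ⟨x, ⟨a, c, l, rfl⟩, rfl⟩
      rcases lt_or_ge l m with hl | hl
      · refine Ideal.subset_span ⟨a, c, ⟨l, hl⟩, ?_⟩
        exact phiV_rel k m v a c l
      · rw [relO_ge k m a c hl]
        change (_ : MvPolynomial Ix (Kd k m) →+* _) 0 ∈ _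
        rw [map_zero]
        exact Ideal.zero_mem _
    · rw [Ideal.span_le]
      rintro _ ⟨a, c, l, rfl⟩
      refine Ideal.subset_span ⟨(relO k m a c).coeff l, ⟨a, c, l, rfl⟩, ?_⟩
      exact phiV_rel k m v a c l
  · rw [Ideal.map_span]
    congr 1
    ext y
    constructor
    · rintro ⟨x, ⟨i, rfl⟩, rfl⟩
      exact ⟨i, phiV_V k m v i⟩
    · rintro ⟨i, rfl⟩
      exact ⟨X (Sum.inr i), ⟨i, rfl⟩, phiV_V k m v i⟩

end Pool.Agent.LibMC34
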