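import Pool.Agent.LibMC34.BDefs

set_option autoImplicit false

/-! ROW [MC34 B2] (SHORT, only Mathlib + BDefs). The scaling homomorphism.
 lamE_eval: as lamS_eval in LibRG7/J6.lean (MvPolynomial.ringHom_ext).
 lamE_hom: f = sum over the support of monomials (MvPolynomial.as_sum / eval₂_eq); for d in the support Finsupp.weight (wE m) d = μ
 (IsWeightedHomogeneous); lamE (monomial d a) = C (monomial d a) * X^(sum_x d x * n_x), n_x = ((wE m x).1 + (wE m x).2).toNat, and
 sum_x d x * n_x = (μ.1 + μ.2).toNat because both coordinates of wE m x are >= 0 (wE_nonneg). n := (μ.1 + μ.2).toNat.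
 lamE_ep: eval₂Hom_X'. -/

namespace Pool.Agent.LibMC34

open MvPolynomial

variable {k : Type} [CommRing k] {m : ℕ}

theorem wE_nonneg (m : ℕ) (x : Option Ix) : 0 ≤ (wE m x).1 ∧ 0 ≤ (wE m x).2 := by
  rcases x with _ | x
  · simp [wE]
  · simp only [wE, wB]
    by_cases h : x.2.2 < m
    · rw [if_pos h]
      refine ⟨?_, ?_⟩
      · show (0 : ℤ) ≤ if x.1 = true then 0 else 1
        split_ifs <;> norm_num
      · show (0 : ℤ) ≤ (m : ℤ) - x.2.2
        have : (x.2.2 : ℤ) < m := by exact_mod_cast h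
        omega
    · rw [if_neg h]
      norm_num

theorem lamE_eval (x : SE k m) : (lamE k m x).eval 1 = x := by
  have h : (Polynomial.evalRingHom (1 : SE k m)).comp (lamE k m) = RingHom.id (SE k m) := by
    apply MvPolynomial.ringHom_ext
    · intro r
      rw [RingHom.comp_apply, lamE, MvPolynomial.coe_eval₂Hom, MvPolynomial.eval₂_C]
      simp
    · intro i
      rw [RingHom.comp_apply, lamE, MvPolynomial.coe_eval₂Hom, MvPolynomial.eval₂_X]
      simp
  exact congrArg (fun f : SE k m →+* SE k m => f x) h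

theorem lamE_ep : (Polynomial.X : Polynomial (SE k m)) ∣ lamE k m (ep k m) := by
  unfold lamE ep
  rw [MvPolynomial.coe_eval₂Hom, MvPolynomial.eval₂_X]
  have h : ((wE m none).1 + (wE m none).2).toNat = 1 := by simp [wE]
  rw [h, pow_one]
  exact dvd_mul_left _ _

private theorem lamE_mono (d : Option Ix →₀ ℕ) (a : Kd k m) :
    lamE k m (monomial d a) = Polynomial.C (monomial d a) *
      Polynomial.X ^ (∑ x ∈ d.support, d x * ((wE m x).1 + (wE m x).2).toNat) := by
  unfold lamE
  rw [MvPolynomial.coe_eval₂Hom, MvPolynomial.eval₂_monomial, MvPolynomial.monomial_eq,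
    Finsupp.prod, Finsupp.prod]
  simp only [mul_pow, Finset.prod_mul_distrib, ← pow_mul]
  rw [Finset.prod_pow_eq_pow_sum, map_mul, map_prod, RingHom.comp_apply]
  simp only [map_pow, mul_assoc]
  congr 3
  apply Finset.sum_congr rfl
  intro x _
  rw [mul_comm]

private theorem weight_sum {d : Option Ix →₀ ℕ} {μ : Dg} (h : Finsupp.weight (wE m) d = μ) :
    ∑ x ∈ d.support, d x * ((wE m x).1 + (wE m x).2).toNat = (μ.1 + μ.2).toNat := by
  have h1 : μ = ∑ x ∈ d.support, d x • wE m x := by
    rw [← h, Finsupp.weight_apply, Finsupp.sum]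
  have h2 : μ.1 + μ.2 = ∑ x ∈ d.support, (d x : ℤ) * ((wE m x).1 + (wE m x).2) := by
    rw [h1, Prod.fst_sum, Prod.snd_sum, ← Finset.sum_add_distrib]
    apply Finset.sum_congr rfl
    intro x _
    rw [Prod.smul_fst, Prod.smul_snd]
    simp only [nsmul_eq_mul]
    ring
  have h3 : μ.1 + μ.2 =
      ((∑ x ∈ d.support, d x * ((wE m x).1 + (wE m x).2).toNat : ℕ) : ℤ) := by
    rw [h2]
    push_cast
    apply Finset.sum_congr rfl
    intro x _
    have h4 := wE_nonneg m x
    rw [Int.toNat_of_nonneg (by linarith [h4.1, h4.2])]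
  rw [h3, Int.toNat_natCast]

theorem lamE_hom {f : SE k m} {μ : Dg} (hf : IsWeightedHomogeneous (wE m) f μ) :
    ∃ n : ℕ, lamE k m f = Polynomial.C f * Polynomial.X ^ n := by
  refine ⟨(μ.1 + μ.2).toNat, ?_⟩
  conv_lhs => rw [MvPolynomial.as_sum f]
  conv_rhs => rw [MvPolynomial.as_sum f]
  rw [map_sum, map_sum, Finset.sum_mul]
  apply Finset.sum_congr rfl
  intro d hd
  rw [lamE_mono, weight_sum (hf (MvPolynomial.mem_support_iff.1 hd))]

end Pool.Agent.LibMC34
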