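import Pool.Agent.LibMC34.BDefs

set_option autoImplicit false

/-! ROW [MC34 B3] (SHORT/MEDIUM, only Mathlib + BDefs). psi_e kills J_e. COPY of LibRG7/F3.lean with the obvious changes
 (SR k b -> SE k m, dd -> ddE, UU -> UUE, WW -> WWE, psiR -> psiE; psiE fixes the constants C a, X none and X (some (true, c, j)), so it
 fixes ddE and WWE; psiE (X (some (false, c, j))) = coefficient j of (UUE 2 * WWE c) %ₘ ddE for j < m). -/

namespace Pool.Agent.LibMC34

open MvPolynomial

variable {k : Type} [CommRing k] {m : ℕ}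

private theorem B3_psi_C (x : Kd k m) : psiE k m (C x) = C x := by
  unfold psiE
  exact MvPolynomial.eval₂Hom_C _ _ _

theorem psiE_ep : psiE k m (ep k m) = ep k m := by
  unfold psiE ep
  rw [MvPolynomial.eval₂Hom_X']

private theorem B3_psi_W (c : Fin 3) (j : ℕ) : psiE k m (We k m c j) = We k m c j := by
  unfold psiE We
  rw [MvPolynomial.eval₂Hom_X']
  exact if_pos rfl

private theorem B3_psi_U (c : Fin 3) (j : ℕ) (hj : j < m) :
    psiE k m (Ue k m c j) = ((UUE k m 2 * WWE k m c) %ₘ ddE k m).coeff j := by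
  unfold psiE Ue
  rw [MvPolynomial.eval₂Hom_X']
  change (if (false : Bool) = true then _ else if j < m then _ else _) = _
  rw [if_neg (by decide), if_pos hj]

private theorem B3_monic : (ddE k m).Monic := by
  unfold ddE
  exact Polynomial.monic_X_pow_add (Polynomial.degree_sum_fin_lt _)

private theorem B3_map_dd : (ddE k m).map (psiE k m) = ddE k m := by
  unfold ddE
  rw [Polynomial.map_add, Polynomial.map_pow, Polynomial.map_X, Polynomial.map_sum]
  congr 1
  refine Finset.sum_congr rfl fun j _ => ?_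
  rw [Polynomial.map_mul, Polynomial.map_C, Polynomial.map_pow, Polynomial.map_X, map_mul, map_pow,
    B3_psi_C, psiE_ep]

private theorem B3_map_WW (c : Fin 3) : (WWE k m c).map (psiE k m) = WWE k m c := by
  unfold WWE
  rw [Polynomial.map_sum]
  refine Finset.sum_congr rfl fun j _ => ?_
  rw [Polynomial.map_mul, Polynomial.map_C, Polynomial.map_pow, Polynomial.map_X, B3_psi_W]

private theorem B3_map_UU (c : Fin 3) :
    (UUE k m c).map (psiE k m) = (UUE k m 2 * WWE k m c) %ₘ ddE k m := by
  have h1 : (UUE k m c).map (psiE k m) = ∑ j ∈ Finset.range m,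
      Polynomial.C (((UUE k m 2 * WWE k m c) %ₘ ddE k m).coeff j) * Polynomial.X ^ j := by
    have h0 : (UUE k m c).map (psiE k m) = ∑ j ∈ Finset.range m,
        Polynomial.C (psiE k m (Ue k m c j)) * Polynomial.X ^ j := by
      unfold UUE
      rw [Polynomial.map_sum]
      refine Finset.sum_congr rfl fun j _ => ?_
      rw [Polynomial.map_mul, Polynomial.map_C, Polynomial.map_pow, Polynomial.map_X]
    rw [h0]
    refine Finset.sum_congr rfl fun j hj => ?_
    rw [B3_psi_U c j (Finset.mem_range.1 hj)]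
  rw [h1]
  obtain hs | hn := subsingleton_or_nontrivial (SE k m)
  · exact Subsingleton.elim _ _
  · have h2 : ((UUE k m 2 * WWE k m c) %ₘ ddE k m).degree < m := by
      refine lt_of_lt_of_le (Polynomial.degree_modByMonic_lt _ B3_monic) ?_
      unfold ddE
      refine (Polynomial.degree_add_le _ _).trans (max_le ?_ ?_)
      · exact Polynomial.degree_X_pow_le m
      · exact (Polynomial.degree_sum_fin_lt _).le
    generalize (UUE k m 2 * WWE k m c) %ₘ ddE k m = P at h2
    ext1 l
    rw [Polynomial.finsetSum_coeff]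
    simp only [Polynomial.coeff_C_mul, Polynomial.coeff_X_pow, mul_ite, mul_one, mul_zero]
    rw [Finset.sum_ite_eq]
    by_cases hl : l < m
    · rw [if_pos (Finset.mem_range.2 hl)]
    · rw [if_neg (fun h => hl (Finset.mem_range.1 h))]
      rw [Polynomial.coeff_eq_zero_of_degree_lt]
      exact lt_of_lt_of_le h2 (by exact_mod_cast not_lt.1 hl)

theorem psiE_rel (a c : Fin 3) (l : ℕ) : psiE k m ((relE k m a c).coeff l) = 0 := by
  have h1 : psiE k m ((relE k m a c).coeff l) = ((relE k m a c).map (psiE k m)).coeff l := by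
    rw [Polynomial.coeff_map]
  have h2 : (relE k m a c).map (psiE k m) = 0 := by
    unfold relE
    rw [Polynomial.map_modByMonic _ B3_monic, B3_map_dd, Polynomial.map_sub, Polynomial.map_mul,
      Polynomial.map_mul, B3_map_WW, B3_map_WW, B3_map_UU, B3_map_UU,
      Polynomial.modByMonic_eq_zero_iff_dvd B3_monic]
    have ha := Polynomial.modByMonic_add_div (UUE k m 2 * WWE k m a) (ddE k m)
    have hc := Polynomial.modByMonic_add_div (UUE k m 2 * WWE k m c) (ddE k m)
    refine ⟨(UUE k m 2 * WWE k m c) /ₘ ddE k m * WWE k m a -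
      (UUE k m 2 * WWE k m a) /ₘ ddE k m * WWE k m c, ?_⟩
    generalize (UUE k m 2 * WWE k m a) /ₘ ddE k m = Qa at ha ⊢
    generalize (UUE k m 2 * WWE k m c) /ₘ ddE k m = Qc at hc ⊢
    generalize (UUE k m 2 * WWE k m a) %ₘ ddE k m = Ra at ha ⊢
    generalize (UUE k m 2 * WWE k m c) %ₘ ddE k m = Rc at hc ⊢
    linear_combination ha * WWE k m c - hc * WWE k m a
  rw [h1, h2, Polynomial.coeff_zero]

theorem psiE_JE {F : SE k m} (hF : F ∈ JE k m) : psiE k m F = 0 := by
  have h1 : JE k m ≤ RingHom.ker (psiE k m) := by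
    unfold JE
    rw [Ideal.span_le]
    rintro _ ⟨a, c, l, rfl⟩
    exact psiE_rel a c l
  exact h1 hF

end Pool.Agent.LibMC34
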