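import Pool.Agent.LibMC34.BDefs

set_option autoImplicit false

/-! ROW [MC34 B4] (MEDIUM, only Mathlib + BDefs + LibRG7/Defs). Specialisation eps -> 0. ADAPT LibRG7/F2.lean (cc_rel, cc_psiR, exists_lift),
 with spE k m 0 in place of constantCoeff: map (spE 0) ddE = X^m (eps^(m-j) -> 0 as m - j >= 1), coefficients of map (spE 0) (UUE c) below m are
 X (false, c, i) = LibRG7.U (Kd k m) c i, %ₘ commutes with map (Polynomial.map_modByMonic, ddE monic: Polynomial.monic_X_pow_add
 (Polynomial.degree_sum_fin_lt _)), (f %ₘ X^m).coeff l = f.coeff l for l < m and 0 for l >= m.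
 sp0_rel_ge: degree of the remainder < m.
 sp0_psiE: two ring homs SE k m -> MvPolynomial Ix (Kd k m); MvPolynomial.ringHom_ext; on X none both are 0; on X (some y) as in F2_psiC
 (for y.1 = false, m <= y.2.2: spE 0 (rename some P) = P: spE (rename some P) = aeval (X) P = P).
 map_sp0: Ideal.map_span, image of the generators; the generators a = c give 0, (c, a) gives the negative of (a, c). -/

namespace Pool.Agent.LibMC34

open MvPolynomial

variable {k : Type} [CommRing k] {m : ℕ}

private theorem B4_monic : (ddE k m).Monic :=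
  Polynomial.monic_X_pow_add (Polynomial.degree_sum_fin_lt _)

private theorem B4_ep : spE k m 0 (ep k m) = 0 := by
  unfold spE ep
  rw [aeval_X]
  exact C_0

private theorem B4_X (y : Ix) : spE k m 0 (X (some y)) = X y := by
  unfold spE
  rw [aeval_X]

private theorem B4_map_dd :
    (ddE k m).map (spE k m 0 : SE k m →+* MvPolynomial Ix (Kd k m)) = Polynomial.X ^ m := by
  unfold ddE
  rw [Polynomial.map_add, Polynomial.map_pow, Polynomial.map_X, Polynomial.map_sum]
  rw [Finset.sum_eq_zero, add_zero]
  intro j _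
  have hj : m - (j : ℕ) ≠ 0 := by have := j.2; omega
  rw [Polynomial.map_mul, Polynomial.map_C, RingHom.coe_coe, map_mul, map_pow, B4_ep,
    zero_pow hj, mul_zero, Polynomial.C_0, zero_mul]

private theorem B4_coeff_sum (f : ℕ → MvPolynomial Ix (Kd k m)) {i : ℕ} (hi : i < m) :
    (∑ j ∈ Finset.range m, Polynomial.C (f j) * Polynomial.X ^ j).coeff i = f i := by
  rw [Polynomial.finsetSum_coeff, Finset.sum_eq_single i]
  · rw [Polynomial.coeff_C_mul_X_pow, if_pos rfl]
  · intro j _ hj
    rw [Polynomial.coeff_C_mul_X_pow, if_neg (Ne.symm hj)]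
  · intro h
    exact absurd (Finset.mem_range.2 hi) h

private theorem B4_UU (c : Fin 3) {i : ℕ} (hi : i < m) :
    ((UUE k m c).map (spE k m 0 : SE k m →+* MvPolynomial Ix (Kd k m))).coeff i =
      LibRG7.U (Kd k m) c i := by
  have h : (UUE k m c).map (spE k m 0 : SE k m →+* MvPolynomial Ix (Kd k m)) =
      ∑ j ∈ Finset.range m, Polynomial.C (LibRG7.U (Kd k m) c j) * Polynomial.X ^ j := by
    unfold UUE
    rw [Polynomial.map_sum]
    refine Finset.sum_congr rfl fun j _ => ?_
    rw [Polynomial.map_mul, Polynomial.map_C, Polynomial.map_pow, Polynomial.map_X,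
      RingHom.coe_coe]
    unfold Ue
    rw [B4_X]
    rfl
  rw [h, B4_coeff_sum _ hi]

private theorem B4_WW (c : Fin 3) {i : ℕ} (hi : i < m) :
    ((WWE k m c).map (spE k m 0 : SE k m →+* MvPolynomial Ix (Kd k m))).coeff i =
      LibRG7.W (Kd k m) c i := by
  have h : (WWE k m c).map (spE k m 0 : SE k m →+* MvPolynomial Ix (Kd k m)) =
      ∑ j ∈ Finset.range m, Polynomial.C (LibRG7.W (Kd k m) c j) * Polynomial.X ^ j := by
    unfold WWE
    rw [Polynomial.map_sum]
    refine Finset.sum_congr rfl fun j _ => ?_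
    rw [Polynomial.map_mul, Polynomial.map_C, Polynomial.map_pow, Polynomial.map_X,
      RingHom.coe_coe]
    unfold We
    rw [B4_X]
    rfl
  rw [h, B4_coeff_sum _ hi]

private theorem B4_mod (f : Polynomial (MvPolynomial Ix (Kd k m))) {l : ℕ} (hl : l < m) :
    (f %ₘ Polynomial.X ^ m).coeff l = f.coeff l := by
  conv_rhs => rw [← Polynomial.modByMonic_add_div f (Polynomial.X ^ m)]
  rw [Polynomial.coeff_add, Polynomial.coeff_X_pow_mul', if_neg (not_le.2 hl), add_zero]

private theorem B4_cc_mod (f : Polynomial (SE k m)) {l : ℕ} (hl : l < m) :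
    spE k m 0 ((f %ₘ ddE k m).coeff l) =
      (f.map (spE k m 0 : SE k m →+* MvPolynomial Ix (Kd k m))).coeff l := by
  have h : spE k m 0 ((f %ₘ ddE k m).coeff l) =
      ((f %ₘ ddE k m).map (spE k m 0 : SE k m →+* MvPolynomial Ix (Kd k m))).coeff l := by
    rw [Polynomial.coeff_map, RingHom.coe_coe]
  rw [h, Polynomial.map_modByMonic _ B4_monic, B4_map_dd, B4_mod _ hl]

private theorem B4_cc_prod (a c : Fin 3) {l : ℕ} (hl : l < m) :
    ((UUE k m a * WWE k m c).map (spE k m 0 : SE k m →+* MvPolynomial Ix (Kd k m))).coeff l =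
      ∑ p ∈ Finset.HasAntidiagonal.antidiagonal l,
        LibRG7.U (Kd k m) a p.1 * LibRG7.W (Kd k m) c p.2 := by
  rw [Polynomial.map_mul, Polynomial.coeff_mul]
  refine Finset.sum_congr rfl fun p hp => ?_
  have h := Finset.HasAntidiagonal.mem_antidiagonal.1 hp
  rw [B4_UU _ (by omega), B4_WW _ (by omega)]

theorem spE_rename (t : Kd k m) (P : MvPolynomial Ix (Kd k m)) : spE k m t (rename some P) = P := by
  have h : ((spE k m t).comp (rename some : MvPolynomial Ix (Kd k m) →ₐ[Kd k m] SE k m)) =
      AlgHom.id (Kd k m) _ := by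
    refine MvPolynomial.algHom_ext fun y => ?_
    rw [AlgHom.comp_apply, rename_X, AlgHom.id_apply]
    unfold spE
    rw [aeval_X]
  have h2 := congrArg (fun g : MvPolynomial Ix (Kd k m) →ₐ[Kd k m] MvPolynomial Ix (Kd k m) => g P) h
  exact h2

theorem sp0_rel (a c : Fin 3) {l : ℕ} (hl : l < m) :
    spE k m 0 ((relE k m a c).coeff l) = LibRG7.mn (Kd k m) a c l := by
  unfold relE
  rw [B4_cc_mod _ hl, Polynomial.map_sub, Polynomial.coeff_sub, B4_cc_prod _ _ hl,
    B4_cc_prod _ _ hl]
  unfold LibRG7.mn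
  rw [Finset.sum_sub_distrib]

theorem relE_ge (a c : Fin 3) {l : ℕ} (hl : m ≤ l) : (relE k m a c).coeff l = 0 := by
  rcases subsingleton_or_nontrivial (SE k m) with h0 | h0
  · exact Subsingleton.elim _ _
  · refine Polynomial.coeff_eq_zero_of_degree_lt ?_
    have h1 := Polynomial.degree_modByMonic_lt (UUE k m a * WWE k m c - UUE k m c * WWE k m a)
      (B4_monic (k := k) (m := m))
    have h2 : (ddE k m).degree = (m : WithBot ℕ) := by
      have h3 : (Polynomial.X ^ m : Polynomial (SE k m)).degree = (m : WithBot ℕ) :=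
        Polynomial.degree_X_pow m
      unfold ddE
      rw [Polynomial.degree_add_eq_left_of_degree_lt, h3]
      rw [h3]
      exact Polynomial.degree_sum_fin_lt _
    rw [h2] at h1
    exact lt_of_lt_of_le h1 (Nat.cast_le.2 hl)

theorem sp0_psiE (F : SE k m) :
    spE k m 0 (psiE k m F) = LibRG7.psi (Kd k m) m m (spE k m 0 F) := by
  have h : ((spE k m 0 : SE k m →+* MvPolynomial Ix (Kd k m)).comp (psiE k m)) =
      (LibRG7.psi (Kd k m) m m : MvPolynomial Ix (Kd k m) →+* MvPolynomial Ix (Kd k m)).comp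
        (spE k m 0 : SE k m →+* MvPolynomial Ix (Kd k m)) := by
    refine MvPolynomial.ringHom_ext ?_ ?_
    · intro r
      rw [RingHom.comp_apply, RingHom.comp_apply]
      unfold psiE
      rw [coe_eval₂Hom, eval₂_C, RingHom.coe_coe, RingHom.coe_coe]
      have h1 : spE k m 0 (C r) = C r := (spE k m 0).commutes r
      have h2 : LibRG7.psi (Kd k m) m m (C r) = C r := (LibRG7.psi (Kd k m) m m).commutes r
      rw [h1, h2]
    · intro x
      rw [RingHom.comp_apply, RingHom.comp_apply, RingHom.coe_coe, RingHom.coe_coe]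
      rcases x with _ | y
      · have h1 : psiE k m (X none) = X none := by
          unfold psiE
          rw [coe_eval₂Hom, eval₂_X]
        have h2 : spE k m 0 (X none) = 0 := B4_ep
        rw [h1, h2, map_zero]
      · have h1 : psiE k m (X (some y)) = if y.1 = true then X (some y) else
            if y.2.2 < m then ((UUE k m 2 * WWE k m y.2.1) %ₘ ddE k m).coeff y.2.2
            else rename some (LibRG7.psi (Kd k m) m m (X y)) := by
          unfold psiE
          rw [coe_eval₂Hom, eval₂_X]
        have h2 : LibRG7.psi (Kd k m) m m (X y) = if y.1 = true then X y else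
            if y.2.1 = 2 then LibRG7.nw (Kd k m) 2 y.2.2 else
            if y.2.1 = 1 then (if y.2.2 < m then LibRG7.nw (Kd k m) 1 y.2.2 else X y) else
            (if y.2.2 < m then LibRG7.nw (Kd k m) 0 y.2.2 else X y) := by
          unfold LibRG7.psi
          rw [aeval_X]
        rw [h1, B4_X]
        by_cases hy : y.1 = true
        · rw [if_pos hy, B4_X, h2, if_pos hy]
        · rw [if_neg hy]
          by_cases hb : y.2.2 < m
          · rw [if_pos hb, B4_cc_mod _ hb, B4_cc_prod _ _ hb, h2, if_neg hy]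
            obtain ⟨t, c, i⟩ := y
            fin_cases c
            · simp only [Fin.zero_eta, Fin.isValue, hb, if_true]
              rw [if_neg (by decide), if_neg (by decide)]
              rfl
            · simp only [Fin.mk_one, Fin.isValue, hb, if_true]
              rw [if_neg (by decide)]
              rfl
            · rfl
          · rw [if_neg hb, spE_rename]
  exact congrArg (fun g : SE k m →+* MvPolynomial Ix (Kd k m) => g F) h

theorem map_sp0 : (JE k m).map (spE k m 0) = LibRG7.K (Kd k m) m m := by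
  apply le_antisymm
  · unfold JE
    rw [Ideal.map_span, Ideal.span_le]
    rintro x ⟨y, ⟨a, c, l, rfl⟩, rfl⟩
    rcases lt_or_ge l m with hl | hl
    · have h0 : ∀ a c : Fin 3, LibRG7.mn (Kd k m) a c l = - LibRG7.mn (Kd k m) c a l := by
        intro a c
        unfold LibRG7.mn
        rw [← Finset.sum_neg_distrib]
        refine Finset.sum_congr rfl fun p _ => ?_
        ring
      have h1 : ∀ a : Fin 3, LibRG7.mn (Kd k m) a a l ∈ LibRG7.K (Kd k m) m m := by
        intro a
        have h2 : LibRG7.mn (Kd k m) a a l = 0 := by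
          unfold LibRG7.mn
          refine Finset.sum_eq_zero fun p _ => ?_
          ring
        rw [h2]
        exact Ideal.zero_mem _
      have h01 : LibRG7.mn (Kd k m) 0 1 l ∈ LibRG7.K (Kd k m) m m :=
        Ideal.subset_span (Or.inl (Or.inl ⟨l, hl, rfl⟩))
      have h02 : LibRG7.mn (Kd k m) 0 2 l ∈ LibRG7.K (Kd k m) m m :=
        Ideal.subset_span (Or.inl (Or.inr ⟨l, hl, rfl⟩))
      have h12 : LibRG7.mn (Kd k m) 1 2 l ∈ LibRG7.K (Kd k m) m m :=
        Ideal.subset_span (Or.inr ⟨l, hl, rfl⟩)
      have h3 : LibRG7.mn (Kd k m) a c l ∈ LibRG7.K (Kd k m) m m := by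
        fin_cases a <;> fin_cases c
        · exact h1 0
        · exact h01
        · exact h02
        · exact (h0 1 0) ▸ (Ideal.neg_mem_iff _).2 h01
        · exact h1 1
        · exact h12
        · exact (h0 2 0) ▸ (Ideal.neg_mem_iff _).2 h02
        · exact (h0 2 1) ▸ (Ideal.neg_mem_iff _).2 h12
        · exact h1 2
      rw [← sp0_rel _ _ hl] at h3
      exact h3
    · show spE k m 0 ((relE k m a c).coeff l) ∈ LibRG7.K (Kd k m) m m
      rw [relE_ge a c hl, map_zero]
      exact Ideal.zero_mem _
  · unfold LibRG7.K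
    rw [Ideal.span_le]
    rintro x ((⟨l, hl, rfl⟩ | ⟨l, hl, rfl⟩) | ⟨l, hl, rfl⟩)
    all_goals
      rw [← sp0_rel _ _ hl]
      exact Ideal.mem_map_of_mem _ (Ideal.subset_span ⟨_, _, l, rfl⟩)

end Pool.Agent.LibMC34
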