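import Pool.Agent.LibMC34.B1
import Pool.Agent.LibMC34.B2
import Pool.Agent.LibMC34.B3
import Pool.Agent.LibMC34.B4
import Pool.Agent.LibRG7.J7

set_option autoImplicit false

/-! ROW [MC34 B5] (MEDIUM, Mathlib + B1..B4 + LibRG7 J5, J7). J_e is prime; eps and eps - 1 are nonzerodivisors modulo J_e.
 spE_ker: F ≡ rename some (spE t F) modulo the ideal (ep - C (C t)): check on generators (induction on F: MvPolynomial.induction_on);
   G exists. (Cleaner: the map F ↦ F - rename some (spE t F) has values in Ideal.span {ep - C (C t)}: induction_on, product rule.)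
 mem_JE_of_psi: LibRG7.nak with lam = lamE k m, x = ep k m, L = {F | psiE F = 0}, G = the generating set of JE (lamE_hom (relE_hom ..)).
   Step: psiE F = 0 => psi (spE 0 F) = spE 0 (psiE F) = 0 => spE 0 F ∈ LibRG7.K (Kd k m) m m (LibRG7.mem_K_of_psi le_rfl; Kd k m is a domain) =
   (JE).map (spE 0) => spE 0 F = spE 0 κ, κ ∈ JE (Ideal.mem_map_iff_of_surjective, spE 0 surjective by spE_rename) => F - κ = ep * H (spE_ker, t = 0);
   ep * psiE H = psiE (ep * H) = 0 => psiE H = 0 (SE is a domain, ep = X none ≠ 0).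
 JE_prime: JE = RingHom.ker psiE, RingHom.ker_isPrime.
 not_mem: eval₂Hom / aeval e : SE k m -> SE k m, X none ↦ X none, X (some y) ↦ 0 kills all relE coefficients (UUE ↦ 0: map of relE is
   (0 * .. - 0 * ..) %ₘ .. = 0), hence JE, but not a polynomial P = rename-like element in eps alone: for P with e P = P ≠ 0.
   State for ep and ep - 1. -/

namespace Pool.Agent.LibMC34

open MvPolynomial

variable {k : Type} [CommRing k] {m : ℕ}

private theorem B5_dvd (t : Kd k m) (F : SE k m) :
    (ep k m - C t) ∣ F - rename some (spE k m t F) := by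
  have hX : ∀ x : Option Ix, (ep k m - C t) ∣ (X x : SE k m) - rename some (spE k m t (X x)) := by
    intro x
    cases x with
    | none =>
      have e : spE k m t (X none) = C t := by
        unfold spE
        rw [aeval_X]
      rw [e, rename_C]
      exact dvd_rfl
    | some y =>
      have e : spE k m t (X (some y)) = X y := by
        unfold spE
        rw [aeval_X]
      rw [e, rename_X, sub_self]
      exact dvd_zero _
  induction F using MvPolynomial.induction_on with
  | C a =>
    have e : spE k m t (C a) = C a := by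
      unfold spE
      rw [aeval_C]
      rfl
    rw [e, rename_C, sub_self]
    exact dvd_zero _
  | add p q hp hq =>
    have e : p + q - rename some (spE k m t (p + q)) =
        (p - rename some (spE k m t p)) + (q - rename some (spE k m t q)) := by
      rw [map_add, map_add]
      ring
    rw [e]
    exact dvd_add hp hq
  | mul_X p x hp =>
    have e : p * X x - rename some (spE k m t (p * X x)) =
        (p - rename some (spE k m t p)) * X x +
          rename some (spE k m t p) * (X x - rename some (spE k m t (X x))) := by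
      rw [map_mul, map_mul]
      ring
    rw [e]
    exact dvd_add (Dvd.dvd.mul_right hp _) (Dvd.dvd.mul_left (hX x) _)

private theorem B5_ep_ne [Nontrivial k] : ep k m ≠ 0 := X_ne_zero _

private theorem B5_ep_sub_ne [Nontrivial k] : ep k m - 1 ≠ 0 := by
  intro h
  have h1 : (aeval (fun _ : Option Ix => (0 : Kd k m)) : SE k m →ₐ[Kd k m] Kd k m) (ep k m - 1) = 0 := by
    rw [h, map_zero]
  have h2 : (aeval (fun _ : Option Ix => (0 : Kd k m)) : SE k m →ₐ[Kd k m] Kd k m) (ep k m) = 0 := by
    unfold ep
    rw [aeval_X]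
  rw [map_sub, map_one, h2, zero_sub, neg_eq_zero] at h1
  exact one_ne_zero h1

private theorem B5_step [IsDomain k] {F : SE k m} (hF : psiE k m F = 0) :
    ∃ H : SE k m, psiE k m H = 0 ∧ F - ep k m * H ∈ JE k m := by
  have e : LibRG7.psi (Kd k m) m m (spE k m 0 F) = 0 := by
    rw [← sp0_psiE, hF, map_zero]
  have h1 : spE k m 0 F ∈ LibRG7.K (Kd k m) m m := LibRG7.mem_K_of_psi le_rfl e
  rw [← map_sp0] at h1
  have hs : Function.Surjective (spE k m 0) := fun P => ⟨rename some P, spE_rename 0 P⟩
  obtain ⟨κ, hκ, e2⟩ := (Ideal.mem_map_iff_of_surjective (spE k m 0) hs).1 h1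
  have h3 : spE k m 0 (F - κ) = 0 := by
    rw [map_sub, e2, sub_self]
  have h4 := B5_dvd 0 (F - κ)
  rw [h3, C_0, sub_zero, map_zero, sub_zero] at h4
  obtain ⟨H, hH⟩ := h4
  refine ⟨H, ?_, ?_⟩
  · have h5 : psiE k m (ep k m * H) = 0 := by
      rw [← hH, map_sub, hF, psiE_JE hκ, sub_self]
    rw [map_mul, psiE_ep] at h5
    rcases mul_eq_zero.1 h5 with h6 | h6
    · exact absurd h6 B5_ep_ne
    · exact h6
  · rw [← hH, sub_sub_cancel]
    exact hκ

theorem spE_ker (t : Kd k m) {F : SE k m} (h : spE k m t F = 0) :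
    ∃ G, F = (ep k m - C t) * G := by
  have h1 := B5_dvd t F
  rw [h, map_zero, sub_zero] at h1
  exact h1

theorem mem_JE_of_psi [IsDomain k] {F : SE k m} (h : psiE k m F = 0) : F ∈ JE k m := by
  refine LibRG7.nak (lamE k m) lamE_eval {x | ∃ a c : Fin 3, ∃ l : ℕ, x = (relE k m a c).coeff l} ?_
    (ep k m) lamE_ep {F | psiE k m F = 0} ?_ F h
  · rintro g ⟨a, c, l, rfl⟩
    exact lamE_hom (relE_hom a c l)
  · intro F hF
    exact B5_step hF

theorem JE_prime [IsDomain k] : (JE k m).IsPrime := by
  have e : JE k m = RingHom.ker (psiE k m) := by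
    ext F
    rw [RingHom.mem_ker]
    exact ⟨psiE_JE, mem_JE_of_psi⟩
  rw [e]
  exact RingHom.ker_isPrime _

theorem ep_not_mem [IsDomain k] : ep k m ∉ JE k m := by
  intro h
  have h1 := psiE_JE h
  rw [psiE_ep] at h1
  exact B5_ep_ne h1

theorem ep_sub_one_not_mem [IsDomain k] : ep k m - 1 ∉ JE k m := by
  intro h
  have h1 := psiE_JE h
  rw [map_sub, map_one, psiE_ep] at h1
  exact B5_ep_sub_ne h1

end Pool.Agent.LibMC34
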