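import Pool.Agent.LibMC34.GDefs
import Pool.Agent.LibMC34.B5

set_option autoImplicit false

namespace Pool.Agent.LibMC34

open MvPolynomial

variable (k : Type) [CommRing k] (m v : ℕ)

/-- the weights `(s-degree, 0)` with eps -/
def wES (m : ℕ) : Option Ix → Dg := fun x => ((wE m x).1, 0)

/-- ring homs given by weighted homogeneous values of the variables preserve homogeneity -/
theorem B11_hom {σ σ' K : Type} [CommRing K] {w : σ → Dg} {w' : σ' → Dg}
    (φ : MvPolynomial σ K →ₐ[K] MvPolynomial σ' K)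
    (hφ : ∀ x, IsWeightedHomogeneous w' (φ (X x)) (w x)) (f : MvPolynomial σ K) (μ : Dg)
    (hf : IsWeightedHomogeneous w f μ) : IsWeightedHomogeneous w' (φ f) μ := by
  rw [f.as_sum, map_sum]
  refine IsWeightedHomogeneous.sum _ _ _ fun d hd => ?_
  have h1 : Finsupp.weight w d = μ := hf (mem_support_iff.1 hd)
  have h2 : φ (monomial d (coeff d f)) = C (coeff d f) * ∏ x ∈ d.support, φ (X x) ^ d x := by
    rw [monomial_eq, map_mul]
    congr 1
    · exact φ.commutes _
    · rw [Finsupp.prod, map_prod]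
      exact Finset.prod_congr rfl fun x _ => map_pow _ _ _
  rw [h2, ← h1]
  have h3 : IsWeightedHomogeneous w' (∏ x ∈ d.support, φ (X x) ^ d x) (∑ x ∈ d.support, d x • w x) :=
    IsWeightedHomogeneous.prod _ _ _ fun x _ => (hφ x).pow _
  have h4 := (isWeightedHomogeneous_C w' (coeff d f)).mul h3
  rw [zero_add] at h4
  have h5 : Finsupp.weight w d = ∑ x ∈ d.support, d x • w x := by
    rw [Finsupp.weight_apply, Finsupp.sum]
  rw [h5]
  exact h4

theorem B11_zero {σ' K : Type} [CommRing K] (w' : σ' → Dg) (μ : Dg) :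
    IsWeightedHomogeneous w' (0 : MvPolynomial σ' K) μ := isWeightedHomogeneous_zero _ _ _

/-- eps -> 0 -/
noncomputable def gsE0 [IsDomain k] : GSurj (Kd k m) (wE m) (wB m) (ep k m) where
  π := (spE k m 0 : SE k m →+* MvPolynomial Ix (Kd k m))
  sec := (rename some : MvPolynomial Ix (Kd k m) →ₐ[Kd k m] SE k m)
  π_sec := fun f => spE_rename 0 f
  hπ := B11_hom (spE k m 0) (by
    rintro (_ | x)
    · rw [spE, aeval_X]
      simp only [C_0]
      exact B11_zero _ _
    · rw [spE, aeval_X]
      exact isWeightedHomogeneous_X _ _ _)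
  hsec := B11_hom (rename some) (by
    intro x
    rw [rename_X]
    exact isWeightedHomogeneous_X _ _ _)
  π_x := by
    change spE k m 0 (X none) = 0
    rw [spE, aeval_X]
    exact C_0
  ker := fun f hf => by
    obtain ⟨G, hG⟩ := spE_ker 0 hf
    refine ⟨G, ?_⟩
    rw [hG, C_0, sub_zero]
  reg := fun f hf => (mul_eq_zero.1 hf).resolve_left (X_ne_zero _)

/-- eps -> 1 -/
noncomputable def gsE1 [IsDomain k] : GSurj (Kd k m) (wES m) (wS m) (ep k m - 1) where
  π := (spE k m 1 : SE k m →+* MvPolynomial Ix (Kd k m))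
  sec := (rename some : MvPolynomial Ix (Kd k m) →ₐ[Kd k m] SE k m)
  π_sec := fun f => spE_rename 1 f
  hπ := B11_hom (spE k m 1) (by
    rintro (_ | x)
    · rw [spE, aeval_X]
      simp only [C_1]
      exact isWeightedHomogeneous_one _ _
    · rw [spE, aeval_X]
      exact isWeightedHomogeneous_X _ _ _)
  hsec := B11_hom (rename some) (by
    intro x
    rw [rename_X]
    exact isWeightedHomogeneous_X _ _ _)
  π_x := by
    change spE k m 1 (X none - 1) = 0
    rw [map_sub, map_one, spE, aeval_X]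
    simp
  ker := fun f hf => by
    obtain ⟨G, hG⟩ := spE_ker 1 hf
    refine ⟨G, ?_⟩
    rw [hG, C_1]
  reg := fun f hf => (mul_eq_zero.1 hf).resolve_left (by
    intro h
    have h1 := congrArg (spE k m 0) h
    rw [map_sub, map_one, map_zero] at h1
    have h2 : spE k m 0 (ep k m) = 0 := by
      change spE k m 0 (X none) = 0
      rw [spE, aeval_X]
      exact C_0
    rw [h2, zero_sub, neg_eq_zero] at h1
    exact one_ne_zero h1)

/-- kill the last variable -/
noncomputable def killV : MvPolynomial (Ix ⊕ Fin (v + 1)) (Kd k m) →ₐ[Kd k m]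
    MvPolynomial (Ix ⊕ Fin v) (Kd k m) :=
  aeval (Sum.elim (fun x => X (Sum.inl x)) (Fin.lastCases 0 (fun j => X (Sum.inr j))))

noncomputable def secV : MvPolynomial (Ix ⊕ Fin v) (Kd k m) →ₐ[Kd k m]
    MvPolynomial (Ix ⊕ Fin (v + 1)) (Kd k m) :=
  rename (Sum.map id Fin.castSucc)

theorem killV_inl (x : Ix) : killV k m v (X (Sum.inl x)) = X (Sum.inl x) := by
  rw [killV, aeval_X]
  rfl

theorem killV_last : killV k m v (X (Sum.inr (Fin.last v))) = 0 := by
  rw [killV, aeval_X]
  simp

theorem killV_castSucc (j : Fin v) : killV k m v (X (Sum.inr j.castSucc)) = X (Sum.inr j) := by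
  rw [killV, aeval_X]
  simp

theorem killV_secV (f) : killV k m v (secV k m v f) = f := by
  have h : (killV k m v).comp (secV k m v) = AlgHom.id _ _ := by
    apply MvPolynomial.algHom_ext
    rintro (x | j)
    · rw [AlgHom.comp_apply, secV, rename_X]
      exact killV_inl k m v x
    · rw [AlgHom.comp_apply, secV, rename_X]
      exact killV_castSucc k m v j
  exact DFunLike.congr_fun h f

theorem sub_secV_killV (f) : ∃ g, f - secV k m v (killV k m v f) = X (Sum.inr (Fin.last v)) * g := by
  induction f using MvPolynomial.induction_on with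
  | C a =>
    refine ⟨0, ?_⟩
    have h1 : killV k m v (C a) = C a := (killV k m v).commutes a
    have h2 : secV k m v (C a) = C a := (secV k m v).commutes a
    rw [h1, h2, sub_self, mul_zero]
  | add p q hp hq =>
    obtain ⟨g, hg⟩ := hp
    obtain ⟨g', hg'⟩ := hq
    refine ⟨g + g', ?_⟩
    rw [map_add, map_add, mul_add, ← hg, ← hg']
    ring
  | mul_X p x hp =>
    obtain ⟨g, hg⟩ := hp
    have hx : ∃ g', X x - secV k m v (killV k m v (X x)) = X (Sum.inr (Fin.last v)) * g' := by
      rcases x with x | j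
      · refine ⟨0, ?_⟩
        rw [killV_inl, secV, rename_X, mul_zero]
        exact sub_self _
      · refine Fin.lastCases ?_ (fun j => ?_) j
        · refine ⟨1, ?_⟩
          rw [killV_last, map_zero, sub_zero, mul_one]
        · refine ⟨0, ?_⟩
          rw [killV_castSucc, secV, rename_X, mul_zero]
          exact sub_self _
    obtain ⟨g', hg'⟩ := hx
    refine ⟨g * X x + secV k m v (killV k m v p) * g', ?_⟩
    rw [map_mul, map_mul]
    linear_combination X x * hg + secV k m v (killV k m v p) * hg'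

noncomputable def gsV [IsDomain k] : GSurj (Kd k m) (wV m (v + 1)) (wV m v)
    (X (Sum.inr (Fin.last v))) where
  π := (killV k m v : MvPolynomial (Ix ⊕ Fin (v + 1)) (Kd k m) →+* MvPolynomial (Ix ⊕ Fin v) (Kd k m))
  sec := (secV k m v : MvPolynomial (Ix ⊕ Fin v) (Kd k m) →+* MvPolynomial (Ix ⊕ Fin (v + 1)) (Kd k m))
  π_sec := killV_secV k m v
  hπ := B11_hom (killV k m v) (by
    rintro (x | j)
    · rw [killV_inl]
      exact isWeightedHomogeneous_X _ _ _
    · refine Fin.lastCases ?_ (fun j => ?_) j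
      · rw [killV_last]
        exact B11_zero _ _
      · rw [killV_castSucc]
        exact isWeightedHomogeneous_X _ _ _)
  hsec := B11_hom (secV k m v) (by
    rintro (x | j)
    · rw [secV, rename_X]
      exact isWeightedHomogeneous_X _ _ _
    · rw [secV, rename_X]
      exact isWeightedHomogeneous_X _ _ _)
  π_x := killV_last k m v
  ker := fun f hf => by
    obtain ⟨g, hg⟩ := sub_secV_killV k m v f
    have hf' : killV k m v f = 0 := hf
    rw [hf', map_zero, sub_zero] at hg
    exact ⟨g, hg⟩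
  reg := fun f hf => (mul_eq_zero.1 hf).resolve_left (X_ne_zero _)

theorem rename_JV {f : MvPolynomial Ix (Kd k m)} (hf : f ∈ JO k m) :
    (rename Sum.inl f : MvPolynomial (Ix ⊕ Fin v) (Kd k m)) ∈ JV k m v :=
  Ideal.mem_sup_left (Ideal.mem_map_of_mem _ hf)

theorem X_mem_JV (i : Fin v) : (X (Sum.inr i) : MvPolynomial (Ix ⊕ Fin v) (Kd k m)) ∈ JV k m v :=
  Ideal.mem_sup_right (Ideal.subset_span ⟨i, rfl⟩)

theorem JV_le {R : Type} [CommRing R] (φ : MvPolynomial (Ix ⊕ Fin v) (Kd k m) →+* R) (I : Ideal R)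
    (h1 : ∀ f ∈ JO k m, φ (rename Sum.inl f) ∈ I) (h2 : ∀ i, φ (X (Sum.inr i)) ∈ I)
    {f : MvPolynomial (Ix ⊕ Fin v) (Kd k m)} (hf : f ∈ JV k m v) : φ f ∈ I := by
  have h : JV k m v ≤ I.comap φ := by
    refine sup_le (Ideal.map_le_iff_le_comap.2 fun f hf => h1 f hf) (Ideal.span_le.2 ?_)
    rintro _ ⟨i, rfl⟩
    exact h2 i
  exact h hf

theorem mem_JV_succ (f : MvPolynomial (Ix ⊕ Fin (v + 1)) (Kd k m)) :
    f ∈ JV k m (v + 1) ↔ killV k m v f ∈ JV k m v := by
  constructor
  · intro hf
    refine JV_le k m (v + 1) (killV k m v : _ →+* MvPolynomial (Ix ⊕ Fin v) (Kd k m)) _ ?_ ?_ hf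
    · intro g hg
      have h : (killV k m v).comp (rename Sum.inl) = (rename Sum.inl : MvPolynomial Ix (Kd k m) →ₐ[Kd k m] _) := by
        apply MvPolynomial.algHom_ext
        intro x
        rw [AlgHom.comp_apply, rename_X, rename_X, killV_inl]
      have h' : killV k m v (rename Sum.inl g) = rename Sum.inl g := DFunLike.congr_fun h g
      change killV k m v (rename Sum.inl g) ∈ _
      rw [h']
      exact rename_JV k m v hg
    · intro i
      refine Fin.lastCases ?_ (fun j => ?_) i
      · change killV k m v (X (Sum.inr (Fin.last v))) ∈ _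
        rw [killV_last]
        exact zero_mem _
      · change killV k m v (X (Sum.inr j.castSucc)) ∈ _
        rw [killV_castSucc]
        exact X_mem_JV k m v j
  · intro hf
    obtain ⟨g, hg⟩ := sub_secV_killV k m v f
    have h1 : f = secV k m v (killV k m v f) + X (Sum.inr (Fin.last v)) * g := by
      rw [← hg]
      ring
    rw [h1]
    refine add_mem ?_ (Ideal.mul_mem_right _ _ (X_mem_JV k m (v + 1) _))
    refine JV_le k m v (secV k m v : _ →+* MvPolynomial (Ix ⊕ Fin (v + 1)) (Kd k m)) _ ?_ ?_ hf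
    · intro g hg
      change secV k m v (rename Sum.inl g) ∈ _
      rw [secV, rename_rename]
      exact rename_JV k m (v + 1) hg
    · intro i
      change secV k m v (X (Sum.inr i)) ∈ _
      rw [secV, rename_X]
      exact X_mem_JV k m (v + 1) _

/-- base case -/
theorem mem_JV_zero (f : MvPolynomial Ix (Kd k m)) : (rename Sum.inl f : MvPolynomial (Ix ⊕ Fin 0) (Kd k m)) ∈ JV k m 0 ↔
    f ∈ JO k m := by
  constructor
  · intro hf
    have h := JV_le k m 0 ((aeval (Sum.elim X Fin.elim0) : MvPolynomial (Ix ⊕ Fin 0) (Kd k m) →ₐ[Kd k m]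
      MvPolynomial Ix (Kd k m)) : _ →+* MvPolynomial Ix (Kd k m)) (JO k m) ?_ ?_ hf
    · have h2 : (aeval (Sum.elim X Fin.elim0) : MvPolynomial (Ix ⊕ Fin 0) (Kd k m) →ₐ[Kd k m]
          MvPolynomial Ix (Kd k m)) (rename Sum.inl f) = f := by
        rw [aeval_rename]
        exact aeval_X_left_apply f
      have h3 : (aeval (Sum.elim X Fin.elim0) : MvPolynomial (Ix ⊕ Fin 0) (Kd k m) →ₐ[Kd k m]
          MvPolynomial Ix (Kd k m)) (rename Sum.inl f) ∈ JO k m := h
      rwa [h2] at h3
    · intro g hg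
      have h2 : (aeval (Sum.elim X Fin.elim0) : MvPolynomial (Ix ⊕ Fin 0) (Kd k m) →ₐ[Kd k m]
          MvPolynomial Ix (Kd k m)) (rename Sum.inl g) = g := by
        rw [aeval_rename]
        exact aeval_X_left_apply g
      change (aeval (Sum.elim X Fin.elim0) : MvPolynomial (Ix ⊕ Fin 0) (Kd k m) →ₐ[Kd k m]
          MvPolynomial Ix (Kd k m)) (rename Sum.inl g) ∈ JO k m
      rw [h2]
      exact hg
    · intro i
      exact i.elim0
  · intro hf
    exact rename_JV k m 0 hf

end Pool.Agent.LibMC34
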