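import Pool.Agent.LibMC34.B5

set_option autoImplicit false

namespace Pool.Agent.LibMC34

open MvPolynomial

theorem wB_nonneg (m : ℕ) (x : Ix) : 0 ≤ (wB m x).1 ∧ 0 ≤ (wB m x).2 := by
  unfold wB
  split_ifs with h1 h2
  · refine ⟨le_refl _, ?_⟩
    change (0 : ℤ) ≤ (m : ℤ) - x.2.2
    omega
  · refine ⟨zero_le_one, ?_⟩
    change (0 : ℤ) ≤ (m : ℤ) - x.2.2
    omega
  · exact ⟨le_refl _, zero_le_one⟩

theorem wB_ne (m : ℕ) (x : Ix) : wB m x ≠ 0 := by
  unfold wB
  split_ifs with h1 h2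
  · intro h
    have h3 : (m : ℤ) - x.2.2 = 0 := congrArg Prod.snd h
    omega
  · intro h
    have h3 : (m : ℤ) - x.2.2 = 0 := congrArg Prod.snd h
    omega
  · intro h
    have h3 : (1 : ℤ) = 0 := congrArg Prod.snd h
    omega

theorem wB_le (m : ℕ) (x : Ix) : (wB m x).1 ≤ 1 := by
  unfold wB
  split_ifs with h1 h2
  · exact zero_le_one
  · exact le_refl _
  · exact zero_le_one

theorem wB_W (m : ℕ) (c : Fin 3) (j : ℕ) : (wB m (true, c, j)).1 = 0 := by
  unfold wB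
  split_ifs with h1 h2
  · rfl
  · exact absurd rfl h2
  · rfl

theorem wB_U {m j : ℕ} (h : j < m) (c : Fin 3) : wB m (false, c, j) = (1, (m : ℤ) - j) := by
  unfold wB
  rw [if_pos h, if_neg (by simp)]

theorem wB_W' {m j : ℕ} (h : j < m) (c : Fin 3) : wB m (true, c, j) = (0, (m : ℤ) - j) := by
  unfold wB
  rw [if_pos h, if_pos rfl]

/-- nonzero homogeneous elements of K have positive s-degree -/
theorem K_pos {k : Type} [CommRing k] (m : ℕ) {f : MvPolynomial Ix k} (hf : f ∈ LibRG7.K k m m) (h0 : f ≠ 0)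
    {μ : Dg} (hμ : IsWeightedHomogeneous (wB m) f μ) : 1 ≤ μ.1 := by
  by_contra hcon
  let e : MvPolynomial Ix k →ₐ[k] MvPolynomial Ix k :=
    aeval (fun x => if x.1 = false ∧ x.2.2 < m then 0 else X x)
  have hU : ∀ c i, i < m → e (LibRG7.U k c i) = 0 := by
    intro c i hi
    simp [e, LibRG7.U, hi]
  have hK : ∀ a c l, l < m → e (LibRG7.mn k a c l) = 0 := by
    intro a c l hl
    rw [LibRG7.mn, map_sum]
    refine Finset.sum_eq_zero fun p hp => ?_
    have hp' := Finset.HasAntidiagonal.mem_antidiagonal.1 hp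
    rw [map_sub, map_mul, map_mul, hU _ _ (by omega), hU _ _ (by omega), zero_mul, zero_mul, sub_zero]
  have hK' : LibRG7.K k m m ≤ RingHom.ker (e : MvPolynomial Ix k →+* MvPolynomial Ix k) := by
    unfold LibRG7.K
    rw [Ideal.span_le]
    rintro x ((⟨l, hl, rfl⟩ | ⟨l, hl, rfl⟩) | ⟨l, hl, rfl⟩)
    · exact hK 0 1 l hl
    · exact hK 0 2 l hl
    · exact hK 1 2 l hl
  have h1 : e f = 0 := hK' hf
  have h2 : e f = f := by
    have h3 : aeval (R := k) (X : Ix → MvPolynomial Ix k) f = f := aeval_X_left_apply f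
    conv_rhs => rw [← h3]
    change eval₂ (algebraMap k (MvPolynomial Ix k)) _ f = eval₂ (algebraMap k (MvPolynomial Ix k)) _ f
    apply eval₂_congr
    intro x d hx hd
    have hw := hμ hd
    rw [Finsupp.weight_apply, Finsupp.sum] at hw
    have hw1 : ∑ y ∈ d.support, ((d y : ℤ) * (wB m y).1) = μ.1 := by
      rw [← hw, Prod.fst_sum]
      refine Finset.sum_congr rfl fun y _ => ?_
      rw [Prod.smul_fst, nsmul_eq_mul]
    rw [if_neg]
    rintro ⟨h3, h4⟩
    have h5 : (d x : ℤ) * (wB m x).1 ≤ ∑ y ∈ d.support, ((d y : ℤ) * (wB m y).1) :=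
      Finset.single_le_sum (f := fun y => (d y : ℤ) * (wB m y).1)
        (fun y _ => mul_nonneg (Int.natCast_nonneg _) (wB_nonneg m y).1) hx
    obtain ⟨b, c, j⟩ := x
    simp only at h3 h4
    subst h3
    rw [wB_U h4] at h5
    have h6 : d (false, c, j) ≠ 0 := Finsupp.mem_support_iff.1 hx
    simp only [mul_one] at h5
    omega
  exact h0 (h2.symm.trans h1)

theorem mn_map {k k' : Type} [CommRing k] [CommRing k'] (φ : k →+* k') (a c : Fin 3) (l : ℕ) :
    MvPolynomial.map φ (LibRG7.mn k a c l) = LibRG7.mn k' a c l := by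
  unfold LibRG7.mn
  rw [map_sum]
  refine Finset.sum_congr rfl fun p _ => ?_
  simp [LibRG7.U, LibRG7.W]

theorem K_map {k k' : Type} [CommRing k] [CommRing k'] (φ : k →+* k') (a b : ℕ) :
    (LibRG7.K k a b).map (MvPolynomial.map φ) = LibRG7.K k' a b := by
  apply le_antisymm
  · rw [Ideal.map_le_iff_le_comap]
    conv_lhs => unfold LibRG7.K
    rw [Ideal.span_le]
    rintro x ((⟨l, hl, rfl⟩ | ⟨l, hl, rfl⟩) | ⟨l, hl, rfl⟩)
    · change MvPolynomial.map φ (LibRG7.mn k 0 1 l) ∈ LibRG7.K k' a b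
      rw [mn_map]
      exact Ideal.subset_span (Or.inl (Or.inl ⟨l, hl, rfl⟩))
    · change MvPolynomial.map φ (LibRG7.mn k 0 2 l) ∈ LibRG7.K k' a b
      rw [mn_map]
      exact Ideal.subset_span (Or.inl (Or.inr ⟨l, hl, rfl⟩))
    · change MvPolynomial.map φ (LibRG7.mn k 1 2 l) ∈ LibRG7.K k' a b
      rw [mn_map]
      exact Ideal.subset_span (Or.inr ⟨l, hl, rfl⟩)
  · conv_lhs => unfold LibRG7.K
    rw [Ideal.span_le]
    rintro x ((⟨l, hl, rfl⟩ | ⟨l, hl, rfl⟩) | ⟨l, hl, rfl⟩)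
    · rw [← mn_map φ 0 1 l]
      exact Ideal.mem_map_of_mem _ (Ideal.subset_span (Or.inl (Or.inl ⟨l, hl, rfl⟩)))
    · rw [← mn_map φ 0 2 l]
      exact Ideal.mem_map_of_mem _ (Ideal.subset_span (Or.inl (Or.inr ⟨l, hl, rfl⟩)))
    · rw [← mn_map φ 1 2 l]
      exact Ideal.mem_map_of_mem _ (Ideal.subset_span (Or.inr ⟨l, hl, rfl⟩))

end Pool.Agent.LibMC34
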