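import Pool.Agent.LibMC34.BDefs

set_option autoImplicit false

/-! ROW [MC34 B6] (SHORT, only Mathlib + BDefs). Specialisation eps -> 1 (t = 1): (JE).map (spE 1) = JO.
 map (spE 1) (ddE) = ddO (C (X j) * ep^(m-j) ↦ C (X j) * C 1 ^ (m-j)), map (spE 1) (UUE c) = UUO c, WWE likewise; Polynomial.map_modByMonic
 (ddE monic) gives map (spE 1) (relE a c) = relO a c; Ideal.map_span. -/

namespace Pool.Agent.LibMC34

open MvPolynomial

variable {k : Type} [CommRing k] {m : ℕ}

private theorem B6_monic : (ddE k m).Monic :=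
  Polynomial.monic_X_pow_add (Polynomial.degree_sum_fin_lt _)

private theorem B6_none : (spE k m 1 : SE k m →+* MvPolynomial Ix (Kd k m)) (ep k m) = 1 := by
  show spE k m 1 (X none) = 1
  unfold spE
  rw [aeval_X]
  exact C_1

private theorem B6_some (y : Ix) :
    (spE k m 1 : SE k m →+* MvPolynomial Ix (Kd k m)) (X (some y)) = X y := by
  show spE k m 1 (X (some y)) = X y
  unfold spE
  rw [aeval_X]

private theorem B6_C (x : Kd k m) :
    (spE k m 1 : SE k m →+* MvPolynomial Ix (Kd k m)) (C x) = C x := by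
  show spE k m 1 (C x) = C x
  exact (spE k m 1).commutes x

private theorem B6_dd :
    (ddE k m).map (spE k m 1 : SE k m →+* MvPolynomial Ix (Kd k m)) = ddO k m := by
  unfold ddE ddO
  rw [Polynomial.map_add, Polynomial.map_pow, Polynomial.map_X, Polynomial.map_sum]
  congr 1
  refine Finset.sum_congr rfl fun j _ => ?_
  rw [Polynomial.map_mul, Polynomial.map_C, Polynomial.map_pow, Polynomial.map_X, map_mul,
    map_pow, B6_none, B6_C, one_pow, mul_one]

private theorem B6_UU (c : Fin 3) :
    (UUE k m c).map (spE k m 1 : SE k m →+* MvPolynomial Ix (Kd k m)) = UUO k m c := by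
  unfold UUE UUO
  rw [Polynomial.map_sum]
  refine Finset.sum_congr rfl fun j _ => ?_
  rw [Polynomial.map_mul, Polynomial.map_C, Polynomial.map_pow, Polynomial.map_X]
  unfold Ue
  rw [B6_some]

private theorem B6_WW (c : Fin 3) :
    (WWE k m c).map (spE k m 1 : SE k m →+* MvPolynomial Ix (Kd k m)) = WWO k m c := by
  unfold WWE WWO
  rw [Polynomial.map_sum]
  refine Finset.sum_congr rfl fun j _ => ?_
  rw [Polynomial.map_mul, Polynomial.map_C, Polynomial.map_pow, Polynomial.map_X]
  unfold We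
  rw [B6_some]

theorem sp1_rel (a c : Fin 3) :
    (relE k m a c).map (spE k m 1 : SE k m →+* MvPolynomial Ix (Kd k m)) = relO k m a c := by
  unfold relE relO
  rw [Polynomial.map_modByMonic _ B6_monic, B6_dd, Polynomial.map_sub, Polynomial.map_mul,
    Polynomial.map_mul, B6_UU, B6_WW, B6_UU, B6_WW]

theorem map_sp1 : (JE k m).map (spE k m 1) = JO k m := by
  unfold JE JO
  rw [Ideal.map_span]
  congr 1
  ext x
  constructor
  · rintro ⟨y, ⟨a, c, l, rfl⟩, rfl⟩
    refine ⟨a, c, l, ?_⟩
    rw [← sp1_rel, Polynomial.coeff_map]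
    rfl
  · rintro ⟨a, c, l, rfl⟩
    refine ⟨(relE k m a c).coeff l, ⟨a, c, l, rfl⟩, ?_⟩
    rw [← sp1_rel, Polynomial.coeff_map]
    rfl

end Pool.Agent.LibMC34
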