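import Pool.Agent.LibMC34.G3

set_option autoImplicit false

/-! [MC34 G6] (MEDIUM, Mathlib + G1-G3). KILL: N = preimage of N' under a graded surjection with kernel (x).
 Induction on c. c = 0: N' = bot, N = {v : pi v = 0} = x R^I: J = I, e i = wx + deg i, g i = Pi.single i x (hv_single),
 syz g = bot by reg. c + 1: (J,e,g') for N'. J^ = J + I, g^ (inl a) i = sec (g' a i), g^ (inr i) = Pi.single i x; spans N
 (v in N: pi v = sum c'_a g'_a, v - sum (sec c'_a) sec g'_a has pi = 0, ker). syz g^ -> (J -> R), z -> z o inl is injective
 (reg) with image M := {c : pi c in syz g'} (as a Submodule.comap-like submodule; define it by its carrier): IH for M with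
 (J, e), bounds [lo, d+1]; then graph2 with iota = Sum.inl (deg = Sum.elim e (wx + deg)), hs_syz. -/

namespace Pool.Agent.LibMC34

open MvPolynomial

variable {σ τ : Type} {K : Type} [CommRing K] {w : σ → Dg} {w' : τ → Dg}

private theorem G6_comb_single {I : Type} [Fintype I] [DecidableEq I] (x : MvPolynomial σ K) (c : I → MvPolynomial σ K) (i : I) :
    (∑ a, c a • (Pi.single a x : I → MvPolynomial σ K)) i = c i * x := by
  rw [Finset.sum_apply, Finset.sum_eq_single i]
  · rw [Pi.smul_apply, Pi.single_eq_same, smul_eq_mul]
  · intro b _ hb
    rw [Pi.smul_apply, Pi.single_eq_of_ne (Ne.symm hb), smul_zero]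
  · intro h; exact absurd (Finset.mem_univ _) h

theorem kill {x : MvPolynomial σ K} (S : GSurj K w w' x) {wx : Dg}
    (hx : IsWeightedHomogeneous w x wx) (h0 : 0 ≤ wx.1) (h1 : wx.1 ≤ 1) (c : ℕ) :
    ∀ (lo d : ℤ) (I : Type) [Finite I] (deg : I → Dg)
      (N : Submodule (MvPolynomial σ K) (I → MvPolynomial σ K))
      (N' : Submodule (MvPolynomial τ K) (I → MvPolynomial τ K)),
    (∀ v, v ∈ N ↔ (fun i => S.π (v i)) ∈ N') →
    (∀ i, lo ≤ (deg i).1 + wx.1 ∧ (deg i).1 + wx.1 ≤ d) →
    Good w' lo c I deg N' d → Good w lo (c + 1) I deg N d := by
  classical
  induction c with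
  | zero =>
    intro lo d I _ deg N N' hN hdeg hG
    have hN' : N' = ⊥ := hG
    letI : Fintype I := Fintype.ofFinite I
    refine ⟨I, inferInstance, fun i => wx + deg i, fun i => Pi.single i x, fun i => hv_single i hx, ?_, ?_, ?_⟩
    · intro i
      have h := hdeg i
      simp only [Prod.fst_add]
      constructor <;> omega
    · ext v
      rw [mem_span_fam, hN, hN', Submodule.mem_bot]
      constructor
      · rintro ⟨c, rfl⟩
        funext i
        rw [G6_comb_single]
        rw [map_mul, S.π_x, mul_zero]
        rfl
      · intro h
        choose c hc using fun i => S.ker (v i) (congrFun h i)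
        refine ⟨c, ?_⟩
        funext i
        rw [G6_comb_single, hc i, mul_comm]
    · show syz (fun i => Pi.single i x) = ⊥
      rw [eq_bot_iff]
      intro c hc
      rw [mem_syz] at hc
      rw [Submodule.mem_bot]
      funext i
      have h := congrFun hc i
      rw [G6_comb_single] at h
      exact S.reg _ (by rw [mul_comm]; exact h)
  | succ c ih =>
    intro lo d I _ deg N N' hN hdeg hG
    letI : Fintype I := Fintype.ofFinite I
    obtain ⟨J, fJ, e, g', hg', hb', hspan', hgood'⟩ := hG
    let gh : J ⊕ I → I → MvPolynomial σ K := Sum.elim (fun a i => S.sec (g' a i)) (fun i => Pi.single i x)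
    let eh : J ⊕ I → Dg := Sum.elim e (fun i => wx + deg i)
    have hgh : ∀ a, HV w deg (gh a) (eh a) := by
      rintro (a | i)
      · intro i
        exact S.hsec _ _ (hg' a i)
      · exact hv_single i hx
    have hcomb : ∀ (z : J ⊕ I → MvPolynomial σ K) (i : I), (∑ a, z a • gh a) i = (∑ a, z (Sum.inl a) * S.sec (g' a i)) + z (Sum.inr i) * x := by
      intro z i
      rw [Fintype.sum_sum_type, Pi.add_apply]
      congr 1
      · rw [Finset.sum_apply]
        rfl
      · exact G6_comb_single x (fun i => z (Sum.inr i)) i
    have hπcomb : ∀ (z : J ⊕ I → MvPolynomial σ K) (i : I), S.π ((∑ a, z a • gh a) i) = (∑ a, S.π (z (Sum.inl a)) • g' a) i := by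
      intro z i
      rw [hcomb, map_add, map_mul, S.π_x, mul_zero, add_zero, map_sum, Finset.sum_apply]
      refine Finset.sum_congr rfl (fun a _ => ?_)
      rw [map_mul, S.π_sec]
      rfl
    refine ⟨J ⊕ I, inferInstance, eh, gh, hgh, ?_, ?_, ?_⟩
    · rintro (a | i)
      · exact hb' a
      · have h := hdeg i
        show lo ≤ (wx + deg i).1 ∧ (wx + deg i).1 ≤ d
        simp only [Prod.fst_add]
        constructor <;> omega
    · ext v
      rw [mem_span_fam, hN, ← hspan', mem_span_fam]
      constructor
      · rintro ⟨z, rfl⟩
        refine ⟨fun a => S.π (z (Sum.inl a)), ?_⟩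
        funext i
        exact (hπcomb z i).symm
      · rintro ⟨c', hc'⟩
        have h1 : ∀ i, S.π (v i - ∑ a, S.sec (c' a) * S.sec (g' a i)) = 0 := by
          intro i
          have h2 := congrFun hc' i
          rw [Finset.sum_apply] at h2
          rw [map_sub, map_sum, ← h2, sub_eq_zero]
          refine Finset.sum_congr rfl (fun a _ => ?_)
          rw [map_mul, S.π_sec, S.π_sec]
          rfl
        choose b hb using fun i => S.ker _ (h1 i)
        refine ⟨Sum.elim (fun a => S.sec (c' a)) b, ?_⟩
        funext i
        rw [hcomb]
        simp only [Sum.elim_inl, Sum.elim_inr]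
        rw [mul_comm (b i) x, ← hb i]
        ring
    · let M : Submodule (MvPolynomial σ K) (J → MvPolynomial σ K) :=
        { carrier := {z | (fun a => S.π (z a)) ∈ syz g'}
          add_mem' := by
            intro y z hy hz
            have h := (syz g').add_mem hy hz
            have h2 : (fun a => S.π ((y + z) a)) = (fun a => S.π (y a)) + (fun a => S.π (z a)) := by
              funext a
              rw [Pi.add_apply, map_add]
              rfl
            show (fun a => S.π ((y + z) a)) ∈ syz g'
            rw [h2]
            exact h
          zero_mem' := by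
            have h2 : (fun a => S.π ((0 : J → MvPolynomial σ K) a)) = 0 := by
              funext a
              rw [Pi.zero_apply, map_zero]
              rfl
            show (fun a => S.π ((0 : J → MvPolynomial σ K) a)) ∈ syz g'
            rw [h2]
            exact (syz g').zero_mem
          smul_mem' := by
            intro r z hz
            have h := (syz g').smul_mem (S.π r) hz
            have h2 : (fun a => S.π ((r • z) a)) = S.π r • (fun a => S.π (z a)) := by
              funext a
              rw [Pi.smul_apply, smul_eq_mul, map_mul]
              rfl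
            show (fun a => S.π ((r • z) a)) ∈ syz g'
            rw [h2]
            exact h }
      have hM : ∀ z, z ∈ M ↔ (fun a => S.π (z a)) ∈ syz g' := fun z => Iff.rfl
      have hGM : Good w lo (c + 1) J e M (d + 1) := by
        refine ih lo (d + 1) J e M (syz g') hM ?_ hgood'
        intro a
        have h := hb' a
        constructor <;> omega
      refine graph2 (A := J) (I := J ⊕ I) Sum.inl (deg := eh) (Z' := M) ?_ ?_ (hs_syz hgh) hGM
      · intro y
        rw [hM, mem_syz]
        constructor
        · intro hy
          have h1 : ∀ i, S.π (∑ a, y a * S.sec (g' a i)) = 0 := by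
            intro i
            have h2 := congrFun hy i
            rw [Finset.sum_apply] at h2
            rw [map_sum]
            refine Eq.trans ?_ h2
            refine Finset.sum_congr rfl (fun a _ => ?_)
            rw [map_mul, S.π_sec]
            rfl
          choose b hb using fun i => S.ker _ (h1 i)
          refine ⟨Sum.elim y (fun i => - b i), ?_, ?_⟩
          · rw [mem_syz]
            funext i
            rw [hcomb]
            simp only [Sum.elim_inl, Sum.elim_inr]
            rw [hb i]
            show x * b i + - b i * x = 0
            ring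
          · rfl
        · rintro ⟨z, hz, rfl⟩
          rw [mem_syz] at hz
          funext i
          have h := hπcomb z i
          rw [hz] at h
          rw [← h]
          exact map_zero _
      · intro z hz h0
        rw [mem_syz] at hz
        funext q
        rcases q with a | i
        · exact h0 a
        · have h := congrFun hz i
          rw [hcomb] at h
          have h1 : (∑ a, z (Sum.inl a) * S.sec (g' a i)) = 0 :=
            Finset.sum_eq_zero (fun a _ => by rw [h0 a, zero_mul])
          rw [h1, zero_add] at h
          exact S.reg _ (by rw [mul_comm]; exact h)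

end Pool.Agent.LibMC34
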