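import Pool.Agent.LibMC34.G2

set_option autoImplicit false

/-! [MC34 G7c] (MEDIUM, Mathlib + G1, G2). SPECIALISE. Induction on c. c = 0: N = bot, N' = bot. c + 1: (J,e,g) for N,
 g' a i = pi (g a i) homogeneous (hπ), span g' = N'. syz g and syz g' satisfy the hypotheses again: x c in syz g => c in
 syz g (reg); c' in syz g' iff some c in syz g maps to c' (c := sec c'; pi (sum c_a g_a) = 0, so sum c_a g_a = x v (ker,
 coordinatewise), v in N by hreg, v = sum b_a g_a, c - x b in syz g). -/

namespace Pool.Agent.LibMC34

open MvPolynomial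

variable {σ τ : Type} {K : Type} [CommRing K] {w : σ → Dg} {w' : τ → Dg}

private theorem G7c_comb {x : MvPolynomial σ K} (S : GSurj K w w' x) {I J : Type} [Fintype J]
    (g : J → I → MvPolynomial σ K) (c : J → MvPolynomial σ K) (i : I) :
    S.π ((∑ a, c a • g a) i) = (∑ a, S.π (c a) • fun i => S.π (g a i)) i := by
  rw [Finset.sum_apply, Finset.sum_apply, map_sum]
  refine Finset.sum_congr rfl fun a _ => ?_
  simp only [Pi.smul_apply, smul_eq_mul, map_mul]

theorem special {x : MvPolynomial σ K} (S : GSurj K w w' x) (c : ℕ) :
    ∀ (lo d : ℤ) (I : Type) [Finite I] (deg : I → Dg)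
      (N : Submodule (MvPolynomial σ K) (I → MvPolynomial σ K))
      (N' : Submodule (MvPolynomial τ K) (I → MvPolynomial τ K)),
    (∀ v : I → MvPolynomial σ K, x • v ∈ N → v ∈ N) →
    (∀ v', v' ∈ N' ↔ ∃ v ∈ N, (fun i => S.π (v i)) = v') →
    Good w lo c I deg N d → Good w' lo c I deg N' d := by
  induction c with
  | zero =>
    intro lo d I _ deg N N' _ hN hG
    have hG0 : N = ⊥ := hG
    change N' = ⊥
    rw [Submodule.eq_bot_iff]
    intro v' hv'
    obtain ⟨v, hv, rfl⟩ := (hN v').mp hv'
    rw [hG0, Submodule.mem_bot] at hv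
    rw [hv]
    funext i
    simp
  | succ c ih =>
    intro lo d I _ deg N N' hreg hN hG
    obtain ⟨J, hJ, e, g, hg, he, hspan, hsyz⟩ := hG
    refine ⟨J, hJ, e, fun a i => S.π (g a i), fun a i => S.hπ _ _ (hg a i), he, ?_, ?_⟩
    · ext v'
      rw [hN, mem_span_fam]
      constructor
      · rintro ⟨c', rfl⟩
        refine ⟨∑ a, S.sec (c' a) • g a, ?_, ?_⟩
        · rw [← hspan, mem_span_fam]
          exact ⟨_, rfl⟩
        · funext i
          rw [G7c_comb]
          simp only [S.π_sec]
      · rintro ⟨v, hv, rfl⟩
        rw [← hspan, mem_span_fam] at hv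
        obtain ⟨c0, rfl⟩ := hv
        refine ⟨fun a => S.π (c0 a), ?_⟩
        funext i
        rw [G7c_comb]
    · refine ih lo (d + 1) J e (syz g) (syz fun a i => S.π (g a i)) ?_ ?_ hsyz
      · intro v hv
        rw [mem_syz'] at hv ⊢
        intro i
        apply S.reg
        rw [← hv i, Finset.mul_sum]
        refine Finset.sum_congr rfl fun a _ => ?_
        simp only [Pi.smul_apply, smul_eq_mul]
        ring
      · intro v'
        constructor
        · intro hv'
          rw [mem_syz'] at hv'
          have h1 : ∀ i, ∃ u, (∑ a, S.sec (v' a) • g a) i = x * u := by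
            intro i
            apply S.ker
            rw [G7c_comb, Finset.sum_apply, ← hv' i]
            refine Finset.sum_congr rfl fun a _ => ?_
            simp only [Pi.smul_apply, smul_eq_mul, S.π_sec]
          choose u hu using h1
          have h2 : x • u = ∑ a, S.sec (v' a) • g a := by
            funext i
            rw [hu i]
            rfl
          have h3 : u ∈ N := by
            apply hreg
            rw [h2, ← hspan, mem_span_fam]
            exact ⟨_, rfl⟩
          rw [← hspan, mem_span_fam] at h3
          obtain ⟨b, hb⟩ := h3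
          refine ⟨fun a => S.sec (v' a) - x * b a, ?_, ?_⟩
          · rw [mem_syz]
            simp only [sub_smul, Finset.sum_sub_distrib, mul_smul]
            rw [← Finset.smul_sum, hb, h2, sub_self]
          · funext a
            simp only [map_sub, map_mul, S.π_sec, S.π_x, zero_mul, sub_zero]
        · rintro ⟨v, hv, rfl⟩
          rw [mem_syz] at hv
          rw [mem_syz]
          funext i
          rw [← G7c_comb, hv]
          simp

end Pool.Agent.LibMC34
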