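import Pool.Agent.LibMC34.G2

set_option autoImplicit false

/-! [MC34 G8] (MEDIUM, Mathlib + G1, G2). BASE CHANGE from K to K' = MvPolynomial (Fin m) K (weight 0).
 Let ext : MvPolynomial sg K -> MvPolynomial sg (MvPolynomial (Fin m) K) be MvPolynomial.map C. For s : Fin m ->0 Nat let
 co s : MvPolynomial sg (MvPolynomial (Fin m) K) -> MvPolynomial sg K be the map that takes the coefficient of s in every
 coefficient (co s f = Finsupp.mapRange or MvPolynomial built from coeff; additive, co s (ext r * f) = r * co s f).
 bcN N = {v : for all s, (co s (v i))_i in N}. If N = span g then bcN N = span (ext g) (f = sum over s of monomial s times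
 ext (co s f)); syz (ext g) = bcN (syz g). Induction on c. bcN of an ideal generated by G is the ideal generated by ext G
 (bcN_ideal). IsWeightedHomogeneous.map for homogeneity. -/

namespace Pool.Agent.LibMC34

open MvPolynomial

variable {σ : Type} {K : Type} [CommRing K]

/-- coefficient of s in every coefficient -/
noncomputable def co {m : ℕ} (s : Fin m →₀ ℕ) (f : MvPolynomial σ (MvPolynomial (Fin m) K)) :
    MvPolynomial σ K := ∑ a ∈ f.support, monomial a (coeff s (coeff a f))

theorem coeff_co {m : ℕ} (s : Fin m →₀ ℕ) (f : MvPolynomial σ (MvPolynomial (Fin m) K))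
    (a : σ →₀ ℕ) : coeff a (co s f) = coeff s (coeff a f) := by
  classical
  rw [co, coeff_sum]
  simp only [coeff_monomial]
  rw [Finset.sum_ite_eq' f.support a (fun x => coeff s (coeff x f))]
  split_ifs with h
  · rfl
  · rw [notMem_support_iff.mp h, coeff_zero]

private theorem G8_co_mul {m : ℕ} (s : Fin m →₀ ℕ) (f g : MvPolynomial σ (MvPolynomial (Fin m) K)) :
    co s (f * g) = ∑ x ∈ Finset.HasAntidiagonal.antidiagonal s, co x.1 f * co x.2 g := by
  classical
  ext a
  rw [coeff_co, coeff_mul, coeff_sum, coeff_sum]
  simp only [coeff_mul, coeff_co]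
  rw [Finset.sum_comm]

private theorem G8_co_add {m : ℕ} (s : Fin m →₀ ℕ) (f g : MvPolynomial σ (MvPolynomial (Fin m) K)) :
    co s (f + g) = co s f + co s g := by
  ext a
  simp only [coeff_co, coeff_add]

private theorem G8_co_zero {m : ℕ} (s : Fin m →₀ ℕ) :
    co s (0 : MvPolynomial σ (MvPolynomial (Fin m) K)) = 0 := by
  ext a
  simp only [coeff_co, coeff_zero]

private theorem G8_co_sum {m : ℕ} (s : Fin m →₀ ℕ) {J : Type} (T : Finset J)
    (f : J → MvPolynomial σ (MvPolynomial (Fin m) K)) :
    co s (∑ a ∈ T, f a) = ∑ a ∈ T, co s (f a) := by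
  ext a
  simp only [coeff_co, coeff_sum]

private theorem G8_co_ext {m : ℕ} (s : Fin m →₀ ℕ) (r : MvPolynomial σ K) :
    co s (MvPolynomial.map (C : K →+* MvPolynomial (Fin m) K) r) = if s = 0 then r else 0 := by
  classical
  ext a
  rw [coeff_co, coeff_map, coeff_C]
  by_cases h : s = 0
  · simp [h]
  · have h' : ¬ (0 = s) := fun e => h e.symm
    simp [h, h']

private theorem G8_co_mul_ext {m : ℕ} (s : Fin m →₀ ℕ) (f : MvPolynomial σ (MvPolynomial (Fin m) K))
    (r : MvPolynomial σ K) :
    co s (f * MvPolynomial.map (C : K →+* MvPolynomial (Fin m) K) r) = co s f * r := by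
  classical
  ext a
  rw [coeff_co, coeff_mul, coeff_sum, coeff_mul]
  refine Finset.sum_congr rfl fun x _ => ?_
  rw [coeff_map, mul_comm, coeff_C_mul, coeff_co, mul_comm]

private theorem G8_ext_zero_iff {m : ℕ} (f : MvPolynomial σ (MvPolynomial (Fin m) K)) :
    f = 0 ↔ ∀ s, co s f = 0 := by
  constructor
  · intro h s
    rw [h, G8_co_zero]
  · intro h
    ext a s
    rw [← coeff_co, h s, coeff_zero, coeff_zero, coeff_zero]

private theorem G8_finite {m : ℕ} {I : Type} [Finite I]
    (v : I → MvPolynomial σ (MvPolynomial (Fin m) K)) :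
    ∃ S : Finset (Fin m →₀ ℕ), ∀ s, s ∉ S → ∀ i, co s (v i) = 0 := by
  classical
  have := Fintype.ofFinite I
  refine ⟨Finset.univ.biUnion fun i => (v i).support.biUnion fun a => (coeff a (v i)).support, ?_⟩
  intro s hs i
  ext a
  rw [coeff_co, coeff_zero]
  by_contra hne
  apply hs
  refine Finset.mem_biUnion.mpr ⟨i, Finset.mem_univ _, Finset.mem_biUnion.mpr ⟨a, ?_, ?_⟩⟩
  · rw [mem_support_iff]
    intro h0
    rw [h0, coeff_zero] at hne
    exact hne rfl
  · rw [mem_support_iff]
    exact hne

private theorem G8_decomp {m : ℕ} (S : Finset (Fin m →₀ ℕ))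
    (f : MvPolynomial σ (MvPolynomial (Fin m) K)) (hS : ∀ s, s ∉ S → co s f = 0) :
    f = ∑ s ∈ S, C (monomial s (1 : K)) *
      MvPolynomial.map (C : K →+* MvPolynomial (Fin m) K) (co s f) := by
  classical
  ext a t
  rw [coeff_sum, coeff_sum]
  have key : ∀ s ∈ S, coeff t (coeff a (C (monomial s (1 : K)) *
      MvPolynomial.map (C : K →+* MvPolynomial (Fin m) K) (co s f))) =
      if s = t then coeff t (coeff a f) else 0 := by
    intro s _
    rw [coeff_C_mul, coeff_map, mul_comm, coeff_C_mul, coeff_monomial, coeff_co]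
    split_ifs with h
    · rw [h, mul_one]
    · rw [mul_zero]
  rw [Finset.sum_congr rfl key, Finset.sum_ite_eq' S t (fun _ => coeff t (coeff a f))]
  split_ifs with h
  · rfl
  · have h2 := hS t h
    have h3 := congrArg (coeff a) h2
    rw [coeff_co, coeff_zero] at h3
    exact h3

theorem base_change (m : ℕ) {w : σ → Dg} (c : ℕ) : ∀ (lo d : ℤ) (I : Type) [Finite I]
    (deg : I → Dg) (N : Submodule (MvPolynomial σ K) (I → MvPolynomial σ K))
    (N' : Submodule (MvPolynomial σ (MvPolynomial (Fin m) K))
      (I → MvPolynomial σ (MvPolynomial (Fin m) K))),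
    (∀ v, v ∈ N' ↔ ∀ s : Fin m →₀ ℕ, (fun i => co s (v i)) ∈ N) →
    Good w lo c I deg N d → Good w lo c I deg N' d := by
  classical
  induction c with
  | zero =>
    intro lo d I _ deg N N' hN' hN
    have hN0 : N = ⊥ := hN
    show N' = ⊥
    rw [eq_bot_iff]
    intro v hv
    rw [hN'] at hv
    rw [Submodule.mem_bot]
    funext i
    rw [Pi.zero_apply, G8_ext_zero_iff]
    intro s
    have h1 := hv s
    rw [hN0, Submodule.mem_bot] at h1
    exact congrFun h1 i
  | succ c ih =>
    intro lo d I _ deg N N' hN' hN
    obtain ⟨J, hJ, e, g, hg, hd, hsp, hgood⟩ := hN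
    refine ⟨J, hJ, e, fun a i => MvPolynomial.map (C : K →+* MvPolynomial (Fin m) K) (g a i),
      ?_, hd, ?_, ?_⟩
    · intro a i x hx
      rw [coeff_map] at hx
      have hx' : coeff x (g a i) ≠ 0 := by
        intro h0
        rw [h0, map_zero] at hx
        exact hx rfl
      exact hg a i hx'
    · apply le_antisymm
      · rw [Submodule.span_le]
        rintro _ ⟨a, rfl⟩
        show _ ∈ N'
        rw [hN']
        intro s
        have hga : g a ∈ N := by
          rw [← hsp]
          exact Submodule.subset_span ⟨a, rfl⟩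
        by_cases hs : s = 0
        · have : (fun i => co s (MvPolynomial.map (C : K →+* MvPolynomial (Fin m) K) (g a i)))
              = g a := by
            funext i
            rw [G8_co_ext, if_pos hs]
          rw [this]
          exact hga
        · have : (fun i => co s (MvPolynomial.map (C : K →+* MvPolynomial (Fin m) K) (g a i)))
              = 0 := by
            funext i
            rw [G8_co_ext, if_neg hs]
            rfl
          rw [this]
          exact N.zero_mem
      · intro v hv
        rw [hN'] at hv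
        obtain ⟨S, hS⟩ := G8_finite v
        have h1 : ∀ s, ∃ c : J → MvPolynomial σ K, ∑ a, c a • g a = fun i => co s (v i) := by
          intro s
          have h2 := hv s
          rw [← hsp, mem_span_fam] at h2
          exact h2
        choose cs hcs using h1
        rw [mem_span_fam]
        refine ⟨fun a => ∑ s ∈ S, C (monomial s (1 : K)) *
          MvPolynomial.map (C : K →+* MvPolynomial (Fin m) K) (cs s a), ?_⟩
        funext i
        rw [G8_decomp S (v i) (fun s hs => hS s hs i)]
        have h3 : ∀ s, co s (v i) = ∑ a, cs s a * g a i := by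
          intro s
          have h4 := congrFun (hcs s) i
          rw [Finset.sum_apply] at h4
          rw [← h4]
          rfl
        rw [Finset.sum_apply]
        simp only [Pi.smul_apply, smul_eq_mul, Finset.sum_mul]
        rw [Finset.sum_comm]
        refine Finset.sum_congr rfl fun s _ => ?_
        rw [h3 s, map_sum, Finset.mul_sum]
        refine Finset.sum_congr rfl fun a _ => ?_
        rw [map_mul, mul_assoc]
    · refine ih lo (d + 1) J e (syz g) _ ?_ hgood
      intro v
      rw [mem_syz']
      constructor
      · intro h s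
        rw [mem_syz']
        intro i
        have h1 := congrArg (co s) (h i)
        rw [G8_co_sum, G8_co_zero] at h1
        rw [← h1]
        exact Finset.sum_congr rfl fun a _ => (G8_co_mul_ext s (v a) (g a i)).symm
      · intro h i
        rw [G8_ext_zero_iff]
        intro s
        have h1 := h s
        rw [mem_syz'] at h1
        rw [← h1 i, G8_co_sum]
        exact Finset.sum_congr rfl fun a _ => G8_co_mul_ext s (v a) (g a i)

theorem base_change_ideal (m : ℕ) {w : σ → Dg} (c : ℕ) (lo d : ℤ) (δ : Dg)
    (G : Set (MvPolynomial σ K)) (h : Good w lo c Unit (fun _ => δ) (idealSub (Ideal.span G)) d) :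
    Good w lo c Unit (fun _ => δ)
      (idealSub (Ideal.span ((fun f => MvPolynomial.map (C : K →+* MvPolynomial (Fin m) K) f) '' G)))
      d := by
  classical
  refine base_change m c lo d Unit (fun _ => δ) (idealSub (Ideal.span G)) _ ?_ h
  intro v
  rw [mem_idealSub]
  constructor
  · intro hv s
    rw [mem_idealSub]
    revert s
    show ∀ s, co s (v ()) ∈ Ideal.span G
    refine Submodule.span_induction (p := fun f _ => ∀ s, co s f ∈ Ideal.span G) ?_ ?_ ?_ ?_ hv
    · rintro _ ⟨f, hf, rfl⟩ s
      show co s (MvPolynomial.map (C : K →+* MvPolynomial (Fin m) K) f) ∈ _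
      rw [G8_co_ext]
      split_ifs
      · exact Ideal.subset_span hf
      · exact Ideal.zero_mem _
    · intro s
      rw [G8_co_zero]
      exact Ideal.zero_mem _
    · intro x y _ _ hx hy s
      rw [G8_co_add]
      exact Ideal.add_mem _ (hx s) (hy s)
    · intro r x _ hx s
      rw [smul_eq_mul, G8_co_mul]
      exact Ideal.sum_mem _ fun y _ => Ideal.mul_mem_left _ _ (hx y.2)
  · intro hv
    obtain ⟨S, hS⟩ := G8_finite v
    rw [G8_decomp S (v ()) (fun s hs => hS s hs ())]
    refine Ideal.sum_mem _ fun s _ => Ideal.mul_mem_left _ _ ?_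
    have h1 := hv s
    rw [mem_idealSub] at h1
    have h2 := Ideal.mem_map_of_mem (MvPolynomial.map (C : K →+* MvPolynomial (Fin m) K)) h1
    rw [Ideal.map_span] at h2
    exact h2

end Pool.Agent.LibMC34
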