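import Pool.Agent.LibMC34.G5b

set_option autoImplicit false

/-! [MC34 G9a] (MEDIUM, Mathlib + G1, G2, G3, G5b). POSITIVE: induction on c. c = 0 clear. c + 1: (J,e,g). If (e a).1 <= 0
 then g a is in N and homogeneous of s-degree <= 0, so g a = 0, so Pi.single a 1 in syz g. J = bad + good
 (Equiv.sumCompl, graph1 for the reindexing), elimBlock with v = 0 removes all bad indices: Good for syz (g restricted to
 good). All (e a).1 >= 1 there, and nonzero homogeneous elements of the new syz have s-degree >= 1 (a coordinate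
 c a /= 0 has weight mu - e a with nonnegative coordinates). Induction hypothesis. -/

namespace Pool.Agent.LibMC34

open MvPolynomial

variable {σ : Type} {w : σ → Dg}

private lemma G9a_weight (hw : ∀ x, 0 ≤ (w x).1 ∧ 0 ≤ (w x).2) (m : σ →₀ ℕ) :
    0 ≤ (Finsupp.weight w m).1 := by
  rw [Finsupp.weight_apply, Finsupp.sum]
  have h : (∑ a ∈ m.support, m a • w a).1 = ∑ a ∈ m.support, (m a • w a).1 := by
    exact map_sum (AddMonoidHom.fst ℤ ℤ) _ _
  rw [h]
  refine Finset.sum_nonneg fun a _ => ?_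
  rw [Prod.smul_fst]
  exact nsmul_nonneg (hw a).1 _

private lemma G9a_pos {K : Type} [Field K] (hw : ∀ x, 0 ≤ (w x).1 ∧ 0 ≤ (w x).2)
    {J : Type} {e : J → Dg} (he : ∀ a, 1 ≤ (e a).1) {v : J → MvPolynomial σ K} {μ : Dg}
    (hv : HV w e v μ) (h0 : v ≠ 0) : 1 ≤ μ.1 := by
  obtain ⟨a, ha⟩ := Function.ne_iff.1 h0
  obtain ⟨m, hm⟩ := MvPolynomial.ne_zero_iff.1 ha
  have h1 : Finsupp.weight w m = μ - e a := hv a hm
  have h2 := G9a_weight hw m
  rw [h1] at h2
  have h3 := he a
  have h4 : (μ - e a).1 = μ.1 - (e a).1 := rfl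
  omega

theorem positive {K : Type} [Field K] (hw : ∀ x, 0 ≤ (w x).1 ∧ 0 ≤ (w x).2) (hw0 : ∀ x, w x ≠ 0)
    (c : ℕ) : ∀ (lo d : ℤ) (I : Type) [Finite I] (deg : I → Dg)
      (N : Submodule (MvPolynomial σ K) (I → MvPolynomial σ K)),
    (∀ v ∈ N, ∀ μ, HV w deg v μ → v ≠ 0 → 1 ≤ μ.1) →
    Good w lo c I deg N d → Good w 1 c I deg N d := by
  classical
  induction c with
  | zero =>
    intro lo d I _ deg N _ h
    exact h
  | succ c ih =>
    intro lo d I _ deg N hN h
    obtain ⟨J, hJ, e, g, hg, hr, hs, hz⟩ := h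
    let _ := hJ
    have hgN : ∀ a, g a ∈ N := fun a => by
      rw [← hs]
      exact Submodule.subset_span ⟨a, rfl⟩
    have hbad : ∀ a, (e a).1 ≤ 0 → g a = 0 := by
      intro a ha
      by_contra h0
      have := hN (g a) (hgN a) (e a) (hg a) h0
      omega
    let p : J → Prop := fun a => (e a).1 ≤ 0
    let κ : {a // p a} ⊕ {a // ¬ p a} ≃ J := Equiv.sumCompl p
    have hinl : ∀ a : {a // p a}, κ (Sum.inl a) = (a : J) := fun a => Equiv.sumCompl_apply_inl a
    have hinr : ∀ a : {a // ¬ p a}, κ (Sum.inr a) = (a : J) := fun a => Equiv.sumCompl_apply_inr a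
    let g' : {a // ¬ p a} → I → MvPolynomial σ K := fun a => g a
    let e' : {a // ¬ p a} → Dg := fun a => e a
    let Z' : Submodule (MvPolynomial σ K) ({a // p a} ⊕ {a // ¬ p a} → MvPolynomial σ K) :=
      (syz g).map (LinearMap.funLeft (MvPolynomial σ K) (MvPolynomial σ K) κ)
    have h1 : ∀ y : {a // p a} ⊕ {a // ¬ p a} → MvPolynomial σ K,
        y ∈ Z' ↔ ∃ z ∈ syz g, (fun a => z (κ a)) = y := fun y => Submodule.mem_map
    have h2 : ∀ z ∈ syz g, (∀ a, z (κ a) = 0) → z = 0 := by
      intro z _ hz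
      funext a
      have := hz (κ.symm a)
      rwa [Equiv.apply_symm_apply] at this
    have key : ∀ y : {a // p a} ⊕ {a // ¬ p a} → MvPolynomial σ K,
        y ∈ Z' ↔ (fun b => y (Sum.inr b)) ∈ syz g' := by
      intro y
      have hsum : ∀ z : J → MvPolynomial σ K, (fun a => z (κ a)) = y →
          ∑ a, z a • g a = ∑ b, y (Sum.inr b) • g' b := by
        intro z hz
        rw [← κ.sum_comp, Fintype.sum_sum_type]
        have h3 : ∑ a : {a // p a}, z (κ (Sum.inl a)) • g (κ (Sum.inl a)) = 0 :=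
          Finset.sum_eq_zero fun a _ => by
            rw [hinl, hbad a a.2, smul_zero]
        rw [h3, zero_add]
        refine Finset.sum_congr rfl fun a _ => ?_
        have h4 : z (κ (Sum.inr a)) = y (Sum.inr a) := congrFun hz (Sum.inr a)
        rw [h4, hinr]
      rw [h1, mem_syz]
      constructor
      · rintro ⟨z, hz1, hz2⟩
        rw [← hsum z hz2]
        exact mem_syz.1 hz1
      · intro h3
        have h4 : (fun a => (fun b => y (κ.symm b)) (κ a)) = y := by
          funext a
          exact congrArg y (κ.symm_apply_apply a)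
        exact ⟨fun b => y (κ.symm b), mem_syz.2 ((hsum _ h4).trans h3), h4⟩
    have hG1 := graph1 (fun a => κ a) h1 h2 hz
    have hd : (fun a => e (κ a)) = Sum.elim (fun a : {a // p a} => e a) e' := by
      funext a
      rcases a with a | a
      · exact congrArg e (hinl a)
      · exact congrArg e (hinr a)
    rw [hd] at hG1
    have hG2 : Good w lo c {a // ¬ p a} e' (syz g') (d + 1) := by
      refine elimBlock hw hw0 {a // p a} (N := Z') (N1 := syz g') (fun x => ?_) (fun a => ?_) hG1
      · rw [key]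
        exact Iff.rfl
      · refine ⟨0, ?_⟩
        rw [key]
        exact Submodule.zero_mem _
    have he' : ∀ a : {a // ¬ p a}, 1 ≤ (e' a).1 := by
      intro a
      have h5 : ¬ (e a).1 ≤ 0 := a.2
      show 1 ≤ (e a).1
      omega
    refine ⟨{a // ¬ p a}, inferInstance, e', g', fun a => hg a, fun a => ⟨he' a, (hr a).2⟩, ?_, ?_⟩
    · rw [← hs]
      refine le_antisymm (Submodule.span_mono ?_) (Submodule.span_le.2 ?_)
      · rintro _ ⟨a, rfl⟩
        exact ⟨a, rfl⟩
      · rintro _ ⟨a, rfl⟩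
        by_cases ha : p a
        · rw [hbad a ha]
          exact Submodule.zero_mem _
        · exact Submodule.subset_span ⟨⟨a, ha⟩, rfl⟩
    · exact ih lo (d + 1) {a // ¬ p a} e' (syz g')
        (fun v _ μ hv h0 => G9a_pos hw he' hv h0) hG2

end Pool.Agent.LibMC34
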