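import Pool.Agent.LibMC34.G2

set_option autoImplicit false

/-! [MC34 G9b] (SHORT, only Mathlib + Defs). FORGET: induction on c;
 IsWeightedHomogeneous w f nu -> IsWeightedHomogeneous (fun x => ((w x).1, 0)) f (nu.1, 0)
 (the weight of a monomial m is the sum of m x times w x, Finsupp.weight_apply; apply Prod.fst). -/

namespace Pool.Agent.LibMC34

open MvPolynomial

variable {σ : Type} {w : σ → Dg}

private theorem G9b_weight (m : σ →₀ ℕ) :
    Finsupp.weight (fun x => ((w x).1, (0 : ℤ))) m = ((Finsupp.weight w m).1, (0 : ℤ)) := by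
  rw [Finsupp.weight_apply, Finsupp.weight_apply, Finsupp.sum, Finsupp.sum]
  ext
  · simp [Prod.fst_sum]
  · simp [Prod.snd_sum]

private theorem G9b_hom {K : Type} [CommRing K] {f : MvPolynomial σ K} {ν : Dg}
    (h : IsWeightedHomogeneous w f ν) :
    IsWeightedHomogeneous (fun x => ((w x).1, (0 : ℤ))) f (ν.1, (0 : ℤ)) := by
  intro m hm
  have := h hm
  rw [G9b_weight, this]

private theorem G9b_HV {K : Type} [CommRing K] {I : Type} {deg : I → Dg}
    {v : I → MvPolynomial σ K} {μ : Dg} (h : HV w deg v μ) :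
    HV (fun x => ((w x).1, (0 : ℤ))) (fun i => ((deg i).1, (0 : ℤ))) v (μ.1, (0 : ℤ)) := by
  intro i
  have h1 := G9b_hom (h i)
  have h2 : ((μ.1, (0 : ℤ)) - ((deg i).1, (0 : ℤ)) : Dg) = ((μ - deg i).1, (0 : ℤ)) := by
    ext <;> simp
  show IsWeightedHomogeneous (fun x => ((w x).1, (0 : ℤ))) (v i)
    ((μ.1, (0 : ℤ)) - ((deg i).1, (0 : ℤ)) : Dg)
  rw [h2]
  exact h1

theorem forget {K : Type} [CommRing K] (c : ℕ) : ∀ (lo d : ℤ) (I : Type) (deg : I → Dg)
      (N : Submodule (MvPolynomial σ K) (I → MvPolynomial σ K)),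
    Good w lo c I deg N d →
    Good (fun x => ((w x).1, 0)) lo c I (fun i => ((deg i).1, 0)) N d := by
  induction c with
  | zero =>
    intro lo d I deg N h
    exact h
  | succ c ih =>
    intro lo d I deg N h
    obtain ⟨J, hJ, e, g, h1, h2, h3, h4⟩ := h
    exact ⟨J, hJ, fun a => ((e a).1, 0), g, fun a => G9b_HV (h1 a), h2, h3, ih lo (d + 1) J e (syz g) h4⟩

end Pool.Agent.LibMC34
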