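import Pool.Agent.LibMC34.B11
import Pool.Agent.LibMC34.B12
import Pool.Agent.LibMC34.B6
import Pool.Agent.LibMC34.G6
import Pool.Agent.LibMC34.G7b
import Pool.Agent.LibMC34.G7c
import Pool.Agent.LibMC34.G8
import Pool.Agent.LibMC34.G9a
import Pool.Agent.LibMC34.G9b

set_option autoImplicit false

/-! B13 (helper7): assembly of block P1b on the level of the predicate Good. -/

namespace Pool.Agent.LibMC34

open MvPolynomial

theorem idealSub_map {R R' : Type} [CommRing R] [CommRing R'] (φ : R →+* R') (hφ : Function.Surjective φ)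
    (N : Ideal R) (v' : Unit → R') : v' ∈ idealSub (N.map φ) ↔ ∃ v ∈ idealSub N, (fun i => φ (v i)) = v' := by
  rw [mem_idealSub, Ideal.mem_map_iff_of_surjective _ hφ]
  constructor
  · rintro ⟨x, hx, hx'⟩
    exact ⟨fun _ => x, hx, funext fun _ => hx'⟩
  · rintro ⟨v, hv, rfl⟩
    exact ⟨v (), hv, rfl⟩

theorem good_K (k : Type) [Field k] (m : ℕ)
    (h : Good (wB m) 0 (m + m) Unit (fun _ => 0) (idealSub (LibRG7.K k m m)) 1) :
    Good (wB m) 1 (2 * m) Unit (fun _ => 0) (idealSub (LibRG7.K k m m)) 1 := by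
  rw [two_mul]
  refine positive (wB_nonneg m) (wB_ne m) _ _ _ _ _ _ ?_ h
  intro v hv μ hμ h0
  have h3 : v () ≠ 0 := fun h4 => h0 (funext fun _ => h4)
  have h4 := hμ ()
  rw [sub_zero] at h4
  exact K_pos m hv h3 h4

section
variable (k : Type) [Field k] (m v : ℕ)

theorem good_Kd (h : Good (wB m) 0 (m + m) Unit (fun _ => 0) (idealSub (LibRG7.K k m m)) 1) :
    Good (wB m) 1 (2 * m) Unit (fun _ => 0) (idealSub (LibRG7.K (Kd k m) m m)) 1 := by
  have h1 := good_K k m h
  have h2 : LibRG7.K k m m = Ideal.span (LibRG7.K k m m : Set (MvPolynomial Ix k)) := (Ideal.span_eq _).symm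
  rw [h2] at h1
  have h3 := base_change_ideal m (2 * m) 1 1 0 _ h1
  have h4 : Ideal.span ((fun f => MvPolynomial.map (C : k →+* MvPolynomial (Fin m) k) f) ''
      (LibRG7.K k m m : Set (MvPolynomial Ix k))) = LibRG7.K (Kd k m) m m :=
    K_map (C : k →+* MvPolynomial (Fin m) k) m m
  rw [h4] at h3
  exact h3

theorem JE_hom : HS (wE m) (fun _ : Unit => (0 : Dg)) (idealSub (JE k m)) := by
  refine hs_ideal_span ?_
  rintro _ ⟨a, c, l, rfl⟩
  exact ⟨_, relE_hom a c l⟩

theorem good_JE (h : Good (wB m) 1 (2 * m) Unit (fun _ => 0) (idealSub (LibRG7.K (Kd k m) m m)) 1) :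
    Good (wE m) 1 (2 * m) Unit (fun _ => 0) (idealSub (JE k m)) 1 := by
  have hp := JE_prime (k := k) (m := m)
  have hs : Function.Surjective (spE k m 0 : SE k m →+* MvPolynomial Ix (Kd k m)) := fun f => ⟨_, spE_rename 0 f⟩
  refine lift (wE_nonneg m) (gsE0 k m) (wx := (0, 1)) (isWeightedHomogeneous_X _ _ _) (by norm_num) _ _ _ _ _ _ _
    (JE_hom k m) ?_ ?_ h
  · intro v hv
    exact (hp.mem_or_mem (x := ep k m) (y := v ()) hv).resolve_left ep_not_mem
  · intro v'
    have h1 := idealSub_map _ hs (JE k m) v'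
    have h2 : (JE k m).map (spE k m 0 : SE k m →+* MvPolynomial Ix (Kd k m)) = LibRG7.K (Kd k m) m m := map_sp0
    rw [h2] at h1
    exact h1

theorem good_JO (h : Good (wB m) 1 (2 * m) Unit (fun _ => 0) (idealSub (LibRG7.K (Kd k m) m m)) 1) :
    Good (wS m) 1 (2 * m) Unit (fun _ => 0) (idealSub (JO k m)) 1 := by
  have hp := JE_prime (k := k) (m := m)
  have hs : Function.Surjective (spE k m 1 : SE k m →+* MvPolynomial Ix (Kd k m)) := fun f => ⟨_, spE_rename 1 f⟩
  have h3 := forget _ _ _ _ _ _ (good_JE k m h)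
  refine special (gsE1 k m) _ _ _ _ _ _ _ ?_ ?_ h3
  · intro v hv
    exact (hp.mem_or_mem (x := ep k m - 1) (y := v ()) hv).resolve_left ep_sub_one_not_mem
  · intro v'
    have h1 := idealSub_map _ hs (JE k m) v'
    have h2 : (JE k m).map (spE k m 1 : SE k m →+* MvPolynomial Ix (Kd k m)) = JO k m := map_sp1
    rw [h2] at h1
    exact h1

/-- reindexing by a bijection (only needed for `Ix` versus `Ix ⊕ Fin 0`) -/
theorem Good_reindex {σ τ K : Type} [CommRing K] (e : σ ≃ τ) (w : σ → Dg) (w' : τ → Dg)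
    (hw : ∀ x, w' (e x) = w x) (c : ℕ) : ∀ (lo d : ℤ) (I : Type) (deg : I → Dg)
    (N : Submodule (MvPolynomial σ K) (I → MvPolynomial σ K))
    (N' : Submodule (MvPolynomial τ K) (I → MvPolynomial τ K))
    (_ : ∀ v, v ∈ N ↔ (fun i => rename e (v i)) ∈ N') (_ : Good w lo c I deg N d), Good w' lo c I deg N' d := by
  have hh : ∀ (f : MvPolynomial σ K) (μ : Dg), IsWeightedHomogeneous w f μ →
      IsWeightedHomogeneous w' (rename e f) μ := by
    intro f μ hf
    refine B11_hom (rename e) (fun x => ?_) f μ hf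
    rw [rename_X, ← hw x]
    exact isWeightedHomogeneous_X _ _ _
  have hinv : ∀ f : MvPolynomial τ K, rename e (rename e.symm f) = f := by
    intro f
    rw [rename_rename]
    simp
  have hinv' : ∀ f : MvPolynomial σ K, rename e.symm (rename e f) = f := by
    intro f
    rw [rename_rename]
    simp
  induction c with
  | zero =>
    intro lo d I deg N N' hN h
    have h1 : N = ⊥ := h
    change N' = ⊥
    rw [Submodule.eq_bot_iff]
    intro v hv
    have h2 : (fun i => rename e.symm (v i)) ∈ N := by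
      rw [hN]
      have h3 : (fun i => rename e (rename e.symm (v i))) = v := funext fun i => hinv _
      rw [h3]
      exact hv
    rw [h1, Submodule.mem_bot] at h2
    funext i
    have h3 := congrFun h2 i
    have h4 : rename e (rename e.symm (v i)) = 0 := by
      rw [h3]
      exact map_zero _
    rw [hinv] at h4
    exact h4
  | succ c ih =>
    rintro lo d I deg N N' hN ⟨J, hJ, ed, g, h1, h2, h3, h4⟩
    refine ⟨J, hJ, ed, fun a i => rename e (g a i), fun a i => hh _ _ (h1 a i), h2, ?_, ?_⟩
    · apply le_antisymm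
      · rw [Submodule.span_le]
        rintro _ ⟨a, rfl⟩
        have h5 : g a ∈ N := h3 ▸ Submodule.subset_span ⟨a, rfl⟩
        exact (hN _).1 h5
      · intro v hv
        have h5 : (fun i => rename e.symm (v i)) ∈ N := by
          rw [hN]
          have h6 : (fun i => rename e (rename e.symm (v i))) = v := funext fun i => hinv _
          rw [h6]
          exact hv
        rw [← h3, mem_span_fam] at h5
        obtain ⟨r, hr⟩ := h5
        rw [mem_span_fam]
        refine ⟨fun a => rename e (r a), ?_⟩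
        funext i
        have h6 := congrFun hr i
        rw [Finset.sum_apply] at h6 ⊢
        have h7 := congrArg (rename e) h6
        rw [map_sum, hinv] at h7
        rw [← h7]
        refine Finset.sum_congr rfl fun a _ => ?_
        simp only [Pi.smul_apply, smul_eq_mul, map_mul]
    · refine ih _ _ _ _ _ _ ?_ h4
      intro r
      rw [mem_syz', mem_syz']
      have h5 : ∀ i, rename e (∑ a, r a * g a i) = ∑ a, rename e (r a) * rename e (g a i) := by
        intro i
        rw [map_sum]
        exact Finset.sum_congr rfl fun a _ => map_mul _ _ _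
      constructor
      · intro h6 i
        rw [← h5, h6 i, map_zero]
      · intro h6 i
        have h7 := h6 i
        rw [← h5] at h7
        have h8 := congrArg (rename e.symm) h7
        rw [hinv', map_zero] at h8
        exact h8

theorem good_JV0 (h : Good (wS m) 1 (2 * m) Unit (fun _ => 0) (idealSub (JO k m)) 1) :
    Good (wV m 0) 1 (2 * m) Unit (fun _ => 0) (idealSub (JV k m 0)) 1 := by
  refine Good_reindex (Equiv.sumEmpty Ix (Fin 0)).symm (wS m) (wV m 0) (fun x => rfl) _ _ _ _ _ _ _ ?_ h
  intro v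
  exact (mem_JV_zero k m (v ())).symm

theorem good_JV (h : Good (wS m) 1 (2 * m) Unit (fun _ => 0) (idealSub (JO k m)) 1) :
    Good (wV m v) 1 (2 * m + v) Unit (fun _ => 0) (idealSub (JV k m v)) 1 := by
  induction v with
  | zero => exact good_JV0 k m h
  | succ v ih =>
    refine kill (gsV k m v) (wx := (1, 0)) (isWeightedHomogeneous_X _ _ _) zero_le_one (le_refl _) _ _ _ _ _ _ _ ?_ ?_ ih
    · intro f
      exact mem_JV_succ k m v (f ())
    · intro i
      exact ⟨le_refl _, le_refl _⟩

theorem good_JV_of (h : Good (wB m) 0 (m + m) Unit (fun _ => 0) (idealSub (LibRG7.K k m m)) 1) :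
    Good (wV m v) 1 (2 * m + v) Unit (fun _ => 0) (idealSub (JV k m v)) 1 :=
  good_JV k m v (good_JO k m (good_Kd k m h))

end

end Pool.Agent.LibMC34
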