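import Pool.Agent.LibMC34.BDefs2

set_option autoImplicit false

/-! ROW [MC34 B7] (SHORT/MEDIUM, only Mathlib + BDefs2). Transport of resolutions along a ring isomorphism.
 Induction on c, generalizing I, deg, N, d.
 c = 0: N = ⊥ => mapS φ ⊥ = ⊥ (v with φ.symm (v i) = 0 for all i is 0).
 c + 1: from (J, e, g) take (J, (e ·).1, fun a i => φ (g a i)). span of the image family = mapS φ (span range g): ⊆: span_le, φ.symm (φ (g a i)) = g a i;
   ⊇: for v in mapS φ N: φ.symm ∘ v ∈ span (range g) = N, write it as ∑ a, c a • g a (Submodule.mem_span_range_iff_exists_fun), apply φ.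
   syz (fun a i => φ (g a i)) = mapS φ (syz g) (funext; φ.symm of ∑ a, c a * φ (g a i) is ∑ a, φ.symm (c a) * g a i). -/

namespace Pool.Agent.LibMC34

open MvPolynomial

theorem mem_mapS {R R' : Type} [CommRing R] [CommRing R'] (φ : R ≃+* R') {I : Type} (N : Submodule R (I → R))
    (v : I → R') : v ∈ mapS φ N ↔ (fun i => φ.symm (v i)) ∈ N := Iff.rfl

theorem GoodR_transport {σ K R' : Type} [CommRing K] [CommRing R'] (w : σ → Dg)
    (φ : MvPolynomial σ K ≃+* R') (H : ℤ → R' → Prop)
    (hH : ∀ (f : MvPolynomial σ K) (μ : Dg), IsWeightedHomogeneous w f μ → H μ.1 (φ f))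
    (lo : ℤ) (c : ℕ) (I : Type) (deg : I → Dg) (N : Submodule (MvPolynomial σ K) (I → MvPolynomial σ K))
    (d : ℤ) (h : Good w lo c I deg N d) :
    GoodR H lo c I (fun i => (deg i).1) (mapS φ N) d := by
  induction c generalizing I deg N d with
  | zero =>
    have h' : N = ⊥ := h
    change mapS φ N = ⊥
    subst h'
    ext v
    rw [mem_mapS, Submodule.mem_bot, Submodule.mem_bot]
    constructor
    · intro h0
      funext i
      have h1 : φ.symm (v i) = 0 := congrFun h0 i
      exact (map_eq_zero_iff φ.symm φ.symm.injective).1 h1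
    · rintro rfl
      funext i
      simp
  | succ c ih =>
    obtain ⟨J, hJ, e, g, h1, h2, h3, h4⟩ := h
    refine ⟨J, hJ, fun a => (e a).1, fun a i => φ (g a i), ?_, h2, ?_, ?_⟩
    · intro a i
      exact hH (g a i) (e a - deg i) (h1 a i)
    · apply le_antisymm
      · rw [Submodule.span_le]
        rintro _ ⟨a, rfl⟩
        change (fun i => φ.symm (φ (g a i))) ∈ N
        have h5 : (fun i => φ.symm (φ (g a i))) = g a := by
          funext i
          exact φ.symm_apply_apply (g a i)
        rw [h5, ← h3]
        exact Submodule.subset_span ⟨a, rfl⟩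
      · intro v hv
        have hv' : (fun i => φ.symm (v i)) ∈ Submodule.span (MvPolynomial σ K) (Set.range g) := by
          rw [h3]
          exact hv
        obtain ⟨c', hc'⟩ := (Submodule.mem_span_range_iff_exists_fun _).1 hv'
        rw [Submodule.mem_span_range_iff_exists_fun]
        refine ⟨fun a => φ (c' a), ?_⟩
        funext i
        have h6 := congrFun hc' i
        simp only [Finset.sum_apply, Pi.smul_apply, smul_eq_mul] at h6 ⊢
        rw [← φ.apply_symm_apply (v i), ← h6, map_sum]
        refine Finset.sum_congr rfl (fun a _ => ?_)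
        rw [map_mul]
    · have hs : syz (fun a i => φ (g a i)) = mapS φ (syz g) := by
        ext c
        rw [mem_mapS]
        change (∑ a, c a • (fun i => φ (g a i)) = 0) ↔ (∑ a, φ.symm (c a) • g a = 0)
        constructor
        · intro h5
          funext i
          have h6 := congrArg φ.symm (congrFun h5 i)
          simp only [Finset.sum_apply, Pi.smul_apply, smul_eq_mul, map_sum, map_mul,
            Pi.zero_apply, map_zero, RingEquiv.symm_apply_apply] at h6 ⊢
          exact h6
        · intro h5
          funext i
          have h6 := congrArg φ (congrFun h5 i)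
          simp only [Finset.sum_apply, Pi.smul_apply, smul_eq_mul, map_sum, map_mul,
            Pi.zero_apply, map_zero, RingEquiv.apply_symm_apply] at h6 ⊢
          exact h6
      rw [hs]
      exact ih J e (syz g) (d + 1) h4

/-- the image of an ideal -/
theorem mapS_idealSub {R R' : Type} [CommRing R] [CommRing R'] (φ : R ≃+* R') (N : Ideal R) :
    mapS φ (idealSub N) = idealSub (N.map (φ : R →+* R')) := by
  ext v
  change φ.symm (v ()) ∈ N ↔ v () ∈ N.map (φ : R →+* R')
  constructor
  · intro h
    have h1 := Ideal.mem_map_of_mem (φ : R →+* R') h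
    have h2 : (φ : R →+* R') (φ.symm (v ())) = v () := φ.apply_symm_apply (v ())
    rw [h2] at h1
    exact h1
  · intro h
    have h1 : N.map (φ : R →+* R') ≤ N.comap (φ.symm : R' →+* R) := by
      rw [Ideal.map_le_iff_le_comap]
      intro x hx
      rw [Ideal.mem_comap, Ideal.mem_comap]
      have h2 : (φ.symm : R' →+* R) ((φ : R →+* R') x) = x := φ.symm_apply_apply x
      rw [h2]
      exact hx
    exact h1 h

end Pool.Agent.LibMC34
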