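import Pool.Agent.LibMC34.BDefs2

set_option autoImplicit false

/-! ROW [MC34 B8] (MEDIUM, only Mathlib + BDefs2). From the predicate GoodR to an explicit complex GCx.
 Private structure Tl (D K I) (deg : I → ℕ) (N : Submodule R (I → R)) (c : ℕ) (d : ℕ), R = MvPolynomial D K (a Type-valued structure, use Nonempty):
   ix : ℕ → Type, fin : ∀ j, Fintype (ix j), e : ∀ j, ix j → ℕ, pos : 1 ≤ e j a, le : e j a ≤ d + j,
   g : Matrix I (ix 0) R, φ : ∀ j, Matrix (ix j) (ix (j+1)) R,
   homg / homg0: if deg i ≤ e 0 a: (g i a).IsHomogeneous (e 0 a - deg i), if e 0 a < deg i: g i a = 0; hom, hom0 as in GCx,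
   span : Submodule.span R (Set.range fun a i => g i a) = N,
   comp0 : g * φ 0 = 0, exact0 : g.mulVec z = 0 → ∃ y, (φ 0).mulVec y = z, comp, exact as in GCx, emp : ∀ j, c ≤ j → IsEmpty (ix j).
   (I is an arbitrary type here, so write comp0, exact0 pointwise: ∀ b i, ∑ a, g i a * φ 0 a b = 0, and z with ∀ i, ∑ a, g i a * z a = 0.)
 Lemma: GoodR (Hd D K) 1 c I (fun i => (deg i : ℤ)) N d → Nonempty (Tl .. c d), (d : ℕ cast to ℤ), induction on c:
   c = 0: all ix j = Empty (PEmpty), N = ⊥.
   c + 1: (J, e, g) and the Tl for (J, e.toNat, syz g, c, d + 1) [e a ≥ 1, so e a = ((e a).toNat : ℤ)]: new ix := fun | 0 => J | j+1 => ix j, etc.,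
   new g i a := g a i, new φ 0 a b := tail.g a b, new φ (j+1) := tail.φ j; comp0, exact0 from span = syz g
   (Submodule.mem_span_range_iff_exists_fun); everything by cases on j (definitional).
 gcx_of_GoodR: ix := fun | 0 => Unit | j+1 => Tl.ix j, e 0 = 0, φ 0 := g, with deg = 0, N = idealSub N, d = 1;
   F.ideal = Ideal.span (range fun b => g () b) = N from span = idealSub N (evaluate at ()). -/

namespace Pool.Agent.LibMC34

open MvPolynomial

/-- explicit resolution of a submodule of `R^I` -/
private structure B8Tl (D K I : Type) [CommRing K] (deg : I → ℕ)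
    (N : Submodule (MvPolynomial D K) (I → MvPolynomial D K)) (c d : ℕ) where
  ix : ℕ → Type
  fin : ∀ j, Fintype (ix j)
  e : ∀ j, ix j → ℕ
  pos : ∀ j a, 1 ≤ e j a
  le : ∀ j a, e j a ≤ d + j
  g : ix 0 → I → MvPolynomial D K
  homg : ∀ a i, deg i ≤ e 0 a → (g a i).IsHomogeneous (e 0 a - deg i)
  homg0 : ∀ a i, e 0 a < deg i → g a i = 0
  φ : ∀ j, Matrix (ix j) (ix (j + 1)) (MvPolynomial D K)
  hom : ∀ j a b, e j a ≤ e (j + 1) b → (φ j a b).IsHomogeneous (e (j + 1) b - e j a)
  hom0 : ∀ j a b, e (j + 1) b < e j a → φ j a b = 0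
  span : Submodule.span (MvPolynomial D K) (Set.range g) = N
  ker0 : Submodule.span (MvPolynomial D K) (Set.range fun b a => φ 0 a b) = syz g
  ker : ∀ j, Submodule.span (MvPolynomial D K) (Set.range fun b a => φ (j + 1) a b) =
    syz (fun b a => φ j a b)
  emp : ∀ j, c ≤ j → IsEmpty (ix j)

attribute [local instance] B8Tl.fin

private theorem B8_nonempty (D K : Type) [CommRing K] (c : ℕ) : ∀ (I : Type) (deg : I → ℕ)
    (N : Submodule (MvPolynomial D K) (I → MvPolynomial D K)) (d : ℕ),
    GoodR (Hd D K) 1 c I (fun i => (deg i : ℤ)) N (d : ℤ) → Nonempty (B8Tl D K I deg N c d) := by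
  induction c with
  | zero =>
    intro I deg N d h
    have h0 : N = ⊥ := h
    refine ⟨{
      ix := fun _ => Empty
      fin := fun _ => inferInstance
      e := fun _ a => a.elim
      pos := fun _ a => a.elim
      le := fun _ a => a.elim
      g := fun a => a.elim
      homg := fun a => a.elim
      homg0 := fun a => a.elim
      φ := fun _ a => a.elim
      hom := fun _ a => a.elim
      hom0 := fun _ a => a.elim
      span := ?_
      ker0 := ?_
      ker := fun _ => ?_
      emp := fun _ _ => inferInstance }⟩
    · rw [Set.range_eq_empty, Submodule.span_empty, h0]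
    · ext x
      have hx : x = 0 := Subsingleton.elim _ _
      rw [hx]
      exact ⟨fun _ => Submodule.zero_mem _, fun _ => Submodule.zero_mem _⟩
    · ext x
      have hx : x = 0 := Subsingleton.elim _ _
      rw [hx]
      exact ⟨fun _ => Submodule.zero_mem _, fun _ => Submodule.zero_mem _⟩
  | succ c ih =>
    intro I deg N d h
    obtain ⟨J, hJ, e, g, h1, h2, h3, h4⟩ := h
    obtain ⟨e', rfl⟩ : ∃ e' : J → ℕ, e = fun a => (e' a : ℤ) := by
      refine ⟨fun a => (e a).toNat, ?_⟩
      funext a
      exact (Int.toNat_of_nonneg (le_trans zero_le_one (h2 a).1)).symm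
    have h5 : GoodR (Hd D K) 1 c J (fun a => (e' a : ℤ)) (syz g) ((d + 1 : ℕ) : ℤ) := by
      rw [Nat.cast_add, Nat.cast_one]
      exact h4
    obtain ⟨t⟩ := ih J e' (syz g) (d + 1) h5
    exact ⟨{
      ix := fun j => match j with
        | 0 => J
        | j + 1 => t.ix j
      fin := fun j => match j with
        | 0 => hJ
        | j + 1 => t.fin j
      e := fun j => match j with
        | 0 => e'
        | j + 1 => t.e j
      pos := fun j => match j with
        | 0 => fun a => by
            have h6 : (1 : ℤ) ≤ (e' a : ℤ) := (h2 a).1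
            show 1 ≤ e' a
            omega
        | j + 1 => fun a => t.pos j a
      le := fun j => match j with
        | 0 => fun a => by
            have h6 : (e' a : ℤ) ≤ (d : ℤ) := (h2 a).2
            show e' a ≤ d + 0
            omega
        | j + 1 => fun a => by
            have := t.le j a
            show t.e j a ≤ d + (j + 1)
            omega
      g := g
      homg := fun a i hai => by
        have h6 := (h1 a i).1 (by
          have : (deg i : ℤ) ≤ (e' a : ℤ) := by exact_mod_cast hai
          dsimp only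
          omega)
        have h7 : ((fun a => (e' a : ℤ)) a - (deg i : ℤ)).toNat = e' a - deg i := by
          dsimp only
          omega
        rw [h7] at h6
        exact h6
      homg0 := fun a i hai => (h1 a i).2 (by
        have : (e' a : ℤ) < (deg i : ℤ) := by exact_mod_cast hai
        dsimp only
        omega)
      φ := fun j => match j with
        | 0 => fun a b => t.g b a
        | j + 1 => t.φ j
      hom := fun j => match j with
        | 0 => fun a b hab => t.homg b a hab
        | j + 1 => t.hom j
      hom0 := fun j => match j with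
        | 0 => fun a b hab => t.homg0 b a hab
        | j + 1 => t.hom0 j
      span := h3
      ker0 := t.span
      ker := fun j => match j with
        | 0 => t.ker0
        | j + 1 => t.ker j
      emp := fun j => match j with
        | 0 => fun hj => absurd hj (by omega)
        | j + 1 => fun hj => t.emp j (by omega) }⟩

private theorem B8_mul {R : Type} [CommRing R] {A B C : Type} [Fintype B] [Fintype C]
    (φ : Matrix A B R) (ψ : Matrix B C R)
    (h : Submodule.span R (Set.range fun c b => ψ b c) = syz (fun b a => φ a b)) : φ * ψ = 0 := by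
  ext a c
  have h1 : (fun b => ψ b c) ∈ syz (fun b a => φ a b) := by
    rw [← h]
    exact Submodule.subset_span ⟨c, rfl⟩
  have h2 : ∑ b, (ψ b c) • (fun a => φ a b) = 0 := h1
  have h3 := congrFun h2 a
  rw [Finset.sum_apply] at h3
  rw [Matrix.mul_apply, Matrix.zero_apply]
  rw [Pi.zero_apply] at h3
  rw [← h3]
  exact Finset.sum_congr rfl fun b _ => mul_comm _ _

private theorem B8_exact {R : Type} [CommRing R] {A B C : Type} [Fintype B] [Fintype C]
    (φ : Matrix A B R) (ψ : Matrix B C R)
    (h : Submodule.span R (Set.range fun c b => ψ b c) = syz (fun b a => φ a b))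
    (z : B → R) (hz : φ.mulVec z = 0) : ∃ y : C → R, ψ.mulVec y = z := by
  have h1 : z ∈ syz (fun b a => φ a b) := by
    show ∑ b, z b • (fun a => φ a b) = 0
    funext a
    rw [Finset.sum_apply]
    have h2 := congrFun hz a
    rw [Pi.zero_apply] at h2 ⊢
    rw [← h2]
    exact Finset.sum_congr rfl fun b _ => mul_comm _ _
  rw [← h, Submodule.mem_span_range_iff_exists_fun] at h1
  obtain ⟨y, hy⟩ := h1
  refine ⟨y, ?_⟩
  rw [← hy]
  funext b
  rw [Finset.sum_apply]
  exact Finset.sum_congr rfl fun c _ => mul_comm _ _

theorem gcx_of_GoodR {D K : Type} [CommRing K] (c : ℕ) (N : Ideal (MvPolynomial D K))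
    (h : GoodR (Hd D K) 1 c Unit (fun _ => 0) (idealSub N) 1) :
    ∃ F : GCx D K, (∀ j, c < j → IsEmpty (F.ix j)) ∧ F.ideal = N := by
  have h0 : GoodR (Hd D K) 1 c Unit (fun i => (((fun _ => 0 : Unit → ℕ) i : ℕ) : ℤ)) (idealSub N)
      ((1 : ℕ) : ℤ) := by
    rw [Nat.cast_one]
    exact h
  obtain ⟨t⟩ := B8_nonempty D K c Unit (fun _ => 0) (idealSub N) 1 h0
  let F : GCx D K := {
    ix := fun j => match j with
      | 0 => Unit
      | j + 1 => t.ix j
    fin := fun j => match j with
      | 0 => inferInstanceAs (Fintype Unit)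
      | j + 1 => t.fin j
    uniq := inferInstanceAs (Unique Unit)
    e := fun j => match j with
      | 0 => fun _ => 0
      | j + 1 => t.e j
    e_zero := fun _ => rfl
    e_pos := t.pos
    e_le := fun j => match j with
      | 0 => fun _ => le_rfl
      | j + 1 => fun a => by
          have := t.le j a
          show t.e j a ≤ j + 1
          omega
    φ := fun j => match j with
      | 0 => fun a b => t.g b a
      | j + 1 => t.φ j
    hom := fun j => match j with
      | 0 => fun a b hab => t.homg b a hab
      | j + 1 => t.hom j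
    hom0 := fun j => match j with
      | 0 => fun a b hab => absurd hab (Nat.not_lt_zero _)
      | j + 1 => t.hom0 j
    comp := fun j => match j with
      | 0 => B8_mul (fun a b => t.g b a) (t.φ 0) t.ker0
      | j + 1 => B8_mul (t.φ j) (t.φ (j + 1)) (t.ker j)
    exact := fun j => match j with
      | 0 => fun z hz => B8_exact (fun a b => t.g b a) (t.φ 0) t.ker0 z hz
      | j + 1 => fun z hz => B8_exact (t.φ j) (t.φ (j + 1)) (t.ker j) z hz }
  refine ⟨F, ?_, ?_⟩
  · intro j hj
    match j, hj with
    | 0, hj => exact absurd hj (Nat.not_lt_zero _)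
    | j + 1, hj => exact t.emp j (by omega)
  · have h1 : F.ideal = Ideal.span (Set.range fun b : t.ix 0 => t.g b ()) := rfl
    rw [h1]
    ext x
    have h2 : x ∈ N ↔ (fun _ : Unit => x) ∈ Submodule.span (MvPolynomial D K) (Set.range t.g) := by
      rw [t.span]
      exact Iff.rfl
    rw [h2, Submodule.mem_span_range_iff_exists_fun,
      Submodule.mem_span_range_iff_exists_fun]
    constructor
    · rintro ⟨y, hy⟩
      refine ⟨y, ?_⟩
      funext u
      rw [Finset.sum_apply, ← hy]
      rfl
    · rintro ⟨y, hy⟩
      refine ⟨y, ?_⟩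
      have h3 := congrFun hy ()
      rw [Finset.sum_apply] at h3
      exact h3

end Pool.Agent.LibMC34
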