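import Pool.Agent.LibMC34.B13
import Pool.Agent.LibMC34.B7
import Pool.Agent.LibMC34.B8
import Pool.Agent.LibMC34.B10
import Pool.Agent.LibMC34.A7

set_option autoImplicit false

/-! B14 (helper7): block P1 from P1a and the rows B. -/

namespace Pool.Agent.LibMC34

open MvPolynomial

theorem Wok_wB (m : ℕ) : Wok (wB m) := ⟨wB_nonneg m, wB_ne m, wB_le m, wB_W m⟩

theorem Cp_wB (m : ℕ) (a c : Fin 3) : Cp (wB m) a c m := by
  intro l hl
  refine ⟨(1, 2 * (m : ℤ) - l), fun i j hij => ?_⟩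
  rw [wB_U (by omega), wB_W' (by omega), wB_U (by omega), wB_W' (by omega)]
  constructor
  · refine Prod.ext ?_ ?_
    · change (1 : ℤ) + 0 = 1
      norm_num
    · change ((m : ℤ) - i) + ((m : ℤ) - j) = 2 * m - l
      omega
  · refine Prod.ext ?_ ?_
    · change (1 : ℤ) + 0 = 1
      norm_num
    · change ((m : ℤ) - i) + ((m : ℤ) - j) = 2 * m - l
      omega

theorem good_K0 (k : Type) [Field k] (m : ℕ) :
    Good (wB m) 0 (m + m) Unit (fun _ => 0) (idealSub (LibRG7.K k m m)) 1 := by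
  have h := P1a k (le_refl m) (Wok_wB m) ⟨Cp_wB m 0 1, Cp_wB m 0 2, Cp_wB m 1 2⟩ (0 : Dg)
  exact h

/-- Block P1 (statement of Iface.block_P1; valid for every m) -/
theorem P1_main (k : Type) [Field k] (m v : ℕ) :
    ∃ F : GCx (T m ⊕ Fin v) (K1 k m), (∀ j, 2 * m + v < j → IsEmpty (F.ix j)) ∧
      F.ideal = idS m v (pK k m) (wpK k m) := by
  have h1 := good_JV_of k m v (good_K0 k m)
  have h2 := GoodR_transport (wV m v) (phiV m v k) (Hd (T m ⊕ Fin v) (K1 k m)) (phiV_hom k m v) 1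
    (2 * m + v) Unit (fun _ => 0) _ 1 h1
  rw [mapS_idealSub, map_JV] at h2
  exact gcx_of_GoodR _ _ h2

end Pool.Agent.LibMC34
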