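import Pool.Agent.LibMC34.BDefs2

set_option autoImplicit false

/-! ROW [MC34 B9] (MEDIUM, only Mathlib + BDefs2). The final isomorphism phiV.
 Values (phiV_C, phiV_U, phiV_J, phiV_V): rename_X, sumAlgEquiv / sumToIter (MvPolynomial.sumToIter_C, sumToIter_Xl, sumToIter_Xr);
   K1 k m is a def for MvPolynomial (Jk m) (MvPolynomial (Fin m) k) (use change / show).
 phiV_hom: f = sum over the support of monomial d (coeff d f), phiV (monomial d a) = phiV (C a) * ∏ x, phiV (X x) ^ d x is homogeneous of degree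
   n(d) = sum of d x over the x with phiV (X x) = X _ (weight (1, 0)), the other factors are constants C _ (degree 0), and (n(d) : ℤ) = (weight d).1 = μ.1
   for d in the support (all (wV m v x).1 are 0 or 1). IsHomogeneous.sum / .mul / .pow / isHomogeneous_X / isHomogeneous_C. μ.1 < 0: no d in the
   support, f = 0. [(wV m v (inl x)).1 = (wB m x).1 = 1 iff x.1 = false ∧ x.2.2 < m.] -/

namespace Pool.Agent.LibMC34

open MvPolynomial

variable (k : Type) [CommRing k] (m v : ℕ)

private theorem b9_phi (f : MvPolynomial (Ix ⊕ Fin v) (Kd k m)) :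
    phiV m v k f = (show MvPolynomial (T m ⊕ Fin v) (K1 k m) from
      (sumAlgEquiv (Kd k m) (T m ⊕ Fin v) (Jk m) (rename (eqV m v) f) :
        MvPolynomial (T m ⊕ Fin v) (MvPolynomial (Jk m) (MvPolynomial (Fin m) k)))) := rfl

theorem phiV_C (a : Kd k m) : phiV m v k (C a) = C (show K1 k m from (C a : MvPolynomial (Jk m) (MvPolynomial (Fin m) k))) := by
  rw [b9_phi, rename_C, sumAlgEquiv_C_inl]
  rfl

theorem phiV_U (c : Fin 3) (i : Fin m) :
    phiV m v k (X (Sum.inl (false, c, (i : ℕ)))) = X (Sum.inl (c, i)) := by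
  have h : eqV m v (Sum.inl (false, c, (i : ℕ))) = Sum.inl (Sum.inl (c, i)) :=
    (eqV m v).apply_symm_apply (Sum.inl (Sum.inl (c, i)))
  rw [b9_phi, rename_X, h, sumAlgEquiv_X_inl]
  rfl

theorem phiV_J (x : Ix) (hx : ¬ (x.1 = false ∧ x.2.2 < m)) :
    phiV m v k (X (Sum.inl x)) = C (show K1 k m from (X ⟨x, hx⟩ : MvPolynomial (Jk m) (MvPolynomial (Fin m) k))) := by
  have h : eqV m v (Sum.inl x) = Sum.inr ⟨x, hx⟩ :=
    (eqV m v).apply_symm_apply (Sum.inr ⟨x, hx⟩)
  rw [b9_phi, rename_X, h, sumAlgEquiv_X_inr]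
  rfl

theorem phiV_V (i : Fin v) :
    phiV m v k (X (Sum.inr i)) = X (Sum.inr i) := by
  have h : eqV m v (Sum.inr i) = Sum.inl (Sum.inr i) :=
    (eqV m v).apply_symm_apply (Sum.inl (Sum.inr i))
  rw [b9_phi, rename_X, h, sumAlgEquiv_X_inl]
  rfl

private theorem b9_wJ (x : Ix) (hx : ¬ (x.1 = false ∧ x.2.2 < m)) : (wB m x).1 = 0 := by
  unfold wB
  by_cases h1 : x.2.2 < m
  · rw [if_pos h1]
    have h2 : x.1 = true := by
      by_contra h3
      exact hx ⟨by simpa using h3, h1⟩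
    simp [h2]
  · rw [if_neg h1]

private theorem b9_wU (c : Fin 3) (i : Fin m) : (wB m (false, c, (i : ℕ))).1 = 1 := by
  unfold wB
  simp

private theorem b9_var (x : Ix ⊕ Fin v) : 0 ≤ (wV m v x).1 ∧
    (phiV m v k (X x)).IsHomogeneous (wV m v x).1.toNat := by
  rcases x with x | i
  · by_cases hx : x.1 = false ∧ x.2.2 < m
    · obtain ⟨b, c, j⟩ := x
      obtain ⟨h1, h2⟩ := hx
      simp only at h1 h2
      subst h1
      have h3 : (wV m v (Sum.inl (false, c, j))).1 = 1 := b9_wU m c ⟨j, h2⟩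
      rw [h3]
      refine ⟨zero_le_one, ?_⟩
      have h4 := phiV_U k m v c ⟨j, h2⟩
      simp only at h4
      rw [h4]
      exact isHomogeneous_X _ _
    · have h3 : (wV m v (Sum.inl x)).1 = 0 := b9_wJ m x hx
      rw [h3, phiV_J k m v x hx]
      exact ⟨le_refl _, isHomogeneous_C _ _⟩
  · have h3 : (wV m v (Sum.inr i)).1 = 1 := rfl
    rw [h3, phiV_V]
    exact ⟨zero_le_one, isHomogeneous_X _ _⟩

private theorem b9_mon (d : (Ix ⊕ Fin v) →₀ ℕ) (a : Kd k m) :
    (phiV m v k (monomial d a)).IsHomogeneous (∑ x ∈ d.support, (wV m v x).1.toNat * d x) := by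
  have h1 : monomial d a = C a * ∏ x ∈ d.support, (X x : MvPolynomial (Ix ⊕ Fin v) (Kd k m)) ^ d x := by
    rw [monomial_eq]
    rfl
  rw [h1, map_mul, map_prod, phiV_C]
  have h2 := (isHomogeneous_C (T m ⊕ Fin v) (show K1 k m from (C a : MvPolynomial (Jk m) (MvPolynomial (Fin m) k)))).mul
    (IsHomogeneous.prod d.support (fun x => phiV m v k (X x ^ d x)) (fun x => (wV m v x).1.toNat * d x)
      (fun x _ => by
        rw [map_pow]
        exact (b9_var k m v x).2.pow (d x)))
  rw [zero_add] at h2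
  exact h2

private theorem b9_deg (d : (Ix ⊕ Fin v) →₀ ℕ) :
    (((∑ x ∈ d.support, (wV m v x).1.toNat * d x : ℕ)) : ℤ) = (Finsupp.weight (wV m v) d).1 := by
  rw [Finsupp.weight_apply, Finsupp.sum, Prod.fst_sum, Nat.cast_sum]
  refine Finset.sum_congr rfl fun x _ => ?_
  rw [Nat.cast_mul, Int.toNat_of_nonneg (b9_var (ℤ) m v x).1, Prod.smul_fst, nsmul_eq_mul]
  ring

theorem phiV_hom (f : MvPolynomial (Ix ⊕ Fin v) (Kd k m)) (μ : Dg)
    (hf : IsWeightedHomogeneous (wV m v) f μ) : Hd (T m ⊕ Fin v) (K1 k m) μ.1 (phiV m v k f) := by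
  have hs : ∀ d ∈ f.support, (((∑ x ∈ d.support, (wV m v x).1.toNat * d x : ℕ)) : ℤ) = μ.1 := by
    intro d hd
    rw [b9_deg, hf (mem_support_iff.mp hd)]
  constructor
  · intro _
    have h1 : phiV m v k f = ∑ d ∈ f.support, phiV m v k (monomial d (coeff d f)) := by
      rw [← map_sum, support_sum_monomial_coeff]
    rw [h1]
    refine IsHomogeneous.sum _ _ _ fun d hd => ?_
    rw [← hs d hd, Int.toNat_natCast]
    exact b9_mon k m v d _
  · intro hneg
    have h0 : f = 0 := by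
      rw [← support_eq_empty, Finset.eq_empty_iff_forall_notMem]
      intro d hd
      have := hs d hd
      omega
    rw [h0, map_zero]

end Pool.Agent.LibMC34
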