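import Pool.Agent.LibMC34.Defs
import Pool.Agent.LibRG7.Defs

set_option autoImplicit false

/-! Definitions of block P1b (MP_ed98ad_ag): the modulus. -/

namespace Pool.Agent.LibMC34

open MvPolynomial

/-- the weights on `Ix`: `u^c_j ↦ (1, m - j)`, `w^c_j ↦ (0, m - j)` for `j < m`, both `(0, 1)` for `j ≥ m` -/
def wB (m : ℕ) : Ix → Dg := fun x =>
  if x.2.2 < m then (if x.1 = true then 0 else 1, (m : ℤ) - x.2.2) else (0, 1)

/-- the weights with an additional variable `eps = X none` of weight (0, 1) -/
def wE (m : ℕ) : Option Ix → Dg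
  | none => (0, 1)
  | some x => wB m x

/-- the weights `(s-degree, 0)` -/
def wS (m : ℕ) : Ix → Dg := fun x => ((wB m x).1, 0)

section
variable (k : Type) [CommRing k] (m : ℕ)

/-- the coefficient ring: polynomials in the coefficients `d_j` of the modulus -/
abbrev Kd := MvPolynomial (Fin m) k

/-- the polynomial ring in the variables `Ix` and `eps = X none` -/
abbrev SE := MvPolynomial (Option Ix) (Kd k m)

/-- the variable eps -/
noncomputable def ep : SE k m := X none

noncomputable def Ue (c : Fin 3) (i : ℕ) : SE k m := X (some (false, c, i))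

noncomputable def We (c : Fin 3) (i : ℕ) : SE k m := X (some (true, c, i))

/-- the homogenized modulus `X^m + sum d_j eps^(m-j) X^j` -/
noncomputable def ddE : Polynomial (SE k m) :=
  Polynomial.X ^ m + ∑ j : Fin m, Polynomial.C (C (X j) * ep k m ^ (m - (j : ℕ))) * Polynomial.X ^ (j : ℕ)

noncomputable def UUE (c : Fin 3) : Polynomial (SE k m) :=
  ∑ j ∈ Finset.range m, Polynomial.C (Ue k m c j) * Polynomial.X ^ j

noncomputable def WWE (c : Fin 3) : Polynomial (SE k m) :=
  ∑ j ∈ Finset.range m, Polynomial.C (We k m c j) * Polynomial.X ^ j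

noncomputable def relE (a c : Fin 3) : Polynomial (SE k m) :=
  (UUE k m a * WWE k m c - UUE k m c * WWE k m a) %ₘ ddE k m

/-- the ideal J_e -/
noncomputable def JE : Ideal (SE k m) :=
  Ideal.span {x | ∃ a c : Fin 3, ∃ l : ℕ, x = (relE k m a c).coeff l}

/-- the modulus `X^m + sum d_j X^j` -/
noncomputable def ddO : Polynomial (MvPolynomial Ix (Kd k m)) :=
  Polynomial.X ^ m + ∑ j : Fin m, Polynomial.C (C (X j)) * Polynomial.X ^ (j : ℕ)

noncomputable def UUO (c : Fin 3) : Polynomial (MvPolynomial Ix (Kd k m)) :=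
  ∑ j ∈ Finset.range m, Polynomial.C (X (false, c, j)) * Polynomial.X ^ j

noncomputable def WWO (c : Fin 3) : Polynomial (MvPolynomial Ix (Kd k m)) :=
  ∑ j ∈ Finset.range m, Polynomial.C (X (true, c, j)) * Polynomial.X ^ j

noncomputable def relO (a c : Fin 3) : Polynomial (MvPolynomial Ix (Kd k m)) :=
  (UUO k m a * WWO k m c - UUO k m c * WWO k m a) %ₘ ddO k m

/-- the ideal J_1 -/
noncomputable def JO : Ideal (MvPolynomial Ix (Kd k m)) :=
  Ideal.span {x | ∃ a c : Fin 3, ∃ l : ℕ, x = (relO k m a c).coeff l}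

/-- specialisation of eps -/
noncomputable def spE (t : Kd k m) : SE k m →ₐ[Kd k m] MvPolynomial Ix (Kd k m) :=
  aeval (fun x : Option Ix => match x with
    | none => C t
    | some y => X y)

/-- the parametrization psi_e -/
noncomputable def psiE : SE k m →+* SE k m :=
  MvPolynomial.eval₂Hom (C : Kd k m →+* SE k m)
    (fun x : Option Ix => match x with
      | none => X none
      | some y => if y.1 = true then X (some y) else
          if y.2.2 < m then ((UUE k m 2 * WWE k m y.2.1) %ₘ ddE k m).coeff y.2.2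
          else rename some (LibRG7.psi (Kd k m) m m (X y)))

/-- the scaling homomorphism: `x ↦ x T^(total weight of x)` -/
noncomputable def lamE : SE k m →+* Polynomial (SE k m) :=
  MvPolynomial.eval₂Hom ((Polynomial.C : SE k m →+* _).comp (C : Kd k m →+* SE k m))
    (fun x : Option Ix => Polynomial.C (X x) * Polynomial.X ^ ((wE m x).1 + (wE m x).2).toNat)

/-- the ideal generated by J_1 and v further variables -/
noncomputable def JV (v : ℕ) : Ideal (MvPolynomial (Ix ⊕ Fin v) (Kd k m)) :=
  (JO k m).map (rename Sum.inl : MvPolynomial Ix (Kd k m) →ₐ[Kd k m] _).toRingHom ⊔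
    Ideal.span {y | ∃ i : Fin v, y = X (Sum.inr i)}

/-- the weights for `JV` -/
def wV (v : ℕ) : Ix ⊕ Fin v → Dg
  | Sum.inl x => wS m x
  | Sum.inr _ => (1, 0)

end

/-- the weights `(1, 0)` on `D` and `(0, 0)` on `J` -/
def wDJ (D J : Type) : D ⊕ J → Dg
  | Sum.inl _ => (1, 0)
  | Sum.inr _ => (0, 0)

end Pool.Agent.LibMC34
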