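import Pool.Agent.LibMC34.BDefs

set_option autoImplicit false

/-! Definitions of block P1b, part 2: abstract graded resolutions, the final isomorphism. -/

namespace Pool.Agent.LibMC34

open MvPolynomial

/-- abstract graded resolutions over a ring with a predicate `H n f` (f is homogeneous of degree n) -/
def GoodR {R : Type} [CommRing R] (H : ℤ → R → Prop) (lo : ℤ) : (c : ℕ) → (I : Type) → (I → ℤ) →
    Submodule R (I → R) → ℤ → Prop
  | 0, _, _, N, _ => N = ⊥
  | c + 1, I, deg, N, d => ∃ (J : Type) (_ : Fintype J) (e : J → ℤ) (g : J → I → R),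
      (∀ a i, H (e a - deg i) (g a i)) ∧ (∀ a, lo ≤ e a ∧ e a ≤ d) ∧
      Submodule.span R (Set.range g) = N ∧ GoodR H lo c J e (syz g) (d + 1)

/-- the image of a submodule of `R^I` under a ring isomorphism -/
def mapS {R R' : Type} [CommRing R] [CommRing R'] (φ : R ≃+* R') {I : Type} (N : Submodule R (I → R)) :
    Submodule R' (I → R') where
  carrier := {v | (fun i => φ.symm (v i)) ∈ N}
  add_mem' := by
    intro x y hx hy
    have h : (fun i => φ.symm ((x + y) i)) = (fun i => φ.symm (x i)) + fun i => φ.symm (y i) := by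
      funext i
      simp
    simp only [Set.mem_ofPred_eq] at *
    rw [h]
    exact N.add_mem hx hy
  zero_mem' := by
    have h : (fun i => φ.symm ((0 : I → R') i)) = 0 := by
      funext i
      simp
    simp only [Set.mem_ofPred_eq]
    rw [h]
    exact N.zero_mem
  smul_mem' := by
    intro r x hx
    have h : (fun i => φ.symm ((r • x) i)) = φ.symm r • fun i => φ.symm (x i) := by
      funext i
      simp
    simp only [Set.mem_ofPred_eq] at *
    rw [h]
    exact N.smul_mem _ hx

/-- homogeneity in total degree, the degree being an integer -/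
def Hd (D K : Type) [CommRing K] (n : ℤ) (f : MvPolynomial D K) : Prop :=
  (0 ≤ n → f.IsHomogeneous n.toNat) ∧ (n < 0 → f = 0)

section
variable (m v : ℕ)

/-- reindexing of the variables -/
def eqV : Ix ⊕ Fin v ≃ (T m ⊕ Fin v) ⊕ Jk m where
  toFun
    | Sum.inl x => if h : x.1 = false ∧ x.2.2 < m then Sum.inl (Sum.inl (x.2.1, ⟨x.2.2, h.2⟩))
        else Sum.inr ⟨x, h⟩
    | Sum.inr i => Sum.inl (Sum.inr i)
  invFun
    | Sum.inl (Sum.inl y) => Sum.inl (false, y.1, (y.2 : ℕ))
    | Sum.inl (Sum.inr i) => Sum.inr i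
    | Sum.inr y => Sum.inl y.1
  left_inv := by
    rintro (⟨b, c, j⟩ | i)
    · by_cases h : b = false ∧ j < m
      · obtain ⟨rfl, h2⟩ := h
        simp [h2]
      · simp only [h]
        rfl
    · rfl
  right_inv := by
    rintro ((⟨c, j⟩ | i) | ⟨⟨b, c, j⟩, h⟩)
    · simp
    · rfl
    · simp only
      rw [dif_neg h]

variable (k : Type) [CommRing k]

/-- the final isomorphism: the variables `u^c_i`, `i < m`, and the `v` variables stay variables -/
noncomputable def phiV : MvPolynomial (Ix ⊕ Fin v) (Kd k m) ≃+* MvPolynomial (T m ⊕ Fin v) (K1 k m) :=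
  (((renameEquiv (Kd k m) (eqV m v)).trans
    (sumAlgEquiv (Kd k m) (T m ⊕ Fin v) (Jk m))).toRingEquiv :
    MvPolynomial (Ix ⊕ Fin v) (Kd k m) ≃+*
      MvPolynomial (T m ⊕ Fin v) (MvPolynomial (Jk m) (MvPolynomial (Fin m) k)))

end

end Pool.Agent.LibMC34
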