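import Pool.Agent.LibMC34.R1

set_option autoImplicit false

/-!
Row R3 (MC34). MEDIUM. Flat base change of `FFR`. Only Mathlib and `R1`. `FFR_baseChange`: induction on `d`; `d = 0` instances; `d + 1`: `f : (Fin n → A) → M` surjective; `f.baseChange B` is surjective with kernel `≃ B ⊗ ker f` (flatness:
`Module.Flat.lTensor_exact` with the exact sequence `ker f → (Fin n → A) → M`, injectivity `Module.Flat.lTensor_preserves_injective_linearMap`), and `B ⊗ (Fin n → A) ≃ (Fin n → B)` (`TensorProduct.piScalarRight`), `FFR_congr`.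
`coker_baseChange`: right exactness (`lTensor_exact`): `B ⊗ ((I → A) ⧸ span (range g)) ≃ (I → B) ⧸ span (range (map g))`; e.g. the surjection `(I → B) ≃ B ⊗ (I → A) → B ⊗ (..)` has kernel the range of `B ⊗ (J → A)`.
-/

namespace Pool.Agent.LibMC34

open TensorProduct

private theorem R3_ker {A B : Type} [CommRing A] [CommRing B] [Algebra A B] {I M : Type} [Fintype I]
    [AddCommGroup M] [Module A M] (f : (I → A) →ₗ[A] M) (hf : Function.Surjective f)
    (e : B ⊗[A] (I → A) ≃ₗ[B] (I → B)) :
    LinearMap.ker (f.baseChange B ∘ₗ (e.symm : (I → B) →ₗ[B] B ⊗[A] (I → A))) =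
      LinearMap.range ((e : B ⊗[A] (I → A) →ₗ[B] (I → B)) ∘ₗ
        ((LinearMap.ker f).subtype.baseChange B)) := by
  have hex : Function.Exact ((LinearMap.ker f).subtype.lTensor B) (f.lTensor B) :=
    lTensor_exact B (LinearMap.exact_subtype_ker_map f) hf
  ext x
  rw [LinearMap.mem_ker, LinearMap.mem_range]
  simp only [LinearMap.comp_apply, LinearEquiv.coe_coe]
  constructor
  · intro h
    obtain ⟨y, hy⟩ := (hex (e.symm x)).1 h
    refine ⟨y, ?_⟩
    have : ((LinearMap.ker f).subtype.baseChange B) y = e.symm x := hy
    rw [this, LinearEquiv.apply_symm_apply]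
  · rintro ⟨y, rfl⟩
    rw [LinearEquiv.symm_apply_apply]
    exact (hex _).2 ⟨y, rfl⟩

theorem FFR_baseChange {A B : Type} [CommRing A] [CommRing B] [Algebra A B] [Module.Flat A B] (d : ℕ)
    {M : Type} [AddCommGroup M] [Module A M] (h : FFR A d M) : FFR B d (B ⊗[A] M) := by
  induction d generalizing M with
  | zero =>
    obtain ⟨h1, h2⟩ := h
    exact ⟨inferInstance, inferInstance⟩
  | succ d ih =>
    obtain ⟨n, f, hf, hk⟩ := h
    have e : B ⊗[A] (Fin n → A) ≃ₗ[B] (Fin n → B) := TensorProduct.piScalarRight A B B (Fin n)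
    refine ⟨n, f.baseChange B ∘ₗ (e.symm : (Fin n → B) →ₗ[B] B ⊗[A] (Fin n → A)), ?_, ?_⟩
    · exact (LinearMap.lTensor_surjective B hf).comp e.symm.surjective
    · have hk' := ih hk
      have hinj : Function.Injective ((e : B ⊗[A] (Fin n → A) →ₗ[B] (Fin n → B)) ∘ₗ
          ((LinearMap.ker f).subtype.baseChange B)) := by
        refine e.injective.comp ?_
        exact Module.Flat.lTensor_preserves_injective_linearMap (M := B) (LinearMap.ker f).subtype
          (Submodule.injective_subtype _)
      exact FFR_congr d ((LinearEquiv.ofInjective _ hinj).trans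
        (LinearEquiv.ofEq _ _ (R3_ker f hf e).symm)) hk'

theorem coker_baseChange {A B : Type} [CommRing A] [CommRing B] [Algebra A B] {I J : Type} [Fintype I] [Fintype J]
    (g : J → I → A) : Nonempty ((B ⊗[A] ((I → A) ⧸ Submodule.span A (Set.range g))) ≃ₗ[B]
      ((I → B) ⧸ Submodule.span B (Set.range fun j i => algebraMap A B (g j i)))) := by
  classical
  let N := Submodule.span A (Set.range g)
  let e : B ⊗[A] (I → A) ≃ₗ[B] (I → B) := TensorProduct.piScalarRight A B B I
  have he : ∀ (b : B) (v : I → A), e (b ⊗ₜ[A] v) = b • (fun i => algebraMap A B (v i)) := by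
    intro b v
    funext i
    change (v i) • b = b * algebraMap A B (v i)
    rw [Algebra.smul_def, mul_comm]
  let F : (I → B) →ₗ[B] B ⊗[A] ((I → A) ⧸ N) :=
    N.mkQ.baseChange B ∘ₗ (e.symm : (I → B) →ₗ[B] B ⊗[A] (I → A))
  have hF : Function.Surjective F :=
    (LinearMap.lTensor_surjective B (Submodule.mkQ_surjective N)).comp e.symm.surjective
  have hker : LinearMap.ker F = Submodule.span B (Set.range fun j i => algebraMap A B (g j i)) := by
    have h1 : LinearMap.ker F = LinearMap.range ((e : B ⊗[A] (I → A) →ₗ[B] (I → B)) ∘ₗ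
        ((LinearMap.ker N.mkQ).subtype.baseChange B)) :=
      R3_ker N.mkQ (Submodule.mkQ_surjective N) e
    apply le_antisymm
    · rw [h1]
      rintro _ ⟨y, rfl⟩
      induction y using TensorProduct.induction_on with
      | zero => rw [map_zero]; exact Submodule.zero_mem _
      | add a b ha hb => rw [map_add]; exact Submodule.add_mem _ ha hb
      | tmul b v =>
        obtain ⟨v, hv⟩ := v
        rw [Submodule.ker_mkQ] at hv
        change e (b ⊗ₜ[A] v) ∈ _
        rw [he]
        refine Submodule.smul_mem _ b ?_
        refine Submodule.span_induction (p := fun v _ => (fun i => algebraMap A B (v i)) ∈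
          Submodule.span B (Set.range fun j i => algebraMap A B (g j i))) ?_ ?_ ?_ ?_ hv
        · rintro _ ⟨j, rfl⟩
          exact Submodule.subset_span ⟨j, rfl⟩
        · have : (fun i => algebraMap A B ((0 : I → A) i)) = 0 := by
            funext i; simp
          rw [this]
          exact Submodule.zero_mem _
        · intro x y _ _ hx hy
          have : (fun i => algebraMap A B ((x + y) i)) =
              (fun i => algebraMap A B (x i)) + fun i => algebraMap A B (y i) := by
            funext i; simp
          rw [this]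
          exact Submodule.add_mem _ hx hy
        · intro a x _ hx
          have : (fun i => algebraMap A B ((a • x) i)) =
              (algebraMap A B a) • fun i => algebraMap A B (x i) := by
            funext i; simp
          rw [this]
          exact Submodule.smul_mem _ _ hx
    · rw [Submodule.span_le]
      rintro _ ⟨j, rfl⟩
      rw [h1]
      have hm : g j ∈ LinearMap.ker N.mkQ := by
        rw [Submodule.ker_mkQ]
        exact Submodule.subset_span ⟨j, rfl⟩
      refine ⟨1 ⊗ₜ[A] ⟨g j, hm⟩, ?_⟩
      change e ((1 : B) ⊗ₜ[A] g j) = _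
      rw [he, one_smul]
  exact ⟨((Submodule.quotEquivOfEq _ _ hker).symm.trans (LinearMap.quotKerEquivOfSurjective F hF)).symm⟩

end Pool.Agent.LibMC34
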