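import Pool.Agent.LibMC34.TDefs

set_option autoImplicit false

/-!
Row T5a (MC34, block P3). MEDIUM. The constant strand of a graded complex over `MvPolynomial D K`. For `j ≥ 1` all degrees are `≥ 1`. `φ j a b` with `e a = e b = 1` is homogeneous of degree 0, hence `C (coeff 0)`
(`MvPolynomial.totalDegree_eq_zero_iff_eq_C` / `isHomogeneous_zero`); with `e a ≥ 2`, `e b = 1` it is `0` (`hom0`). `cst_exact`: extend `y` by `0` to `z = C ∘ y : ix (j+2) → S`; `(φ (j+1)) z = 0`; `F.exact` gives `u` with `φ (j+2) u = z`;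
take `y' c = coeff 0 (u c)` for `c` with `e c = 1`: compare the coefficient `0` on both sides for `b` with `e b = 1`: `coeff 0 (∑ φ b c * u c) = ∑_{c, e c = 1} coeff 0 (φ b c) * coeff 0 (u c)` since `φ b c` is homogeneous of positive degree for
`e c ≥ 2`. `cst_ker1`: the same at position 1. `lin_sum`: `φ 0 default b` is homogeneous of degree 1. `lin_of_mem`: an element `∑ C (f x) X x` of `F.ideal` is `∑ r_b φ 0 default b`; compare the coefficients of degree 1:
`f = ∑ (coeff 0 r_b) lin b` (all `b : ix 1` have `e b = 1` by `e_pos`, `e_le`).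
-/

namespace Pool.Agent.LibMC34

variable {D K : Type} [CommRing K] (F : GCx D K)

open MvPolynomial in
theorem T5a_sum {M : Type} [AddCommMonoid M] (j : ℕ) (f : F.ix j → M)
    (h : ∀ b, F.e j b ≠ 1 → f b = 0) : ∑ b, f b = ∑ b : ix1 F j, f b.1 := by
  classical
  rw [← Finset.sum_subtype (Finset.univ.filter (fun b => F.e j b = 1)) (p := fun b => F.e j b = 1)
    (by intro x; simp) f]
  symm
  apply Finset.sum_filter_of_ne
  intro b _ hb
  by_contra hc
  exact hb (h b hc)

open MvPolynomial in
theorem T5a_cc_zero (j : ℕ) (a : ix1 F (j + 1)) (c : F.ix (j + 2)) (hc : F.e (j + 2) c ≠ 1) :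
    constantCoeff (F.φ (j + 1) a.1 c) = 0 := by
  have h1 := F.e_pos (j + 1) c
  have h2 : F.e (j + 1) a.1 ≤ F.e (j + 1 + 1) c := by rw [a.2]; exact h1
  have h3 := F.hom (j + 1) a.1 c h2
  rw [constantCoeff_eq]
  by_contra h4
  have h5 := h3 h4
  rw [a.2] at h5
  simp at h5
  have : F.e (j + 2) c = F.e (j + 1 + 1) c := rfl
  omega

open MvPolynomial in
theorem T5a_const (j : ℕ) (a : F.ix j) (b : F.ix (j + 1)) (ha : F.e j a = 1)
    (hb : F.e (j + 1) b = 1) : F.φ j a b = C ((F.φ j a b).coeff 0) := by
  have h3 := F.hom j a b (by rw [ha, hb])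
  rw [ha, hb] at h3
  exact (totalDegree_eq_zero_iff_eq_C).mp
    (Nat.le_zero.mp (by simpa using h3.totalDegree_le))

open MvPolynomial in
theorem cst_comp (j : ℕ) : cst F (j + 1) * cst F (j + 2) = 0 := by
  ext a c
  rw [Matrix.mul_apply, Matrix.zero_apply]
  have h1 : (F.φ (j + 1) * F.φ (j + 2)) a.1 c.1 = 0 := by
    rw [show F.φ (j + 1) * F.φ (j + 2) = 0 from F.comp (j + 1)]
    rfl
  rw [Matrix.mul_apply] at h1
  have h2 := congrArg constantCoeff h1
  rw [map_sum, map_zero, T5a_sum F (j + 2)] at h2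
  · rw [← h2]
    refine Finset.sum_congr rfl ?_
    intro b _
    rw [map_mul]
    rfl
  · intro b hb
    rw [map_mul, T5a_cc_zero F j a b hb, zero_mul]

open MvPolynomial in
theorem T5a_descend (j : ℕ) (y : ix1 F (j + 1) → K) (u : F.ix (j + 2) → MvPolynomial D K)
    (z : F.ix (j + 1) → MvPolynomial D K) (hz : ∀ b : ix1 F (j + 1), constantCoeff (z b.1) = y b)
    (hu : (F.φ (j + 1)).mulVec u = z) :
    (cst F (j + 1)).mulVec (fun c => constantCoeff (u c.1)) = y := by
  funext b
  rw [← hz b, ← hu]
  simp only [Matrix.mulVec, dotProduct]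
  rw [map_sum, T5a_sum F (j + 2)]
  · refine Finset.sum_congr rfl ?_
    intro c _
    rw [map_mul]
    rfl
  · intro c hc
    rw [map_mul, T5a_cc_zero F j b c hc, zero_mul]

open MvPolynomial in
theorem cst_exact (j : ℕ) (y : ix1 F (j + 2) → K) (h : (cst F (j + 1)).mulVec y = 0) :
    ∃ y' : ix1 F (j + 3) → K, (cst F (j + 2)).mulVec y' = y := by
  classical
  set z : F.ix (j + 2) → MvPolynomial D K :=
    fun b => if hb : F.e (j + 2) b = 1 then C (y ⟨b, hb⟩) else 0 with hzdef
  have hz1 : ∀ b : ix1 F (j + 2), z b.1 = C (y b) := by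
    intro b
    simp only [hzdef]
    rw [dif_pos b.2]
  have hz : (F.φ (j + 1)).mulVec z = 0 := by
    funext a
    simp only [Matrix.mulVec, dotProduct, Pi.zero_apply]
    rw [T5a_sum F (j + 2)]
    · by_cases ha : F.e (j + 1) a = 1
      · have h1 := congrFun h ⟨a, ha⟩
        simp only [Matrix.mulVec, dotProduct, Pi.zero_apply] at h1
        have h2 := congrArg (C : K →+* MvPolynomial D K) h1
        rw [map_sum, map_zero] at h2
        rw [← h2]
        refine Finset.sum_congr rfl ?_
        intro b _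
        rw [hz1 b, map_mul, T5a_const F (j + 1) a b.1 ha b.2]
        rfl
      · refine Finset.sum_eq_zero ?_
        intro b _
        have h1 := F.e_pos j a
        have h2 : F.e (j + 1 + 1) b.1 < F.e (j + 1) a := by
          have h3 : F.e (j + 1 + 1) b.1 = 1 := b.2
          omega
        rw [F.hom0 (j + 1) a b.1 h2, zero_mul]
    · intro b hb
      have : z b = 0 := by
        simp only [hzdef]
        rw [dif_neg hb]
      rw [this, mul_zero]
  obtain ⟨u, hu⟩ := F.exact (j + 1) z hz
  refine ⟨fun c => constantCoeff (u c.1), T5a_descend F (j + 1) y u z ?_ hu⟩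
  intro b
  rw [hz1 b, constantCoeff_C]

theorem e_one (b : F.ix 1) : F.e 1 b = 1 := by
  have h1 := F.e_pos 0 b
  have h2 := F.e_le 1 b
  have h3 : F.e (0 + 1) b = F.e 1 b := rfl
  omega

open MvPolynomial in
theorem T5a_hom1 (b : F.ix 1) : (F.φ 0 default b).IsHomogeneous 1 := by
  have h0 : F.e 0 default = 0 := F.e_zero _
  have h1 : F.e (0 + 1) b = 1 := e_one F b
  have h3 := F.hom 0 default b (by rw [h0]; exact Nat.zero_le _)
  rw [h0, h1] at h3
  exact h3

theorem T5a_degree_one {d : D →₀ ℕ} (h : d.degree = 1) : ∃ x, d = Finsupp.single x 1 := by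
  classical
  have hne : d ≠ 0 := by
    rintro rfl
    simp at h
  obtain ⟨x, hx⟩ := Finsupp.ne_iff.mp hne
  rw [Finsupp.zero_apply] at hx
  refine ⟨x, ?_⟩
  have hle : Finsupp.single x 1 ≤ d := by
    rw [Finsupp.single_le_iff]
    omega
  obtain ⟨e, he⟩ := exists_add_of_le hle
  rw [he] at h
  have h2 : (Finsupp.single x 1 + e).degree = 1 + e.degree := by
    rw [map_add, Finsupp.degree_single]
  rw [h2] at h
  have h3 : e.degree = 0 := by omega
  have h4 : e = 0 := (Finsupp.degree_eq_zero_iff e).mp h3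
  rw [he, h4, add_zero]

open MvPolynomial in
theorem T5a_lin [Fintype D] (p : MvPolynomial D K) (hp : p.IsHomogeneous 1) :
    p = ∑ x, C (p.coeff (Finsupp.single x 1)) * X x := by
  classical
  ext d
  rw [coeff_sum]
  simp only [coeff_C_mul, coeff_X]
  by_cases hd : ∃ x, d = Finsupp.single x 1
  · obtain ⟨x, rfl⟩ := hd
    rw [Finset.sum_eq_single x]
    · rw [if_pos rfl, mul_one]
    · intro y _ hy
      rw [if_neg, mul_zero]
      intro hc
      rw [Finsupp.single_left_inj one_ne_zero] at hc
      exact hy hc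
    · intro hx
      exact absurd (Finset.mem_univ x) hx
  · have h1 : coeff d p = 0 := by
      by_contra hc
      have h2 := hp hc
      apply hd
      apply T5a_degree_one
      rw [← h2, Finsupp.degree_eq_weight_one]
      rfl
    rw [h1]
    symm
    refine Finset.sum_eq_zero ?_
    intro x _
    rw [if_neg, mul_zero]
    intro hc
    exact hd ⟨x, hc.symm⟩

theorem lin_sum [Fintype D] (b : ix1 F 1) :
    F.φ 0 default b = ∑ x, MvPolynomial.C (lin F b x) * MvPolynomial.X x :=
  T5a_lin _ (T5a_hom1 F b.1)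

open MvPolynomial in
theorem lin_cst [Fintype D] (c : ix1 F 2) : ∑ b, cst F 1 b c • lin F b = 0 := by
  classical
  funext x
  rw [Finset.sum_apply, Pi.zero_apply]
  have h1 : (F.φ 0 * F.φ 1) default c.1 = 0 := by
    rw [show F.φ 0 * F.φ 1 = 0 from F.comp 0]
    rfl
  rw [Matrix.mul_apply, T5a_sum F 1] at h1
  · have h2 := congrArg (coeff (Finsupp.single x 1)) h1
    rw [coeff_sum, coeff_zero] at h2
    rw [← h2]
    refine Finset.sum_congr rfl ?_
    intro b _
    have h3 : F.φ 1 b.1 c.1 = C (cst F 1 b c) := T5a_const F 1 b.1 c.1 b.2 c.2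
    rw [h3, mul_comm, coeff_C_mul]
    rfl
  · intro b hb
    exact absurd (e_one F b) hb

open MvPolynomial in
theorem T5a_swap [Fintype D] (y : ix1 F 1 → K) :
    ∑ b, C (y b) * F.φ 0 default b.1 = ∑ x, C ((∑ b, y b • lin F b) x) * X x := by
  have h1 : ∀ b : ix1 F 1, C (y b) * F.φ 0 default b.1 =
      ∑ x, C (y b * lin F b x) * X x := by
    intro b
    rw [lin_sum F b, Finset.mul_sum]
    refine Finset.sum_congr rfl ?_
    intro x _
    rw [C_mul, mul_assoc]
  rw [Finset.sum_congr rfl (fun b _ => h1 b), Finset.sum_comm]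
  refine Finset.sum_congr rfl ?_
  intro x _
  rw [← Finset.sum_mul, Finset.sum_apply]
  congr 1
  rw [map_sum]
  rfl

open MvPolynomial in
theorem cst_ker1 [Fintype D] (y : ix1 F 1 → K) (h : ∑ b, y b • lin F b = 0) :
    ∃ y' : ix1 F 2 → K, (cst F 1).mulVec y' = y := by
  classical
  set z : F.ix 1 → MvPolynomial D K := fun b => C (y ⟨b, e_one F b⟩) with hzdef
  have hz : (F.φ 0).mulVec z = 0 := by
    funext a
    rw [Unique.eq_default a]
    simp only [Matrix.mulVec, dotProduct, Pi.zero_apply]
    rw [T5a_sum F 1]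
    · have h1 := T5a_swap F y
      rw [h] at h1
      simp only [Pi.zero_apply, map_zero, zero_mul, Finset.sum_const_zero] at h1
      rw [← h1]
      refine Finset.sum_congr rfl ?_
      intro b _
      rw [mul_comm]
    · intro b hb
      exact absurd (e_one F b) hb
  obtain ⟨u, hu⟩ := F.exact 0 z hz
  refine ⟨fun c => constantCoeff (u c.1), T5a_descend F 0 y u z ?_ hu⟩
  intro b
  simp only [hzdef]
  rw [constantCoeff_C]

open MvPolynomial in
theorem T5a_coeff_one (r : MvPolynomial D K) (x y : D) (c : K) [DecidableEq D] :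
    coeff (Finsupp.single x 1) (r * (C c * X y)) = if y = x then c * coeff 0 r else 0 := by
  have h1 : r * (C c * X y) = C c * (r * X y) := by ring
  rw [h1, coeff_C_mul, coeff_mul_X']
  by_cases hxy : y = x
  · subst hxy
    rw [if_pos rfl, if_pos]
    · rw [tsub_self]
    · simp
  · rw [if_neg hxy, if_neg, mul_zero]
    rw [Finsupp.support_single _ one_ne_zero, Finset.mem_singleton]
    exact hxy

open MvPolynomial in
theorem lin_of_mem [Fintype D] (f : D → K) :
    (∑ x, MvPolynomial.C (f x) * MvPolynomial.X x) ∈ F.ideal ↔ f ∈ Submodule.span K (Set.range (lin F)) := by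
  classical
  constructor
  · intro h
    unfold GCx.ideal at h
    rw [Ideal.mem_span_range_iff_exists_fun] at h
    obtain ⟨r, hr⟩ := h
    rw [T5a_sum F 1 _ (fun b hb => absurd (e_one F b) hb)] at hr
    have h1 : f = ∑ b : ix1 F 1, (coeff 0 (r b.1)) • lin F b := by
      funext x
      have h2 := congrArg (coeff (Finsupp.single x 1)) hr
      rw [coeff_sum, coeff_sum] at h2
      have h3 : ∑ y, coeff (Finsupp.single x 1) (C (f y) * X y) = f x := by
        rw [Finset.sum_eq_single x]
        · rw [coeff_C_mul, coeff_X, if_pos rfl, mul_one]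
        · intro y _ hy
          rw [coeff_C_mul, coeff_X, if_neg, mul_zero]
          intro hc
          rw [Finsupp.single_left_inj one_ne_zero] at hc
          exact hy hc
        · intro hx
          exact absurd (Finset.mem_univ x) hx
      rw [h3] at h2
      rw [← h2, Finset.sum_apply]
      refine Finset.sum_congr rfl ?_
      intro b _
      rw [lin_sum F b, Finset.mul_sum, coeff_sum]
      simp only [T5a_coeff_one]
      rw [Finset.sum_ite_eq' Finset.univ x]
      rw [if_pos (Finset.mem_univ x), Pi.smul_apply, smul_eq_mul, mul_comm]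
    rw [h1]
    refine Submodule.sum_mem _ ?_
    intro b _
    exact Submodule.smul_mem _ _ (Submodule.subset_span ⟨b, rfl⟩)
  · intro h
    rw [Submodule.mem_span_range_iff_exists_fun] at h
    obtain ⟨c, hc⟩ := h
    rw [← hc, ← T5a_swap F c]
    refine Ideal.sum_mem _ ?_
    intro b _
    exact Ideal.mul_mem_left _ _ (Ideal.subset_span ⟨b.1, rfl⟩)

end Pool.Agent.LibMC34
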