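import Pool.Agent.LibMC34.T4
import Pool.Agent.LibMC34.T5a

set_option autoImplicit false

/-!
Row T5b (MC34, block P3). MEDIUM. The strand with nonnegative exponents in the positions `≥ 1`: exponents `α ≥ 0` with `∑ α = 1 - e ≤ 0` force `e = 1`, `α = 0`. `emb_mem`, `emb_surj`, `emb_inj`: directly. `dS_emb`: `(LF F).G (j+1) a b = rhoL (φ a b)`; for `e a = e b = 1`
`φ a b = C (cst a b)` and `rhoL (C c) = single 0 (C c)` (`rho_C`, `toLa_C`); for `e a ≥ 2`, `e b = 1`: `φ a b = 0`; cutting to `Rg univ ∅` changes nothing. `Ex_univ`: `emb_surj` + `dS_emb` + `emb_inj` + `flat_exact` for `cst` (`cst_exact`, `cst_comp`;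
`MvPolynomial (V × τ) K` is flat over `K`, `algebraMap = C`).
-/

namespace Pool.Agent.LibMC34

open Finset

variable {τ V K : Type} [Fintype τ] [DecidableEq τ] [Fintype V] [CommRing K] (F : GCx (τ ⊕ V) K)

theorem T5b_emb_pos (j : ℕ) (β : ix1 F (j + 1) → MvPolynomial (V × τ) K) (b : F.ix (j + 1))
    (h : F.e (j + 1) b = 1) : emb F j β b = AddMonoidAlgebra.single 0 (β ⟨b, h⟩) := by
  unfold emb
  rw [dif_pos h]

theorem T5b_emb_neg (j : ℕ) (β : ix1 F (j + 1) → MvPolynomial (V × τ) K) (b : F.ix (j + 1))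
    (h : F.e (j + 1) b ≠ 1) : emb F j β b = 0 := by
  unfold emb
  rw [dif_neg h]

theorem emb_add (j : ℕ) (β γ : ix1 F (j + 1) → MvPolynomial (V × τ) K) : emb F j (β + γ) = emb F j β + emb F j γ := by
  funext b
  rw [Pi.add_apply]
  by_cases h : F.e (j + 1) b = 1
  · rw [T5b_emb_pos F j _ b h, T5b_emb_pos F j _ b h, T5b_emb_pos F j _ b h, Pi.add_apply,
      AddMonoidAlgebra.single_add]
  · rw [T5b_emb_neg F j _ b h, T5b_emb_neg F j _ b h, T5b_emb_neg F j _ b h, add_zero]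

theorem emb_smul (j : ℕ) (r : MvPolynomial (V × τ) K) (β : ix1 F (j + 1) → MvPolynomial (V × τ) K) :
    emb F j (r • β) = r • emb F j β := by
  funext b
  rw [Pi.smul_apply]
  by_cases h : F.e (j + 1) b = 1
  · rw [T5b_emb_pos F j _ b h, T5b_emb_pos F j _ b h, Pi.smul_apply, AddMonoidAlgebra.smul_single]
  · rw [T5b_emb_neg F j _ b h, T5b_emb_neg F j _ b h, smul_zero]

theorem emb_inj (j : ℕ) {β : ix1 F (j + 1) → MvPolynomial (V × τ) K} (h : emb F j β = 0) : β = 0 := by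
  funext b
  have h1 := congrFun h b.1
  rw [T5b_emb_pos F j β b.1 b.2, Pi.zero_apply, AddMonoidAlgebra.single_eq_zero] at h1
  exact h1

theorem T5b_P0 : Rg (univ : Finset τ) ∅ 0 := by
  refine ⟨?_, ?_⟩
  · intro i _
    exact le_refl _
  · intro i hi
    exact absurd hi (Finset.notMem_empty i)

theorem emb_mem (j : ℕ) (β : ix1 F (j + 1) → MvPolynomial (V × τ) K) :
    emb F j β ∈ St (LF F) (Rg univ ∅) (j + 1) := by
  intro b α hα
  change F.ix (j + 1) at b
  by_cases h : F.e (j + 1) b = 1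
  · have h1 := T5b_emb_pos F j β b h
    rw [h1, AddMonoidAlgebra.coeff_single] at hα
    have h2 : α = 0 := by
      by_contra hc
      exact hα (Finsupp.single_eq_of_ne hc)
    rw [h2]
    refine ⟨T5b_P0, ?_⟩
    have h3 : ((LF F).e (j + 1) b : ℤ) = 1 := by
      have : (LF F).e (j + 1) b = 1 := h
      rw [this]
      rfl
    rw [h3]
    simp
  · have h1 := T5b_emb_neg F j β b h
    rw [h1] at hα
    exact absurd rfl hα

theorem emb_surj (j : ℕ) {z : F.ix (j + 1) → La τ (MvPolynomial (V × τ) K)} (hz : z ∈ St (LF F) (Rg univ ∅) (j + 1)) :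
    ∃ β, emb F j β = z := by
  have key : ∀ (b : F.ix (j + 1)) (α : τ → ℤ), (z b).coeff α ≠ 0 →
      (∀ i, 0 ≤ α i) ∧ ∑ i, α i + (F.e (j + 1) b : ℤ) = 1 := by
    intro b α hα
    have h1 := hz b α hα
    exact ⟨fun i => h1.1.1 i (mem_univ i), h1.2⟩
  have hpos : ∀ b : F.ix (j + 1), 1 ≤ F.e (j + 1) b := fun b => F.e_pos j b
  refine ⟨fun b => (z b.1).coeff 0, ?_⟩
  funext b
  by_cases h : F.e (j + 1) b = 1
  · rw [T5b_emb_pos F j _ b h]
    apply AddMonoidAlgebra.ext
    rw [AddMonoidAlgebra.coeff_single]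
    ext1 α
    by_cases h0 : α = 0
    · subst h0
      rw [Finsupp.single_eq_same]
    · rw [Finsupp.single_eq_of_ne h0]
      by_contra hc
      have h2 := key b α (fun h3 => hc h3.symm)
      rw [h] at h2
      apply h0
      funext i
      have h4 : ∑ i, α i = 0 := by
        have := h2.2
        push_cast at this
        linarith
      exact (Finset.sum_eq_zero_iff_of_nonneg (fun i _ => h2.1 i)).mp h4 i (mem_univ i)
  · rw [T5b_emb_neg F j _ b h]
    symm
    rw [← AddMonoidAlgebra.coeff_eq_zero]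
    ext1 α
    by_contra hc
    have h2 := key b α hc
    have h3 : 0 ≤ ∑ i, α i := Finset.sum_nonneg (fun i _ => h2.1 i)
    have h4 := hpos b
    have h5 : 2 ≤ F.e (j + 1) b := by omega
    have h6 : (2 : ℤ) ≤ (F.e (j + 1) b : ℤ) := by exact_mod_cast h5
    linarith [h2.2]

theorem T5b_cut (r : MvPolynomial (V × τ) K) :
    cut (Rg (univ : Finset τ) ∅) (AddMonoidAlgebra.single (0 : τ → ℤ) r) =
      AddMonoidAlgebra.single 0 r := by
  classical
  apply AddMonoidAlgebra.ext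
  change ((AddMonoidAlgebra.single (0 : τ → ℤ) r).coeff.filter (Rg (univ : Finset τ) ∅)) =
    (AddMonoidAlgebra.single (0 : τ → ℤ) r).coeff
  rw [AddMonoidAlgebra.coeff_single, Finsupp.filter_single_of_pos _ T5b_P0]

theorem T5b_rhoL (c : K) : (rhoL (MvPolynomial.C c : MvPolynomial (τ ⊕ V) K)) =
    AddMonoidAlgebra.single (0 : τ → ℤ) (MvPolynomial.C c : MvPolynomial (V × τ) K) := by
  unfold rhoL
  rw [RingHom.comp_apply, rho_C]
  exact toLa_C _

theorem dS_emb (j : ℕ) (β : ix1 F (j + 2) → MvPolynomial (V × τ) K) :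
    dS (LF F) (Rg univ ∅) (j + 1) (emb F (j + 1) β) = emb F j (((cst F (j + 1)).map MvPolynomial.C).mulVec β) := by
  classical
  funext a
  change F.ix (j + 1) at a
  change cut (Rg univ ∅) ((((F.φ (j + 1)).map rhoL).mulVec (emb F (j + 1) β)) a) = _
  have h1 : (((F.φ (j + 1)).map rhoL).mulVec (emb F (j + 1) β)) a =
      ∑ b : ix1 F (j + 2), rhoL (F.φ (j + 1) a b.1) * AddMonoidAlgebra.single 0 (β b) := by
    simp only [Matrix.mulVec, dotProduct, Matrix.map_apply]
    rw [T5a_sum F (j + 2)]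
    · refine Finset.sum_congr rfl ?_
      intro b _
      rw [T5b_emb_pos F (j + 1) β b.1 b.2]
    · intro b hb
      rw [T5b_emb_neg F (j + 1) β b hb, mul_zero]
  rw [h1]
  by_cases ha : F.e (j + 1) a = 1
  · have h2 : ∀ b : ix1 F (j + 2), rhoL (F.φ (j + 1) a b.1) * AddMonoidAlgebra.single 0 (β b) =
        AddMonoidAlgebra.single (0 : τ → ℤ) (MvPolynomial.C (cst F (j + 1) ⟨a, ha⟩ b) * β b) := by
      intro b
      have h3 : F.φ (j + 1) a b.1 = MvPolynomial.C (cst F (j + 1) ⟨a, ha⟩ b) :=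
        T5a_const F (j + 1) a b.1 ha b.2
      rw [h3, T5b_rhoL, AddMonoidAlgebra.single_mul_single, add_zero]
    rw [Finset.sum_congr rfl (fun b _ => h2 b), T5b_emb_pos F j _ a ha]
    have h4 : ∑ b : ix1 F (j + 2), AddMonoidAlgebra.single (0 : τ → ℤ)
        (MvPolynomial.C (cst F (j + 1) ⟨a, ha⟩ b) * β b) = AddMonoidAlgebra.single (0 : τ → ℤ)
        (∑ b : ix1 F (j + 2), MvPolynomial.C (cst F (j + 1) ⟨a, ha⟩ b) * β b) := by
      apply AddMonoidAlgebra.ext
      rw [AddMonoidAlgebra.coeff_sum]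
      simp only [AddMonoidAlgebra.coeff_single]
      rw [Finsupp.single_finsetSum]
    rw [h4, T5b_cut]
    rfl
  · have h2 : ∀ b : ix1 F (j + 2), rhoL (F.φ (j + 1) a b.1) *
        AddMonoidAlgebra.single (0 : τ → ℤ) (β b) = 0 := by
      intro b
      have h3 := F.e_pos j a
      have h4 : F.e (j + 1 + 1) b.1 < F.e (j + 1) a := by
        have h5 : F.e (j + 1 + 1) b.1 = 1 := b.2
        omega
      rw [F.hom0 (j + 1) a b.1 h4, map_zero, zero_mul]
    rw [Finset.sum_congr rfl (fun b _ => h2 b), Finset.sum_const_zero, map_zero,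
      T5b_emb_neg F j _ a ha]

theorem Ex_univ (j : ℕ) (hj : 1 ≤ j) : Ex (LF F) (Rg univ ∅) j := by
  obtain ⟨j, rfl⟩ : ∃ j', j = j' + 1 := ⟨j - 1, by omega⟩
  intro z hz hd
  obtain ⟨β, hβ⟩ := emb_surj F (j + 1) hz
  have h1 : emb F j (((cst F (j + 1)).map MvPolynomial.C).mulVec β) = 0 := by
    rw [← dS_emb F j β, hβ]
    exact hd
  have h2 := emb_inj F j h1
  obtain ⟨y, hy⟩ := flat_exact (B := MvPolynomial (V × τ) K) (cst F (j + 1)) (cst F (j + 2))
    (cst_comp F j) (cst_exact F j) β h2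
  refine ⟨emb F (j + 2) y, emb_mem F (j + 2) y, ?_⟩
  rw [← hβ]
  have h3 := dS_emb F (j + 1) y
  rw [show ((cst F (j + 1 + 1)).map MvPolynomial.C).mulVec y = β from hy] at h3
  exact h3

end Pool.Agent.LibMC34
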