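import Pool.Agent.LibMC34.T4
import Pool.Agent.LibMC34.T5a

set_option autoImplicit false

/-!
Row T6a (MC34, block P3). MEDIUM. The differential of the strand from position 1 to position 0. `emb0_inj`: coefficient at `Pi.single x 1`. `dS_emb0`: `(LF F).G 0 a b = rhoL (φ 0 a b)` with `a = default`, `φ 0 default b = ∑ C (lin b x) X x` (`lin_sum`),
`rho (X (inl x)) = X x`, `rho (X (inr i)) = ∑ C (X (i,x)) X x`, so `rhoL (φ 0 default b) = ∑_x single (Pi.single x 1) (lam (lin F b) x)`; multiply with `single 0 (β b)`; cutting to `Rg univ ∅` changes nothing.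
-/

namespace Pool.Agent.LibMC34

open Finset

variable {τ V K : Type} [Fintype τ] [DecidableEq τ] [Fintype V] [CommRing K] (F : GCx (τ ⊕ V) K)

omit [Fintype V] in
private theorem T6a_coeff (c : τ → MvPolynomial (V × τ) K) (x : τ) :
    (∑ y, (AddMonoidAlgebra.single (Pi.single y (1 : ℤ)) (c y) : La τ (MvPolynomial (V × τ) K))).coeff
      (Pi.single x 1) = c x := by
  rw [AddMonoidAlgebra.coeff_sum, Finsupp.finsetSum_apply, Finset.sum_eq_single x]
  · rw [AddMonoidAlgebra.coeff_single, Finsupp.single_apply, if_pos rfl]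
  · intro y _ hy
    rw [AddMonoidAlgebra.coeff_single, Finsupp.single_apply, if_neg]
    intro h
    have h1 := congrFun h y
    rw [Pi.single_eq_same, Pi.single_eq_of_ne hy] at h1
    exact one_ne_zero h1
  · intro h
    exact absurd (Finset.mem_univ x) h

omit [Fintype V] in
private theorem T6a_rhoL_C (c : K) :
    rhoL (MvPolynomial.C c : MvPolynomial (τ ⊕ V) K) =
      (AddMonoidAlgebra.single 0 (MvPolynomial.C c) : La τ (MvPolynomial (V × τ) K)) := by
  have h : rhoL (MvPolynomial.C c : MvPolynomial (τ ⊕ V) K) =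
      toLa (rho (MvPolynomial.C c : MvPolynomial (τ ⊕ V) K)) := rfl
  rw [h, rho_C, toLa_C]

omit [Fintype V] in
private theorem T6a_rhoL_inl (x : τ) :
    rhoL (MvPolynomial.X (Sum.inl x) : MvPolynomial (τ ⊕ V) K) =
      (AddMonoidAlgebra.single (Pi.single x 1) 1 : La τ (MvPolynomial (V × τ) K)) := by
  have h : rhoL (MvPolynomial.X (Sum.inl x) : MvPolynomial (τ ⊕ V) K) =
      toLa (rho (MvPolynomial.X (Sum.inl x) : MvPolynomial (τ ⊕ V) K)) := rfl
  have h1 : rho (MvPolynomial.X (Sum.inl x) : MvPolynomial (τ ⊕ V) K) = MvPolynomial.X x := by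
    unfold rho
    rw [MvPolynomial.coe_eval₂Hom, MvPolynomial.eval₂_X]
    rfl
  rw [h, h1, toLa_X]
  rfl

omit [Fintype V] in
private theorem T6a_rhoL_inr (i : V) :
    rhoL (MvPolynomial.X (Sum.inr i) : MvPolynomial (τ ⊕ V) K) =
      (∑ x, AddMonoidAlgebra.single (Pi.single x 1) (MvPolynomial.X (i, x)) :
        La τ (MvPolynomial (V × τ) K)) := by
  have h : rhoL (MvPolynomial.X (Sum.inr i) : MvPolynomial (τ ⊕ V) K) =
      toLa (rho (MvPolynomial.X (Sum.inr i) : MvPolynomial (τ ⊕ V) K)) := rfl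
  have h1 : rho (MvPolynomial.X (Sum.inr i) : MvPolynomial (τ ⊕ V) K) =
      ∑ x, MvPolynomial.C (MvPolynomial.X (i, x)) * MvPolynomial.X x := by
    unfold rho
    rw [MvPolynomial.coe_eval₂Hom, MvPolynomial.eval₂_X]
    rfl
  rw [h, h1, map_sum]
  refine Finset.sum_congr rfl fun x _ => ?_
  rw [map_mul, toLa_C, toLa_X]
  unfold tpow
  rw [AddMonoidAlgebra.single_mul_single, zero_add, mul_one]

omit [Fintype τ] [DecidableEq τ] [Fintype V] in
private theorem T6a_single_sum {ι : Type} (s : Finset ι) (α : τ → ℤ) (f : ι → MvPolynomial (V × τ) K) :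
    (∑ i ∈ s, AddMonoidAlgebra.single α (f i) : La τ (MvPolynomial (V × τ) K)) =
      AddMonoidAlgebra.single α (∑ i ∈ s, f i) := by
  classical
  induction s using Finset.induction_on with
  | empty => rw [Finset.sum_empty, Finset.sum_empty, AddMonoidAlgebra.single_zero]
  | insert a s ha ih =>
    rw [Finset.sum_insert ha, Finset.sum_insert ha, ih, AddMonoidAlgebra.single_add]

private theorem T6a_rhoL_lin (f : τ ⊕ V → K) :
    rhoL (∑ x, MvPolynomial.C (f x) * MvPolynomial.X x) =
      (∑ x, AddMonoidAlgebra.single (Pi.single x 1) (lam f x) : La τ (MvPolynomial (V × τ) K)) := by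
  rw [map_sum, Fintype.sum_sum_type]
  have h1 : ∀ x : τ, rhoL (MvPolynomial.C (f (Sum.inl x)) * MvPolynomial.X (Sum.inl x)) =
      (AddMonoidAlgebra.single (Pi.single x 1) (MvPolynomial.C (f (Sum.inl x))) :
        La τ (MvPolynomial (V × τ) K)) := by
    intro x
    rw [map_mul, T6a_rhoL_C, T6a_rhoL_inl, AddMonoidAlgebra.single_mul_single, zero_add, mul_one]
  have h2 : ∀ i : V, rhoL (MvPolynomial.C (f (Sum.inr i)) * MvPolynomial.X (Sum.inr i)) =
      (∑ x, AddMonoidAlgebra.single (Pi.single x 1)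
        (MvPolynomial.C (f (Sum.inr i)) * MvPolynomial.X (i, x)) :
        La τ (MvPolynomial (V × τ) K)) := by
    intro i
    rw [map_mul, T6a_rhoL_C, T6a_rhoL_inr, Finset.mul_sum]
    refine Finset.sum_congr rfl fun x _ => ?_
    rw [AddMonoidAlgebra.single_mul_single, zero_add]
  rw [Finset.sum_congr rfl fun x _ => h1 x, Finset.sum_congr rfl fun i _ => h2 i,
    Finset.sum_comm, ← Finset.sum_add_distrib]
  refine Finset.sum_congr rfl fun x _ => ?_
  rw [T6a_single_sum, ← AddMonoidAlgebra.single_add]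
  rfl

omit [DecidableEq τ] [Fintype V] in
private theorem T6a_Sup_single {P : (τ → ℤ) → Prop} {α : τ → ℤ} (c : MvPolynomial (V × τ) K)
    (h : P α) : Sup P (AddMonoidAlgebra.single α c : La τ (MvPolynomial (V × τ) K)) := by
  classical
  intro β hβ
  rw [AddMonoidAlgebra.coeff_single, Finsupp.single_apply] at hβ
  by_cases h1 : α = β
  · rw [← h1]
    exact h
  · rw [if_neg h1] at hβ
    exact absurd rfl hβ

theorem emb0_inj {c c' : τ → MvPolynomial (V × τ) K} (h : emb0 F c = emb0 F c') : c = c' := by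
  funext x
  have h1 := congrFun h default
  have h2 : (∑ y, (AddMonoidAlgebra.single (Pi.single y (1 : ℤ)) (c y) :
      La τ (MvPolynomial (V × τ) K))) = ∑ y, AddMonoidAlgebra.single (Pi.single y (1 : ℤ)) (c' y) := h1
  have h3 := congrArg (fun z : La τ (MvPolynomial (V × τ) K) => z.coeff (Pi.single x 1)) h2
  have h4 : (∑ y, (AddMonoidAlgebra.single (Pi.single y (1 : ℤ)) (c y) :
      La τ (MvPolynomial (V × τ) K))).coeff (Pi.single x 1) =
      (∑ y, (AddMonoidAlgebra.single (Pi.single y (1 : ℤ)) (c' y) :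
        La τ (MvPolynomial (V × τ) K))).coeff (Pi.single x 1) := h3
  rw [T6a_coeff, T6a_coeff] at h4
  exact h4

theorem dS_emb0 (β : ix1 F 1 → MvPolynomial (V × τ) K) :
    dS (LF F) (Rg univ ∅) 0 (emb F 0 β) = emb0 F (∑ b, β b • lam (lin F b)) := by
  classical
  funext a
  have ha : a = (default : F.ix 0) := Subsingleton.elim (α := F.ix 0) _ _
  have h0 : ((LF F).G 0).mulVec (emb F 0 β) a =
      ∑ b : F.ix 1, rhoL (F.φ 0 default b) * emb F 0 β b := by
    rw [ha]
    rfl
  have h1 : ∀ b : F.ix 1, rhoL (F.φ 0 default b) * emb F 0 β b =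
      ∑ x, (AddMonoidAlgebra.single (Pi.single x 1)
        (β ⟨b, e_one F b⟩ * lam (lin F ⟨b, e_one F b⟩) x) : La τ (MvPolynomial (V × τ) K)) := by
    intro b
    have h2 : emb F 0 β b = AddMonoidAlgebra.single 0 (β ⟨b, e_one F b⟩) := by
      unfold emb
      exact dif_pos (e_one F b)
    have h3 : F.φ 0 default b =
        ∑ x, MvPolynomial.C (lin F ⟨b, e_one F b⟩ x) * MvPolynomial.X x :=
      lin_sum F ⟨b, e_one F b⟩
    rw [h2, h3, T6a_rhoL_lin, Finset.sum_mul]
    refine Finset.sum_congr rfl fun x _ => ?_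
    rw [AddMonoidAlgebra.single_mul_single, add_zero, mul_comm]
  have h2 : ((LF F).G 0).mulVec (emb F 0 β) a =
      ∑ x, (AddMonoidAlgebra.single (Pi.single x 1)
        ((∑ b, β b • lam (lin F b)) x) : La τ (MvPolynomial (V × τ) K)) := by
    rw [h0, Finset.sum_congr rfl fun b _ => h1 b, Finset.sum_comm]
    refine Finset.sum_congr rfl fun x _ => ?_
    rw [T6a_single_sum]
    congr 1
    rw [Finset.sum_apply]
    exact (Fintype.sum_equiv (Equiv.subtypeUnivEquiv (e_one F)) _ _ fun b => rfl).symm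
  show cut (Rg univ ∅) (((LF F).G 0).mulVec (emb F 0 β) a) = _
  rw [h2]
  refine cut_of_Sup (Sup_sum _ fun x _ => T6a_Sup_single _ ⟨fun i _ => ?_, fun i hi => ?_⟩)
  · by_cases hi : i = x
    · rw [hi, Pi.single_eq_same]
      exact zero_le_one
    · rw [Pi.single_eq_of_ne hi]
  · exact absurd hi (Finset.notMem_empty i)

end Pool.Agent.LibMC34
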