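import Pool.Agent.LibMC34.R1

set_option autoImplicit false

/-!
Row R2 (MC34). MEDIUM. Extensions (horseshoe). Induction on `d`. `d = 0`: `M ⧸ M'` is free, so the sequence splits: `M ≃ M' × (M ⧸ M')` (`Submodule.exists_isCompl`-like or `Module.projective_lifting_property`).
`d + 1`: surjections `f' : (Fin n' → R) → M'`, `f'' : (Fin n'' → R) → M ⧸ M'`, lift `f''` to `(Fin n'' → R) → M`, and take `f : (Fin (n' + n'') → R) ≃ (Fin n' → R) × (Fin n'' → R) → M`. Its kernel `K` has the submodule `ker f'` (first coordinates)
with quotient `ker f''`; apply the induction hypothesis in the form: `FFR_ext'` for an injective map `i : A → K` and a surjective map `q : K → C` with `ker q = range i`.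
It is convenient to prove the second form first.
-/

namespace Pool.Agent.LibMC34

variable {R : Type} [CommRing R]

/-- a surjection from `(Fin n → R) × (Fin n' → R)` -/
private theorem FFR_of_prod (d n n' : ℕ) {M : Type} [AddCommGroup M] [Module R M]
    (F : ((Fin n → R) × (Fin n' → R)) →ₗ[R] M) (hF : Function.Surjective F)
    (h : FFR R d (LinearMap.ker F)) : FFR R (d + 1) M := by
  let e : (Fin (n + n') → R) ≃ₗ[R] ((Fin n → R) × (Fin n' → R)) :=
    (LinearEquiv.funCongrLeft R R finSumFinEquiv).trans
      (LinearEquiv.sumArrowLequivProdArrow (Fin n) (Fin n') R R)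
  refine ⟨n + n', F.comp e.toLinearMap, hF.comp e.surjective, ?_⟩
  let e' : LinearMap.ker F ≃ₗ[R] LinearMap.ker (F.comp e.toLinearMap) :=
    { toFun := fun x => ⟨e.symm x.1, by
        rw [LinearMap.mem_ker, LinearMap.comp_apply, LinearEquiv.coe_coe, e.apply_symm_apply]
        exact x.2⟩
      map_add' := fun x y => by
        apply Subtype.ext
        simp
      map_smul' := fun r x => by
        apply Subtype.ext
        simp
      invFun := fun x => ⟨e x.1, x.2⟩
      left_inv := fun x => by
        apply Subtype.ext
        simp
      right_inv := fun x => by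
        apply Subtype.ext
        simp }
  exact FFR_congr d e' h

/-- exact sequence `0 → A → M → C → 0` -/
theorem FFR_ext' (d : ℕ) : ∀ {A M C : Type} [AddCommGroup A] [Module R A] [AddCommGroup M] [Module R M]
    [AddCommGroup C] [Module R C] (i : A →ₗ[R] M) (q : M →ₗ[R] C), Function.Injective i → Function.Surjective q →
    LinearMap.ker q = LinearMap.range i → FFR R d A → FFR R d C → FFR R d M := by
  induction d with
  | zero =>
    intro A M C _ _ _ _ _ _ i q hi hq hiq hA hC
    obtain ⟨hA1, hA2⟩ := hA
    obtain ⟨hC1, hC2⟩ := hC
    obtain ⟨s, hs⟩ := Module.projective_lifting_property q LinearMap.id hq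
    have hqs : ∀ c, q (s c) = c := fun c => by
      have := LinearMap.congr_fun hs c
      simpa using this
    have hqi : ∀ a, q (i a) = 0 := fun a => by
      have : i a ∈ LinearMap.ker q := by rw [hiq]; exact LinearMap.mem_range_self i a
      exact this
    let F : (A × C) →ₗ[R] M := i.coprod s
    have hF : Function.Bijective F := by
      constructor
      · rw [← LinearMap.ker_eq_bot, LinearMap.ker_eq_bot']
        rintro ⟨a, c⟩ h
        have h1 : i a + s c = 0 := by simpa [F] using h
        have h2 := congrArg q h1
        rw [map_add, hqi, hqs, zero_add, map_zero] at h2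
        subst h2
        rw [map_zero, add_zero] at h1
        have h3 : a = 0 := hi (by rw [h1, map_zero])
        rw [h3]
        rfl
      · intro x
        have h1 : x - s (q x) ∈ LinearMap.ker q := by
          rw [LinearMap.mem_ker, map_sub, hqs, sub_self]
        rw [hiq] at h1
        obtain ⟨a, ha⟩ := h1
        exact ⟨(a, q x), by simp [F, ha]⟩
    let E := LinearEquiv.ofBijective F hF
    exact ⟨Module.Finite.equiv E, Module.Free.of_equiv E⟩
  | succ d ih =>
    intro A M C _ _ _ _ _ _ i q hi hq hiq hA hC
    obtain ⟨n, f, hf, hfk⟩ := hA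
    obtain ⟨n', f', hf', hfk'⟩ := hC
    obtain ⟨h, hh⟩ := Module.projective_lifting_property q f' hq
    have hqh : ∀ c, q (h c) = f' c := fun c => by
      have := LinearMap.congr_fun hh c
      simpa using this
    have hqi : ∀ a, q (i a) = 0 := fun a => by
      have : i a ∈ LinearMap.ker q := by rw [hiq]; exact LinearMap.mem_range_self i a
      exact this
    let F : ((Fin n → R) × (Fin n' → R)) →ₗ[R] M := (i.comp f).coprod h
    have hFa : ∀ x, F x = i (f x.1) + h x.2 := fun x => by simp [F]
    have hF : Function.Surjective F := by
      intro x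
      obtain ⟨y, hy⟩ := hf' (q x)
      have h1 : x - h y ∈ LinearMap.ker q := by
        rw [LinearMap.mem_ker, map_sub, hqh, hy, sub_self]
      rw [hiq] at h1
      obtain ⟨a, ha⟩ := h1
      obtain ⟨z, hz⟩ := hf a
      refine ⟨(z, y), ?_⟩
      rw [hFa]
      simp only
      rw [hz, ha]
      abel
    refine FFR_of_prod d n n' F hF ?_
    let j : LinearMap.ker f →ₗ[R] LinearMap.ker F :=
      { toFun := fun x => ⟨(x.1, 0), by
          rw [LinearMap.mem_ker, hFa]
          have := x.2
          rw [LinearMap.mem_ker] at this
          simp only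
          rw [this, map_zero, map_zero, add_zero]⟩
        map_add' := fun x y => by
          apply Subtype.ext
          simp
        map_smul' := fun r x => by
          apply Subtype.ext
          simp }
    let p : LinearMap.ker F →ₗ[R] LinearMap.ker f' :=
      { toFun := fun x => ⟨x.1.2, by
          have := x.2
          rw [LinearMap.mem_ker, hFa] at this
          have h2 := congrArg q this
          rw [map_add, hqi, hqh, zero_add, map_zero] at h2
          exact h2⟩
        map_add' := fun x y => by
          apply Subtype.ext
          simp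
        map_smul' := fun r x => by
          apply Subtype.ext
          simp }
    refine ih j p ?_ ?_ ?_ hfk hfk'
    · intro x y hxy
      apply Subtype.ext
      have := congrArg (fun t => t.1.1) hxy
      exact this
    · intro y
      have h1 : h y.1 ∈ LinearMap.ker q := by
        rw [LinearMap.mem_ker, hqh]
        exact y.2
      rw [hiq] at h1
      obtain ⟨a, ha⟩ := h1
      obtain ⟨z, hz⟩ := hf (-a)
      refine ⟨⟨(z, y.1), ?_⟩, rfl⟩
      rw [LinearMap.mem_ker, hFa]
      simp only
      rw [hz, map_neg, ha, neg_add_cancel]
    · ext x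
      constructor
      · intro hx
        rw [LinearMap.mem_ker] at hx
        have h1 : x.1.2 = 0 := congrArg (fun t => t.1) hx
        have h2 := x.2
        rw [LinearMap.mem_ker, hFa, h1, map_zero, add_zero] at h2
        have h3 : f x.1.1 = 0 := hi (by rw [h2, map_zero])
        refine ⟨⟨x.1.1, h3⟩, ?_⟩
        apply Subtype.ext
        exact Prod.ext rfl h1.symm
      · rintro ⟨y, rfl⟩
        rw [LinearMap.mem_ker]
        rfl

theorem FFR_prod (d : ℕ) {A C : Type} [AddCommGroup A] [Module R A] [AddCommGroup C] [Module R C]
    (hA : FFR R d A) (hC : FFR R d C) : FFR R d (A × C) := by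
  refine FFR_ext' d (LinearMap.inl R A C) (LinearMap.snd R A C) LinearMap.inl_injective
    LinearMap.snd_surjective ?_ hA hC
  rw [LinearMap.ker_snd, LinearMap.range_inl]

/-- quotients: `FFR d` of the submodule and `FFR (d+1)` of the module -/
theorem FFR_quot (d : ℕ) {A M C : Type} [AddCommGroup A] [Module R A] [AddCommGroup M] [Module R M]
    [AddCommGroup C] [Module R C] (i : A →ₗ[R] M) (q : M →ₗ[R] C) (hi : Function.Injective i)
    (hq : Function.Surjective q) (hiq : LinearMap.ker q = LinearMap.range i) (hA : FFR R d A) (hM : FFR R (d + 1) M) :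
    FFR R (d + 1) C := by
  -- `f : R^n → M` surjective with kernel `FFR d`; the kernel of `q ∘ f` is an extension of `A` by `ker f` (map `x ↦ i⁻¹ (f x)`): `FFR_ext'`.
  obtain ⟨n, f, hf, hfk⟩ := hM
  refine ⟨n, q.comp f, hq.comp hf, ?_⟩
  let j : LinearMap.ker f →ₗ[R] LinearMap.ker (q.comp f) :=
    { toFun := fun x => ⟨x.1, by
        have := x.2
        rw [LinearMap.mem_ker] at this
        rw [LinearMap.mem_ker, LinearMap.comp_apply, this, map_zero]⟩
      map_add' := fun x y => by
        apply Subtype.ext
        simp
      map_smul' := fun r x => by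
        apply Subtype.ext
        simp }
  let E := LinearEquiv.ofInjective i hi
  have hE : ∀ y : LinearMap.range i, i (E.symm y) = y.1 := fun y => by
    have h1 : (E (E.symm y) : M) = i (E.symm y) := rfl
    rw [← h1, E.apply_symm_apply]
  let g : LinearMap.ker (q.comp f) →ₗ[R] LinearMap.range i :=
    { toFun := fun x => ⟨f x.1, by rw [← hiq]; exact x.2⟩
      map_add' := fun x y => by
        apply Subtype.ext
        simp
      map_smul' := fun r x => by
        apply Subtype.ext
        simp }
  refine FFR_ext' d j (E.symm.toLinearMap.comp g) ?_ ?_ ?_ hfk hA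
  · intro x y hxy
    apply Subtype.ext
    exact congrArg (fun t => t.1) hxy
  · intro a
    obtain ⟨x, hx⟩ := hf (i a)
    refine ⟨⟨x, ?_⟩, ?_⟩
    · rw [LinearMap.mem_ker, LinearMap.comp_apply, hx]
      have : i a ∈ LinearMap.ker q := by rw [hiq]; exact LinearMap.mem_range_self i a
      exact this
    · apply hi
      rw [LinearMap.comp_apply, LinearEquiv.coe_coe, hE]
      exact hx
  · ext x
    constructor
    · intro hx
      rw [LinearMap.mem_ker, LinearMap.comp_apply, LinearEquiv.coe_coe,
        LinearEquiv.map_eq_zero_iff] at hx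
      have h1 : f x.1 = 0 := congrArg (fun t => t.1) hx
      exact ⟨⟨x.1, h1⟩, rfl⟩
    · rintro ⟨y, rfl⟩
      rw [LinearMap.mem_ker, LinearMap.comp_apply, LinearEquiv.coe_coe,
        LinearEquiv.map_eq_zero_iff]
      apply Subtype.ext
      exact y.2

end Pool.Agent.LibMC34
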