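import Pool.Agent.LibMC34.T5a
import Pool.Agent.LibMC34.R2

set_option autoImplicit false

/-!
Row T6b (MC34, block P3). MEDIUM. The span of `lin F b` for the ideal `idS`, and the module `L_K`. `span_lin`: by `lin_of_mem` and `hid`: `f ∈ span (range lin)` iff `∑ C (f x) X x ∈ idS m v p w` iff `f ∘ inl ∈ Kap m p w`. (=>): an element of `idS` which is linear: write it as
`∑ r * generator` and compare the coefficients of degree 1 (all generators are linear forms): the `inl` part is a `K`-combination of the `relv`. (<=): generators. Then `LK`: the map `(ix1 F 1 → K) → (T m ⊕ Fin v → K)`, `y ↦ ∑ y b • lin b` has range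
`span (range lin) ≃ Kap m p w × (Fin v → K)` and kernel `range (cst F 1).mulVec = span (range of the columns)` (`cst_ker1`, `lin_cst`). `FFR_prod`, `FFR_free`, `FFR_congr`.
-/

namespace Pool.Agent.LibMC34

open Polynomial

variable {K : Type} [CommRing K] (m v : ℕ) (p : K[X]) (w : Fin 3 → K[X])

private theorem T6b_coeff_mul {D : Type} (r q : MvPolynomial D K) (x : D)
    (hq : MvPolynomial.coeff 0 q = 0) :
    MvPolynomial.coeff (Finsupp.single x 1) (r * q) =
      MvPolynomial.coeff 0 r * MvPolynomial.coeff (Finsupp.single x 1) q := by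
  classical
  rw [MvPolynomial.coeff_mul, Finsupp.antidiagonal_single]
  simp [Finset.Nat.antidiagonal_succ, hq]

private theorem T6b_lin {D : Type} [Fintype D] (f : D → K) (y : D) :
    MvPolynomial.coeff (Finsupp.single y 1)
      (∑ x, MvPolynomial.C (f x) * MvPolynomial.X x) = f y := by
  classical
  rw [MvPolynomial.coeff_sum, Finset.sum_eq_single y]
  · rw [MvPolynomial.coeff_C_mul, MvPolynomial.coeff_X, if_pos rfl, mul_one]
  · intro z _ hz
    rw [MvPolynomial.coeff_C_mul, MvPolynomial.coeff_X, if_neg, mul_zero]
    intro h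
    exact hz (Finsupp.single_left_injective one_ne_zero h)
  · intro h
    exact absurd (Finset.mem_univ _) h

private theorem T6b_linS (f : T m → K) (y : T m) :
    MvPolynomial.coeff (Finsupp.single (Sum.inl y) 1) (linS m v f) = f y := by
  classical
  unfold linS
  rw [MvPolynomial.coeff_sum, Finset.sum_eq_single y]
  · rw [MvPolynomial.coeff_C_mul, MvPolynomial.coeff_X, if_pos rfl, mul_one]
  · intro z _ hz
    rw [MvPolynomial.coeff_C_mul, MvPolynomial.coeff_X, if_neg, mul_zero]
    intro h
    exact hz (Sum.inl_injective (Finsupp.single_left_injective one_ne_zero h))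
  · intro h
    exact absurd (Finset.mem_univ _) h

private theorem T6b_linS0 (f : T m → K) : MvPolynomial.coeff 0 (linS m v f) = 0 := by
  classical
  unfold linS
  rw [MvPolynomial.coeff_sum]
  refine Finset.sum_eq_zero (fun x _ => ?_)
  rw [MvPolynomial.coeff_C_mul, MvPolynomial.coeff_zero_X, mul_zero]

private theorem T6b_linS_mem (f : T m → K) (hf : f ∈ Kap m p w) :
    linS m v f ∈ idS m v p w := by
  refine Submodule.span_induction (p := fun f _ => linS m v f ∈ idS m v p w) ?_ ?_ ?_ ?_ hf
  · rintro g ⟨a, c, l, rfl⟩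
    exact Ideal.subset_span (Or.inl ⟨a, c, l, rfl⟩)
  · have h0 : linS m v (0 : T m → K) = 0 := by
      unfold linS
      simp
    rw [h0]
    exact Ideal.zero_mem _
  · intro f g _ _ hf hg
    have h0 : linS m v (f + g) = linS m v f + linS m v g := by
      unfold linS
      simp [add_mul, Finset.sum_add_distrib]
    rw [h0]
    exact Ideal.add_mem _ hf hg
  · intro r f _ hf
    have h0 : linS m v (r • f) = MvPolynomial.C r * linS m v f := by
      unfold linS
      rw [Finset.mul_sum]
      refine Finset.sum_congr rfl (fun x _ => ?_)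
      rw [Pi.smul_apply, smul_eq_mul, map_mul, mul_assoc]
    rw [h0]
    exact Ideal.mul_mem_left _ _ hf

private theorem T6b_coeff_mem (q : MvPolynomial (T m ⊕ Fin v) K) (hq : q ∈ idS m v p w) :
    (fun x => MvPolynomial.coeff (Finsupp.single (Sum.inl x) 1) q) ∈ Kap m p w ∧
      MvPolynomial.coeff 0 q = 0 := by
  classical
  refine Submodule.span_induction (p := fun q _ =>
    (fun x : T m => MvPolynomial.coeff (Finsupp.single (Sum.inl x) 1) q) ∈ Kap m p w ∧
      MvPolynomial.coeff 0 q = 0) ?_ ?_ ?_ ?_ hq
  · rintro q (⟨a, c, l, rfl⟩ | ⟨i, rfl⟩)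
    · refine ⟨?_, T6b_linS0 m v _⟩
      have h1 : (fun x : T m => MvPolynomial.coeff (Finsupp.single (Sum.inl x) 1)
          (linS m v (relv m p w a c l))) = relv m p w a c l := by
        funext x
        exact T6b_linS m v _ x
      rw [h1]
      exact Submodule.subset_span ⟨a, c, l, rfl⟩
    · refine ⟨?_, MvPolynomial.coeff_zero_X _⟩
      have h1 : (fun x : T m => MvPolynomial.coeff (Finsupp.single (Sum.inl x) 1)
          (MvPolynomial.X (Sum.inr i) : MvPolynomial (T m ⊕ Fin v) K)) = 0 := by
        funext x
        rw [MvPolynomial.coeff_X, if_neg]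
        · rfl
        · intro h
          have h2 := Finsupp.single_left_injective one_ne_zero h
          exact absurd h2 (by simp)
      rw [h1]
      exact Submodule.zero_mem _
  · refine ⟨?_, MvPolynomial.coeff_zero _⟩
    have h1 : (fun x : T m => MvPolynomial.coeff (Finsupp.single (Sum.inl x) 1)
        (0 : MvPolynomial (T m ⊕ Fin v) K)) = 0 := by
      funext x
      exact MvPolynomial.coeff_zero _
    rw [h1]
    exact Submodule.zero_mem _
  · intro x y _ _ hx hy
    refine ⟨?_, ?_⟩
    · have h1 : (fun z : T m => MvPolynomial.coeff (Finsupp.single (Sum.inl z) 1) (x + y)) =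
          (fun z : T m => MvPolynomial.coeff (Finsupp.single (Sum.inl z) 1) x) +
          (fun z : T m => MvPolynomial.coeff (Finsupp.single (Sum.inl z) 1) y) := by
        funext z
        exact MvPolynomial.coeff_add _ _ _
      rw [h1]
      exact Submodule.add_mem _ hx.1 hy.1
    · rw [MvPolynomial.coeff_add, hx.2, hy.2, add_zero]
  · intro r x _ hx
    refine ⟨?_, ?_⟩
    · have h1 : (fun z : T m => MvPolynomial.coeff (Finsupp.single (Sum.inl z) 1) (r • x)) =
          MvPolynomial.coeff 0 r •
            (fun z : T m => MvPolynomial.coeff (Finsupp.single (Sum.inl z) 1) x) := by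
        funext z
        rw [smul_eq_mul, T6b_coeff_mul r x _ hx.2]
        rfl
      rw [h1]
      exact Submodule.smul_mem _ _ hx.1
    · rw [smul_eq_mul, ← MvPolynomial.constantCoeff_eq, map_mul, MvPolynomial.constantCoeff_eq,
        hx.2, mul_zero]

theorem span_lin (F : GCx (T m ⊕ Fin v) K) (hid : F.ideal = idS m v p w) (f : T m ⊕ Fin v → K) :
    f ∈ Submodule.span K (Set.range (lin F)) ↔ (fun x => f (Sum.inl x)) ∈ Kap m p w := by
  rw [← lin_of_mem F f, hid]
  constructor
  · intro h
    have h1 := (T6b_coeff_mem m v p w _ h).1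
    have h2 : (fun x : T m => MvPolynomial.coeff (Finsupp.single (Sum.inl x) 1)
        (∑ x, MvPolynomial.C (f x) * MvPolynomial.X x : MvPolynomial (T m ⊕ Fin v) K)) =
        fun x => f (Sum.inl x) := by
      funext x
      exact T6b_lin f (Sum.inl x)
    rw [h2] at h1
    exact h1
  · intro h
    rw [Fintype.sum_sum_type]
    refine Ideal.add_mem _ ?_ ?_
    · exact T6b_linS_mem m v p w _ h
    · refine Ideal.sum_mem _ (fun i _ => Ideal.mul_mem_left _ _ ?_)
      exact Ideal.subset_span (Or.inr ⟨i, rfl⟩)

theorem LK (F : GCx (T m ⊕ Fin v) K) (hid : F.ideal = idS m v p w) (hK : FFR K 1 (Kap m p w)) :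
    FFR K 1 ((ix1 F 1 → K) ⧸ Submodule.span K (Set.range fun (c : ix1 F 2) (b : ix1 F 1) => cst F 1 b c)) := by
  classical
  have hPhi : ∀ y : ix1 F 1 → K, (∑ b, y b • lin F b) ∈ Submodule.span K (Set.range (lin F)) :=
    fun y => Submodule.sum_mem _ (fun b _ => Submodule.smul_mem _ _
      (Submodule.subset_span ⟨b, rfl⟩))
  let Psi1 : (ix1 F 1 → K) →ₗ[K] Kap m p w :=
    { toFun := fun y => ⟨fun x => (∑ b, y b • lin F b) (Sum.inl x),
        (span_lin m v p w F hid _).1 (hPhi y)⟩
      map_add' := by
        intro x y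
        apply Subtype.ext
        funext z
        simp [add_smul, Finset.sum_add_distrib, add_mul]
      map_smul' := by
        intro r y
        apply Subtype.ext
        funext z
        simp [Finset.mul_sum, mul_assoc] }
  let Psi2 : (ix1 F 1 → K) →ₗ[K] (Fin v → K) :=
    { toFun := fun y i => (∑ b, y b • lin F b) (Sum.inr i)
      map_add' := by
        intro x y
        funext z
        simp [add_smul, Finset.sum_add_distrib, add_mul]
      map_smul' := by
        intro r y
        funext z
        simp [Finset.mul_sum, mul_assoc] }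
  let Psi := Psi1.prod Psi2
  have hsurj : Function.Surjective Psi := by
    rintro ⟨k, g⟩
    have h1 : (Sum.elim k.1 g : T m ⊕ Fin v → K) ∈ Submodule.span K (Set.range (lin F)) := by
      rw [span_lin m v p w F hid]
      exact k.2
    rw [Submodule.mem_span_range_iff_exists_fun] at h1
    obtain ⟨y, hy⟩ := h1
    refine ⟨y, Prod.ext (Subtype.ext ?_) ?_⟩
    · show (fun x => (∑ b, y b • lin F b) (Sum.inl x)) = k.1
      rw [hy]
      rfl
    · show (fun i => (∑ b, y b • lin F b) (Sum.inr i)) = g
      rw [hy]
      rfl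
  have hker : LinearMap.ker Psi =
      Submodule.span K (Set.range fun (c : ix1 F 2) (b : ix1 F 1) => cst F 1 b c) := by
    apply le_antisymm
    · intro y hy
      rw [LinearMap.mem_ker] at hy
      have h0 : ∑ b, y b • lin F b = 0 := by
        have e1 : (fun x => (∑ b, y b • lin F b) (Sum.inl x)) = (0 : T m → K) :=
          congrArg Subtype.val (congrArg Prod.fst hy)
        have e2 : (fun i => (∑ b, y b • lin F b) (Sum.inr i)) = (0 : Fin v → K) :=
          congrArg Prod.snd hy
        funext x
        rcases x with x | i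
        · exact congrFun e1 x
        · exact congrFun e2 i
      obtain ⟨y', hy'⟩ := cst_ker1 F y h0
      rw [Submodule.mem_span_range_iff_exists_fun]
      refine ⟨y', ?_⟩
      rw [← hy']
      funext b
      rw [Finset.sum_apply]
      simp only [Pi.smul_apply, smul_eq_mul, Matrix.mulVec, dotProduct]
      exact Finset.sum_congr rfl (fun c _ => mul_comm _ _)
    · rw [Submodule.span_le]
      rintro _ ⟨c, rfl⟩
      have h1 := lin_cst F c
      show Psi _ = 0
      refine Prod.ext (Subtype.ext ?_) ?_
      · show (fun x => (∑ b, cst F 1 b c • lin F b) (Sum.inl x)) = 0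
        rw [h1]
        rfl
      · show (fun i => (∑ b, cst F 1 b c • lin F b) (Sum.inr i)) = 0
        rw [h1]
        rfl
  rw [← hker]
  exact FFR_congr 1 (Psi.quotKerEquivOfSurjective hsurj).symm (FFR_prod 1 hK (FFR_free 1 _))

end Pool.Agent.LibMC34
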