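import Pool.Agent.LibMC34.S10
import Pool.Agent.LibMC34.R3
import Pool.Agent.LibMC34.T5b
import Pool.Agent.LibMC34.T6a
import Pool.Agent.LibMC34.T6b

set_option autoImplicit false

/-!
Row T7 (MC34, block P3). MEDIUM. Assembly of block P3. `B := R0 K m v`, `τ := T m`, `V := Fin v`, `card (T m) = 3 m`, `c := 2 m + v`.
* `H0 := Hm (LF F) (Rg univ ∅) 0` is `FFR B (N - 2)`: `tail` with `d = N - 2`, `2 m + v = (N - 2) + 3 m + 1`, `F.e_le`, `Ex_univ`.
* `LB := (ix1 F 1 → B) ⧸ span (range fun c b => C (cst F 1 b c))` is `FFR B 1` (`LK`, `FFR_baseChange`, `coker_baseChange`, `FFR_congr`).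
* `U := Submodule.span B (range fun b => lam (lin F b))` in `T m → B`. The surjection `LB → U`, `β ↦ ∑ β b • lam (lin F b)`; its kernel is `≃ H0` via `emb F 0` (`emb_surj`, `emb_inj`, `dS_emb`, `dS_emb0`, `emb0_inj`): `FFR_quot (N - 2)`: `U` is `FFR (N - 1)`.
* `U = span (range (relU m v p w))`: `lam` is additive and `lam (C-multiples)`; by `span_lin`: `relU (inl y) = lam (relv on inl, 0 on inr)`, `relU (inr i) = lam (0, e_i)` and conversely every `lam (lin F b)` is a combination (`Submodule.span_induction`).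
* `FFR_quot (N - 1)` for `0 → U → (T m → B) → MU → 0` (`FFR_free`).
-/

namespace Pool.Agent.LibMC34

open Polynomial

section T7gen

set_option linter.unusedSectionVars false

variable {τ V K : Type} [Fintype τ] [DecidableEq τ] [Fintype V] [CommRing K]

/-- coefficient at exponent zero on the generators of degree 1 -/
private noncomputable def T7_ev (F : GCx (τ ⊕ V) K) :
    (F.ix 1 → La τ (MvPolynomial (V × τ) K)) →ₗ[MvPolynomial (V × τ) K]
      (ix1 F 1 → MvPolynomial (V × τ) K) where
  toFun z := fun b => (z b.1).coeff 0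
  map_add' := by
    intro x y
    funext b
    simp only [Pi.add_apply, AddMonoidAlgebra.coeff_add, Finsupp.add_apply]
  map_smul' := by
    intro r x
    funext b
    simp only [Pi.smul_apply, AddMonoidAlgebra.coeff_smul_apply, RingHom.id_apply]

private theorem T7_ev_emb (F : GCx (τ ⊕ V) K) (β : ix1 F 1 → MvPolynomial (V × τ) K) :
    T7_ev F (emb F 0 β) = β := by
  funext b
  obtain ⟨b, hb⟩ := b
  have : emb F 0 β b = AddMonoidAlgebra.single 0 (β ⟨b, hb⟩) := by
    simp only [emb]
    exact dif_pos hb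
  simp only [T7_ev, LinearMap.coe_mk, AddHom.coe_mk, this]
  simp

private theorem T7_emb0_zero (F : GCx (τ ⊕ V) K) :
    emb0 F (0 : τ → MvPolynomial (V × τ) K) = 0 := by
  funext a
  simp [emb0]

private theorem T7_lam_add (f g : τ ⊕ V → K) : lam (f + g) = lam f + lam g := by
  funext x
  simp only [lam, Pi.add_apply, map_add, add_mul, Finset.sum_add_distrib]
  ring

private theorem T7_lam_smul (r : K) (f : τ ⊕ V → K) :
    lam (r • f) = (MvPolynomial.C r : MvPolynomial (V × τ) K) • lam f := by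
  funext x
  simp only [lam, Pi.smul_apply, smul_eq_mul, map_mul, mul_add, Finset.mul_sum, mul_assoc]

private theorem T7_lam_zero : lam (0 : τ ⊕ V → K) = 0 := by
  funext x
  simp [lam]

private theorem T7_lam_sum {ι : Type} (s : Finset ι) (f : ι → τ ⊕ V → K) :
    lam (∑ i ∈ s, f i) = ∑ i ∈ s, lam (f i) := by
  classical
  induction s using Finset.induction_on with
  | empty => simpa using T7_lam_zero
  | insert a s ha ih => rw [Finset.sum_insert ha, Finset.sum_insert ha, T7_lam_add, ih]

/-- the columns -/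
private noncomputable abbrev T7_col (F : GCx (τ ⊕ V) K) :
    Submodule (MvPolynomial (V × τ) K) (ix1 F 1 → MvPolynomial (V × τ) K) :=
  Submodule.span (MvPolynomial (V × τ) K)
    (Set.range fun (c : ix1 F 2) (b : ix1 F 1) => (MvPolynomial.C (cst F 1 b c) : MvPolynomial (V × τ) K))

private theorem T7_mem_col (F : GCx (τ ⊕ V) K) (β : ix1 F 1 → MvPolynomial (V × τ) K) :
    β ∈ T7_col F ↔ ∃ β' : ix1 F 2 → MvPolynomial (V × τ) K,
      ((cst F 1).map MvPolynomial.C).mulVec β' = β := by
  rw [T7_col, Submodule.mem_span_range_iff_exists_fun]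
  constructor
  · rintro ⟨c, hc⟩
    refine ⟨c, ?_⟩
    rw [← hc]
    funext b
    simp only [Matrix.mulVec, dotProduct, Matrix.map_apply, Finset.sum_apply, Pi.smul_apply,
      smul_eq_mul]
    exact Finset.sum_congr rfl fun i _ => mul_comm _ _
  · rintro ⟨c, hc⟩
    refine ⟨c, ?_⟩
    rw [← hc]
    funext b
    simp only [Matrix.mulVec, dotProduct, Matrix.map_apply, Finset.sum_apply, Pi.smul_apply,
      smul_eq_mul]
    exact Finset.sum_congr rfl fun i _ => mul_comm _ _

/-- the submodule of the linear forms -/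
private noncomputable abbrev T7_U (F : GCx (τ ⊕ V) K) :
    Submodule (MvPolynomial (V × τ) K) (τ → MvPolynomial (V × τ) K) :=
  Submodule.span (MvPolynomial (V × τ) K) (Set.range fun b : ix1 F 1 => lam (lin F b))

/-- the sum map -/
private noncomputable def T7_s (F : GCx (τ ⊕ V) K) :
    (ix1 F 1 → MvPolynomial (V × τ) K) →ₗ[MvPolynomial (V × τ) K]
      (τ → MvPolynomial (V × τ) K) where
  toFun β := ∑ b, β b • lam (lin F b)
  map_add' := by
    intro x y
    simp only [Pi.add_apply, add_smul, Finset.sum_add_distrib]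
  map_smul' := by
    intro r x
    simp only [Pi.smul_apply, smul_eq_mul, mul_smul, Finset.smul_sum, RingHom.id_apply]

private theorem T7_s_mem (F : GCx (τ ⊕ V) K) (β : ix1 F 1 → MvPolynomial (V × τ) K) :
    T7_s F β ∈ T7_U F := by
  refine Submodule.sum_mem _ fun b _ => Submodule.smul_mem _ _ (Submodule.subset_span ⟨b, rfl⟩)

private theorem T7_s_surj (F : GCx (τ ⊕ V) K) {y : τ → MvPolynomial (V × τ) K}
    (hy : y ∈ T7_U F) : ∃ β, T7_s F β = y := by
  rw [T7_U, Submodule.mem_span_range_iff_exists_fun] at hy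
  exact hy

private theorem T7_col_le (F : GCx (τ ⊕ V) K) : T7_col F ≤ LinearMap.ker (T7_s F) := by
  rw [T7_col, Submodule.span_le]
  rintro _ ⟨c, rfl⟩
  simp only [SetLike.mem_coe, LinearMap.mem_ker, T7_s, LinearMap.coe_mk, AddHom.coe_mk]
  have h := lin_cst F c
  have h2 : lam (∑ b, cst F 1 b c • lin F b) = (0 : τ → MvPolynomial (V × τ) K) := by
    rw [h]
    exact T7_lam_zero
  rw [T7_lam_sum] at h2
  rw [← h2]
  exact Finset.sum_congr rfl fun b _ => (T7_lam_smul _ _).symm

private theorem T7_FFR (F : GCx (τ ⊕ V) K) (n : ℕ)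
    (hH : FFR (MvPolynomial (V × τ) K) n (Hm (LF F) (Rg Finset.univ ∅) 0))
    (hL : FFR (MvPolynomial (V × τ) K) 1 ((ix1 F 1 → MvPolynomial (V × τ) K) ⧸ T7_col F)) :
    FFR (MvPolynomial (V × τ) K) (n + 1) (T7_U F) := by
  -- the map from the homology
  have hi0 : ((Bc (LF F) (Rg Finset.univ ∅) 0).comap (Zc (LF F) (Rg Finset.univ ∅) 0).subtype) ≤
      LinearMap.ker ((T7_col F).mkQ ∘ₗ (T7_ev F) ∘ₗ (Zc (LF F) (Rg Finset.univ ∅) 0).subtype) := by
    rintro ⟨z, hz⟩ hzB
    rw [Submodule.mem_comap] at hzB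
    obtain ⟨y, hy, hyz⟩ := Submodule.mem_map.1 hzB
    obtain ⟨β, rfl⟩ := emb_surj F 1 hy
    have h1 : z = emb F 0 (((cst F 1).map MvPolynomial.C).mulVec β) := by
      rw [← dS_emb F 0 β]
      exact hyz.symm
    rw [LinearMap.mem_ker]
    simp only [LinearMap.comp_apply]
    rw [Submodule.mkQ_apply, Submodule.Quotient.mk_eq_zero, T7_mem_col]
    exact ⟨β, (T7_ev_emb F _).symm.trans (congrArg (T7_ev F) h1.symm)⟩
  let i : (Hm (LF F) (Rg Finset.univ ∅) 0) →ₗ[MvPolynomial (V × τ) K]
      ((ix1 F 1 → MvPolynomial (V × τ) K) ⧸ T7_col F) :=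
    Submodule.liftQ _ _ hi0
  have himk : ∀ z : Zc (LF F) (Rg Finset.univ ∅) 0,
      i (Submodule.Quotient.mk z) = Submodule.Quotient.mk (T7_ev F z.1) := fun z => rfl
  let q : ((ix1 F 1 → MvPolynomial (V × τ) K) ⧸ T7_col F) →ₗ[MvPolynomial (V × τ) K] T7_U F :=
    Submodule.liftQ _ (LinearMap.codRestrict (T7_U F) (T7_s F) (T7_s_mem F)) (by
      intro β hβ
      rw [LinearMap.mem_ker]
      apply Subtype.ext
      exact T7_col_le F hβ)
  have hqmk : ∀ β : ix1 F 1 → MvPolynomial (V × τ) K,
      ((q (Submodule.Quotient.mk β) : T7_U F) : τ → MvPolynomial (V × τ) K) = T7_s F β := fun β => rfl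
  -- a cycle is the embedding of its coefficients
  have hemb : ∀ z ∈ St (LF F) (Rg Finset.univ ∅) 1, emb F 0 (T7_ev F z) = z := by
    intro z hz
    obtain ⟨β, rfl⟩ := emb_surj F 0 hz
    rw [T7_ev_emb]
  refine FFR_quot n i q ?_ ?_ ?_ hH (FFR_mono (Nat.succ_le_succ (Nat.zero_le n)) hL)
  · rw [injective_iff_map_eq_zero]
    intro x hx
    obtain ⟨z, rfl⟩ := Submodule.Quotient.mk_surjective _ x
    rw [himk, Submodule.Quotient.mk_eq_zero, T7_mem_col] at hx
    obtain ⟨β', hβ'⟩ := hx
    rw [Submodule.Quotient.mk_eq_zero, Submodule.mem_comap]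
    refine Submodule.mem_map.2 ⟨emb F 1 β', emb_mem F 1 β', ?_⟩
    rw [dS_emb F 0 β', hβ']
    exact hemb z.1 (Submodule.mem_inf.1 z.2).1
  · rintro ⟨y, hy⟩
    obtain ⟨β, hβ⟩ := T7_s_surj F hy
    refine ⟨Submodule.Quotient.mk β, Subtype.ext ?_⟩
    rw [hqmk]
    exact hβ
  · ext x
    obtain ⟨β, rfl⟩ := Submodule.Quotient.mk_surjective _ x
    rw [LinearMap.mem_ker, LinearMap.mem_range]
    constructor
    · intro h
      have h0 : T7_s F β = 0 := by
        rw [← hqmk, h]
        rfl
      have hd : dS (LF F) (Rg Finset.univ ∅) 0 (emb F 0 β) = 0 := by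
        rw [dS_emb0 F β]
        have : (∑ b, β b • lam (lin F b)) = (0 : τ → MvPolynomial (V × τ) K) := h0
        rw [this]
        exact T7_emb0_zero F
      refine ⟨Submodule.Quotient.mk ⟨emb F 0 β, Submodule.mem_inf.2 ⟨emb_mem F 0 β, hd⟩⟩, ?_⟩
      rw [himk]
      rw [T7_ev_emb]
    · rintro ⟨y, hy⟩
      obtain ⟨z, rfl⟩ := Submodule.Quotient.mk_surjective _ y
      rw [himk] at hy
      rw [← hy]
      apply Subtype.ext
      rw [hqmk]
      have hz := Submodule.mem_inf.1 z.2
      have hd : dS (LF F) (Rg Finset.univ ∅) 0 (emb F 0 (T7_ev F z.1)) = 0 := by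
        rw [hemb z.1 hz.1]
        exact LinearMap.mem_ker.1 hz.2
      rw [dS_emb0 F] at hd
      have := emb0_inj F (hd.trans (T7_emb0_zero F).symm)
      exact this

private theorem T7_lam_mem (F : GCx (τ ⊕ V) K) {f : τ ⊕ V → K}
    (hf : f ∈ Submodule.span K (Set.range (lin F))) : lam f ∈ T7_U F := by
  induction hf using Submodule.span_induction with
  | mem x hx =>
    obtain ⟨b, rfl⟩ := hx
    exact Submodule.subset_span ⟨b, rfl⟩
  | zero =>
    rw [T7_lam_zero]
    exact Submodule.zero_mem _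
  | add x y _ _ hx hy =>
    rw [T7_lam_add]
    exact Submodule.add_mem _ hx hy
  | smul r x _ hx =>
    rw [T7_lam_smul]
    exact Submodule.smul_mem _ _ hx

end T7gen

private theorem T7_Kap_mem {K : Type} [CommRing K] (m v : ℕ) (p : K[X]) (w : Fin 3 → K[X])
    {g : T m → K} (hg : g ∈ Kap m p w) :
    (fun x => (MvPolynomial.C (g x) : R0 K m v)) ∈
      Submodule.span (R0 K m v) (Set.range (relU m v p w)) := by
  induction hg using Submodule.span_induction with
  | mem x hx =>
    obtain ⟨a, c, l, rfl⟩ := hx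
    exact Submodule.subset_span ⟨Sum.inl (a, c, l), rfl⟩
  | zero =>
    have : (fun x : T m => (MvPolynomial.C ((0 : T m → K) x) : R0 K m v)) = 0 := by
      funext x
      simp
    rw [this]
    exact Submodule.zero_mem _
  | add x y _ _ hx hy =>
    have : (fun z : T m => (MvPolynomial.C ((x + y) z) : R0 K m v)) =
        (fun z => MvPolynomial.C (x z)) + (fun z => MvPolynomial.C (y z)) := by
      funext z
      simp
    rw [this]
    exact Submodule.add_mem _ hx hy
  | smul r x _ hx =>
    have : (fun z : T m => (MvPolynomial.C ((r • x) z) : R0 K m v)) =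
        (MvPolynomial.C r : R0 K m v) • (fun z => MvPolynomial.C (x z)) := by
      funext z
      simp
    rw [this]
    exact Submodule.smul_mem _ _ hx

private theorem T7_span {K : Type} [CommRing K] (m v : ℕ) (p : K[X]) (w : Fin 3 → K[X])
    (F : GCx (T m ⊕ Fin v) K) (hid : F.ideal = idS m v p w) :
    T7_U F = Submodule.span (R0 K m v) (Set.range (relU m v p w)) := by
  apply le_antisymm
  · rw [T7_U, Submodule.span_le]
    rintro _ ⟨b, rfl⟩
    have hb : (fun x => lin F b (Sum.inl x)) ∈ Kap m p w :=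
      (span_lin m v p w F hid (lin F b)).1 (Submodule.subset_span ⟨b, rfl⟩)
    have h1 := T7_Kap_mem m v p w hb
    have h2 : lam (lin F b) = (fun x => (MvPolynomial.C (lin F b (Sum.inl x)) : R0 K m v)) +
        ∑ i : Fin v, (MvPolynomial.C (lin F b (Sum.inr i)) : R0 K m v) •
          relU m v p w (Sum.inr i) := by
      funext x
      simp only [lam, relU, Pi.add_apply, Finset.sum_apply, Pi.smul_apply, smul_eq_mul]
    simp only [SetLike.mem_coe]
    rw [h2]
    refine Submodule.add_mem _ h1 (Submodule.sum_mem _ fun i _ =>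
      Submodule.smul_mem _ _ (Submodule.subset_span ⟨Sum.inr i, rfl⟩))
  · rw [Submodule.span_le]
    rintro _ ⟨y, rfl⟩
    simp only [SetLike.mem_coe]
    rcases y with y | i
    · have hf : (Sum.elim (relv m p w y.1 y.2.1 y.2.2) 0 : T m ⊕ Fin v → K) ∈
          Submodule.span K (Set.range (lin F)) := by
        rw [span_lin m v p w F hid]
        refine Submodule.subset_span ⟨y.1, y.2.1, y.2.2, ?_⟩
        funext x
        simp
      have h := T7_lam_mem F hf
      have he : relU m v p w (Sum.inl y) =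
          lam (Sum.elim (relv m p w y.1 y.2.1 y.2.2) 0 : T m ⊕ Fin v → K) := by
        funext x
        simp [lam, relU]
      rw [he]
      exact h
    · have hf : (Sum.elim 0 (Pi.single i 1) : T m ⊕ Fin v → K) ∈
          Submodule.span K (Set.range (lin F)) := by
        rw [span_lin m v p w F hid]
        have : (fun x => (Sum.elim 0 (Pi.single i 1) : T m ⊕ Fin v → K) (Sum.inl x)) = 0 := by
          funext x
          simp
        rw [this]
        exact Submodule.zero_mem _
      have h := T7_lam_mem F hf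
      have he : relU m v p w (Sum.inr i) =
          lam (Sum.elim 0 (Pi.single i 1) : T m ⊕ Fin v → K) := by
        funext x
        simp only [lam, relU, Sum.elim_inl, Sum.elim_inr, Pi.zero_apply, map_zero, zero_add]
        rw [Finset.sum_eq_single i]
        · simp
        · intro j _ hj
          simp [Pi.single_eq_of_ne hj]
        · intro hi
          exact absurd (Finset.mem_univ i) hi
      rw [he]
      exact h

theorem P3_main {K : Type} [CommRing K] (m v N : ℕ) (hm : 1 ≤ m) (hN : 2 ≤ N) (hv : v + 1 = N + m)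
    (p : K[X]) (w : Fin 3 → K[X]) (F : GCx (T m ⊕ Fin v) K)
    (hlen : ∀ j, 2 * m + v < j → IsEmpty (F.ix j)) (hid : F.ideal = idS m v p w)
    (hK : FFR K 1 (Kap m p w)) : FFR (R0 K m v) N (MU m v p w) := by
  obtain ⟨n, rfl⟩ : ∃ n, N = n + 2 := ⟨N - 2, by omega⟩
  have hH : FFR (MvPolynomial (Fin v × T m) K) n (Hm (LF F) (Rg Finset.univ ∅) 0) := by
    refine tail (LF F) F.e_le (2 * m + v) n hlen ?_ (fun j hj => Ex_univ F j hj)
    have : Fintype.card (T m) = 3 * m := by simp [T]
    rw [this]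
    omega
  have hL : FFR (MvPolynomial (Fin v × T m) K) 1
      ((ix1 F 1 → MvPolynomial (Fin v × T m) K) ⧸ T7_col F) := by
    have h1 := LK m v p w F hid hK
    have h2 := FFR_baseChange (B := MvPolynomial (Fin v × T m) K) 1 h1
    obtain ⟨e⟩ := coker_baseChange (B := MvPolynomial (Fin v × T m) K)
      (fun (c : ix1 F 2) (b : ix1 F 1) => cst F 1 b c)
    exact FFR_congr 1 e h2
  have hU := T7_FFR F n hH hL
  rw [T7_span m v p w F hid] at hU
  exact FFR_quot (n + 1) (Submodule.subtype _) (Submodule.mkQ _) (Submodule.injective_subtype _)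
    (Submodule.mkQ_surjective _) (by rw [Submodule.ker_mkQ, Submodule.range_subtype]) hU
    (FFR_free _ _)

end Pool.Agent.LibMC34
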