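import Pool.Agent.LibMC34.D1

set_option autoImplicit false

/-! MP_ed98ad, block P6: specialisation of the universal module, the core theorem from theorem U. -/

namespace Pool.Agent.LibMC34

open Polynomial

/-- The relations are compatible with ring homomorphisms. -/
theorem relv_map {R A : Type} [CommRing R] [CommRing A] (ψ : R →+* A) (m : ℕ) (p : R[X]) (hp : p.Monic) (w : Fin 3 → R[X]) (a c : Fin 3) (l : ℕ)
    (x : T m) : ψ (relv m p w a c l x) = relv m (p.map ψ) (fun c => (w c).map ψ) a c l x := by
  have h1 : ∀ f : R[X], ψ ((f %ₘ p).coeff l) = ((f.map ψ) %ₘ (p.map ψ)).coeff l := by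
    intro f
    rw [← Polynomial.map_modByMonic ψ hp, Polynomial.coeff_map]
  simp only [relv, map_sub]
  congr 1
  · split_ifs
    · rw [h1, Polynomial.map_mul, Polynomial.map_pow, Polynomial.map_X]
    · exact map_zero ψ
  · split_ifs
    · rw [h1, Polynomial.map_mul, Polynomial.map_pow, Polynomial.map_X]
    · exact map_zero ψ

theorem pK_monic (k : Type) [CommRing k] (m : ℕ) : (pK k m).Monic := by
  rw [pK]
  exact Polynomial.monic_X_pow_add (Polynomial.degree_sum_fin_lt _)

/-- The specialisation homomorphism of the coefficients. -/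
noncomputable def specK (k : Type) [CommRing k] {A : Type} [CommRing A] [Algebra k A] (m : ℕ) (p : A[X]) (w : Fin 3 → A[X]) : K1 k m →+* A :=
  MvPolynomial.eval₂Hom (MvPolynomial.eval₂Hom (algebraMap k A) (fun j : Fin m => p.coeff j)) (fun x : Jk m => (w x.1.2.1).coeff x.1.2.2)

theorem specK_dK (k : Type) [CommRing k] {A : Type} [CommRing A] [Algebra k A] (m : ℕ) (p : A[X]) (w : Fin 3 → A[X]) (j : Fin m) :
    specK k m p w (dK k m j) = p.coeff j := by
  show MvPolynomial.eval₂Hom _ _ (MvPolynomial.C (MvPolynomial.X j)) = _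
  simp

theorem specK_wK (k : Type) [CommRing k] {A : Type} [CommRing A] [Algebra k A] (m : ℕ) (p : A[X]) (w : Fin 3 → A[X]) (c : Fin 3) (j : Fin m) :
    specK k m p w (wK k m c j) = (w c).coeff j := by
  show MvPolynomial.eval₂Hom _ _ (MvPolynomial.X _) = _
  simp

theorem map_pK (k : Type) [CommRing k] {A : Type} [CommRing A] [Algebra k A] (m : ℕ) (p : A[X]) (hp : p.Monic) (hpm : p.natDegree = m)
    (w : Fin 3 → A[X]) : (pK k m).map (specK k m p w) = p := by
  rw [pK]
  simp only [Polynomial.map_add, Polynomial.map_pow, Polynomial.map_X, Polynomial.map_sum, Polynomial.map_mul, Polynomial.map_C, specK_dK]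
  conv_rhs => rw [p.as_sum_range_C_mul_X_pow, hpm, Finset.sum_range_succ]
  rw [Finset.sum_range]
  have h1 : p.coeff m = 1 := by rw [← hpm]; exact hp
  rw [h1, map_one, one_mul]
  ring

theorem map_wpK (k : Type) [CommRing k] {A : Type} [CommRing A] [Algebra k A] (m : ℕ) (p : A[X])
    (w : Fin 3 → A[X]) (hw : ∀ c, (w c).degree < m) (c : Fin 3) : (wpK k m c).map (specK k m p w) = w c := by
  rw [wpK]
  simp only [Polynomial.map_pow, Polynomial.map_X, Polynomial.map_sum, Polynomial.map_mul, Polynomial.map_C, specK_wK]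
  ext n
  simp only [Polynomial.finsetSum_coeff, Polynomial.coeff_C_mul, Polynomial.coeff_X_pow]
  by_cases hn : n < m
  · rw [Finset.sum_eq_single (⟨n, hn⟩ : Fin m)]
    · simp
    · intro b _ hb
      have : n ≠ (b : ℕ) := fun h => hb (Fin.ext h.symm)
      simp [this]
    · intro h; exact absurd (Finset.mem_univ _) h
  · rw [Finset.sum_eq_zero]
    · symm
      apply Polynomial.coeff_eq_zero_of_degree_lt
      refine lt_of_lt_of_le (hw c) ?_
      exact_mod_cast (not_lt.1 hn)
    · intro b _
      have : n ≠ (b : ℕ) := fun h => hn (h ▸ b.isLt)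
      simp [this]

/-- The core from theorem U. `A` is any commutative `k`-algebra. -/
theorem core_of_U (k : Type) [Field k] {A : Type} [CommRing A] [Algebra k A] (m v N : ℕ)
    (hU : FFR (R0 (K1 k m) m v) N (MU m v (pK k m) (wpK k m)))
    (p : A[X]) (hp : p.Monic) (hpm : p.natDegree = m) (w : Fin 3 → A[X]) (hw : ∀ c, (w c).degree < m)
    (g : Fin v → T m → A) (s : A) (x : Fin N → A)
    (hreg : RingTheory.Sequence.IsWeaklyRegular A (s :: List.ofFn x))
    (hfin : ∀ i, ∃ e : ℕ, ∀ y : T m → A, ∃ y' : T m → A,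
      (x i ^ e) • y - s • y' ∈ Submodule.span A (Set.range (rels m v p w g))) :
    ∀ y : T m → A, s • y ∈ Submodule.span A (Set.range (rels m v p w g)) →
      y ∈ Submodule.span A (Set.range (rels m v p w g)) := by
  let ψ : R0 (K1 k m) m v →+* A := MvPolynomial.eval₂Hom (specK k m p w) (fun y => g y.1 y.2)
  letI : Algebra (R0 (K1 k m) m v) A := ψ.toAlgebra
  have hρ : (fun j t => algebraMap (R0 (K1 k m) m v) A (relU m v (pK k m) (wpK k m) j t)) = rels m v p w g := by
    funext j t
    show ψ (relU m v (pK k m) (wpK k m) j t) = _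
    cases j with
    | inl y =>
      simp only [relU, rels]
      show MvPolynomial.eval₂Hom _ _ (MvPolynomial.C _) = _
      rw [MvPolynomial.eval₂Hom_C, relv_map _ _ _ (pK_monic k m), map_pK k m p hp hpm w]
      have h2 : (fun c => (wpK k m c).map (specK k m p w)) = w := by
        funext c; exact map_wpK k m p w hw c
      rw [h2]
    | inr i =>
      simp only [relU, rels]
      show MvPolynomial.eval₂Hom _ _ (MvPolynomial.X _) = _
      rw [MvPolynomial.eval₂Hom_X']
  have h := block_P6' (R := R0 (K1 k m) m v) (A := A) (relU m v (pK k m) (wpK k m)) N hU s x hreg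
  rw [hρ] at h
  exact h hfin

end Pool.Agent.LibMC34
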