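import Pool.Agent.LibMC34.Z2
import Pool.Agent.LibMC34.D2

set_option autoImplicit false

/-! MP_ed98ad, block Z: generic Koszul relations. -/

namespace Pool.Agent.LibMC34

open Polynomial

/-- Translation criterion for regularity. -/
theorem regular_of_translation {B : Type} [CommRing B] (θ : B →+* B[X]) (h0 : ∀ b, (θ b).eval 0 = b) (w : B) (hw : θ w = C w + X)
    (b : B) (hb : w * b = 0) : b = 0 := by
  have h1 : θ w * θ b = 0 := by rw [← map_mul, hb, map_zero]
  rw [hw] at h1
  have h2 : (C w + X : B[X]).Monic := by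
    rw [add_comm]; exact Polynomial.monic_X_add_C w
  have h3 : θ b = 0 := (Polynomial.Monic.mul_right_eq_zero_iff h2).1 h1
  rw [← h0 b, h3, Polynomial.eval_zero]

/-- Regularity of the second element. -/
theorem regular_pair {B : Type} [CommRing B] (θ θ' : B →+* B[X]) (h0 : ∀ b, (θ b).eval 0 = b) (h0' : ∀ b, (θ' b).eval 0 = b)
    (w w' : B) (hw : θ w = C w + X) (hw' : θ' w' = C w' + X) (hww : θ w' = C w')
    (b c : B) (hb : w' * b = w * c) : ∃ c', b = w * c' := by
  let Ψ : B →+* B := (Polynomial.evalRingHom (-w)).comp θ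
  have e1 : Ψ w = 0 := by
    show (θ w).eval (-w) = 0
    rw [hw]; simp
  have e2 : Ψ w' = w' := by
    show (θ w').eval (-w) = w'
    rw [hww]; simp
  have e3 : w' * Ψ b = 0 := by
    have := congrArg Ψ hb
    rw [map_mul, map_mul, e1, e2, zero_mul] at this
    exact this
  have e4 : Ψ b = 0 := regular_of_translation θ' h0' w' hw' _ e3
  have e5 : (0 : B) - (-w) ∣ (θ b).eval 0 - (θ b).eval (-w) := Polynomial.sub_dvd_eval_sub _ _ _
  obtain ⟨c', hc'⟩ := e5
  refine ⟨c', ?_⟩
  have e6 : (θ b).eval (-w) = 0 := e4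
  rw [h0, e6, sub_zero, zero_sub, neg_neg] at hc'
  exact hc'

section
variable (k : Type) [Field k] (m : ℕ)

/-- The translation of the variable `w^c_0` on the coefficients. -/
noncomputable def thC (hm : 1 ≤ m) (c : Fin 3) : K1 k m →+* (AdjoinRoot (pK k m))[X] :=
  MvPolynomial.eval₂Hom
    (((Polynomial.C : AdjoinRoot (pK k m) →+* _).comp (AdjoinRoot.of (pK k m))).comp
      (MvPolynomial.C : MvPolynomial (Fin m) k →+* MvPolynomial (Jk m) (MvPolynomial (Fin m) k)))
    (fun x : Jk m => Polynomial.C (AdjoinRoot.of (pK k m) (MvPolynomial.X x : MvPolynomial (Jk m) (MvPolynomial (Fin m) k)))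
      + if x.1 = (true, c, 0) then Polynomial.X else 0)

theorem thC_C (hm : 1 ≤ m) (c : Fin 3) (a : MvPolynomial (Fin m) k) :
    thC k m hm c (MvPolynomial.C a : MvPolynomial (Jk m) (MvPolynomial (Fin m) k))
      = Polynomial.C (AdjoinRoot.of (pK k m) (MvPolynomial.C a : MvPolynomial (Jk m) (MvPolynomial (Fin m) k))) := by
  show MvPolynomial.eval₂Hom _ _ (MvPolynomial.C a) = _
  rw [MvPolynomial.eval₂Hom_C]
  rfl

theorem thC_dK (hm : 1 ≤ m) (c : Fin 3) (j : Fin m) :
    thC k m hm c (dK k m j) = Polynomial.C (AdjoinRoot.of (pK k m) (dK k m j)) :=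
  thC_C k m hm c (MvPolynomial.X j)

theorem thC_X (hm : 1 ≤ m) (c : Fin 3) (x : Jk m) :
    thC k m hm c (MvPolynomial.X x : MvPolynomial (Jk m) (MvPolynomial (Fin m) k))
      = Polynomial.C (AdjoinRoot.of (pK k m) (MvPolynomial.X x : MvPolynomial (Jk m) (MvPolynomial (Fin m) k)))
      + if x.1 = (true, c, 0) then Polynomial.X else 0 := by
  show MvPolynomial.eval₂Hom _ _ (MvPolynomial.X x) = _
  rw [MvPolynomial.eval₂Hom_X']

theorem thC_wK (hm : 1 ≤ m) (c c' : Fin 3) (j : Fin m) :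
    thC k m hm c (wK k m c' j) = Polynomial.C (AdjoinRoot.of (pK k m) (wK k m c' j))
      + if c' = c ∧ (j : ℕ) = 0 then Polynomial.X else 0 := by
  have h := thC_X k m hm c ⟨(true, c', (j : ℕ)), by simp⟩
  have h2 : (wK k m c' j) = (MvPolynomial.X ⟨(true, c', (j : ℕ)), by simp⟩ : MvPolynomial (Jk m) (MvPolynomial (Fin m) k)) := rfl
  rw [h2, h]
  congr 1
  simp

theorem th_root (hm : 1 ≤ m) (c : Fin 3) :
    (pK k m).eval₂ (thC k m hm c) (Polynomial.C (AdjoinRoot.root (pK k m))) = 0 := by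
  have h2 : ∀ Q : (K1 k m)[X], Q = Polynomial.X ^ m + ∑ j : Fin m, Polynomial.C (dK k m j) * Polynomial.X ^ (j : ℕ) →
      Q.eval₂ (thC k m hm c) (Polynomial.C (AdjoinRoot.root (pK k m)))
      = Polynomial.C (Q.eval₂ (AdjoinRoot.of (pK k m)) (AdjoinRoot.root (pK k m))) := by
    rintro Q rfl
    simp only [Polynomial.eval₂_add, Polynomial.eval₂_pow, Polynomial.eval₂_X, Polynomial.eval₂_finsetSum, Polynomial.eval₂_mul,
      Polynomial.eval₂_C, thC_dK, map_add, map_pow, map_sum, map_mul]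
  rw [h2 (pK k m) rfl, AdjoinRoot.eval₂_root, map_zero]

/-- The translation on `B`. -/
noncomputable def th (hm : 1 ≤ m) (c : Fin 3) : AdjoinRoot (pK k m) →+* (AdjoinRoot (pK k m))[X] :=
  AdjoinRoot.lift (thC k m hm c) (Polynomial.C (AdjoinRoot.root (pK k m))) (th_root k m hm c)

theorem th_eval (hm : 1 ≤ m) (c : Fin 3) (b : AdjoinRoot (pK k m)) : (th k m hm c b).eval 0 = b := by
  have h1 : (Polynomial.evalRingHom 0).comp (th k m hm c) = RingHom.id _ := by
    apply AdjoinRoot.ringHom_ext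
    · apply MvPolynomial.ringHom_ext
      · intro a
        show (th k m hm c (AdjoinRoot.of (pK k m) (MvPolynomial.C a : MvPolynomial (Jk m) (MvPolynomial (Fin m) k)))).eval 0 = _
        rw [th, AdjoinRoot.lift_of, thC_C, Polynomial.eval_C]
        rfl
      · intro x
        show (th k m hm c (AdjoinRoot.of (pK k m) (MvPolynomial.X x : MvPolynomial (Jk m) (MvPolynomial (Fin m) k)))).eval 0 = _
        rw [th, AdjoinRoot.lift_of, thC_X, Polynomial.eval_add, Polynomial.eval_C]
        split_ifs <;> simp <;> rfl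
    · show (th k m hm c (AdjoinRoot.root (pK k m))).eval 0 = _
      rw [th, AdjoinRoot.lift_root, Polynomial.eval_C]
      rfl
  exact congrArg (fun f : AdjoinRoot (pK k m) →+* AdjoinRoot (pK k m) => f b) h1

theorem th_w (hm : 1 ≤ m) (c c' : Fin 3) :
    th k m hm c (AdjoinRoot.mk (pK k m) (wpK k m c')) = Polynomial.C (AdjoinRoot.mk (pK k m) (wpK k m c')) + if c' = c then Polynomial.X else 0 := by
  rw [wpK, map_sum, map_sum, map_sum]
  have h1 : ∀ j : Fin m, th k m hm c (AdjoinRoot.mk (pK k m) (Polynomial.C (wK k m c' j) * Polynomial.X ^ (j : ℕ)))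
      = Polynomial.C (AdjoinRoot.mk (pK k m) (Polynomial.C (wK k m c' j) * Polynomial.X ^ (j : ℕ)))
        + (if c' = c ∧ (j : ℕ) = 0 then Polynomial.X else 0) * Polynomial.C (AdjoinRoot.root (pK k m)) ^ (j : ℕ) := by
    intro j
    rw [map_mul, map_mul, map_pow, map_pow, AdjoinRoot.mk_C, AdjoinRoot.mk_X, th, AdjoinRoot.lift_of, AdjoinRoot.lift_root, thC_wK,
      map_mul, map_pow]
    ring
  rw [Finset.sum_congr rfl (fun j _ => h1 j), Finset.sum_add_distrib]
  congr 1
  rw [Finset.sum_eq_single (⟨0, hm⟩ : Fin m)]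
  · by_cases hc : c' = c <;> simp [hc]
  · intro j _ hj
    have : ¬ ((j : ℕ) = 0) := fun h => hj (Fin.ext h)
    simp [this]
  · intro h; exact absurd (Finset.mem_univ _) h

theorem pK_natDegree : (pK k m).natDegree = m := by
  nontriviality k
  have h1 : Nontrivial (K1 k m) := inferInstanceAs (Nontrivial (MvPolynomial (Jk m) (MvPolynomial (Fin m) k)))
  rw [pK]
  apply Polynomial.natDegree_eq_of_degree_eq_some
  rw [Polynomial.degree_add_eq_left_of_degree_lt, Polynomial.degree_X_pow]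
  rw [Polynomial.degree_X_pow]
  exact Polynomial.degree_sum_fin_lt _

end

/-- Block Z: generic Koszul relations -/
theorem block_Z (k : Type) [Field k] (m : ℕ) (hm : 1 ≤ m) :
    FFR (K1 k m) 1 (Kap m (pK k m) (wpK k m)) := by
  refine ffr_Kap (pK_monic k m) m (pK_natDegree k m) (wpK k m) ?_ ?_
  · intro b hb
    refine regular_of_translation (th k m hm 0) (th_eval k m hm 0) _ ?_ b hb
    rw [th_w, if_pos rfl]
  · intro b c hb
    refine regular_pair (th k m hm 0) (th k m hm 1) (th_eval k m hm 0) (th_eval k m hm 1) _ _ ?_ ?_ ?_ b c hb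
    · rw [th_w, if_pos rfl]
    · rw [th_w, if_pos rfl]
    · rw [th_w, if_neg (by decide), add_zero]

end Pool.Agent.LibMC34
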