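import Pool.Agent.LibMC34.B14
import Pool.Agent.LibMC34.T7
import Pool.Agent.LibMC34.Z3

set_option autoImplicit false

/-! MP_ed98ad: theorem U and the core theorem. -/

namespace Pool.Agent.LibMC34

open Polynomial

/-- the universal theorem -/
theorem theorem_U (k : Type) [Field k] (m v N : ℕ) (hm : 1 ≤ m) (hN : 2 ≤ N) (hv : v + 1 = N + m) :
    FFR (R0 (K1 k m) m v) N (MU m v (pK k m) (wpK k m)) := by
  obtain ⟨F, h1, h2⟩ := P1_main k m v
  exact P3_main m v N hm hN hv _ _ F h1 h2 (block_Z k m hm)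

/-- THE CORE. `A^T / (relations of the minors, v arbitrary vectors)`, `v = N + m - 1`, `N ≥ 2`, for an arbitrary commutative `k`-algebra `A`. -/
theorem core (k : Type) [Field k] {A : Type} [CommRing A] [Algebra k A]
    (m v N : ℕ) (hm : 1 ≤ m) (hN : 2 ≤ N) (hv : v + 1 = N + m)
    (p : A[X]) (hp : p.Monic) (hpm : p.natDegree = m) (w : Fin 3 → A[X]) (hw : ∀ c, (w c).degree < m)
    (g : Fin v → T m → A) (s : A) (x : Fin N → A)
    (hreg : RingTheory.Sequence.IsWeaklyRegular A (s :: List.ofFn x))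
    (hfin : ∀ i, ∃ e : ℕ, ∀ y : T m → A, ∃ y' : T m → A,
      (x i ^ e) • y - s • y' ∈ Submodule.span A (Set.range (rels m v p w g))) :
    ∀ y : T m → A, s • y ∈ Submodule.span A (Set.range (rels m v p w g)) →
      y ∈ Submodule.span A (Set.range (rels m v p w g)) :=
  core_of_U k m v N (theorem_U k m v N hm hN hv) p hp hpm w hw g s x hreg hfin

end Pool.Agent.LibMC34
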