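import Pool.Agent.LibMC34.Defs
import Pool.Agent.LibMJ36.FFR2

set_option autoImplicit false

/-! MP_ed98ad, block P6: descent. -/

namespace Pool.Agent.LibMC34

open Matrix

theorem ffr_conv {R : Type} [CommRing R] (d : ℕ) : ∀ (M : Type) [AddCommGroup M] [Module R M], FFR R d M → LibMJ36.FFR R d M := by
  induction d with
  | zero => intro M _ _ h; exact h
  | succ d ih =>
    rintro M _ _ ⟨n, f, hf, hK⟩
    exact ⟨n, f, hf, ih _ hK⟩

theorem ffr_conv' {R : Type} [CommRing R] (d : ℕ) : ∀ (M : Type) [AddCommGroup M] [Module R M], LibMJ36.FFR R d M → FFR R d M := by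
  induction d with
  | zero => intro M _ _ h; exact h
  | succ d ih =>
    rintro M _ _ ⟨n, f, hf, hK⟩
    exact ⟨n, f, hf, ih _ hK⟩

theorem mem_span_iff_mulVec {A : Type} [CommRing A] {I J : Type} [Fintype I] [Fintype J] (ρ : J → I → A) (a : I → A) :
    a ∈ Submodule.span A (Set.range ρ) ↔ ∃ c : J → A, (Matrix.of (fun t j => ρ j t)) *ᵥ c = a := by
  rw [Submodule.mem_span_range_iff_exists_fun]
  constructor
  · rintro ⟨c, hc⟩
    refine ⟨c, ?_⟩
    rw [← hc]
    funext t
    simp [Matrix.mulVec, dotProduct, mul_comm]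
  · rintro ⟨c, hc⟩
    refine ⟨c, ?_⟩
    rw [← hc]
    funext t
    simp [Matrix.mulVec, dotProduct, mul_comm]

theorem reg_of_weakly {A : Type} [CommRing A] (N : ℕ) (s : A) (x : Fin N → A)
    (hreg : RingTheory.Sequence.IsWeaklyRegular A (s :: List.ofFn x)) :
    (∀ a : A, s * a = 0 → a = 0) ∧
      ∀ k : Fin N, ∀ a, x k * a ∈ LibMJ36.idealUpto s x k.val → a ∈ LibMJ36.idealUpto s x k.val := by
  constructor
  · intro a ha
    have h1 := ((RingTheory.Sequence.isWeaklyRegular_cons_iff A s _).1 hreg).1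
    apply h1
    show s • a = s • (0 : A)
    rw [smul_zero, smul_eq_mul, ha]
  · rw [RingTheory.Sequence.isWeaklyRegular_iff] at hreg
    intro k a ha
    have h1 := hreg (k.val + 1) (by simp)
    have h3 : (s :: List.ofFn x)[k.val + 1]'(by simp) = x k := by
      simp
    rw [h3] at h1
    have h4 : (Ideal.ofList ((s :: List.ofFn x).take (k.val + 1)) • (⊤ : Submodule A A)) = LibMJ36.idealUpto s x k.val := by
      rw [smul_eq_mul, Ideal.mul_top]
      rw [Ideal.ofList, LibMJ36.idealUpto]
      congr 1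
      ext z
      simp only [List.take_succ_cons, List.mem_cons, Set.mem_ofPred_eq, Set.mem_insert_iff]
      refine or_congr Iff.rfl ?_
      rw [List.mem_take_iff_getElem]
      constructor
      · rintro ⟨i, hi, rfl⟩
        have hi' : i < k.val := by
          have := lt_of_lt_of_le hi (min_le_left _ _)
          exact this
        exact ⟨⟨i, lt_trans hi' k.isLt⟩, hi', by simp⟩
      · rintro ⟨i, hi, rfl⟩
        exact ⟨i.val, by simp; omega, by simp⟩
    have h5 := (isSMulRegular_quotient_iff_mem_of_smul_mem _ _).1 h1 a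
    rw [h4] at h5
    exact h5 ha

/-- Block P6: descent, for every commutative ring `A`. -/
theorem block_P6' {R A : Type} [CommRing R] [CommRing A] [Algebra R A]
    {I J : Type} [Fintype I] [Fintype J] (ρ : J → I → R) (N : ℕ)
    (h : FFR R N ((I → R) ⧸ Submodule.span R (Set.range ρ)))
    (s : A) (x : Fin N → A)
    (hreg : RingTheory.Sequence.IsWeaklyRegular A (s :: List.ofFn x))
    (hfin : ∀ i, ∃ e : ℕ, ∀ y : I → A, ∃ y' : I → A,
      (x i ^ e) • y - s • y' ∈ Submodule.span A (Set.range fun j t => algebraMap R A (ρ j t))) :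
    ∀ y : I → A, s • y ∈ Submodule.span A (Set.range fun j t => algebraMap R A (ρ j t)) →
      y ∈ Submodule.span A (Set.range fun j t => algebraMap R A (ρ j t)) := by
  classical
  intro y hy
  let W : Matrix I J R := Matrix.of (fun t j => ρ j t)
  obtain ⟨F⟩ := LibMJ36.matRes_of_ffr N W _ (ffr_conv N _ h) (Submodule.mkQ _) (Submodule.mkQ_surjective _) (by
    intro a
    rw [Submodule.mkQ_apply, Submodule.Quotient.mk_eq_zero]
    exact mem_span_iff_mulVec ρ a)
  have hmap : W.map (algebraMap R A) = Matrix.of (fun t j => (fun j t => algebraMap R A (ρ j t)) j t) := rfl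
  obtain ⟨h1, h2⟩ := reg_of_weakly N s x hreg
  obtain ⟨c, hc⟩ := (mem_span_iff_mulVec _ _).1 hy
  have h3 := LibMJ36.core N W F (algebraMap R A) s h1 x h2 (by
    intro k
    obtain ⟨e, he⟩ := hfin k
    refine ⟨e, fun a => ?_⟩
    obtain ⟨y', hy'⟩ := he a
    obtain ⟨c', hc'⟩ := (mem_span_iff_mulVec _ _).1 hy'
    refine ⟨c', y', ?_⟩
    rw [hmap, hc']
    abel) y c (by rw [hmap, hc])
  obtain ⟨c', hc'⟩ := h3
  exact (mem_span_iff_mulVec _ _).2 ⟨c', hc'⟩

/-- Block P6: descent -/
theorem block_P6 {R A : Type} [CommRing R] [CommRing A] [Algebra R A] [IsLocalRing A] [IsNoetherianRing A]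
    {I J : Type} [Fintype I] [Fintype J] (ρ : J → I → R) (N : ℕ)
    (h : FFR R N ((I → R) ⧸ Submodule.span R (Set.range ρ)))
    (s : A) (x : Fin N → A) (_hs : s ∈ IsLocalRing.maximalIdeal A)
    (hreg : RingTheory.Sequence.IsWeaklyRegular A (s :: List.ofFn x))
    (hfin : ∀ i, ∃ e : ℕ, ∀ y : I → A, ∃ y' : I → A,
      (x i ^ e) • y - s • y' ∈ Submodule.span A (Set.range fun j t => algebraMap R A (ρ j t))) :
    ∀ y : I → A, s • y ∈ Submodule.span A (Set.range fun j t => algebraMap R A (ρ j t)) →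
      y ∈ Submodule.span A (Set.range fun j t => algebraMap R A (ρ j t)) :=
  block_P6' ρ N h s x hreg hfin

end Pool.Agent.LibMC34
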