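import Mathlib

set_option autoImplicit false

/-! Definitions for the core of MP_ed98ad_ag (Mond conjecture in corank 1); see L28_ed98ad_helper34.md. Everything lives in `Type`. -/

namespace Pool.Agent.LibMC34

open MvPolynomial (IsWeightedHomogeneous)

/-! ### Block G: graded formalism -/

section graded

variable {σ : Type} {K : Type} [CommRing K]

/-- degrees: first coordinate = s-degree, second coordinate = auxiliary weight -/
abbrev Dg := ℤ × ℤ

/-- homogeneous vectors of `R^I`, where the basis vector `i` has degree `deg i` -/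
def HV (w : σ → Dg) {I : Type} (deg : I → Dg) (v : I → MvPolynomial σ K) (μ : Dg) : Prop :=
  ∀ i, IsWeightedHomogeneous w (v i) (μ - deg i)

/-- the syzygies of a finite family of vectors -/
def syz {R : Type} [CommRing R] {I J : Type} [Fintype J] (g : J → I → R) : Submodule R (J → R) where
  carrier := {c | ∑ a, c a • g a = 0}
  add_mem' := by
    intro x y hx hy
    simp only [Set.mem_ofPred_eq] at *
    simp [add_smul, Finset.sum_add_distrib, hx, hy]
  zero_mem' := by simp
  smul_mem' := by
    intro r x hx
    simp only [Set.mem_ofPred_eq] at *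
    simp [mul_smul, ← Finset.smul_sum, hx]

/-- `N` has a graded free resolution with `c` steps, where the generators of the step `j = 0, 1, ..` have s-degree between `lo` and `d + j` -/
def Good (w : σ → Dg) (lo : ℤ) : (c : ℕ) → (I : Type) → (I → Dg) →
    Submodule (MvPolynomial σ K) (I → MvPolynomial σ K) → ℤ → Prop
  | 0, _, _, N, _ => N = ⊥
  | c + 1, _, deg, N, d => ∃ (J : Type) (_ : Fintype J) (e : J → Dg) (g : J → _ → MvPolynomial σ K),
      (∀ a, HV w deg (g a) (e a)) ∧ (∀ a, lo ≤ (e a).1 ∧ (e a).1 ≤ d) ∧
      Submodule.span _ (Set.range g) = N ∧ Good w lo c J e (syz g) (d + 1)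

/-- an ideal as a submodule of `R^Unit` -/
def idealSub {R : Type} [CommRing R] (N : Ideal R) : Submodule R (Unit → R) where
  carrier := {v | v () ∈ N}
  add_mem' := fun hx hy => N.add_mem hx hy
  zero_mem' := N.zero_mem
  smul_mem' := fun r _ hx => N.mul_mem_left r hx

end graded

/-! ### Explicit graded complexes over `MvPolynomial D K` (total degree) -/

/-- an exact complex `.. → F_2 → F_1 → F_0 = MvPolynomial D K` of finite free graded modules, given by matrices; the generators of `F_j` (`j ≥ 1`) have degrees between `1` and `j` -/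
structure GCx (D K : Type) [CommRing K] where
  ix : ℕ → Type
  fin : ∀ j, Fintype (ix j)
  uniq : Unique (ix 0)
  e : ∀ j, ix j → ℕ
  e_zero : ∀ a, e 0 a = 0
  e_pos : ∀ j a, 1 ≤ e (j + 1) a
  e_le : ∀ j a, e j a ≤ j
  φ : ∀ j, Matrix (ix j) (ix (j + 1)) (MvPolynomial D K)
  hom : ∀ j a b, e j a ≤ e (j + 1) b → (φ j a b).IsHomogeneous (e (j + 1) b - e j a)
  hom0 : ∀ j a b, e (j + 1) b < e j a → φ j a b = 0
  comp : ∀ j, φ j * φ (j + 1) = 0
  exact : ∀ j (z : ix (j + 1) → MvPolynomial D K), (φ j).mulVec z = 0 →
    ∃ y : ix (j + 2) → MvPolynomial D K, (φ (j + 1)).mulVec y = z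

attribute [instance] GCx.fin GCx.uniq

/-- the ideal which is resolved -/
noncomputable def GCx.ideal {D K : Type} [CommRing K] (F : GCx D K) : Ideal (MvPolynomial D K) :=
  Ideal.span (Set.range fun b => F.φ 0 default b)

/-! ### Finite free resolutions -/

/-- `M` has a finite free resolution of length at most `d` -/
def FFR (R : Type) [CommRing R] : (d : ℕ) → (M : Type) → [AddCommGroup M] → [Module R M] → Prop
  | 0, M, _, _ => Module.Finite R M ∧ Module.Free R M
  | d + 1, M, _, _ => ∃ (n : ℕ) (f : (Fin n → R) →ₗ[R] M), Function.Surjective f ∧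
      FFR R d (LinearMap.ker f)

/-! ### The module of the core theorem -/

/-- index set of the coefficients of three polynomials of degree `< m` -/
abbrev T (m : ℕ) := Fin 3 × Fin m

open Polynomial in
/-- coefficient vector of the linear form `coeff_l ((u^a w_c - u^c w_a) mod p)` in the variables `u^b_i` -/
noncomputable def relv {A : Type} [CommRing A] (m : ℕ) (p : A[X]) (w : Fin 3 → A[X]) (a c : Fin 3) (l : ℕ) :
    T m → A := fun x =>
  (if x.1 = a then ((Polynomial.X ^ (x.2 : ℕ) * w c) %ₘ p).coeff l else 0) -
  (if x.1 = c then ((Polynomial.X ^ (x.2 : ℕ) * w a) %ₘ p).coeff l else 0)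

open Polynomial in
/-- the relations `relv a c l`, `l < m`, and `v` further vectors -/
noncomputable def rels {A : Type} [CommRing A] (m v : ℕ) (p : A[X]) (w : Fin 3 → A[X]) (g : Fin v → T m → A) :
    (Fin 3 × Fin 3 × Fin m) ⊕ Fin v → T m → A
  | Sum.inl y => relv m p w y.1 y.2.1 y.2.2
  | Sum.inr i => g i

/-! ### The universal rings -/

/-- index of a variable: (false, c, i) is u^c_i, (true, c, i) is w^c_i (as in LibRG7) -/
abbrev Ix := Bool × Fin 3 × ℕ

/-- the variables of s-degree 0 -/
abbrev Jk (m : ℕ) := {x : Ix // ¬ (x.1 = false ∧ x.2.2 < m)}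

section modulus
variable (k : Type) [CommRing k] (m : ℕ)

/-- the ring of coefficients: modulus coefficients, `w^c_j`, and junk variables -/
def K1 : Type := MvPolynomial (Jk m) (MvPolynomial (Fin m) k)

noncomputable instance : CommRing (K1 k m) :=
  inferInstanceAs (CommRing (MvPolynomial (Jk m) (MvPolynomial (Fin m) k)))

noncomputable instance : Algebra k (K1 k m) :=
  inferInstanceAs (Algebra k (MvPolynomial (Jk m) (MvPolynomial (Fin m) k)))

/-- the modulus coefficient `d_j` -/
noncomputable def dK (j : Fin m) : K1 k m :=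
  (MvPolynomial.C (MvPolynomial.X j) : MvPolynomial (Jk m) (MvPolynomial (Fin m) k))

/-- the variable `w^c_j` -/
noncomputable def wK (c : Fin 3) (j : Fin m) : K1 k m :=
  (MvPolynomial.X ⟨(true, c, (j : ℕ)), by simp⟩ : MvPolynomial (Jk m) (MvPolynomial (Fin m) k))

open Polynomial in
/-- the generic modulus -/
noncomputable def pK : (K1 k m)[X] :=
  Polynomial.X ^ m + ∑ j : Fin m, Polynomial.C (dK k m j) * Polynomial.X ^ (j : ℕ)

open Polynomial in
/-- the generic second row -/
noncomputable def wpK (c : Fin 3) : (K1 k m)[X] :=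
  ∑ j : Fin m, Polynomial.C (wK k m c j) * Polynomial.X ^ (j : ℕ)

end modulus

section universal
variable {K : Type} [CommRing K] (m v : ℕ)

/-- the linear form with given coefficients in the variables `inl x` -/
noncomputable def linS (f : T m → K) : MvPolynomial (T m ⊕ Fin v) K :=
  ∑ x, MvPolynomial.C (f x) * MvPolynomial.X (Sum.inl x)

open Polynomial in
/-- the ideal of the coefficients of the minors and of the variables `inr i` -/
noncomputable def idS (p : K[X]) (w : Fin 3 → K[X]) : Ideal (MvPolynomial (T m ⊕ Fin v) K) :=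
  Ideal.span ({y | ∃ (a c : Fin 3) (l : Fin m), y = linS m v (relv m p w a c l)} ∪
    {y | ∃ i : Fin v, y = MvPolynomial.X (Sum.inr i)})

/-- the universal coefficient ring with `v` generic vectors -/
abbrev R0 (K : Type) [CommRing K] (m v : ℕ) := MvPolynomial (Fin v × T m) K

open Polynomial in
/-- all relations over `R0`: `relv` and `v` generic vectors -/
noncomputable def relU (p : K[X]) (w : Fin 3 → K[X]) :
    (Fin 3 × Fin 3 × Fin m) ⊕ Fin v → T m → R0 K m v
  | Sum.inl y => fun x => MvPolynomial.C (relv m p w y.1 y.2.1 y.2.2 x)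
  | Sum.inr i => fun x => MvPolynomial.X (i, x)

open Polynomial in
/-- the universal module -/
abbrev MU (p : K[X]) (w : Fin 3 → K[X]) :=
  (T m → R0 K m v) ⧸ Submodule.span (R0 K m v) (Set.range (relU m v p w))

open Polynomial in
/-- the module of the relations of the minors -/
abbrev Kap (p : K[X]) (w : Fin 3 → K[X]) : Submodule K (T m → K) :=
  Submodule.span K {y | ∃ (a c : Fin 3) (l : Fin m), y = relv m p w a c l}

end universal

end Pool.Agent.LibMC34
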