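import Pool.Agent.LibMC34.GDefs

set_option autoImplicit false

/-! [MC34 G1] (MEDIUM, only Mathlib + GDefs). Components of vectors.
 API: Mathlib.RingTheory.MvPolynomial.WeightedHomogeneous. exists_sum_cm: take the union over i of the images of the
 supports of v i under d -> weight w d + deg i; compare coefficients (coeff_weightedHomogeneousComponent). -/

namespace Pool.Agent.LibMC34

open MvPolynomial

variable {σ : Type} {K : Type} [CommRing K] {w : σ → Dg} {I : Type} {deg : I → Dg}

theorem hv_cm (μ : Dg) (v : I → MvPolynomial σ K) : HV w deg (cm w deg μ v) μ := by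
  intro i
  exact weightedHomogeneousComponent_isWeightedHomogeneous _ _

theorem cm_same {μ : Dg} {v : I → MvPolynomial σ K} (h : HV w deg v μ) : cm w deg μ v = v := by
  funext i
  exact (h i).weightedHomogeneousComponent_same

theorem cm_ne {μ μ' : Dg} (hg : μ' ≠ μ) {v : I → MvPolynomial σ K} (h : HV w deg v μ) :
    cm w deg μ' v = 0 := by
  funext i
  exact (h i).weightedHomogeneousComponent_ne _ fun e => hg (sub_left_injective e)

theorem cm_add (μ : Dg) (v u : I → MvPolynomial σ K) :
    cm w deg μ (v + u) = cm w deg μ v + cm w deg μ u := by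
  funext i
  simp only [cm, Pi.add_apply, map_add]

theorem cm_sub (μ : Dg) (v u : I → MvPolynomial σ K) :
    cm w deg μ (v - u) = cm w deg μ v - cm w deg μ u := by
  funext i
  simp only [cm, Pi.sub_apply, map_sub]

theorem cm_zero (μ : Dg) : cm w deg μ (0 : I → MvPolynomial σ K) = 0 := by
  funext i
  simp only [cm, Pi.zero_apply, map_zero]

theorem cm_sum {ι : Type} (s : Finset ι) (μ : Dg) (v : ι → I → MvPolynomial σ K) :
    cm w deg μ (∑ a ∈ s, v a) = ∑ a ∈ s, cm w deg μ (v a) := by
  funext i
  simp only [cm, Finset.sum_apply, map_sum]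

theorem exists_sum_cm [Finite I] (v : I → MvPolynomial σ K) :
    ∃ s : Finset Dg, (∀ μ, μ ∉ s → cm w deg μ v = 0) ∧ v = ∑ μ ∈ s, cm w deg μ v := by
  classical
  have := Fintype.ofFinite I
  let s : Finset Dg := Finset.univ.biUnion fun i : I =>
    (v i).support.image fun d => Finsupp.weight w d + deg i
  have hs : ∀ (i : I) (d : σ →₀ ℕ), coeff d (v i) ≠ 0 → Finsupp.weight w d + deg i ∈ s := by
    intro i d hd
    refine Finset.mem_biUnion.2 ⟨i, Finset.mem_univ _, Finset.mem_image.2 ⟨d, ?_, rfl⟩⟩
    exact mem_support_iff.2 hd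
  refine ⟨s, ?_, ?_⟩
  · intro μ hμ
    funext i
    refine weightedHomogeneousComponent_eq_zero' _ _ fun d hd h => hμ ?_
    have h1 := hs i d (mem_support_iff.1 hd)
    rwa [h, sub_add_cancel] at h1
  · funext i
    ext d
    rw [Finset.sum_apply, coeff_sum]
    simp only [cm, coeff_weightedHomogeneousComponent]
    by_cases h : coeff d (v i) = 0
    · simp [h]
    · rw [Finset.sum_eq_single (Finsupp.weight w d + deg i)]
      · rw [if_pos (by rw [add_sub_cancel_right])]
      · intro μ _ hμ
        rw [if_neg]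
        intro h1
        apply hμ
        rw [h1, sub_add_cancel]
      · intro h1
        exact absurd (hs i d h) h1

private theorem G1_mul {ν : Dg} {f : MvPolynomial σ K} (hf : IsWeightedHomogeneous w f ν)
    (a : Dg) (g : MvPolynomial σ K) :
    weightedHomogeneousComponent w (ν + a) (f * g) = f * weightedHomogeneousComponent w a g := by
  classical
  let s : Finset Dg := g.support.image fun d => Finsupp.weight w d
  have h1 : g = ∑ b ∈ insert a s, weightedHomogeneousComponent w b g := by
    ext d
    rw [coeff_sum]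
    simp only [coeff_weightedHomogeneousComponent]
    by_cases h : coeff d g = 0
    · simp [h]
    · rw [Finset.sum_eq_single (Finsupp.weight w d)]
      · rw [if_pos rfl]
      · intro b _ hb
        rw [if_neg (Ne.symm hb)]
      · intro h1
        refine absurd (Finset.mem_insert_of_mem ?_) h1
        exact Finset.mem_image.2 ⟨d, mem_support_iff.2 h, rfl⟩
  have h2 : f * g = ∑ b ∈ insert a s, f * weightedHomogeneousComponent w b g := by
    rw [← Finset.mul_sum, ← h1]
  rw [h2, map_sum, Finset.sum_eq_single a]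
  · exact (hf.mul (weightedHomogeneousComponent_isWeightedHomogeneous a g)).weightedHomogeneousComponent_same
  · intro b _ hb
    exact (hf.mul (weightedHomogeneousComponent_isWeightedHomogeneous b g)).weightedHomogeneousComponent_ne _
      fun e => hb (add_left_cancel e).symm
  · intro h
    exact absurd (Finset.mem_insert_self _ _) h

/-- homogeneous scalar, arbitrary vector -/
theorem cm_smul_left {ν : Dg} {f : MvPolynomial σ K} (hf : IsWeightedHomogeneous w f ν)
    (μ : Dg) (v : I → MvPolynomial σ K) : cm w deg (ν + μ) (f • v) = f • cm w deg μ v := by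
  funext i
  show weightedHomogeneousComponent w (ν + μ - deg i) (f * v i) =
    f * weightedHomogeneousComponent w (μ - deg i) (v i)
  rw [add_sub_assoc]
  exact G1_mul hf _ _

/-- arbitrary scalar, homogeneous vector -/
theorem cm_smul_right {e : Dg} {v : I → MvPolynomial σ K} (hv : HV w deg v e)
    (μ : Dg) (f : MvPolynomial σ K) :
    cm w deg μ (f • v) = weightedHomogeneousComponent w (μ - e) f • v := by
  funext i
  show weightedHomogeneousComponent w (μ - deg i) (f * v i) =
    weightedHomogeneousComponent w (μ - e) f * v i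
  have h := G1_mul (hv i) (μ - e) f
  rw [show e - deg i + (μ - e) = μ - deg i by abel] at h
  rw [mul_comm f, h, mul_comm]

theorem HV.smul {ν μ : Dg} {f : MvPolynomial σ K} (hf : IsWeightedHomogeneous w f ν)
    {v : I → MvPolynomial σ K} (hv : HV w deg v μ) : HV w deg (f • v) (ν + μ) := by
  intro i
  rw [add_sub_assoc]
  exact hf.mul (hv i)

theorem HV.add {μ : Dg} {v u : I → MvPolynomial σ K} (hv : HV w deg v μ)
    (hu : HV w deg u μ) : HV w deg (v + u) μ := by
  intro i
  exact (hv i).add (hu i)

theorem HV.sub {μ : Dg} {v u : I → MvPolynomial σ K} (hv : HV w deg v μ)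
    (hu : HV w deg u μ) : HV w deg (v - u) μ := by
  intro i
  exact (hv i).sub (hu i)

theorem HV.zero (μ : Dg) : HV w deg (0 : I → MvPolynomial σ K) μ := by
  intro i
  exact isWeightedHomogeneous_zero _ _ _

theorem HV.sum {ι : Type} (s : Finset ι) {μ : Dg} {v : ι → I → MvPolynomial σ K}
    (h : ∀ a ∈ s, HV w deg (v a) μ) : HV w deg (∑ a ∈ s, v a) μ := by
  intro i
  rw [Finset.sum_apply]
  exact IsWeightedHomogeneous.sum s _ _ fun a ha => h a ha i

theorem hv_single [DecidableEq I] (i : I) {ν : Dg} {f : MvPolynomial σ K}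
    (hf : IsWeightedHomogeneous w f ν) : HV w deg (Pi.single i f) (ν + deg i) := by
  intro j
  by_cases h : j = i
  · subst h
    rw [Pi.single_eq_same, add_sub_cancel_right]
    exact hf
  · rw [Pi.single_eq_of_ne h]
    exact isWeightedHomogeneous_zero _ _ _

theorem hv_elim {I₁ I₂ : Type} {d₁ : I₁ → Dg} {d₂ : I₂ → Dg} {μ : Dg}
    {x : I₁ → MvPolynomial σ K} {y : I₂ → MvPolynomial σ K} :
    HV w (Sum.elim d₁ d₂) (Sum.elim x y) μ ↔ HV w d₁ x μ ∧ HV w d₂ y μ := by
  constructor
  · intro h
    exact ⟨fun i => h (Sum.inl i), fun i => h (Sum.inr i)⟩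
  · rintro ⟨h1, h2⟩ (i | i)
    · exact h1 i
    · exact h2 i

theorem cm_elim {I₁ I₂ : Type} {d₁ : I₁ → Dg} {d₂ : I₂ → Dg} (μ : Dg)
    (x : I₁ → MvPolynomial σ K) (y : I₂ → MvPolynomial σ K) :
    cm w (Sum.elim d₁ d₂) μ (Sum.elim x y) = Sum.elim (cm w d₁ μ x) (cm w d₂ μ y) := by
  funext i
  rcases i with i | i <;> rfl

/-- a family of scalars and a vector over the index J: cm of the linear combination -/
theorem cm_comb {J : Type} [Fintype J] {e : J → Dg} {g : J → I → MvPolynomial σ K}
    (hg : ∀ a, HV w deg (g a) (e a)) (μ : Dg) (c : J → MvPolynomial σ K) :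
    cm w deg μ (∑ a, c a • g a) = ∑ a, cm w e μ c a • g a := by
  rw [cm_sum]
  refine Finset.sum_congr rfl fun a _ => ?_
  rw [cm_smul_right (hg a)]
  rfl

/-- a linear combination with homogeneous coefficients -/
theorem hv_comb {J : Type} [Fintype J] {e : J → Dg} {g : J → I → MvPolynomial σ K}
    (hg : ∀ a, HV w deg (g a) (e a)) {μ : Dg} {c : J → MvPolynomial σ K} (hc : HV w e c μ) :
    HV w deg (∑ a, c a • g a) μ := by
  refine HV.sum _ fun a _ => ?_
  have h := HV.smul (hc a) (hg a)
  rwa [sub_add_cancel] at h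

end Pool.Agent.LibMC34
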