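import Pool.Agent.LibMC34.G2

set_option autoImplicit false

/-! [MC34 G3] (MEDIUM, Mathlib + G1, G2). GRAPH: Z in (I -> R), iota : A -> I any map, the restriction z -> z o iota is
 injective on Z with image Z'. Then Z and Z' have the same resolutions (same J, e; the syzygies are the same).
 graph1 (project the generators): cases c; c = 0: Z = bot, Z' = bot. c + 1: g' a = g a o iota; span by h1 and mem_span_fam;
 syz g' = syz g since sum c a g a is in Z (h2).
 graph2 (lift the generators): for a choose z in Z with z o iota = g' a; its component cm w deg (e a) z is in Z (hs) and has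
 the same restriction (cm commutes with o iota, cm_same), so take g a := that component. span = Z by h1, h2. -/

namespace Pool.Agent.LibMC34

open MvPolynomial

variable {σ : Type} {K : Type} [CommRing K] {w : σ → Dg}

/-- the syzygies of a family in `Z` and of its restrictions agree -/
private theorem G3_syz {A I J : Type} [Fintype J] (ι : A → I)
    {Z : Submodule (MvPolynomial σ K) (I → MvPolynomial σ K)}
    (h2 : ∀ z ∈ Z, (∀ a, z (ι a) = 0) → z = 0) {g : J → I → MvPolynomial σ K}
    (hg : ∀ a, g a ∈ Z) : syz (fun a x => g a (ι x)) = syz g := by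
  ext c
  rw [mem_syz, mem_syz]
  constructor
  · intro h
    apply h2 _ (Submodule.sum_mem _ fun a _ => Z.smul_mem _ (hg a))
    intro x
    have := congrFun h x
    simpa [Finset.sum_apply] using this
  · intro h
    funext x
    have := congrFun h (ι x)
    simpa [Finset.sum_apply] using this

theorem graph1 {lo d : ℤ} {c : ℕ} {A I : Type} (ι : A → I) {deg : I → Dg}
    {Z : Submodule (MvPolynomial σ K) (I → MvPolynomial σ K)}
    {Z' : Submodule (MvPolynomial σ K) (A → MvPolynomial σ K)}
    (h1 : ∀ y : A → MvPolynomial σ K, y ∈ Z' ↔ ∃ z ∈ Z, (fun a => z (ι a)) = y)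
    (h2 : ∀ z ∈ Z, (∀ a, z (ι a) = 0) → z = 0)
    (h : Good w lo c I deg Z d) : Good w lo c A (fun a => deg (ι a)) Z' d := by
  cases c with
  | zero =>
    change Z = ⊥ at h
    change Z' = ⊥
    subst h
    rw [eq_bot_iff]
    intro y hy
    obtain ⟨z, hz, rfl⟩ := (h1 y).1 hy
    rw [Submodule.mem_bot] at *
    subst hz
    rfl
  | succ c =>
    obtain ⟨J, i1, e, g, hg, he, rfl, h4⟩ := h
    refine ⟨J, i1, e, fun a x => g a (ι x), fun a x => hg a (ι x), he, ?_, ?_⟩
    · ext y
      rw [h1, mem_span_fam]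
      constructor
      · rintro ⟨c, rfl⟩
        exact ⟨∑ a, c a • g a, mem_span_fam.2 ⟨c, rfl⟩, by funext x; simp [Finset.sum_apply]⟩
      · rintro ⟨z, hz, rfl⟩
        obtain ⟨c, rfl⟩ := mem_span_fam.1 hz
        exact ⟨c, by funext x; simp [Finset.sum_apply]⟩
    · rw [G3_syz ι h2 fun a => Submodule.subset_span ⟨a, rfl⟩]
      exact h4

theorem graph2 {lo d : ℤ} {c : ℕ} {A I : Type} (ι : A → I) {deg : I → Dg}
    {Z : Submodule (MvPolynomial σ K) (I → MvPolynomial σ K)}
    {Z' : Submodule (MvPolynomial σ K) (A → MvPolynomial σ K)}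
    (h1 : ∀ y : A → MvPolynomial σ K, y ∈ Z' ↔ ∃ z ∈ Z, (fun a => z (ι a)) = y)
    (h2 : ∀ z ∈ Z, (∀ a, z (ι a) = 0) → z = 0) (hs : HS w deg Z)
    (h : Good w lo c A (fun a => deg (ι a)) Z' d) : Good w lo c I deg Z d := by
  cases c with
  | zero =>
    change Z' = ⊥ at h
    change Z = ⊥
    subst h
    rw [eq_bot_iff]
    intro z hz
    rw [Submodule.mem_bot]
    apply h2 z hz
    intro a
    have := (h1 (fun a => z (ι a))).2 ⟨z, hz, rfl⟩
    rw [Submodule.mem_bot] at this
    exact congrFun this a
  | succ c =>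
    obtain ⟨J, i1, e, g', hg', he, rfl, h4⟩ := h
    have hex : ∀ a, ∃ z ∈ Z, (fun x => z (ι x)) = g' a := fun a =>
      (h1 (g' a)).1 (Submodule.subset_span ⟨a, rfl⟩)
    choose z hz hzg using hex
    have hgZ : ∀ a, cm w deg (e a) (z a) ∈ Z := fun a => hs _ _ (hz a)
    have hres : ∀ a, (fun x => cm w deg (e a) (z a) (ι x)) = g' a := by
      intro a
      have e1 : cm w (fun x => deg (ι x)) (e a) (g' a) = g' a := cm_same (hg' a)
      rw [← hzg a] at e1 ⊢
      exact e1
    refine ⟨J, i1, e, fun a => cm w deg (e a) (z a), fun a => hv_cm _ _, he, ?_, ?_⟩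
    · apply le_antisymm
      · rw [Submodule.span_le]
        rintro _ ⟨a, rfl⟩
        exact hgZ a
      · intro u hu
        obtain ⟨c, hc⟩ := mem_span_fam.1 ((h1 (fun x => u (ι x))).2 ⟨u, hu, rfl⟩)
        have hsum : ∑ a, c a • cm w deg (e a) (z a) ∈ Z :=
          Submodule.sum_mem _ fun a _ => Z.smul_mem _ (hgZ a)
        have e2 : u - ∑ a, c a • cm w deg (e a) (z a) = 0 := by
          apply h2 _ (Z.sub_mem hu hsum)
          intro x
          have e3 := congrFun hc x
          rw [Pi.sub_apply, ← e3, Finset.sum_apply, Finset.sum_apply, sub_eq_zero]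
          refine Finset.sum_congr rfl fun a _ => ?_
          have e4 := congrFun (hres a) x
          rw [Pi.smul_apply, Pi.smul_apply, e4]
        rw [sub_eq_zero] at e2
        rw [e2]
        exact mem_span_fam.2 ⟨c, rfl⟩
    · rw [← G3_syz ι h2 hgZ]
      have e5 : (fun a x => cm w deg (e a) (z a) (ι x)) = g' := by
        funext a
        exact hres a
      rw [e5]
      exact h4

end Pool.Agent.LibMC34
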