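import Pool.Agent.LibMC34.G2

set_option autoImplicit false

/-! [MC34 G4] (MEDIUM, Mathlib + G1, G2). HORSESHOE. N in (A + I -> R), N' = {x : (0,x) in N} in (I -> R), N'' = image of N
 in (A -> R). Induction on c. c = 0: N'' = bot, N' = bot => N = bot (z in N has z o inl = 0).
 c + 1: (J',e',x') for N', (J'',e'',y'') for N''. For b in J'' choose n in N with n o inl = y'' b and replace it by its
 component of degree e'' b (hs; cm_elim after writing n = Sum.elim _ _): homogeneous of degree e'' b, restriction y'' b.
 J = J'' + J' (so that the quotient part is inl again), g (inl b) = that vector, g (inr a) = Sum.elim 0 (x' a).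
 span g = N. The syzygies Z = syz g in (J'' + J' -> R): {c' : Sum.elim 0 c' in Z} = syz x', image in (J'' -> R) = syz y''
 (given sum c_b y''_b = 0, sum c_b g(inl b) = Sum.elim 0 u in N, u in N' = span x'). hs_syz. Induction hypothesis. -/

namespace Pool.Agent.LibMC34

open MvPolynomial

variable {σ : Type} {K : Type} [CommRing K] {w : σ → Dg}

private theorem comb_elim {R : Type} [CommRing R] {A I J' J'' : Type} [Fintype J'] [Fintype J'']
    (y'' : J'' → A → R) (u : J'' → I → R) (x' : J' → I → R) (y : J'' → R) (x : J' → R) :
    ∑ z, (Sum.elim y x : J'' ⊕ J' → R) z •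
        (Sum.elim (fun b => Sum.elim (y'' b) (u b)) (fun a => Sum.elim 0 (x' a)) : J'' ⊕ J' → A ⊕ I → R) z =
      Sum.elim (∑ b, y b • y'' b) (∑ b, y b • u b + ∑ a, x a • x' a) := by
  rw [Fintype.sum_sum_type]
  funext t
  rcases t with t | t <;> simp [Finset.sum_apply]

theorem horseshoe (c : ℕ) : ∀ (lo d : ℤ) (A I : Type) (dA : A → Dg) (dI : I → Dg)
    (N : Submodule (MvPolynomial σ K) (A ⊕ I → MvPolynomial σ K))
    (N' : Submodule (MvPolynomial σ K) (I → MvPolynomial σ K))
    (N'' : Submodule (MvPolynomial σ K) (A → MvPolynomial σ K)),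
    HS w (Sum.elim dA dI) N →
    (∀ x : I → MvPolynomial σ K, x ∈ N' ↔ Sum.elim (0 : A → MvPolynomial σ K) x ∈ N) →
    (∀ y : A → MvPolynomial σ K, y ∈ N'' ↔ ∃ x : I → MvPolynomial σ K, Sum.elim y x ∈ N) →
    Good w lo c I dI N' d → Good w lo c A dA N'' d →
    Good w lo c (A ⊕ I) (Sum.elim dA dI) N d := by
  induction c with
  | zero =>
    intro lo d A I dA dI N N' N'' hN h' h'' hG' hG''
    change N' = ⊥ at hG'
    change N'' = ⊥ at hG''
    change N = ⊥
    rw [eq_bot_iff]
    intro z hz
    have hz1 : z = Sum.elim (fun a => z (Sum.inl a)) (fun i => z (Sum.inr i)) := by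
      funext t
      rcases t with t | t <;> rfl
    rw [hz1] at hz
    have h1 : (fun a => z (Sum.inl a)) ∈ N'' := (h'' _).mpr ⟨_, hz⟩
    rw [hG'', Submodule.mem_bot] at h1
    rw [h1] at hz
    have h2 := (h' _).mpr hz
    rw [hG', Submodule.mem_bot] at h2
    rw [Submodule.mem_bot, hz1, h1, h2]
    funext t
    rcases t with t | t <;> rfl
  | succ c ih =>
    intro lo d A I dA dI N N' N'' hN h' h'' hG' hG''
    obtain ⟨J', fJ', e', x', hx', he', hs', hg'⟩ := hG'
    obtain ⟨J'', fJ'', e'', y'', hy'', he'', hs'', hg''⟩ := hG''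
    have hlift : ∀ b : J'', ∃ u : I → MvPolynomial σ K, HV w dI u (e'' b) ∧
        Sum.elim (y'' b) u ∈ N := by
      intro b
      have hb : y'' b ∈ N'' := by
        rw [← hs'']
        exact Submodule.subset_span ⟨b, rfl⟩
      obtain ⟨u, hu⟩ := (h'' _).mp hb
      have h1 := hN (e'' b) _ hu
      rw [cm_elim, cm_same (hy'' b)] at h1
      exact ⟨_, hv_cm _ _, h1⟩
    choose u hu huN using hlift
    have hx'N : ∀ a, Sum.elim (0 : A → MvPolynomial σ K) (x' a) ∈ N := fun a => (h' _).mp (by
      rw [← hs']
      exact Submodule.subset_span ⟨a, rfl⟩)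
    have hgHV : ∀ z : J'' ⊕ J', HV w (Sum.elim dA dI)
        ((Sum.elim (fun b => Sum.elim (y'' b) (u b)) (fun a => Sum.elim 0 (x' a)) :
          J'' ⊕ J' → A ⊕ I → MvPolynomial σ K) z) (Sum.elim e'' e' z) := by
      rintro (b | a)
      · exact hv_elim.mpr ⟨hy'' b, hu b⟩
      · exact hv_elim.mpr ⟨HV.zero _, hx' a⟩
    refine ⟨J'' ⊕ J', inferInstance, Sum.elim e'' e',
      Sum.elim (fun b => Sum.elim (y'' b) (u b)) (fun a => Sum.elim 0 (x' a)), hgHV, ?_, ?_, ?_⟩
    · rintro (b | a)
      · exact he'' b
      · exact he' a
    · apply le_antisymm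
      · rw [Submodule.span_le]
        rintro _ ⟨(b | a), rfl⟩
        · exact huN b
        · exact hx'N a
      · intro z hz
        have hz1 : z = Sum.elim (fun a => z (Sum.inl a)) (fun i => z (Sum.inr i)) := by
          funext t
          rcases t with t | t <;> rfl
        have h1 : (fun a => z (Sum.inl a)) ∈ N'' := (h'' _).mpr ⟨_, hz1 ▸ hz⟩
        rw [← hs'', mem_span_fam] at h1
        obtain ⟨cb, hcb⟩ := h1
        have h2 : Sum.elim (0 : A → MvPolynomial σ K)
            ((fun i => z (Sum.inr i)) - ∑ b, cb b • u b) ∈ N := by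
          have h3 : ∑ b, cb b • (Sum.elim (y'' b) (u b) : A ⊕ I → MvPolynomial σ K) ∈ N :=
            Submodule.sum_mem _ fun b _ => Submodule.smul_mem _ _ (huN b)
          have h4 := Submodule.sub_mem _ hz h3
          convert h4 using 1
          funext t
          rcases t with t | t
          · have := congrFun hcb t
            simp only [Finset.sum_apply, Pi.smul_apply, smul_eq_mul] at this
            simp [Finset.sum_apply, this]
          · simp [Finset.sum_apply]
        have h3 := (h' _).mpr h2
        rw [← hs', mem_span_fam] at h3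
        obtain ⟨ca, hca⟩ := h3
        rw [mem_span_fam]
        refine ⟨Sum.elim cb ca, ?_⟩
        rw [comb_elim, hcb, hca, add_sub_cancel]
        exact hz1.symm
    · refine ih lo (d + 1) J'' J' e'' e' _ (syz x') (syz y'') (hs_syz hgHV) ?_ ?_ hg' hg''
      · intro x
        rw [mem_syz, mem_syz, comb_elim]
        constructor
        · intro h
          rw [h]
          funext t
          rcases t with t | t <;> simp
        · intro h
          funext i
          have h1 := congrFun h (Sum.inr i)
          simpa [Finset.sum_apply] using h1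
      · intro y
        rw [mem_syz]
        constructor
        · intro h
          have h2 : Sum.elim (0 : A → MvPolynomial σ K) (∑ b, y b • u b) ∈ N := by
            have h3 : ∑ b, y b • (Sum.elim (y'' b) (u b) : A ⊕ I → MvPolynomial σ K) ∈ N :=
              Submodule.sum_mem _ fun b _ => Submodule.smul_mem _ _ (huN b)
            convert h3 using 1
            funext t
            rcases t with t | t
            · have := congrFun h t
              simp only [Finset.sum_apply, Pi.smul_apply, Pi.zero_apply, smul_eq_mul] at this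
              simp [Finset.sum_apply, this]
            · simp [Finset.sum_apply]
          have h3 := (h' _).mpr h2
          rw [← hs', mem_span_fam] at h3
          obtain ⟨ca, hca⟩ := h3
          refine ⟨-ca, ?_⟩
          rw [mem_syz, comb_elim, h]
          have h4 : ∑ a, (-ca) a • x' a = - ∑ b, y b • u b := by
            rw [← hca, ← Finset.sum_neg_distrib]
            exact Finset.sum_congr rfl fun a _ => by rw [Pi.neg_apply, neg_smul]
          rw [h4, add_neg_cancel]
          funext t
          rcases t with t | t <;> rfl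
        · rintro ⟨x, hx⟩
          rw [mem_syz, comb_elim] at hx
          funext i
          have h1 := congrFun hx (Sum.inl i)
          simpa [Finset.sum_apply] using h1

end Pool.Agent.LibMC34
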