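import Pool.Agent.LibMC34.G3

set_option autoImplicit false

/-! [MC34 G5a]. ELIMINATION of one generator, K a field, all weights >= 0 and /= (0,0). -/

namespace Pool.Agent.LibMC34

open MvPolynomial

variable {σ : Type} {K : Type} [Field K] {w : σ → Dg}

private theorem G5a_zero (hw : ∀ x, 0 ≤ (w x).1 ∧ 0 ≤ (w x).2) (hw0 : ∀ x, w x ≠ 0)
    {m : σ →₀ ℕ} (h : Finsupp.weight w m = 0) : m = 0 := by
  rw [Finsupp.weight_apply, Finsupp.sum] at h
  have h1 : ∑ x ∈ m.support, (m x • w x).1 = 0 := by
    rw [← Prod.fst_sum, h]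
    rfl
  have h2 : ∑ x ∈ m.support, (m x • w x).2 = 0 := by
    rw [← Prod.snd_sum, h]
    rfl
  rw [Finset.sum_eq_zero_iff_of_nonneg (fun x _ => by
    rw [Prod.smul_fst]
    exact nsmul_nonneg (hw x).1 _)] at h1
  rw [Finset.sum_eq_zero_iff_of_nonneg (fun x _ => by
    rw [Prod.smul_snd]
    exact nsmul_nonneg (hw x).2 _)] at h2
  by_contra hm
  obtain ⟨x, hx⟩ := Finsupp.support_nonempty_iff.2 hm
  have hx0 : m x ≠ 0 := Finsupp.mem_support_iff.1 hx
  have e1 := h1 x hx
  have e2 := h2 x hx
  rw [Prod.smul_fst, smul_eq_zero] at e1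
  rw [Prod.smul_snd, smul_eq_zero] at e2
  refine hw0 x (Prod.ext ?_ ?_)
  · exact e1.resolve_left hx0
  · exact e2.resolve_left hx0

theorem const_of_coeff (hw : ∀ x, 0 ≤ (w x).1 ∧ 0 ≤ (w x).2) (hw0 : ∀ x, w x ≠ 0)
    {f : MvPolynomial σ K} {ν : Dg} (hf : IsWeightedHomogeneous w f ν)
    (h0 : constantCoeff f ≠ 0) : ν = 0 ∧ f = C (constantCoeff f) := by
  classical
  have hν : ν = 0 := by
    have h1 := hf (d := 0) (by rwa [constantCoeff_eq] at h0)
    rw [← h1, map_zero]
  refine ⟨hν, ?_⟩
  ext m
  rw [coeff_C]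
  by_cases hm : 0 = m
  · rw [if_pos hm, ← hm, constantCoeff_eq]
  · rw [if_neg hm]
    by_contra hc
    have h1 := hf hc
    rw [hν] at h1
    exact hm (G5a_zero hw hw0 h1).symm

/-- the linear algebra of the elimination -/
private theorem G5a_lin {R : Type} [CommRing R] {I J : Type} [Fintype J] [DecidableEq J]
    (g : J → Option I → R) (a0 : J) {y y' : R} (hy : g a0 none = y) (hyy : y * y' = 1) (c : J → R)
    (x : I → R) :
    (∑ a, c a • g a = fun o : Option I => o.elim 0 x) ↔
      c a0 = -(∑ b : {b // b ≠ a0}, c b * g b none) * y' ∧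
      (∑ b : {b // b ≠ a0}, c b • (fun i => g b (some i) - g b none * y' * g a0 (some i)) = x) := by
  have hnone : (∑ a, c a • g a) none = c a0 * y + ∑ b : {b // b ≠ a0}, c b * g b none := by
    rw [Finset.sum_apply, Fintype.sum_eq_add_sum_subtype_ne _ a0, Pi.smul_apply, hy, smul_eq_mul]
    rfl
  have hsome : ∀ i, (∑ a, c a • g a) (some i) =
      c a0 * g a0 (some i) + ∑ b : {b // b ≠ a0}, c b * g b (some i) := by
    intro i
    rw [Finset.sum_apply, Fintype.sum_eq_add_sum_subtype_ne _ a0]
    rfl
  have hr : ∀ i, (∑ b : {b // b ≠ a0}, c b • (fun i => g b (some i) - g b none * y' * g a0 (some i))) i =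
      ∑ b : {b // b ≠ a0}, c b * g b (some i) -
        (∑ b : {b // b ≠ a0}, c b * g b none) * y' * g a0 (some i) := by
    intro i
    rw [Finset.sum_apply, Finset.sum_mul, Finset.sum_mul, ← Finset.sum_sub_distrib]
    refine Finset.sum_congr rfl fun b _ => ?_
    rw [Pi.smul_apply, smul_eq_mul]
    ring
  constructor
  · intro h
    have h1 := congrFun h none
    rw [hnone] at h1
    change _ = (0 : R) at h1
    have h2 : c a0 = -(∑ b : {b // b ≠ a0}, c b * g b none) * y' := by
      have : c a0 * (y * y') = -(∑ b : {b // b ≠ a0}, c b * g b none) * y' := by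
        linear_combination y' * h1
      rwa [hyy, mul_one] at this
    refine ⟨h2, ?_⟩
    funext i
    have h3 := congrFun h (some i)
    rw [hsome] at h3
    change _ = x i at h3
    rw [hr, ← h3, h2]
    ring
  · rintro ⟨h1, h2⟩
    funext o
    cases o with
    | none =>
      rw [hnone, h1]
      change _ = (0 : R)
      linear_combination (-(∑ b : {b // b ≠ a0}, c b * g b none)) * hyy
    | some i =>
      rw [hsome]
      change _ = x i
      rw [← h2, hr, h1]
      ring

theorem elimOpt (hw : ∀ x, 0 ≤ (w x).1 ∧ 0 ≤ (w x).2) (hw0 : ∀ x, w x ≠ 0) {lo d : ℤ} {c : ℕ}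
    {I : Type} {d₀ : Dg} {deg : I → Dg}
    {N : Submodule (MvPolynomial σ K) (Option I → MvPolynomial σ K)}
    {N1 : Submodule (MvPolynomial σ K) (I → MvPolynomial σ K)}
    (h1 : ∀ x : I → MvPolynomial σ K, x ∈ N1 ↔ (fun o : Option I => o.elim 0 x) ∈ N)
    (v : I → MvPolynomial σ K) (hv : (fun o : Option I => o.elim 1 v) ∈ N)
    (h : Good w lo c (Option I) (fun o => o.elim d₀ deg) N d) : Good w lo c I deg N1 d := by
  classical
  cases c with
  | zero =>
    have hN : N = ⊥ := h
    rw [hN, Submodule.mem_bot] at hv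
    have := congrFun hv none
    change (1 : MvPolynomial σ K) = 0 at this
    exact absurd this one_ne_zero
  | succ c =>
    obtain ⟨J, hJ, e, g, hg, he, hspan, hG⟩ := h
    -- a generator with an invertible coordinate
    obtain ⟨a0, ha0⟩ : ∃ a0, constantCoeff (g a0 none) ≠ 0 := by
      rw [← hspan, mem_span_fam] at hv
      obtain ⟨r, hr⟩ := hv
      have h2 := congrArg constantCoeff (congrFun hr none)
      rw [Finset.sum_apply, map_sum] at h2
      change _ = constantCoeff (1 : MvPolynomial σ K) at h2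
      rw [map_one] at h2
      by_contra hc
      push Not at hc
      rw [Finset.sum_eq_zero] at h2
      · exact zero_ne_one h2
      · intro a _
        rw [Pi.smul_apply, smul_eq_mul, map_mul, hc a, mul_zero]
    obtain ⟨hν, hC⟩ := const_of_coeff hw hw0 (hg a0 none) ha0
    change e a0 - d₀ = 0 at hν
    set y : K := constantCoeff (g a0 none) with hy
    have hyy : (C y : MvPolynomial σ K) * C y⁻¹ = 1 := by
      rw [← C_mul, mul_inv_cancel₀ ha0, C_1]
    have hlin := fun (c : J → MvPolynomial σ K) (x : I → MvPolynomial σ K) =>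
      G5a_lin g a0 hC hyy c x
    -- extension of coefficients
    have hext : ∀ c' : {b // b ≠ a0} → MvPolynomial σ K, ∃ c : J → MvPolynomial σ K,
        (∀ b : {b // b ≠ a0}, c b = c' b) ∧
        c a0 = -(∑ b : {b // b ≠ a0}, c b * g b none) * C y⁻¹ := by
      intro c'
      refine ⟨fun a => if ha : a ≠ a0 then c' ⟨a, ha⟩ else
        -(∑ b : {b // b ≠ a0}, c' b * g b none) * C y⁻¹, fun b => ?_, ?_⟩
      · exact dif_pos b.2
      · refine (dif_neg (not_not.2 rfl)).trans ?_
        congr 2
        refine Finset.sum_congr rfl fun b _ => ?_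
        congr 1
        beta_reduce
        rw [dif_pos b.2]
    refine ⟨{b // b ≠ a0}, inferInstance, fun b => e b, fun b i =>
      g b (some i) - g b none * C y⁻¹ * g a0 (some i), ?_, ?_, ?_, ?_⟩
    · intro b i
      refine IsWeightedHomogeneous.sub (hg b (some i)) ?_
      have h3 := ((hg b none).mul (isWeightedHomogeneous_C w y⁻¹)).mul (hg a0 (some i))
      have h4 : (e b - d₀ + 0) + (e a0 - deg i) = e b - deg i := by
        rw [sub_eq_zero.1 hν]
        abel
      rw [← h4]
      exact h3
    · intro b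
      exact he b
    · ext x
      rw [mem_span_fam, h1, ← hspan, mem_span_fam]
      constructor
      · rintro ⟨c', hc'⟩
        obtain ⟨c, hc1, hc2⟩ := hext c'
        refine ⟨c, (hlin c x).2 ⟨hc2, ?_⟩⟩
        rw [← hc']
        refine Finset.sum_congr rfl fun b _ => ?_
        rw [hc1]
      · rintro ⟨c, hc⟩
        exact ⟨fun b => c b, ((hlin c x).1 hc).2⟩
    · refine graph1 (fun b : {b // b ≠ a0} => (b : J)) (Z := syz g) ?_ ?_ hG
      · intro c'
        have hz : (0 : Option I → MvPolynomial σ K) = fun o : Option I => o.elim 0 (0 : I → MvPolynomial σ K) := by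
          funext o
          cases o <;> rfl
        constructor
        · intro hc'
          rw [mem_syz] at hc'
          obtain ⟨c, hc1, hc2⟩ := hext c'
          refine ⟨c, ?_, funext hc1⟩
          rw [mem_syz, hz, hlin]
          refine ⟨hc2, ?_⟩
          rw [← hc']
          refine Finset.sum_congr rfl fun b _ => ?_
          rw [hc1]
        · rintro ⟨c, hc, rfl⟩
          rw [mem_syz, hz, hlin] at hc
          rw [mem_syz]
          exact hc.2
      · intro z hz hz0
        rw [mem_syz'] at hz
        have h3 := hz none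
        rw [Finset.sum_eq_single a0 (fun a _ ha => by rw [hz0 ⟨a, ha⟩, zero_mul])
          (fun ha => absurd (Finset.mem_univ _) ha), hC] at h3
        have h4 : z a0 = 0 := by
          have : z a0 * (C y * C y⁻¹) = 0 := by
            rw [← mul_assoc, h3, zero_mul]
          rwa [hyy, mul_one] at this
        funext a
        by_cases ha : a = a0
        · rw [ha, h4]
          rfl
        · exact hz0 ⟨a, ha⟩

end Pool.Agent.LibMC34
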