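import Pool.Agent.LibMC34.G2

set_option autoImplicit false

/-! [MC34 G7a] (MEDIUM, Mathlib + G1, G2). NAKAYAMA.
 nak: a homogeneous z of degree mu with mu.1 + mu.2 < (deg i).1 + (deg i).2 for all i is 0 (all monomials of z i have
 weight mu - deg i with nonnegative coordinates); induction on the natural number (mu.1 + mu.2 - min over i).toNat
 (if I is empty everything is 0); wx.1 + wx.2 >= 1. Then sum over the components (exists_sum_cm).
 pi_cm: from hπ and exists_sum_cm (or componentwise: f = sum of its components, pi of a component is homogeneous). -/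

namespace Pool.Agent.LibMC34

open MvPolynomial

variable {σ τ : Type} {K : Type} [CommRing K] {w : σ → Dg} {w' : τ → Dg}

private theorem G7a_zero (hw : ∀ y, 0 ≤ (w y).1 ∧ 0 ≤ (w y).2) {f : MvPolynomial σ K} {ν : Dg}
    (hf : IsWeightedHomogeneous w f ν) (hν : ν.1 + ν.2 < 0) : f = 0 := by
  ext d
  rw [MvPolynomial.coeff_zero]
  by_contra hne
  have h1 := hf hne
  have h2 : 0 ≤ (Finsupp.weight w d).1 := by
    rw [Finsupp.weight_apply, Finsupp.sum, Prod.fst_sum]
    refine Finset.sum_nonneg fun y _ => ?_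
    rw [Prod.smul_fst]
    exact nsmul_nonneg (hw y).1 _
  have h3 : 0 ≤ (Finsupp.weight w d).2 := by
    rw [Finsupp.weight_apply, Finsupp.sum, Prod.snd_sum]
    refine Finset.sum_nonneg fun y _ => ?_
    rw [Prod.smul_snd]
    exact nsmul_nonneg (hw y).2 _
  rw [h1] at h2 h3
  omega

theorem nak (hw : ∀ y, 0 ≤ (w y).1 ∧ 0 ≤ (w y).2) {I : Type} [Finite I] {deg : I → Dg}
    {N M : Submodule (MvPolynomial σ K) (I → MvPolynomial σ K)} (hN : HS w deg N)
    (x : MvPolynomial σ K) {wx : Dg} (hx0 : 0 < wx.1 + wx.2)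
    (h : ∀ μ z, z ∈ N → HV w deg z μ → ∃ n ∈ M, ∃ v ∈ N, HV w deg v (μ - wx) ∧ z = n + x • v) :
    N ≤ M := by
  obtain ⟨B, hB⟩ := (Set.finite_range fun i => (deg i).1 + (deg i).2).bddBelow
  have hB' : ∀ i, B ≤ (deg i).1 + (deg i).2 := fun i => hB ⟨i, rfl⟩
  have key : ∀ (n : ℕ) (μ : Dg) (v : I → MvPolynomial σ K), v ∈ N → HV w deg v μ →
      μ.1 + μ.2 < B + n → v ∈ M := by
    intro n
    induction n with
    | zero =>
      intro μ v _ hv hμ
      have h0 : v = 0 := by
        funext i
        refine G7a_zero hw (hv i) ?_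
        rw [Prod.fst_sub, Prod.snd_sub]
        have := hB' i
        push_cast at hμ
        omega
      rw [h0]
      exact M.zero_mem
    | succ n ih =>
      intro μ v hvN hv hμ
      obtain ⟨a, ha, b, hb, hbv, e⟩ := h μ v hvN hv
      have hbM : b ∈ M := by
        refine ih (μ - wx) b hb hbv ?_
        rw [Prod.fst_sub, Prod.snd_sub]
        push_cast at hμ
        omega
      rw [e]
      exact M.add_mem ha (M.smul_mem x hbM)
  intro v hv
  obtain ⟨s, -, e⟩ := exists_sum_cm (w := w) (deg := deg) v
  rw [e]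
  refine M.sum_mem fun μ _ => ?_
  refine key (μ.1 + μ.2 - B + 1).toNat μ _ (hN μ v hv) (hv_cm μ v) ?_
  have := Int.self_le_toNat (μ.1 + μ.2 - B + 1)
  omega

private theorem G7a_comp {x : MvPolynomial σ K} (S : GSurj K w w' x) (ν : Dg)
    (f : MvPolynomial σ K) :
    weightedHomogeneousComponent w' ν (S.π f) = S.π (weightedHomogeneousComponent w ν f) := by
  induction f using MvPolynomial.induction_on' with
  | monomial u a =>
    have h1 : IsWeightedHomogeneous w (monomial u a) (Finsupp.weight w u) :=
      isWeightedHomogeneous_monomial w u a rfl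
    have h2 := S.hπ _ _ h1
    by_cases hν : ν = Finsupp.weight w u
    · subst hν
      rw [h1.weightedHomogeneousComponent_same, h2.weightedHomogeneousComponent_same]
    · rw [h1.weightedHomogeneousComponent_ne ν hν,
        h2.weightedHomogeneousComponent_ne ν hν, map_zero]
  | add p q hp hq =>
    rw [map_add, map_add, hp, hq, map_add, map_add]

theorem pi_cm {x : MvPolynomial σ K} (S : GSurj K w w' x) {I : Type} [Finite I] (deg : I → Dg)
    (μ : Dg) (v : I → MvPolynomial σ K) :
    cm w' deg μ (fun i => S.π (v i)) = fun i => S.π (cm w deg μ v i) := by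
  funext i
  exact G7a_comp S _ _

end Pool.Agent.LibMC34
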