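import Pool.Agent.LibMC34.Defs

set_option autoImplicit false

/-!
Row R1 (MC34). SHORT/MEDIUM. First properties of `FFR` (only `Defs`). `FFR_congr`: induction on `d`, compose the surjection with the equivalence (kernel equal as a submodule). `FFR_free`: for `d+1` take `(Fin n → R) ≃ M`, kernel `⊥`, which is finite free.
`FFR_succ`: induction on `d` (base: finite free module, use the basis isomorphism, kernel `⊥`). `FFR_zero_module`: a subsingleton module.
-/

namespace Pool.Agent.LibMC34

variable {R : Type} [CommRing R]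

theorem FFR_congr (d : ℕ) {M M' : Type} [AddCommGroup M] [Module R M] [AddCommGroup M'] [Module R M']
    (f : M ≃ₗ[R] M') (h : FFR R d M) : FFR R d M' := by
  cases d with
  | zero =>
    obtain ⟨h1, h2⟩ := h
    exact ⟨Module.Finite.equiv f, Module.Free.of_equiv f⟩
  | succ d =>
    obtain ⟨n, g, hg, hK⟩ := h
    refine ⟨n, f.toLinearMap.comp g, f.surjective.comp hg, ?_⟩
    have h1 : LinearMap.ker (f.toLinearMap.comp g) = LinearMap.ker g := LinearEquiv.ker_comp f g
    rw [h1]
    exact hK

theorem FFR_free (d : ℕ) (M : Type) [AddCommGroup M] [Module R M] [Module.Finite R M] [Module.Free R M] : FFR R d M := by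
  induction d generalizing M with
  | zero => exact ⟨inferInstance, inferInstance⟩
  | succ d ih =>
    classical
    obtain ⟨n, e⟩ : ∃ n : ℕ, Nonempty ((Fin n → R) ≃ₗ[R] M) := by
      let b := Module.Free.chooseBasis R M
      exact ⟨_, ⟨(b.reindex (Fintype.equivFin _)).equivFun.symm⟩⟩
    obtain ⟨e⟩ := e
    refine ⟨n, e.toLinearMap, e.surjective, ?_⟩
    have h1 : LinearMap.ker e.toLinearMap = ⊥ := LinearEquiv.ker e
    rw [h1]
    exact ih _

theorem FFR_zero_module (d : ℕ) (M : Type) [AddCommGroup M] [Module R M] [Subsingleton M] : FFR R d M :=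
  FFR_free d M

theorem FFR_succ (d : ℕ) {M : Type} [AddCommGroup M] [Module R M] (h : FFR R d M) : FFR R (d + 1) M := by
  induction d generalizing M with
  | zero =>
    obtain ⟨h1, h2⟩ := h
    exact FFR_free 1 M
  | succ d ih =>
    obtain ⟨n, f, hf, hK⟩ := h
    exact ⟨n, f, hf, ih hK⟩

theorem FFR_mono {d d' : ℕ} (hd : d ≤ d') {M : Type} [AddCommGroup M] [Module R M] (h : FFR R d M) : FFR R d' M := by
  obtain ⟨k, rfl⟩ := Nat.exists_eq_add_of_le hd
  clear hd
  induction k with
  | zero => exact h
  | succ k ih => exact FFR_succ (d + k) ih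

end Pool.Agent.LibMC34
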