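import Pool.Agent.LibMC34.SDefs

set_option autoImplicit false

/-!
Row S1 (MC34, block P3). SHORT lemmas on supports of Laurent polynomials. Only `SDefs`.
Plan: everything by `AddMonoidAlgebra.ext` / `Finsupp.ext` and `Finsupp.filter_apply`; for `Sup_mul` use `AddMonoidAlgebra.support_coeff_mul_subset` (`Mathlib/Algebra/MonoidAlgebra/Support.lean`):
a nonzero coefficient of `f * g` at `γ` gives `γ ∈ supp f + supp g`. `tpow`: `coeff_single_mul` lemmas or `Sup_mul` with the support of `single`.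
-/

namespace Pool.Agent.LibMC34

variable {τ B : Type} [Fintype τ] [CommRing B]

private theorem S1_coeff (γ : τ → ℤ) (f : La τ B) (α : τ → ℤ) :
    (AddMonoidAlgebra.single γ 1 * f).coeff α = f.coeff (α - γ) := by
  rw [AddMonoidAlgebra.coeff_single_mul_eq_mul_coeff (α - γ), one_mul]
  intro β _
  constructor
  · intro h
    rw [← h]
    exact (add_sub_cancel_left γ β).symm
  · intro h
    rw [h]
    exact add_sub_cancel γ α

theorem Sup_zero (P : (τ → ℤ) → Prop) : Sup P (0 : La τ B) := by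
  intro α h
  exact absurd (by simp) h

theorem Sup_add {P : (τ → ℤ) → Prop} {f g : La τ B} (hf : Sup P f) (hg : Sup P g) : Sup P (f + g) := by
  intro α h
  rw [AddMonoidAlgebra.coeff_add, Finsupp.add_apply] at h
  by_cases h1 : f.coeff α = 0
  · by_cases h2 : g.coeff α = 0
    · rw [h1, h2, add_zero] at h
      exact absurd rfl h
    · exact hg α h2
  · exact hf α h1

theorem Sup_neg {P : (τ → ℤ) → Prop} {f : La τ B} (hf : Sup P f) : Sup P (-f) := by
  intro α h
  refine hf α (fun h0 => h ?_)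
  rw [AddMonoidAlgebra.coeff_neg, Finsupp.neg_apply, h0, neg_zero]

theorem Sup_sum {P : (τ → ℤ) → Prop} {ι : Type} (s : Finset ι) {f : ι → La τ B} (hf : ∀ i ∈ s, Sup P (f i)) :
    Sup P (∑ i ∈ s, f i) := by
  exact Finset.sum_induction f (Sup P) (fun _ _ ha hb => Sup_add ha hb) (Sup_zero P) hf

theorem Sup_mono {P Q : (τ → ℤ) → Prop} {f : La τ B} (h : ∀ α, P α → Q α) (hf : Sup P f) : Sup Q f := by
  exact fun α h1 => h α (hf α h1)

theorem Sup_mul {P Q : (τ → ℤ) → Prop} {f g : La τ B} (hf : Sup P f) (hg : Sup Q g) :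
    Sup (fun γ => ∃ α β, P α ∧ Q β ∧ γ = α + β) (f * g) := by
  classical
  intro γ h
  have h1 := AddMonoidAlgebra.support_coeff_mul_subset f g (Finsupp.mem_support_iff.2 h)
  obtain ⟨α, hα, β, hβ, e⟩ := Finset.mem_add.1 h1
  exact ⟨α, β, hf α (Finsupp.mem_support_iff.1 hα), hg β (Finsupp.mem_support_iff.1 hβ), e.symm⟩

/-- entries of `G.mulVec z` -/
theorem Sup_mulVec {I J : Type} [Fintype J] {G : Matrix I J (La τ B)} {z : J → La τ B} {a : I}
    {P : (τ → ℤ) → Prop} (h : ∀ b, Sup P (G a b * z b)) : Sup P (G.mulVec z a) := by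
  change Sup P (∑ b, G a b * z b)
  exact Sup_sum Finset.univ (fun b _ => h b)

theorem coeff_cut (P : (τ → ℤ) → Prop) [DecidablePred P] (f : La τ B) (α : τ → ℤ) :
    (cut P f).coeff α = if P α then f.coeff α else 0 := by
  have e : (cut P f).coeff α =
      (@Finsupp.filter _ _ _ P (fun a => Classical.propDecidable (P a)) f.coeff) α := rfl
  rw [e]
  by_cases h : P α
  · rw [if_pos h]
    exact @Finsupp.filter_apply_pos _ _ _ P (fun a => Classical.propDecidable (P a)) f.coeff α h
  · rw [if_neg h]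
    exact @Finsupp.filter_apply_neg _ _ _ P (fun a => Classical.propDecidable (P a)) f.coeff α h

theorem Sup_cut {P Q : (τ → ℤ) → Prop} {f : La τ B} (hf : Sup Q f) : Sup (fun α => P α ∧ Q α) (cut P f) := by
  classical
  intro α h
  rw [coeff_cut] at h
  by_cases h1 : P α
  · rw [if_pos h1] at h
    exact ⟨h1, hf α h⟩
  · rw [if_neg h1] at h
    exact absurd rfl h

theorem Sup_cut' (P : (τ → ℤ) → Prop) (f : La τ B) : Sup P (cut P f) := by
  classical
  intro α h
  rw [coeff_cut] at h
  by_cases h1 : P α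
  · exact h1
  · rw [if_neg h1] at h
    exact absurd rfl h

theorem cut_of_Sup {P : (τ → ℤ) → Prop} {f : La τ B} (hf : Sup P f) : cut P f = f := by
  classical
  apply AddMonoidAlgebra.ext
  apply Finsupp.ext
  intro α
  rw [coeff_cut]
  by_cases h1 : P α
  · rw [if_pos h1]
  · rw [if_neg h1]
    by_contra h2
    exact h1 (hf α (fun h3 => h2 h3.symm))

theorem cut_of_Sup_not {P : (τ → ℤ) → Prop} {f : La τ B} (hf : Sup (fun α => ¬ P α) f) : cut P f = 0 := by
  classical
  apply AddMonoidAlgebra.ext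
  apply Finsupp.ext
  intro α
  rw [coeff_cut]
  by_cases h1 : P α
  · rw [if_pos h1]
    by_contra h2
    exact hf α h2 h1
  · rw [if_neg h1]
    rfl

/-- splitting along a partition -/
theorem cut_add_cut {P P1 P2 : (τ → ℤ) → Prop} {f : La τ B} (hf : Sup P f)
    (h : ∀ α, P α → (P1 α ∨ P2 α)) (h12 : ∀ α, P1 α → ¬ P2 α) : cut P1 f + cut P2 f = f := by
  classical
  apply AddMonoidAlgebra.ext
  apply Finsupp.ext
  intro α
  rw [AddMonoidAlgebra.coeff_add, Finsupp.add_apply, coeff_cut, coeff_cut]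
  by_cases h1 : P1 α
  · rw [if_pos h1, if_neg (h12 α h1), add_zero]
  · by_cases h2 : P2 α
    · rw [if_neg h1, if_pos h2, zero_add]
    · rw [if_neg h1, if_neg h2, add_zero]
      by_contra h3
      rcases h α (hf α (fun h4 => h3 h4.symm)) with h5 | h5
      · exact h1 h5
      · exact h2 h5

variable [DecidableEq τ]

theorem tpow_mul_tpow (x : τ) (a b : ℤ) : (tpow x a : La τ B) * tpow x b = tpow x (a + b) := by
  unfold tpow
  rw [AddMonoidAlgebra.single_mul_single, one_mul, ← Pi.single_add]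

theorem tpow_zero (x : τ) : (tpow x 0 : La τ B) = 1 := by
  unfold tpow
  rw [Pi.single_zero]
  rfl

theorem coeff_tpow_mul (x : τ) (a : ℤ) (f : La τ B) (α : τ → ℤ) :
    (tpow x a * f).coeff α = f.coeff (α - Pi.single x a) := by
  exact S1_coeff _ f α

/-- every Laurent polynomial becomes a polynomial in the variables of `s` after multiplication with a monomial in the variables outside `N`,
if its exponents are nonnegative on `N` -/
theorem exists_shift {I : Type} [Fintype I] (N : Finset τ) (z : I → La τ B) (hz : ∀ b, Sup (fun α => ∀ i ∈ N, 0 ≤ α i) (z b)) :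
    ∃ γ : τ → ℤ, (∀ i ∈ N, γ i = 0) ∧ (∀ i, 0 ≤ γ i) ∧ ∀ b, Sup NN (AddMonoidAlgebra.single γ 1 * z b) := by
  classical
  let K : ℤ := ∑ b, ∑ α ∈ (z b).coeff.support, ∑ i, |α i|
  have hK : ∀ b, ∀ α : τ → ℤ, (z b).coeff α ≠ 0 → ∀ i, |α i| ≤ K := by
    intro b α hα i
    have h1 : |α i| ≤ ∑ i, |α i| :=
      Finset.single_le_sum (f := fun i => |α i|) (fun j _ => abs_nonneg (α j)) (Finset.mem_univ i)
    have h2 : ∑ i, |α i| ≤ ∑ α ∈ (z b).coeff.support, ∑ i, |α i| :=
      Finset.single_le_sum (f := fun α : τ → ℤ => ∑ i, |α i|)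
        (fun β _ => Finset.sum_nonneg (fun j _ => abs_nonneg (β j))) (Finsupp.mem_support_iff.2 hα)
    have h3 : ∑ α ∈ (z b).coeff.support, ∑ i, |α i| ≤ K :=
      Finset.single_le_sum (f := fun b => ∑ α ∈ (z b).coeff.support, ∑ i, |α i|)
        (fun c _ => Finset.sum_nonneg
          (fun β _ => Finset.sum_nonneg (fun j _ => abs_nonneg (β j)))) (Finset.mem_univ b)
    exact h1.trans (h2.trans h3)
  have hK0 : 0 ≤ K :=
    Finset.sum_nonneg (fun c _ => Finset.sum_nonneg
      (fun β _ => Finset.sum_nonneg (fun j _ => abs_nonneg (β j))))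
  refine ⟨fun i => if i ∈ N then 0 else K, ?_, ?_, ?_⟩
  · intro i hi
    exact if_pos hi
  · intro i
    by_cases hi : i ∈ N
    · exact (if_pos hi).ge
    · exact hK0.trans (if_neg hi).ge
  · intro b δ hδ i
    rw [S1_coeff] at hδ
    have h1 := hz b _ hδ
    have h2 := hK b _ hδ i
    by_cases hi : i ∈ N
    · have h3 := h1 i hi
      simp only [Pi.sub_apply, if_pos hi, sub_zero] at h3
      exact h3
    · simp only [Pi.sub_apply, if_neg hi] at h2
      have h4 := neg_abs_le (δ i - K)
      linarith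

end Pool.Agent.LibMC34
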