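import Pool.Agent.LibMC34.S1

set_option autoImplicit false

/-!
Row S9 (MC34, block P3). SHORT/MEDIUM. The side with all exponents negative. `St_neg_zero`: `α_i ≤ -1` for all `i` gives `∑ α ≤ - card τ`, while `∑ α = 1 - e ≥ 1 - j`. `St_neg_free`: `St F (Rg ∅ univ) j` is isomorphic to
functions with values in `B` on the finite set of the pairs `(b, α)`, `b : F.ix j`, `α_i < 0` for all `i`, `∑ α + e j b = 1` (finite: `-(e j b) ≤ α_i ≤ -1`): e.g. `Finsupp.supportedEquivFinsupp` after
`Finsupp`/`Pi` bookkeeping, or a `Basis` via `Module.Basis.ofEquivFun`; then `Module.Finite` and `Module.Free`.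
-/

namespace Pool.Agent.LibMC34

open Finset

variable {τ B : Type} [Fintype τ] [DecidableEq τ] [CommRing B] (F : LCx τ B)

theorem St_neg_zero (he : ∀ j b, F.e j b ≤ j) {j : ℕ} (hj : j ≤ Fintype.card τ) : St F (Rg ∅ univ) j = ⊥ := by
  rw [eq_bot_iff]
  intro z hz
  rw [Submodule.mem_bot]
  funext b
  apply AddMonoidAlgebra.ext
  apply Finsupp.ext
  intro α
  by_contra h
  have h1 := hz b α h
  have h2 : ∑ i, α i ≤ ∑ _i : τ, (-1 : ℤ) :=
    Finset.sum_le_sum fun i hi => by
      have h3 := h1.1.2 i hi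
      linarith
  rw [Finset.sum_const, Finset.card_univ, nsmul_eq_mul] at h2
  have h3 : (F.e j b : ℤ) ≤ j := by exact_mod_cast he j b
  have h4 : (j : ℤ) ≤ Fintype.card τ := by exact_mod_cast hj
  have h5 := h1.2
  linarith

theorem St_empty (P : (τ → ℤ) → Prop) {j : ℕ} (hj : IsEmpty (F.ix j)) : St F P j = ⊥ := by
  rw [eq_bot_iff]
  intro z _
  rw [Submodule.mem_bot]
  funext b
  exact hj.elim b

/-- the exponents of the strand with all exponents negative -/
private def S9_T (j : ℕ) : Set (F.ix j × (τ → ℤ)) :=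
  {p | (∀ i, p.2 i < 0) ∧ ∑ i, p.2 i + (F.e j p.1 : ℤ) = 1}

private theorem S9_fin (j : ℕ) : (S9_T F j).Finite := by
  refine Set.Finite.subset ((Set.finite_univ : (Set.univ : Set (F.ix j)).Finite).prod
    (Set.finite_Icc (fun _ => -((∑ b, F.e j b : ℕ) : ℤ)) (0 : τ → ℤ))) ?_
  rintro ⟨b, α⟩ ⟨h1, h2⟩
  simp only at h1 h2
  refine ⟨Set.mem_univ _, ?_, ?_⟩
  · intro i
    simp only
    have h3 : α i + ∑ k ∈ univ.erase i, α k = ∑ k, α k := Finset.add_sum_erase _ _ (Finset.mem_univ i)
    have h4 : ∑ k ∈ univ.erase i, α k ≤ 0 := Finset.sum_nonpos fun k _ => (h1 k).le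
    have h5 : (F.e j b : ℤ) ≤ ((∑ b, F.e j b : ℕ) : ℤ) := by
      exact_mod_cast Finset.single_le_sum (f := F.e j) (fun _ _ => Nat.zero_le _) (Finset.mem_univ b)
    linarith
  · intro i
    exact (h1 i).le

private noncomputable def S9_map (j : ℕ) : St F (Rg ∅ univ) j →ₗ[B] (S9_T F j → B) where
  toFun z p := (z.1 p.1.1).coeff p.1.2
  map_add' := by
    intro x y
    funext p
    rfl
  map_smul' := by
    intro r x
    funext p
    rfl

private theorem S9_inj (j : ℕ) : Function.Injective (S9_map F j) := by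
  rw [← LinearMap.ker_eq_bot, LinearMap.ker_eq_bot']
  intro z hz
  apply Subtype.ext
  funext b
  apply AddMonoidAlgebra.ext
  apply Finsupp.ext
  intro α
  by_contra h
  have h1 := z.2 b α h
  have h2 : (b, α) ∈ S9_T F j := ⟨fun i => h1.1.2 i (Finset.mem_univ i), h1.2⟩
  exact h (congrFun hz ⟨(b, α), h2⟩)

open scoped Classical in
private noncomputable def S9_fun (j : ℕ) (c : S9_T F j → B) (b : F.ix j) : (τ → ℤ) → B :=
  fun α => if h : (b, α) ∈ S9_T F j then c ⟨(b, α), h⟩ else 0

private theorem S9_supp (j : ℕ) (c : S9_T F j → B) (b : F.ix j) :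
    (Function.support (S9_fun F j c b)).Finite := by
  refine Set.Finite.subset ((S9_fin F j).image Prod.snd) ?_
  intro α hα
  by_cases h : (b, α) ∈ S9_T F j
  · exact ⟨(b, α), h, rfl⟩
  · exact absurd (dif_neg h) hα

private theorem S9_surj (j : ℕ) : Function.Surjective (S9_map F j) := by
  intro c
  refine ⟨⟨fun b => AddMonoidAlgebra.ofCoeff (Finsupp.ofSupportFinite (S9_fun F j c b) (S9_supp F j c b)),
    ?_⟩, ?_⟩
  · intro b α h
    have h1 : S9_fun F j c b α ≠ 0 := h
    have h2 : (b, α) ∈ S9_T F j := by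
      by_contra h3
      exact h1 (dif_neg h3)
    exact ⟨⟨fun i hi => absurd hi (Finset.notMem_empty i), fun i _ => h2.1 i⟩, h2.2⟩
  · funext p
    show S9_fun F j c p.1.1 p.1.2 = c p
    exact dif_pos p.2

theorem St_neg_free (j : ℕ) : Module.Finite B (St F (Rg ∅ univ) j) ∧ Module.Free B (St F (Rg ∅ univ) j) := by
  classical
  have : Finite (S9_T F j) := S9_fin F j
  let e := LinearEquiv.ofBijective (S9_map F j) ⟨S9_inj F j, S9_surj F j⟩
  exact ⟨Module.Finite.equiv e.symm, Module.Free.of_equiv e.symm⟩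

end Pool.Agent.LibMC34
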