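import Pool.Agent.LibMC34.S8
import Pool.Agent.LibMC34.S9
import Pool.Agent.LibMC34.R2

set_option autoImplicit false

/-!
Row S10 (MC34, block P3). MEDIUM. `P := Rg ∅ univ`, `r := card τ`. `Ex F (Rg univ ∅) j` for `j ≥ 1` means `Hm F (Rg univ ∅) j` is trivial, so by `chain_iso` `Hm F P (j + r)` is trivial: `Ex F P (j + r)` (a cycle is a boundary).
For `j ≥ r` let `Q j := St F P (j+1) ⧸ (Bc F P j).comap (St F P (j+1)).subtype`. Claim: `j + 1 + d' = c` and `r ≤ j` => `FFR B d' (Q j)`; induction on `d'`. `d' = 0`: `j + 1 = c`, `St F P (c+1) = ⊥` (`St_empty`), so `Bc = ⊥`,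
`Q j ≃ St F P c` is finite free (`St_neg_free`). `d' + 1`: exact `0 → Q (j+1) → St F P (j+1) → Q j → 0`, the first map is induced by `dS` (injective by `Ex F P (j+1)`, `j + 1 ≥ r + 1`; image `Bc F P j`): `FFR_quot` (`FFR_free` for `St`).
Finally `St F P r = ⊥` (`St_neg_zero`) and `dS_mem` give `Zc F P r = St F P (r+1)`, so `Hm F P r ≃ Q r` and `chain_iso F 0`.
-/

namespace Pool.Agent.LibMC34

open Finset

variable {τ B : Type} [Fintype τ] [DecidableEq τ] [CommRing B] (F : LCx τ B)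

/-- the quotient of the strand by the boundaries -/
abbrev S10_Q (j : ℕ) := St F (Rg ∅ univ) (j + 1) ⧸ (Bc F (Rg ∅ univ) j).comap (St F (Rg ∅ univ) (j + 1)).subtype

theorem S10_sub (P : (τ → ℤ) → Prop) (j : ℕ) (h : Ex F P j) : Subsingleton (Hm F P j) := by
  rw [Submodule.Quotient.subsingleton_iff, eq_top_iff]
  rintro ⟨z, hz⟩ -
  rw [Submodule.mem_comap, Submodule.subtype_apply]
  obtain ⟨hz1, hz2⟩ := Submodule.mem_inf.1 hz
  obtain ⟨y, hy, hyz⟩ := h z hz1 (LinearMap.mem_ker.1 hz2)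
  exact ⟨y, hy, hyz⟩

theorem S10_ex (P : (τ → ℤ) → Prop) (j : ℕ) (h : Subsingleton (Hm F P j)) : Ex F P j := by
  intro z hz1 hz2
  rw [Submodule.Quotient.subsingleton_iff] at h
  have hz : z ∈ Zc F P j := Submodule.mem_inf.2 ⟨hz1, LinearMap.mem_ker.2 hz2⟩
  have h1 : (⟨z, hz⟩ : Zc F P j) ∈ (Bc F P j).comap (Zc F P j).subtype := by
    rw [h]
    exact Submodule.mem_top
  rw [Submodule.mem_comap, Submodule.subtype_apply] at h1
  obtain ⟨y, hy, hyz⟩ := h1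
  exact ⟨y, hy, hyz⟩

theorem S10_congr {M : Type} [AddCommGroup M] [Module B M] (Z Z' W : Submodule B M) (h : Z = Z') (d : ℕ)
    (hf : FFR B d (Z' ⧸ W.comap Z'.subtype)) : FFR B d (Z ⧸ W.comap Z.subtype) := by
  subst h
  exact hf

theorem S10_base (j : ℕ) (h : IsEmpty (F.ix (j + 2))) : FFR B 0 (S10_Q F j) := by
  have h1 : Bc F (Rg ∅ univ) j = ⊥ := by
    rw [Bc, St_empty F (Rg ∅ univ) h, Submodule.map_bot]
  have h2 : (Bc F (Rg ∅ univ) j).comap (St F (Rg ∅ univ) (j + 1)).subtype = ⊥ := by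
    rw [h1, Submodule.comap_bot, Submodule.ker_subtype]
  obtain ⟨hf, hr⟩ := St_neg_free F (j + 1)
  exact FFR_congr 0 (Submodule.quotEquivOfEqBot _ h2).symm ⟨hf, hr⟩

theorem S10_step (j d : ℕ) (hE : Ex F (Rg ∅ univ) (j + 1)) (hA : FFR B d (S10_Q F (j + 1))) :
    FFR B (d + 1) (S10_Q F j) := by
  obtain ⟨D, hD⟩ : ∃ D : St F (Rg ∅ univ) (j + 1 + 1) →ₗ[B] St F (Rg ∅ univ) (j + 1),
      ∀ z, ((D z : St F (Rg ∅ univ) (j + 1)) : F.ix (j + 1) → La τ B) = dS F (Rg ∅ univ) (j + 1) z :=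
    ⟨(dS F (Rg ∅ univ) (j + 1)).restrict (fun z hz => dS_mem F ∅ univ (j + 1) hz), fun z => rfl⟩
  have hle : (Bc F (Rg ∅ univ) (j + 1)).comap (St F (Rg ∅ univ) (j + 1 + 1)).subtype ≤ LinearMap.ker D := by
    rintro ⟨z, hz⟩ hzB
    rw [Submodule.mem_comap, Submodule.subtype_apply] at hzB
    obtain ⟨y, hy, hyz⟩ := hzB
    rw [LinearMap.mem_ker]
    apply Subtype.ext
    rw [hD]
    change dS F (Rg ∅ univ) (j + 1) z = 0
    have hyz' : dS F (Rg ∅ univ) (j + 1 + 1) y = z := hyz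
    rw [← hyz']
    exact dS_dS F ∅ univ (j + 1) hy
  obtain ⟨hf, hr⟩ := St_neg_free F (j + 1)
  refine FFR_quot d (Submodule.liftQ _ D hle)
    ((Bc F (Rg ∅ univ) j).comap (St F (Rg ∅ univ) (j + 1)).subtype).mkQ ?_ (Submodule.mkQ_surjective _) ?_ hA
    (FFR_free (d + 1) _)
  · rw [← LinearMap.ker_eq_bot, Submodule.ker_liftQ_eq_bot]
    rintro ⟨z, hz⟩ hzD
    rw [Submodule.mem_comap, Submodule.subtype_apply]
    rw [LinearMap.mem_ker] at hzD
    have h0 : dS F (Rg ∅ univ) (j + 1) z = 0 := by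
      have h1 := hD ⟨z, hz⟩
      rw [hzD] at h1
      exact h1.symm
    obtain ⟨y, hy, hyz⟩ := hE z hz h0
    exact ⟨y, hy, hyz⟩
  · rw [Submodule.ker_mkQ, Submodule.range_liftQ]
    ext ⟨z, hz⟩
    rw [Submodule.mem_comap, Submodule.subtype_apply, LinearMap.mem_range]
    constructor
    · rintro ⟨y, hy, hyz⟩
      exact ⟨⟨y, hy⟩, Subtype.ext ((hD ⟨y, hy⟩).trans hyz)⟩
    · rintro ⟨⟨y, hy⟩, hyz⟩
      refine ⟨y, hy, ?_⟩
      have h1 := hD ⟨y, hy⟩
      rw [hyz] at h1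
      exact h1.symm

theorem S10_Qres (c : ℕ) (hlen : ∀ j, c < j → IsEmpty (F.ix j)) (r : ℕ)
    (hE : ∀ j, r + 1 ≤ j → Ex F (Rg ∅ univ) j) : ∀ d j : ℕ, r ≤ j → j + 1 + d = c → FFR B d (S10_Q F j) := by
  intro d
  induction d with
  | zero =>
    intro j _ hjc
    exact S10_base F j (hlen _ (by omega))
  | succ d ih =>
    intro j hj hjc
    exact S10_step F j d (hE _ (by omega)) (ih (j + 1) (by omega) (by omega))

theorem tail (he : ∀ j b, F.e j b ≤ j) (c d : ℕ) (hlen : ∀ j, c < j → IsEmpty (F.ix j))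
    (hc : c = d + Fintype.card τ + 1) (h1 : ∀ j, 1 ≤ j → Ex F (Rg univ ∅) j) :
    FFR B d (Hm F (Rg univ ∅) 0) := by
  have hE : ∀ j, Fintype.card τ + 1 ≤ j → Ex F (Rg ∅ univ) j := by
    intro j hj
    obtain ⟨i, rfl⟩ : ∃ i, j = i + Fintype.card τ := ⟨j - Fintype.card τ, by omega⟩
    apply S10_ex
    obtain ⟨φ⟩ := chain_iso F i
    have := S10_sub F (Rg univ ∅) i (h1 i (by omega))
    exact φ.toEquiv.subsingleton
  have hmain : ∀ k, k = Fintype.card τ → FFR B d (Hm F (Rg ∅ univ) k) := by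
    intro k hk
    have hZ : Zc F (Rg ∅ univ) k = St F (Rg ∅ univ) (k + 1) := by
      refine le_antisymm inf_le_left (le_inf le_rfl ?_)
      intro z hz
      have h2 := dS_mem F ∅ univ k hz
      rw [St_neg_zero F he (le_of_eq hk), Submodule.mem_bot] at h2
      exact LinearMap.mem_ker.2 h2
    exact S10_congr _ _ (Bc F (Rg ∅ univ) k) hZ d
      (S10_Qres F c hlen (Fintype.card τ) hE d k (le_of_eq hk.symm) (by omega))
  obtain ⟨φ⟩ := chain_iso F 0
  exact FFR_congr d φ (hmain _ (Nat.zero_add _))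

end Pool.Agent.LibMC34
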