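import Pool.Agent.LibMC34.S1

set_option autoImplicit false

/-!
Row S2 (MC34, block P3). The strand is a complex, and its behaviour along one more variable `i`. Uses `S1`.
(typed by helper85)
-/

namespace Pool.Agent.LibMC34

open Finset

variable {τ B : Type} [Fintype τ] [DecidableEq τ] [CommRing B] (F : LCx τ B)

private theorem S2_ext {f g : La τ B} (h : ∀ α, f.coeff α = g.coeff α) : f = g := by
  apply AddMonoidAlgebra.ext
  exact Finsupp.ext h

/-- two cuts agree if the regions agree on the support -/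
private theorem S2_cut_congr {P Q R : (τ → ℤ) → Prop} {f : La τ B} (hf : Sup R f)
    (h : ∀ α, R α → (P α ↔ Q α)) : cut P f = cut Q f := by
  classical
  apply S2_ext
  intro α
  rw [coeff_cut, coeff_cut]
  by_cases h0 : f.coeff α = 0
  · rw [h0]
    simp
  · have h1 := h α (hf α h0)
    by_cases hP : P α
    · rw [if_pos hP, if_pos (h1.1 hP)]
    · rw [if_neg hP, if_neg (fun hQ => hP (h1.2 hQ))]

/-- cut of a cut to a smaller region -/
private theorem S2_cut_cut {P Q : (τ → ℤ) → Prop} (f : La τ B) (h : ∀ α, P α → Q α) :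
    cut P (cut Q f) = cut P f := by
  classical
  apply S2_ext
  intro α
  rw [coeff_cut, coeff_cut, coeff_cut]
  by_cases hP : P α
  · rw [if_pos hP, if_pos (h α hP), if_pos hP]
  · rw [if_neg hP, if_neg hP]

theorem cut_mul_cut (N M : Finset τ) {r f : La τ B} (hr : Sup NN r) (hf : Sup (fun α => ∀ i ∈ N, 0 ≤ α i) f) :
    cut (Rg N M) (r * cut (Rg N M) f) = cut (Rg N M) (r * f) := by
  classical
  have h1 : Sup (fun α => ∃ i ∈ M, 0 ≤ α i) (f - cut (Rg N M) f) := by
    intro α hα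
    have h2 : (f - cut (Rg N M) f).coeff α = f.coeff α - (if Rg N M α then f.coeff α else 0) := by
      rw [← coeff_cut]
      simp
    rw [h2] at hα
    by_cases h3 : Rg N M α
    · rw [if_pos h3, sub_self] at hα
      exact absurd rfl hα
    · rw [if_neg h3, sub_zero] at hα
      have h4 := hf α hα
      by_contra h5
      push_neg at h5
      exact h3 ⟨h4, h5⟩
  have h6 : cut (Rg N M) (r * (f - cut (Rg N M) f)) = 0 := by
    apply cut_of_Sup_not
    refine Sup_mono ?_ (Sup_mul hr h1)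
    rintro γ ⟨α, β, hα, ⟨i, hi, hβ⟩, rfl⟩ hR
    have h7 := hR.2 i hi
    have h8 := hα i
    simp only [Pi.add_apply] at h7
    omega
  rw [mul_sub, map_sub, sub_eq_zero] at h6
  exact h6.symm

private theorem S2_sum (N M : Finset τ) (j : ℕ) {z : F.ix (j + 1) → La τ B} (hz : z ∈ St F (Rg N M) (j + 1))
    (a : F.ix j) : Sup (fun α => (∀ i ∈ N, 0 ≤ α i) ∧ ∑ i, α i + F.e j a = 1) ((F.G j).mulVec z a) := by
  apply Sup_mulVec
  intro b
  refine Sup_mono ?_ (Sup_mul (F.supp j a b) (hz b))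
  rintro γ ⟨α, β, ⟨h1, h2⟩, ⟨⟨h3, h4⟩, h5⟩, rfl⟩
  refine ⟨?_, ?_⟩
  · intro i hi
    have := h1 i
    have := h3 i hi
    simp only [Pi.add_apply]
    omega
  · simp only [Pi.add_apply, Finset.sum_add_distrib]
    omega

private theorem S2_NN (j : ℕ) (a : F.ix j) (b : F.ix (j + 1)) : Sup NN (F.G j a b) :=
  Sup_mono (fun _ h => h.1) (F.supp j a b)

/-- the differential sees only the cut of the entries -/
private theorem S2_dcut (N M : Finset τ) (j : ℕ) (z : F.ix (j + 1) → La τ B)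
    (hz : ∀ b, Sup (fun α => ∀ i ∈ N, 0 ≤ α i) (z b)) (a : F.ix j) :
    cut (Rg N M) ((F.G j).mulVec (fun b => cut (Rg N M) (z b)) a) = cut (Rg N M) ((F.G j).mulVec z a) := by
  simp only [Matrix.mulVec, dotProduct, map_sum]
  exact Finset.sum_congr rfl fun b _ => cut_mul_cut N M (S2_NN F j a b) (hz b)

theorem dS_mem (N M : Finset τ) (j : ℕ) {z : F.ix (j + 1) → La τ B} (hz : z ∈ St F (Rg N M) (j + 1)) :
    dS F (Rg N M) j z ∈ St F (Rg N M) j := by
  intro a
  refine Sup_mono ?_ (Sup_cut (P := Rg N M) (S2_sum F N M j hz a))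
  rintro α ⟨h1, h2, h3⟩
  exact ⟨h1, h3⟩

theorem dS_dS (N M : Finset τ) (j : ℕ) {z : F.ix (j + 2) → La τ B} (hz : z ∈ St F (Rg N M) (j + 2)) :
    dS F (Rg N M) j (dS F (Rg N M) (j + 1) z) = 0 := by
  funext a
  show cut (Rg N M) ((F.G j).mulVec (fun b => cut (Rg N M) ((F.G (j + 1)).mulVec z b)) a) = 0
  rw [S2_dcut F N M j ((F.G (j + 1)).mulVec z) (fun b => Sup_mono (fun _ h => h.1) (S2_sum F N M (j + 1) hz b)) a,
    Matrix.mulVec_mulVec, F.comp]
  simp

/-- inclusion of the part with `α_i ≥ 0` -/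
theorem St_incl (N M : Finset τ) (i : τ) (j : ℕ) : St F (Rg (insert i N) M) j ≤ St F (Rg N M) j := by
  intro z hz b
  refine Sup_mono ?_ (hz b)
  rintro α ⟨⟨h1, h2⟩, h3⟩
  exact ⟨⟨fun i hi => h1 i (Finset.mem_insert_of_mem hi), h2⟩, h3⟩

theorem dS_incl (N M : Finset τ) (i : τ) (j : ℕ) {z : F.ix (j + 1) → La τ B}
    (hz : z ∈ St F (Rg (insert i N) M) (j + 1)) : dS F (Rg N M) j z = dS F (Rg (insert i N) M) j z := by
  funext a
  refine S2_cut_congr (S2_sum F (insert i N) M j hz a) ?_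
  rintro α ⟨h1, h2⟩
  constructor
  · rintro ⟨_, h4⟩
    exact ⟨h1, h4⟩
  · rintro ⟨h3, h4⟩
    exact ⟨fun i hi => h3 i (Finset.mem_insert_of_mem hi), h4⟩

theorem St_quot_le (N M : Finset τ) (i : τ) (j : ℕ) : St F (Rg N (insert i M)) j ≤ St F (Rg N M) j := by
  intro z hz b
  refine Sup_mono ?_ (hz b)
  rintro α ⟨⟨h1, h2⟩, h3⟩
  exact ⟨⟨h1, fun i hi => h2 i (Finset.mem_insert_of_mem hi)⟩, h3⟩

/-- cutting to `α_i < 0` commutes with the differentials -/
theorem cut_dS (N M : Finset τ) (i : τ) (j : ℕ) {z : F.ix (j + 1) → La τ B} (hz : z ∈ St F (Rg N M) (j + 1)) :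
    dS F (Rg N (insert i M)) j (fun b => cut (Rg N (insert i M)) (z b)) =
      fun a => cut (Rg N (insert i M)) (dS F (Rg N M) j z a) := by
  funext a
  show cut (Rg N (insert i M)) ((F.G j).mulVec (fun b => cut (Rg N (insert i M)) (z b)) a) =
    cut (Rg N (insert i M)) (cut (Rg N M) ((F.G j).mulVec z a))
  rw [S2_dcut F N (insert i M) j z (fun b => Sup_mono (fun _ h => h.1.1) (hz b)) a, S2_cut_cut]
  rintro α ⟨h1, h2⟩
  exact ⟨h1, fun i hi => h2 i (Finset.mem_insert_of_mem hi)⟩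

theorem cut_mem (N M : Finset τ) (i : τ) (j : ℕ) {z : F.ix j → La τ B} (hz : z ∈ St F (Rg N M) j) :
    (fun b => cut (Rg N (insert i M)) (z b)) ∈ St F (Rg N (insert i M)) j := by
  intro b
  refine Sup_mono ?_ (Sup_cut (P := Rg N (insert i M)) (hz b))
  rintro α ⟨h1, h2, h3⟩
  exact ⟨h1, h3⟩

/-- the kernel of cutting to `α_i < 0` -/
theorem mem_of_cut_zero (N M : Finset τ) (i : τ) (j : ℕ) {z : F.ix j → La τ B} (hz : z ∈ St F (Rg N M) j)
    (h : ∀ b, cut (Rg N (insert i M)) (z b) = 0) : z ∈ St F (Rg (insert i N) M) j := by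
  classical
  intro b α hα
  obtain ⟨⟨h1, h2⟩, h3⟩ := hz b α hα
  refine ⟨⟨?_, h2⟩, h3⟩
  intro l hl
  rcases Finset.mem_insert.1 hl with rfl | hl
  · by_contra hneg
    push_neg at hneg
    have h4 : Rg N (insert l M) α := by
      refine ⟨h1, ?_⟩
      intro m hm
      rcases Finset.mem_insert.1 hm with rfl | hm
      · exact hneg
      · exact h2 m hm
    have h5 : (cut (Rg N (insert l M)) (z b)).coeff α = 0 := by
      rw [h b]
      simp
    rw [coeff_cut, if_pos h4] at h5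
    exact hα h5
  · exact h1 l hl

theorem cut_self (N M : Finset τ) (i : τ) (j : ℕ) {z : F.ix j → La τ B} (hz : z ∈ St F (Rg N (insert i M)) j) :
    (fun b => cut (Rg N (insert i M)) (z b)) = z := by
  funext b
  exact cut_of_Sup (Sup_mono (fun _ h => h.1) (hz b))

end Pool.Agent.LibMC34
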