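import Pool.Agent.LibMC34.S2

set_option autoImplicit false

/-!
Row S4 (MC34, block P3). Diagram chase (uses only the statements of `S2`; typed by helper85).
-/

namespace Pool.Agent.LibMC34

open Finset

variable {τ B : Type} [Fintype τ] [DecidableEq τ] [CommRing B] (F : LCx τ B)

theorem Ex_step (N M : Finset τ) (i : τ) (j : ℕ) (h1 : Ex F (Rg N M) (j + 1)) (h2 : Ex F (Rg (insert i N) M) j) :
    Ex F (Rg N (insert i M)) (j + 1) := by
  intro z hz hdz
  have hz' : z ∈ St F (Rg N M) (j + 2) := St_quot_le F N M i (j + 2) hz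
  -- the differential of `z` in the bigger strand
  have hy : dS F (Rg N M) (j + 1) z ∈ St F (Rg (insert i N) M) (j + 1) := by
    apply mem_of_cut_zero F N M i (j + 1) (dS_mem F N M (j + 1) hz')
    intro b
    have h3 := cut_dS F N M i (j + 1) hz'
    rw [cut_self F N M i (j + 2) hz, hdz] at h3
    exact (congrFun h3 b).symm
  have hdy : dS F (Rg (insert i N) M) j (dS F (Rg N M) (j + 1) z) = 0 := by
    rw [← dS_incl F N M i j hy]
    exact dS_dS F N M j hz'
  obtain ⟨y', hy', hdy'⟩ := h2 _ hy hdy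
  have hy'' : y' ∈ St F (Rg N M) (j + 2) := St_incl F N M i (j + 2) hy'
  have hcyc : dS F (Rg N M) (j + 1) (z - y') = 0 := by
    rw [map_sub, dS_incl F N M i (j + 1) hy', hdy', sub_self]
  obtain ⟨w, hw, hdw⟩ := h1 (z - y') (Submodule.sub_mem _ hz' hy'') hcyc
  refine ⟨fun b => cut (Rg N (insert i M)) (w b), cut_mem F N M i (j + 3) hw, ?_⟩
  rw [cut_dS F N M i (j + 2) hw, hdw]
  have h5 : (fun a => cut (Rg N (insert i M)) ((z - y') a)) =
      (fun a => cut (Rg N (insert i M)) (z a)) - fun a => cut (Rg N (insert i M)) (y' a) := by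
    funext a
    simp only [Pi.sub_apply, map_sub]
  rw [h5, cut_self F N M i (j + 2) hz]
  have h6 : (fun a => cut (Rg N (insert i M)) (y' a)) = 0 := by
    funext a
    apply cut_of_Sup_not
    refine Sup_mono ?_ (hy' a)
    rintro α ⟨⟨h7, _⟩, _⟩ h8
    have h9 := h7 i (Finset.mem_insert_self _ _)
    have h10 := h8.2 i (Finset.mem_insert_self _ _)
    omega
  rw [h6, sub_zero]

end Pool.Agent.LibMC34
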