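import Pool.Agent.LibMC34.S2

set_option autoImplicit false

/-!
Row S5 (MC34, block P3). Exactness without negative variables.
-/

namespace Pool.Agent.LibMC34

open Finset

variable {τ B : Type} [Fintype τ] [DecidableEq τ] [CommRing B] (F : LCx τ B)

omit [Fintype τ] [DecidableEq τ] in
private theorem S5_single (γ : τ → ℤ) (r : B) :
    Sup (fun α => α = γ) (AddMonoidAlgebra.single γ r : La τ B) := by
  intro α h
  by_contra hne
  apply h
  rw [AddMonoidAlgebra.coeff_single]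
  exact Finsupp.single_eq_of_ne hne

omit [Fintype τ] [DecidableEq τ] in
private theorem S5_mulVec {I J : Type} [Fintype J] (G : Matrix I J (La τ B)) (m : La τ B) (z : J → La τ B) (a : I) :
    G.mulVec (fun b => m * z b) a = m * G.mulVec z a := by
  simp only [Matrix.mulVec, dotProduct]
  rw [Finset.mul_sum]
  refine Finset.sum_congr rfl fun b _ => ?_
  ring

theorem Ex_base (N : Finset τ) (hN : N ≠ univ) (j : ℕ) : Ex F (Rg N ∅) j := by
  intro z hz hd
  have hz1 : ∀ b, Sup (fun α => ∀ i ∈ N, 0 ≤ α i) (z b) := fun b => Sup_mono (fun α h => h.1.1) (hz b)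
  -- `G z = 0`
  have hG0 : (F.G j).mulVec z = 0 := by
    funext a
    have h1 : cut (Rg N ∅) ((F.G j).mulVec z a) = 0 := congrFun hd a
    have h2 : Sup (Rg N ∅) ((F.G j).mulVec z a) := by
      refine Sup_mulVec fun b => Sup_mono ?_ (Sup_mul (F.supp j a b) (hz b))
      rintro γ ⟨α, β, hα, hβ, rfl⟩
      refine ⟨fun i hi => ?_, fun i hi => absurd hi (Finset.notMem_empty i)⟩
      rw [Pi.add_apply]
      have := hα.1 i
      have := hβ.1.1 i hi
      omega
    rw [cut_of_Sup h2] at h1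
    exact h1
  obtain ⟨γ, hγN, hγ0, hγ⟩ := exists_shift N z hz1
  obtain ⟨x, hx⟩ : ∃ x, x ∉ N := by
    by_contra hc
    push Not at hc
    exact hN (Finset.eq_univ_iff_forall.2 hc)
  have hG1 : (F.G j).mulVec (fun b => AddMonoidAlgebra.single γ 1 * z b) = 0 := by
    funext a
    rw [S5_mulVec, hG0, Pi.zero_apply, mul_zero]
  obtain ⟨a, y0, hy0, hGy0⟩ := F.ex x j _ hγ hG1
  -- `y1`
  set y1 : F.ix (j + 2) → La τ B := fun c =>
    tpow x (-(a : ℤ)) * (AddMonoidAlgebra.single (-γ) 1 * y0 c) with hy1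
  have hGy1 : ∀ b, (F.G (j + 1)).mulVec y1 b = z b := by
    intro b
    have h1 : (F.G (j + 1)).mulVec y1 b =
        tpow x (-(a : ℤ)) * (AddMonoidAlgebra.single (-γ) 1 * (F.G (j + 1)).mulVec y0 b) := by
      rw [hy1, S5_mulVec (F.G (j + 1)) (tpow x (-(a : ℤ))) (fun c => AddMonoidAlgebra.single (-γ) 1 * y0 c) b,
        S5_mulVec]
    rw [h1, hGy0]
    have h2 : (tpow x (-(a : ℤ)) : La τ B) * tpow x (a : ℤ) = 1 := by
      rw [tpow_mul_tpow, neg_add_cancel, tpow_zero]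
    have h3 : (AddMonoidAlgebra.single (-γ) 1 : La τ B) * AddMonoidAlgebra.single γ 1 = 1 := by
      rw [AddMonoidAlgebra.single_mul_single, neg_add_cancel, mul_one]
      rfl
    calc (tpow x (-(a : ℤ)) : La τ B) * (AddMonoidAlgebra.single (-γ) 1 *
          (tpow x (a : ℤ) * (AddMonoidAlgebra.single γ 1 * z b)))
        = ((tpow x (-(a : ℤ)) : La τ B) * tpow x (a : ℤ)) *
          ((AddMonoidAlgebra.single (-γ) 1 * AddMonoidAlgebra.single γ 1) * z b) := by ring
      _ = z b := by rw [h2, h3, one_mul, one_mul]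
  have hSy1 : ∀ c, Sup (Rg N ∅) (y1 c) := by
    intro c
    refine Sup_mono ?_ (Sup_mul (S5_single (Pi.single x (-(a : ℤ))) 1)
      (Sup_mul (S5_single (-γ) 1) (hy0 c)))
    rintro δ ⟨α, β, rfl, ⟨α', β', rfl, hβ', rfl⟩, rfl⟩
    refine ⟨fun i hi => ?_, fun i hi => absurd hi (Finset.notMem_empty i)⟩
    have hix : i ≠ x := fun h => hx (h ▸ hi)
    rw [Pi.add_apply, Pi.add_apply, Pi.single_eq_of_ne hix, Pi.neg_apply, hγN i hi]
    have := hβ' i
    omega
  -- the strand part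
  set y : F.ix (j + 2) → La τ B := fun c =>
    cut (fun α => Rg N ∅ α ∧ ∑ i, α i + F.e (j + 2) c = 1) (y1 c) with hy
  set y2 : F.ix (j + 2) → La τ B := fun c =>
    cut (fun α => ¬ (∑ i, α i + (F.e (j + 2) c : ℤ) = 1)) (y1 c) with hy2
  have hsum : ∀ c, y c + y2 c = y1 c := by
    intro c
    refine cut_add_cut (hSy1 c) (fun α hα => ?_) (fun α hα => ?_)
    · by_cases h : ∑ i, α i + (F.e (j + 2) c : ℤ) = 1
      · exact Or.inl ⟨hα, h⟩
      · exact Or.inr h
    · exact not_not.2 hα.2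
  have hyS : y ∈ St F (Rg N ∅) (j + 2) := fun c => Sup_cut' _ _
  refine ⟨y, hyS, ?_⟩
  have hGy : ∀ b, (F.G (j + 1)).mulVec y b = z b := by
    intro b
    have h1 : (F.G (j + 1)).mulVec y b + (F.G (j + 1)).mulVec y2 b = z b := by
      rw [← hGy1 b, ← Pi.add_apply, ← Matrix.mulVec_add]
      congr 2
      funext c
      exact hsum c
    have h2 : Sup (fun α => ∑ i, α i + (F.e (j + 1) b : ℤ) = 1) ((F.G (j + 1)).mulVec y b) := by
      refine Sup_mulVec fun c => Sup_mono ?_ (Sup_mul (F.supp (j + 1) b c) (hyS c))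
      rintro γ ⟨α, β, hα, hβ, rfl⟩
      have e1 : ∑ i, α i + (F.e (j + 1) b : ℤ) = (F.e (j + 2) c : ℤ) := hα.2
      have e2 : ∑ i, β i + (F.e (j + 2) c : ℤ) = 1 := hβ.2
      simp only [Pi.add_apply]
      rw [Finset.sum_add_distrib]
      omega
    have h3 : Sup (fun α => ¬ (∑ i, α i + (F.e (j + 1) b : ℤ) = 1)) ((F.G (j + 1)).mulVec y2 b) := by
      refine Sup_mulVec fun c => Sup_mono ?_ (Sup_mul (F.supp (j + 1) b c) (Sup_cut' _ (y1 c)))
      rintro γ ⟨α, β, hα, hβ, rfl⟩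
      have e1 : ∑ i, α i + (F.e (j + 1) b : ℤ) = (F.e (j + 2) c : ℤ) := hα.2
      simp only [Pi.add_apply]
      rw [Finset.sum_add_distrib]
      intro h
      apply hβ
      omega
    have h4 : Sup (fun α => ∑ i, α i + (F.e (j + 1) b : ℤ) = 1) (z b) :=
      Sup_mono (fun α h => h.2) (hz b)
    have h5 := congrArg (cut (fun α => ∑ i, α i + (F.e (j + 1) b : ℤ) = 1)) h1
    rw [map_add, cut_of_Sup h2, cut_of_Sup_not h3, cut_of_Sup h4, add_zero] at h5
    exact h5
  funext b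
  change cut (Rg N ∅) ((F.G (j + 1)).mulVec y b) = z b
  rw [hGy b]
  exact cut_of_Sup (Sup_mono (fun α h => h.1) (hz b))

end Pool.Agent.LibMC34
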