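import Pool.Agent.LibMC34.S4
import Pool.Agent.LibMC34.S5

set_option autoImplicit false

/-!
Row S6 (MC34, block P3). SHORT. Induction on `M` (`Finset.induction_on`, `N` and `j` general) with `Ex_base` and `Ex_step`: for `insert i M`, `j = j' + 1` (since `card (insert i M) ≤ j`, `i ∉ M`); `Ex_step N M i j'` needs
`Ex (Rg N M) (j'+1)` (`M.card ≤ j'+1`, `N ∪ M ≠ univ` since `i ∉ N ∪ M`) and `Ex (Rg (insert i N) M) j'` (`M.card ≤ j'`, `insert i N ∪ M = N ∪ insert i M ≠ univ`).
-/

namespace Pool.Agent.LibMC34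

open Finset

variable {τ B : Type} [Fintype τ] [DecidableEq τ] [CommRing B] (F : LCx τ B)

theorem Ex_claim (M : Finset τ) : ∀ (N : Finset τ) (j : ℕ), Disjoint N M → N ∪ M ≠ univ → M.card ≤ j →
    Ex F (Rg N M) j := by
  induction M using Finset.induction_on with
  | empty =>
    intro N j _ h2 _
    exact Ex_base F N (by simpa using h2) j
  | insert i M hi ih =>
    intro N j h1 h2 h3
    rw [Finset.card_insert_of_notMem hi] at h3
    obtain ⟨j', rfl⟩ : ∃ j', j = j' + 1 := ⟨j - 1, by omega⟩
    rw [Finset.disjoint_insert_right] at h1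
    refine Ex_step F N M i j' (ih N (j' + 1) h1.2 ?_ (by omega)) (ih (insert i N) j' ?_ ?_ (by omega))
    · intro h
      have : i ∈ N ∪ M := by rw [h]; exact Finset.mem_univ i
      rcases Finset.mem_union.1 this with h' | h'
      · exact h1.1 h'
      · exact hi h'
    · rw [Finset.disjoint_insert_left]
      exact ⟨hi, h1.2⟩
    · rw [Finset.insert_union, ← Finset.union_insert]
      exact h2

end Pool.Agent.LibMC34
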