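import Pool.Agent.LibMC34.S2

set_option autoImplicit false

/-!
Row S7 (MC34, block P3). MEDIUM. The connecting isomorphism (snake lemma), by hand from the statements of `S2`. On cycles `z ∈ Zc (Rg N (insert i M)) (j+1)` (position `j+2`): `z ↦ dS (Rg N M) (j+1) z`, which lies in
`Zc (Rg (insert i N) M) j` (`mem_of_cut_zero`, `dS_incl`, `dS_dS`). This linear map `Zc → Zc ⧸ ..` kills the boundaries (`z = dS_{insert i M} w`, `w ∈ St (Rg N (insert i M))`: `dS_{N,M} w = z + u`, `u` in the sub,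
so `dS z = - dS u`), is surjective (`y` in the sub is a cycle in the middle, `h2 : Ex (Rg N M) j` gives `y = dS w`, take `cut w`; `w - cut w` lies in the sub) and has kernel the boundaries (`dS z = dS u`, `u` in the sub:
`z - u` is a cycle in the middle, `h1` gives `z - u = dS w`, so `z = cut (dS w) = dS (cut w)`). Use `Submodule.liftQ` / `LinearEquiv.ofBijective` or `Submodule.quotEquivOfEq` + `LinearMap.quotKerEquivOfSurjective`.
-/

namespace Pool.Agent.LibMC34

open Finset

variable {τ B : Type} [Fintype τ] [DecidableEq τ] [CommRing B] (F : LCx τ B)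

private theorem S7_not (N M : Finset τ) (i : τ) {α : τ → ℤ}
    (h : Rg (insert i N) M α) : ¬ Rg N (insert i M) α := by
  intro h'
  have h1 := h.1 i (mem_insert_self i N)
  have h2 := h'.2 i (mem_insert_self i M)
  omega

private theorem S7_cut_zero (N M : Finset τ) (i : τ) (j : ℕ) {z : F.ix j → La τ B}
    (hz : z ∈ St F (Rg (insert i N) M) j) : ∀ b, cut (Rg N (insert i M)) (z b) = 0 := by
  intro b
  exact cut_of_Sup_not (Sup_mono (fun α hα => S7_not N M i hα.1) (hz b))

private theorem S7_cut_sub (N M : Finset τ) (i : τ) (j : ℕ) {z u : F.ix j → La τ B}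
    (h : ∀ b, cut (Rg N (insert i M)) (z b) = cut (Rg N (insert i M)) (u b)) :
    ∀ b, cut (Rg N (insert i M)) ((z - u) b) = 0 := by
  intro b
  rw [Pi.sub_apply, map_sub, h b, sub_self]

/-- the connecting map takes values in the cycles -/
private theorem S7_mem (N M : Finset τ) (i : τ) (j : ℕ) {z : F.ix (j + 2) → La τ B}
    (hz : z ∈ Zc F (Rg N (insert i M)) (j + 1)) :
    dS F (Rg N M) (j + 1) z ∈ Zc F (Rg (insert i N) M) j := by
  have hz1 : z ∈ St F (Rg N (insert i M)) (j + 2) := hz.1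
  have hz2 : dS F (Rg N (insert i M)) (j + 1) z = 0 := hz.2
  have hz3 : z ∈ St F (Rg N M) (j + 2) := St_quot_le F N M i (j + 2) hz1
  have h1 : dS F (Rg N M) (j + 1) z ∈ St F (Rg N M) (j + 1) := dS_mem F N M (j + 1) hz3
  have h2 := cut_dS F N M i (j + 1) hz3
  rw [cut_self F N M i (j + 2) hz1, hz2] at h2
  have h3 : dS F (Rg N M) (j + 1) z ∈ St F (Rg (insert i N) M) (j + 1) :=
    mem_of_cut_zero F N M i (j + 1) h1 (fun b => (congrFun h2 b).symm)
  refine ⟨h3, ?_⟩
  show dS F (Rg (insert i N) M) j (dS F (Rg N M) (j + 1) z) = 0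
  rw [← dS_incl F N M i j h3]
  exact dS_dS F N M j hz3

/-- the connecting map on cycles -/
private noncomputable def S7_L (N M : Finset τ) (i : τ) (j : ℕ) :
    Zc F (Rg N (insert i M)) (j + 1) →ₗ[B] Zc F (Rg (insert i N) M) j :=
  (dS F (Rg N M) (j + 1)).restrict (fun _ hz => S7_mem F N M i j hz)

private theorem S7_fwd (N M : Finset τ) (i : τ) (j : ℕ) (h1 : Ex F (Rg N M) (j + 1))
    {z : F.ix (j + 2) → La τ B} (hz : z ∈ St F (Rg N (insert i M)) (j + 2))
    (h : dS F (Rg N M) (j + 1) z ∈ Bc F (Rg (insert i N) M) j) :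
    z ∈ Bc F (Rg N (insert i M)) (j + 1) := by
  obtain ⟨u, hu, hu2⟩ := h
  have hu1 : u ∈ St F (Rg N M) (j + 2) := St_incl F N M i (j + 2) hu
  have hz3 : z ∈ St F (Rg N M) (j + 2) := St_quot_le F N M i (j + 2) hz
  have h3 : dS F (Rg N M) (j + 1) (z - u) = 0 := by
    rw [map_sub, ← hu2, dS_incl F N M i (j + 1) hu, sub_self]
  obtain ⟨y, hy, hy2⟩ := h1 (z - u) (Submodule.sub_mem _ hz3 hu1) h3
  have h4 := cut_dS F N M i (j + 2) hy
  refine ⟨fun b => cut (Rg N (insert i M)) (y b), cut_mem F N M i (j + 3) hy, ?_⟩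
  refine h4.trans ?_
  have h5 : dS F (Rg N M) (j + 2) y = z - u := hy2
  rw [h5]
  funext a
  have h6 := congrFun (cut_self F N M i (j + 2) hz) a
  rw [Pi.sub_apply, map_sub, S7_cut_zero F N M i (j + 2) hu a, sub_zero]
  exact h6

private theorem S7_bwd (N M : Finset τ) (i : τ) (j : ℕ)
    {z : F.ix (j + 2) → La τ B} (hz : z ∈ St F (Rg N (insert i M)) (j + 2))
    (h : z ∈ Bc F (Rg N (insert i M)) (j + 1)) :
    dS F (Rg N M) (j + 1) z ∈ Bc F (Rg (insert i N) M) j := by
  obtain ⟨w, hw, hw2⟩ := h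
  have hw2' : dS F (Rg N (insert i M)) (j + 2) w = z := hw2
  have hw1 : w ∈ St F (Rg N M) (j + 3) := St_quot_le F N M i (j + 3) hw
  have hz3 : z ∈ St F (Rg N M) (j + 2) := St_quot_le F N M i (j + 2) hz
  have hv : dS F (Rg N M) (j + 2) w ∈ St F (Rg N M) (j + 2) := dS_mem F N M (j + 2) hw1
  have h4 := cut_dS F N M i (j + 2) hw1
  have hcs : (fun b => cut (Rg N (insert i M)) (w b)) = w := cut_self F N M i (j + 3) hw
  rw [hcs, hw2'] at h4
  have hu : z - dS F (Rg N M) (j + 2) w ∈ St F (Rg (insert i N) M) (j + 2) := by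
    refine mem_of_cut_zero F N M i (j + 2) (Submodule.sub_mem _ hz3 hv) ?_
    refine S7_cut_sub F N M i (j + 2) (fun b => ?_)
    have h6 := congrFun (cut_self F N M i (j + 2) hz) b
    have h7 := congrFun h4 b
    exact h6.trans h7
  refine ⟨z - dS F (Rg N M) (j + 2) w, hu, ?_⟩
  have h8 : dS F (Rg N M) (j + 1) (dS F (Rg N M) (j + 2) w) = 0 := dS_dS F N M (j + 1) hw1
  rw [← dS_incl F N M i (j + 1) hu, map_sub, h8, sub_zero]

private theorem S7_surj (N M : Finset τ) (i : τ) (j : ℕ) (h2 : Ex F (Rg N M) j)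
    {y : F.ix (j + 1) → La τ B} (hy : y ∈ Zc F (Rg (insert i N) M) j) :
    ∃ z ∈ Zc F (Rg N (insert i M)) (j + 1),
      dS F (Rg N M) (j + 1) z - y ∈ Bc F (Rg (insert i N) M) j := by
  have hy1 : y ∈ St F (Rg (insert i N) M) (j + 1) := hy.1
  have hy2 : dS F (Rg (insert i N) M) j y = 0 := hy.2
  have hy3 : y ∈ St F (Rg N M) (j + 1) := St_incl F N M i (j + 1) hy1
  obtain ⟨w, hw, hw2⟩ := h2 y hy3 (by rw [dS_incl F N M i j hy1, hy2])
  have hz : (fun b => cut (Rg N (insert i M)) (w b)) ∈ St F (Rg N (insert i M)) (j + 2) :=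
    cut_mem F N M i (j + 2) hw
  have hz3 := St_quot_le F N M i (j + 2) hz
  have h4 := cut_dS F N M i (j + 1) hw
  refine ⟨fun b => cut (Rg N (insert i M)) (w b), ⟨hz, ?_⟩, ?_⟩
  · show dS F (Rg N (insert i M)) (j + 1) (fun b => cut (Rg N (insert i M)) (w b)) = 0
    rw [h4]
    funext a
    have hw3 : dS F (Rg N M) (j + 1) w = y := hw2
    rw [hw3]
    exact S7_cut_zero F N M i (j + 1) hy1 a
  · have hu : (fun b => cut (Rg N (insert i M)) (w b)) - w ∈
        St F (Rg (insert i N) M) (j + 2) := by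
      refine mem_of_cut_zero F N M i (j + 2) (Submodule.sub_mem _ hz3 hw) ?_
      refine S7_cut_sub F N M i (j + 2) (fun b => ?_)
      exact congrFun (cut_self F N M i (j + 2) hz) b
    refine ⟨(fun b => cut (Rg N (insert i M)) (w b)) - w, hu, ?_⟩
    rw [← dS_incl F N M i (j + 1) hu, map_sub]
    have hw3 : dS F (Rg N M) (j + 1) w = y := hw2
    rw [hw3]

theorem connect (N M : Finset τ) (i : τ) (j : ℕ) (h1 : Ex F (Rg N M) (j + 1)) (h2 : Ex F (Rg N M) j) :
    Nonempty (Hm F (Rg N (insert i M)) (j + 1) ≃ₗ[B] Hm F (Rg (insert i N) M) j) := by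
  have hker : (Bc F (Rg N (insert i M)) (j + 1)).comap (Zc F (Rg N (insert i M)) (j + 1)).subtype =
      LinearMap.ker ((((Bc F (Rg (insert i N) M) j).comap
        (Zc F (Rg (insert i N) M) j).subtype).mkQ).comp (S7_L F N M i j)) := by
    ext z
    rw [LinearMap.mem_ker, LinearMap.comp_apply, Submodule.mkQ_apply,
      Submodule.Quotient.mk_eq_zero, Submodule.mem_comap, Submodule.mem_comap]
    constructor
    · intro h
      exact S7_bwd F N M i j z.2.1 h
    · intro h
      exact S7_fwd F N M i j h1 z.2.1 h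
  have hsurj : Function.Surjective ((((Bc F (Rg (insert i N) M) j).comap
      (Zc F (Rg (insert i N) M) j).subtype).mkQ).comp (S7_L F N M i j)) := by
    intro q
    obtain ⟨y, rfl⟩ := Submodule.mkQ_surjective _ q
    obtain ⟨z, hz, hz2⟩ := S7_surj F N M i j h2 y.2
    refine ⟨⟨z, hz⟩, ?_⟩
    rw [LinearMap.comp_apply, Submodule.mkQ_apply, Submodule.mkQ_apply,
      Submodule.Quotient.eq, Submodule.mem_comap]
    exact hz2
  exact ⟨(Submodule.quotEquivOfEq _ _ hker).trans
    (LinearMap.quotKerEquivOfSurjective _ hsurj)⟩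

end Pool.Agent.LibMC34
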