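import Pool.Agent.LibMC34.S6
import Pool.Agent.LibMC34.S7

set_option autoImplicit false

/-!
Row S8 (MC34, block P3). SHORT. Induction on `M` (`Finset.induction_on`): claim `Nonempty (Hm F (Rg (univ \ M) M) (j + M.card) ≃ₗ Hm F (Rg univ ∅) j)`. Step `M → insert i M`: `connect` for `N' = univ \ insert i M`, `M`, `i` at `j + M.card`
(`insert i N' = univ \ M`), the two exactness hypotheses from `Ex_claim` (`N' ∪ M` does not contain `i`). Then `M = univ`.
-/

namespace Pool.Agent.LibMC34

open Finset

variable {τ B : Type} [Fintype τ] [DecidableEq τ] [CommRing B] (F : LCx τ B)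

private theorem S8_chain (j : ℕ) (M : Finset τ) :
    Nonempty (Hm F (Rg (univ \ M) M) (j + M.card) ≃ₗ[B] Hm F (Rg univ ∅) j) := by
  induction M using Finset.induction_on with
  | empty =>
    rw [Finset.sdiff_empty, Finset.card_empty, Nat.add_zero]
    exact ⟨LinearEquiv.refl B _⟩
  | insert i M hi ih =>
    obtain ⟨e⟩ := ih
    have hne : (univ \ insert i M) ∪ M ≠ (univ : Finset τ) := by
      intro h
      have h1 : i ∈ (univ \ insert i M) ∪ M := by
        rw [h]
        exact Finset.mem_univ i
      rw [Finset.mem_union, Finset.mem_sdiff] at h1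
      rcases h1 with h1 | h1
      · exact h1.2 (Finset.mem_insert_self i M)
      · exact hi h1
    have hdis : Disjoint (univ \ insert i M) M := by
      rw [Finset.disjoint_left]
      intro a ha haM
      exact (Finset.mem_sdiff.1 ha).2 (Finset.mem_insert_of_mem haM)
    have hins : insert i (univ \ insert i M) = univ \ M := by
      ext a
      simp only [Finset.mem_insert, Finset.mem_sdiff, Finset.mem_univ, true_and, not_or]
      constructor
      · rintro (h | h)
        · rw [h]
          exact hi
        · exact h.2
      · intro h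
        by_cases ha : a = i
        · exact Or.inl ha
        · exact Or.inr ⟨ha, h⟩
    obtain ⟨e'⟩ := connect F (univ \ insert i M) M i (j + M.card)
      (Ex_claim F M _ _ hdis hne (by omega)) (Ex_claim F M _ _ hdis hne (by omega))
    rw [hins] at e'
    rw [Finset.card_insert_of_notMem hi, ← Nat.add_assoc]
    exact ⟨e'.trans e⟩

theorem chain_iso (j : ℕ) : Nonempty (Hm F (Rg ∅ univ) (j + Fintype.card τ) ≃ₗ[B] Hm F (Rg univ ∅) j) := by
  have h := S8_chain F j univ
  rwa [Finset.sdiff_self, Finset.card_univ] at h

end Pool.Agent.LibMC34
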