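import Pool.Agent.LibMC34.Defs

set_option autoImplicit false

/-! Definitions for block P3 (strand) of the core of MP_ed98ad_ag. -/

namespace Pool.Agent.LibMC34

/-- Laurent polynomials in the variables `t_x`, `x ∈ τ` -/
abbrev La (τ B : Type) [CommRing B] := AddMonoidAlgebra B (τ → ℤ)

section
variable {τ B : Type} [Fintype τ] [CommRing B]

/-- all exponents of `f` lie in `P` -/
def Sup (P : (τ → ℤ) → Prop) (f : La τ B) : Prop := ∀ α, f.coeff α ≠ 0 → P α

open scoped Classical in
/-- keep only the monomials with exponent in `P` -/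
noncomputable def cut (P : (τ → ℤ) → Prop) : La τ B →ₗ[B] La τ B where
  toFun f := AddMonoidAlgebra.ofCoeff (f.coeff.filter P)
  map_add' := by
    intro f g
    apply AddMonoidAlgebra.ext
    rw [AddMonoidAlgebra.coeff_add, AddMonoidAlgebra.coeff_add]
    exact Finsupp.filter_add
  map_smul' := by
    intro r f
    apply AddMonoidAlgebra.ext
    simp only [AddMonoidAlgebra.coeff_smul, RingHom.id_apply]
    exact Finsupp.filter_smul

/-- nonnegative exponents -/
def NN : (τ → ℤ) → Prop := fun α => ∀ i, 0 ≤ α i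

/-- the region: `α_i ≥ 0` for `i ∈ N`, `α_i < 0` for `i ∈ M` -/
def Rg (N M : Finset τ) : (τ → ℤ) → Prop := fun α => (∀ i ∈ N, 0 ≤ α i) ∧ ∀ i ∈ M, α i < 0

/-- the monomial `t_x ^ a` -/
noncomputable def tpow [DecidableEq τ] (x : τ) (a : ℤ) : La τ B := AddMonoidAlgebra.single (Pi.single x a) 1

end

/-- complexes of matrices of homogeneous polynomials in `t`, exact after inverting any `t_x` (in the positions `≥ 1`) -/
structure LCx (τ B : Type) [Fintype τ] [DecidableEq τ] [CommRing B] where
  ix : ℕ → Type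
  fin : ∀ j, Fintype (ix j)
  e : ∀ j, ix j → ℕ
  G : ∀ j, Matrix (ix j) (ix (j + 1)) (La τ B)
  supp : ∀ j a b, Sup (fun α => (∀ i, 0 ≤ α i) ∧ ∑ i, α i + e j a = e (j + 1) b) (G j a b)
  comp : ∀ j, G j * G (j + 1) = 0
  ex : ∀ (x : τ) (j : ℕ) (z : ix (j + 1) → La τ B), (∀ b, Sup NN (z b)) → (G j).mulVec z = 0 →
    ∃ (a : ℕ) (y : ix (j + 2) → La τ B), (∀ c, Sup NN (y c)) ∧
      (G (j + 1)).mulVec y = fun b => tpow x (a : ℤ) * z b

attribute [instance] LCx.fin

section
variable {τ B : Type} [Fintype τ] [DecidableEq τ] [CommRing B] (F : LCx τ B)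

/-- the degree-one strand at position `j`, exponents in `P` -/
def St (P : (τ → ℤ) → Prop) (j : ℕ) : Submodule B (F.ix j → La τ B) where
  carrier := {z | ∀ b, Sup (fun α => P α ∧ ∑ i, α i + F.e j b = 1) (z b)}
  add_mem' := by
    intro x y hx hy b α h
    simp only [Pi.add_apply, AddMonoidAlgebra.coeff_add, Finsupp.add_apply] at h
    by_cases h1 : (x b).coeff α = 0
    · by_cases h2 : (y b).coeff α = 0
      · rw [h1, h2, add_zero] at h
        exact absurd rfl h
      · exact hy b α h2
    · exact hx b α h1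
  zero_mem' := by
    intro b α h
    simp at h
  smul_mem' := by
    intro r x hx b α h
    simp only [Pi.smul_apply, AddMonoidAlgebra.coeff_smul_apply] at h
    refine hx b α (fun h0 => h ?_)
    rw [h0, smul_zero]

/-- the differential, cut to `P`, from position `j + 1` to position `j` -/
noncomputable def dS (P : (τ → ℤ) → Prop) (j : ℕ) : (F.ix (j + 1) → La τ B) →ₗ[B] (F.ix j → La τ B) where
  toFun z a := cut P ((F.G j).mulVec z a)
  map_add' := by
    intro x y
    funext a
    simp only [Matrix.mulVec_add, Pi.add_apply, map_add]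
  map_smul' := by
    intro r x
    funext a
    simp only [Matrix.mulVec_smul, Pi.smul_apply, map_smul, RingHom.id_apply]

/-- exactness of the strand at position `j + 1` -/
def Ex (P : (τ → ℤ) → Prop) (j : ℕ) : Prop :=
  ∀ z ∈ St F P (j + 1), dS F P j z = 0 → ∃ y ∈ St F P (j + 2), dS F P (j + 1) y = z

/-- cycles at position `j + 1` -/
noncomputable def Zc (P : (τ → ℤ) → Prop) (j : ℕ) : Submodule B (F.ix (j + 1) → La τ B) :=
  St F P (j + 1) ⊓ LinearMap.ker (dS F P j)

/-- boundaries at position `j + 1` -/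
noncomputable def Bc (P : (τ → ℤ) → Prop) (j : ℕ) : Submodule B (F.ix (j + 1) → La τ B) :=
  (St F P (j + 2)).map (dS F P (j + 1))

/-- homology at position `j + 1` -/
abbrev Hm (P : (τ → ℤ) → Prop) (j : ℕ) := Zc F P j ⧸ (Bc F P j).comap (Zc F P j).subtype

end

section rho
variable {τ V K : Type} [Fintype τ] [CommRing K]

/-- `u_x ↦ t_x`, `eps_i ↦ ∑ g_{i,x} t_x` -/
noncomputable def rho : MvPolynomial (τ ⊕ V) K →+* MvPolynomial τ (MvPolynomial (V × τ) K) :=
  MvPolynomial.eval₂Hom (MvPolynomial.C.comp MvPolynomial.C)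
    (Sum.elim (fun x => MvPolynomial.X x) (fun i => ∑ x, MvPolynomial.C (MvPolynomial.X (i, x)) * MvPolynomial.X x))

/-- polynomials as Laurent polynomials -/
noncomputable def toLa {B : Type} [CommRing B] [DecidableEq τ] : MvPolynomial τ B →ₐ[B] La τ B :=
  MvPolynomial.aeval (fun x => AddMonoidAlgebra.single (Pi.single x 1) 1)

end rho

end Pool.Agent.LibMC34
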