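import Pool.Agent.LibMC34.Defs

set_option autoImplicit false

/-!
Row T1 (MC34; also for blocks G8 and Z). SHORT/MEDIUM. Exactness of matrices under flat base change. Only Mathlib. `M1.mulVecLin`, `M2.mulVecLin` are `Function.Exact`; `Module.Flat.lTensor_exact` (or `rTensor_exact`) for `B ⊗[A] (I → A)`,
and `B ⊗[A] (I → A) ≃ (I → B)` (`TensorProduct.piScalarRight` or `Matrix.toLin`..). Elementary alternative: `Module.Flat.iff_forall_isTrivialRelation` / equational criterion: `z` with `M1 z = 0` is a trivial relation.
`FFR_baseChange`: induction on `d`, `LinearMap.baseChange`, kernel of the base change = base change of the kernel by flatness (`Module.Flat.ker_lTensor_eq`-like), `FFR_congr`.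
-/

namespace Pool.Agent.LibMC34

open TensorProduct

theorem T1_comm {A B : Type} [CommRing A] [CommRing B] [Algebra A B] {I J : Type}
    [Fintype I] [DecidableEq I] [Fintype J] [DecidableEq J] (M : Matrix I J A) (t : B ⊗[A] (J → A)) :
    TensorProduct.piScalarRight A B B I (M.mulVecLin.lTensor B t) =
      (M.map (algebraMap A B)).mulVec (TensorProduct.piScalarRight A B B J t) := by
  induction t with
  | zero => simp
  | tmul b y =>
    rw [LinearMap.lTensor_tmul, TensorProduct.piScalarRight_apply, TensorProduct.piScalarRightHom_tmul,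
      TensorProduct.piScalarRight_apply, TensorProduct.piScalarRightHom_tmul]
    funext i
    simp only [Matrix.mulVecLin_apply, Matrix.mulVec, dotProduct, Matrix.map_apply, Finset.sum_smul]
    refine Finset.sum_congr rfl (fun j _ => ?_)
    rw [mul_smul, Algebra.smul_def]
  | add x y hx hy => rw [map_add, map_add, map_add, hx, hy, Matrix.mulVec_add]

theorem flat_exact {A B : Type} [CommRing A] [CommRing B] [Algebra A B] [Module.Flat A B] {I J L : Type}
    [Fintype I] [Fintype J] [Fintype L] (M1 : Matrix I J A) (M2 : Matrix J L A) (h12 : M1 * M2 = 0)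
    (hex : ∀ z : J → A, M1.mulVec z = 0 → ∃ y : L → A, M2.mulVec y = z) (z : J → B)
    (hz : (M1.map (algebraMap A B)).mulVec z = 0) : ∃ y : L → B, (M2.map (algebraMap A B)).mulVec y = z := by
  classical
  have hE : Function.Exact M2.mulVecLin M1.mulVecLin := by
    intro y
    constructor
    · intro h
      obtain ⟨x, hx⟩ := hex y h
      exact ⟨x, hx⟩
    · rintro ⟨x, rfl⟩
      simp only [Matrix.mulVecLin_apply, Matrix.mulVec_mulVec, h12, Matrix.zero_mulVec]
  have hT := Module.Flat.lTensor_exact B hE
  obtain ⟨t, rfl⟩ := (TensorProduct.piScalarRight A B B J).surjective z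
  rw [← T1_comm, LinearEquiv.map_eq_zero_iff] at hz
  obtain ⟨u, hu⟩ := (hT t).1 hz
  refine ⟨TensorProduct.piScalarRight A B B L u, ?_⟩
  rw [← T1_comm, hu]

end Pool.Agent.LibMC34
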