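import Pool.Agent.LibMC34.S1

set_option autoImplicit false

/-!
Row T2 (MC34, block P3). MEDIUM. Polynomials inside Laurent polynomials, and homogeneity of `rho`. `toLa` on monomials: `toLa (monomial β c) = single (fun i => (β i : ℤ)) c` (`MvPolynomial.aeval_monomial`, products of `single`);
then write `r = ∑ monomial`. Coefficient formula `toLa_coeff`. `toLa_surj`: define `r` from the coefficients (`Finsupp.mapDomain` with `α ↦ (α i).toNat`, or sum of monomials over the support). `rho_hom`: `MvPolynomial.IsHomogeneous` of an `eval₂Hom` whose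
values on variables are homogeneous of degree 1 and on constants of degree 0 (`MvPolynomial.IsHomogeneous.eval₂` / `.aeval`; or write `f` as a sum of monomials).
-/

namespace Pool.Agent.LibMC34

variable {τ V K B : Type} [Fintype τ] [DecidableEq τ] [CommRing K] [CommRing B]

omit [Fintype τ] in
private theorem T2_prod (s : Finset τ) (g : τ → τ → ℤ) :
    ∏ i ∈ s, (AddMonoidAlgebra.single (g i) 1 : La τ B) = AddMonoidAlgebra.single (∑ i ∈ s, g i) 1 := by
  induction s using Finset.induction_on with
  | empty => simp [AddMonoidAlgebra.one_def]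
  | insert a s ha ih =>
    rw [Finset.prod_insert ha, Finset.sum_insert ha, ih, AddMonoidAlgebra.single_mul_single, one_mul]

theorem toLa_monomial (β : τ →₀ ℕ) (c : B) :
    toLa (MvPolynomial.monomial β c) = AddMonoidAlgebra.single (fun i => (β i : ℤ)) c := by
  unfold toLa
  rw [MvPolynomial.aeval_monomial, Finsupp.prod_fintype _ _ (fun i => pow_zero _)]
  have h1 : ∀ i : τ, (AddMonoidAlgebra.single (Pi.single i 1) 1 : La τ B) ^ β i =
      AddMonoidAlgebra.single (β i • Pi.single i (1 : ℤ)) 1 := by
    intro i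
    rw [AddMonoidAlgebra.single_pow, one_pow]
  rw [Finset.prod_congr rfl (fun i _ => h1 i), T2_prod]
  have h2 : (algebraMap B (La τ B)) c = AddMonoidAlgebra.single 0 c := rfl
  rw [h2, AddMonoidAlgebra.single_mul_single, mul_one, zero_add]
  congr 1
  funext j
  rw [Finset.sum_apply, Finset.sum_eq_single j]
  · simp
  · intro i _ hij
    simp [Pi.single_eq_of_ne (Ne.symm hij)]
  · intro h
    exact absurd (Finset.mem_univ j) h

theorem toLa_C (c : B) : toLa (MvPolynomial.C c : MvPolynomial τ B) = AddMonoidAlgebra.single 0 c := by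
  have h := toLa_monomial (τ := τ) 0 c
  rw [MvPolynomial.C_apply, h]
  rfl

theorem toLa_X (x : τ) : toLa (MvPolynomial.X x : MvPolynomial τ B) = tpow x 1 := by
  unfold toLa tpow
  rw [MvPolynomial.aeval_X]

theorem toLa_coeff (r : MvPolynomial τ B) (β : τ →₀ ℕ) :
    (toLa r).coeff (fun i => (β i : ℤ)) = r.coeff β := by
  classical
  induction r using MvPolynomial.induction_on' with
  | monomial u a =>
    rw [toLa_monomial, AddMonoidAlgebra.coeff_single, Finsupp.single_apply, MvPolynomial.coeff_monomial]
    by_cases h : u = β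
    · subst h
      simp
    · rw [if_neg h, if_neg]
      intro h1
      apply h
      ext i
      exact_mod_cast congrFun h1 i
  | add p q hp hq =>
    rw [map_add, AddMonoidAlgebra.coeff_add, Finsupp.add_apply, hp, hq, MvPolynomial.coeff_add]

private theorem T2_expand (r : MvPolynomial τ B) :
    toLa r = ∑ β ∈ r.support, AddMonoidAlgebra.single (fun i => (β i : ℤ)) (r.coeff β) := by
  conv_lhs => rw [← MvPolynomial.support_sum_monomial_coeff r]
  rw [map_sum]
  exact Finset.sum_congr rfl fun β _ => toLa_monomial β _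

omit [DecidableEq τ] in
private theorem T2_single {P : (τ → ℤ) → Prop} {γ : τ → ℤ} (h : P γ) (c : B) :
    Sup P (AddMonoidAlgebra.single γ c : La τ B) := by
  classical
  intro α hα
  rw [AddMonoidAlgebra.coeff_single, Finsupp.single_apply] at hα
  by_cases h1 : γ = α
  · exact h1 ▸ h
  · rw [if_neg h1] at hα
    exact absurd rfl hα

theorem toLa_supp (r : MvPolynomial τ B) : Sup NN (toLa r) := by
  rw [T2_expand]
  exact Sup_sum _ fun β _ => T2_single (fun i => Int.natCast_nonneg _) _

theorem toLa_hom {r : MvPolynomial τ B} {n : ℕ} (h : r.IsHomogeneous n) :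
    Sup (fun α => (∀ i, 0 ≤ α i) ∧ ∑ i, α i = (n : ℤ)) (toLa r) := by
  rw [T2_expand]
  refine Sup_sum _ fun β hβ => T2_single ⟨fun i => Int.natCast_nonneg _, ?_⟩ _
  have h1 := h.degree_eq_sum_deg_support hβ
  have h2 : ∑ i ∈ β.support, β i = ∑ i, β i := Finset.sum_subset (Finset.subset_univ _) (by
    intro i _ hi
    exact Finsupp.notMem_support_iff.1 hi)
  rw [h1, h2]
  push_cast
  rfl

theorem toLa_inj : Function.Injective (toLa : MvPolynomial τ B →ₐ[B] La τ B) := by
  intro r r' h
  ext β
  rw [← toLa_coeff, ← toLa_coeff, h]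

theorem toLa_surj {f : La τ B} (hf : Sup NN f) : ∃ r : MvPolynomial τ B, toLa r = f := by
  refine ⟨∑ α ∈ f.coeff.support, MvPolynomial.monomial
    (Finsupp.equivFunOnFinite.symm (fun i => (α i).toNat)) (f.coeff α), ?_⟩
  rw [map_sum]
  conv_rhs => rw [← AddMonoidAlgebra.sum_coeff_single f]
  unfold Finsupp.sum
  refine Finset.sum_congr rfl fun α hα => ?_
  rw [toLa_monomial]
  congr 1
  funext i
  have h1 : 0 ≤ α i := hf α (Finsupp.mem_support_iff.1 hα) i
  simp [Int.toNat_of_nonneg h1]

theorem rho_hom {f : MvPolynomial (τ ⊕ V) K} {n : ℕ} (h : f.IsHomogeneous n) :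
    (rho f : MvPolynomial τ (MvPolynomial (V × τ) K)).IsHomogeneous n := by
  unfold rho
  have h1 := h.eval₂ (n := 1) (MvPolynomial.C.comp MvPolynomial.C : K →+* MvPolynomial τ (MvPolynomial (V × τ) K))
    (Sum.elim (fun x => MvPolynomial.X x) (fun i => ∑ x, MvPolynomial.C (MvPolynomial.X (i, x)) * MvPolynomial.X x))
    (fun r => by
      rw [RingHom.comp_apply]
      exact MvPolynomial.isHomogeneous_C _ _)
    (fun i => by
      rcases i with x | i
      · exact MvPolynomial.isHomogeneous_X _ _
      · refine MvPolynomial.IsHomogeneous.sum _ _ _ fun x _ => ?_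
        have h2 := (MvPolynomial.isHomogeneous_C τ (MvPolynomial.X (i, x) : MvPolynomial (V × τ) K)).mul
          (MvPolynomial.isHomogeneous_X (MvPolynomial (V × τ) K) x)
        rwa [zero_add] at h2)
  rw [one_mul] at h1
  exact h1

theorem rho_C (c : K) : (rho (MvPolynomial.C c : MvPolynomial (τ ⊕ V) K)) = MvPolynomial.C (MvPolynomial.C c) := by
  unfold rho
  rw [MvPolynomial.eval₂Hom_C, RingHom.comp_apply]

end Pool.Agent.LibMC34
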