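import Pool.Agent.LibMC34.SDefs

set_option autoImplicit false

/-!
Row T3a (MC34, block P3). MEDIUM. `rho0 x : u_y ↦ t_y, eps_i ↦ g_{i,x}` is flat: `R = MvPolynomial τ (MvPolynomial (V × τ) K)` is, through `rho0 x`, a polynomial ring over `S = MvPolynomial (τ ⊕ V) K` in the variables `g_{i,y}`, `y ≠ x`.
Plan: the ring isomorphism `e : MvPolynomial (V × {y : τ // y ≠ x}) S ≃+* R`: both are `MvPolynomial` over `K` in variables indexed by equivalent types (`MvPolynomial.sumRingEquiv`, `renameEquiv`, `Equiv` between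
`(V × {y // y ≠ x}) ⊕ (τ ⊕ V)` and `τ ⊕ (V × τ)`), or define both directions by `eval₂Hom` and check on variables (`MvPolynomial.ringHom_ext`). Then `rho0 x = e ∘ C`; `C : S → MvPolynomial _ S` is flat (free module), `RingHom.Flat.comp`,
`RingHom.Flat.of_bijective`.
-/

namespace Pool.Agent.LibMC34

variable {τ V K : Type} [Fintype τ] [DecidableEq τ] [CommRing K]

/-- `u_y ↦ t_y`, `eps_i ↦ g_{i,x}` -/
noncomputable def rho0 (x : τ) : MvPolynomial (τ ⊕ V) K →+* MvPolynomial τ (MvPolynomial (V × τ) K) :=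
  MvPolynomial.eval₂Hom (MvPolynomial.C.comp MvPolynomial.C)
    (Sum.elim (fun y => MvPolynomial.X y) (fun i => MvPolynomial.C (MvPolynomial.X (i, x))))

private noncomputable def T3a_eq (x : τ) : (V × {y : τ // y ≠ x}) ⊕ (τ ⊕ V) ≃ τ ⊕ (V × τ) where
  toFun := Sum.elim (fun p => Sum.inr (p.1, p.2.1))
    (Sum.elim (fun y => Sum.inl y) (fun i => Sum.inr (i, x)))
  invFun := Sum.elim (fun y => Sum.inr (Sum.inl y))
    (fun p => if h : p.2 = x then Sum.inr (Sum.inr p.1) else Sum.inl (p.1, ⟨p.2, h⟩))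
  left_inv := by
    rintro (⟨i, y, hy⟩ | y | i)
    · simp [hy]
    · simp
    · simp
  right_inv := by
    rintro (y | ⟨i, y⟩)
    · simp
    · by_cases h : y = x
      · subst h
        simp
      · simp [h]

private noncomputable def T3a_e (x : τ) :
    MvPolynomial (V × {y : τ // y ≠ x}) (MvPolynomial (τ ⊕ V) K) ≃+*
      MvPolynomial τ (MvPolynomial (V × τ) K) :=
  (MvPolynomial.sumRingEquiv K (V × {y : τ // y ≠ x}) (τ ⊕ V)).symm.trans
    ((MvPolynomial.renameEquiv K (T3a_eq (V := V) x)).toRingEquiv.trans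
      (MvPolynomial.sumRingEquiv K τ (V × τ)))

private theorem T3a_comp (x : τ) :
    (rho0 x : MvPolynomial (τ ⊕ V) K →+* MvPolynomial τ (MvPolynomial (V × τ) K)) =
      ((T3a_e (V := V) (K := K) x).toRingHom).comp MvPolynomial.C := by
  apply MvPolynomial.ringHom_ext
  · intro a
    simp [rho0, T3a_e, T3a_eq]
  · rintro (y | i)
    · simp [rho0, T3a_e, T3a_eq]
    · simp [rho0, T3a_e, T3a_eq]

theorem rho0_flat (x : τ) : (rho0 x : MvPolynomial (τ ⊕ V) K →+* MvPolynomial τ (MvPolynomial (V × τ) K)).Flat := by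
  rw [T3a_comp]
  refine RingHom.Flat.comp ?_ (RingHom.Flat.of_bijective (T3a_e (V := V) (K := K) x).bijective)
  have h : (algebraMap (MvPolynomial (τ ⊕ V) K)
      (MvPolynomial (V × {y : τ // y ≠ x}) (MvPolynomial (τ ⊕ V) K))).Flat := by
    rw [RingHom.flat_algebraMap_iff]
    infer_instance
  exact h

end Pool.Agent.LibMC34
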