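import Pool.Agent.LibMC34.T3a

set_option autoImplicit false

/-!
Row T3b (MC34, block P3). MEDIUM. After inverting `t_x` the map `rho` is flat. `R := MvPolynomial τ (MvPolynomial (V × τ) K)`, `Rx := Localization.Away (X x : R)`. Ring endomorphisms of `Rx` (lifts of `eval₂Hom` by `IsLocalization.Away.lift`, fixing `K` and all `t_y`):
`Psi : g_{i,x} ↦ ∑_y g_{i,y} t_y`, `g_{i,y} ↦ g_{i,y}` (`y ≠ x`) and `Phi : g_{i,x} ↦ t_x⁻¹ (g_{i,x} - ∑_{y ≠ x} g_{i,y} t_y)`, `g_{i,y} ↦ g_{i,y}`; they are inverse to each other (check on variables), so `Psi` is bijective, and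
`algebraMap ∘ rho = Psi ∘ algebraMap ∘ rho0 x` (check on variables: `eps_i ↦ Psi (g_{i,x}) = ∑ g_{i,y} t_y`). Flat: `rho0_flat`, localization (`IsLocalization.flat`), `RingHom.Flat.comp`, `RingHom.Flat.of_bijective`.
-/

namespace Pool.Agent.LibMC34

variable {τ V K : Type} [Fintype τ] [DecidableEq τ] [CommRing K]

section T3b

set_option linter.unusedSectionVars false

variable (τ V K) in
/-- the polynomial ring -/
private abbrev RR := MvPolynomial τ (MvPolynomial (V × τ) K)

variable (V K) in
/-- the localization at `t_x` -/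
private abbrev Rx (x : τ) := Localization.Away (MvPolynomial.X x : RR τ V K)

private noncomputable abbrev aa (x : τ) : RR τ V K →+* Rx V K x := algebraMap _ _

/-- the endomorphism given on `g_{i,x}` by `f i` -/
private noncomputable def E0 (x : τ) (f : V → Rx V K x) : RR τ V K →+* Rx V K x :=
  MvPolynomial.eval₂Hom
    (MvPolynomial.eval₂Hom ((aa x).comp (MvPolynomial.C.comp MvPolynomial.C))
      (fun q : V × τ => if q.2 = x then f q.1 else aa x (MvPolynomial.C (MvPolynomial.X q))))
    (fun y => aa x (MvPolynomial.X y))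

private theorem E0_X (x : τ) (f : V → Rx V K x) (y : τ) :
    E0 x f (MvPolynomial.X y) = aa x (MvPolynomial.X y) := by
  simp [E0]

private theorem E0_CC (x : τ) (f : V → Rx V K x) (c : K) :
    E0 x f (MvPolynomial.C (MvPolynomial.C c)) = aa x (MvPolynomial.C (MvPolynomial.C c)) := by
  simp [E0]

private theorem E0_C_same (x : τ) (f : V → Rx V K x) (i : V) :
    E0 x f (MvPolynomial.C (MvPolynomial.X (i, x))) = f i := by
  simp [E0]

private theorem E0_C_ne (x : τ) (f : V → Rx V K x) (i : V) (y : τ) (h : y ≠ x) :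
    E0 x f (MvPolynomial.C (MvPolynomial.X (i, y))) = aa x (MvPolynomial.C (MvPolynomial.X (i, y))) := by
  simp [E0, h]

private theorem E0_unit (x : τ) (f : V → Rx V K x) : IsUnit (E0 x f (MvPolynomial.X x)) := by
  rw [E0_X]
  exact IsLocalization.Away.algebraMap_isUnit _

private noncomputable def E1 (x : τ) (f : V → Rx V K x) : Rx V K x →+* Rx V K x :=
  IsLocalization.Away.lift (MvPolynomial.X x : RR τ V K) (E0_unit x f)

private theorem E1_aa (x : τ) (f : V → Rx V K x) (r : RR τ V K) : E1 x f (aa x r) = E0 x f r := by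
  unfold E1
  exact IsLocalization.Away.lift_eq _ _ _

/-- two endomorphisms of `Rx` which agree on constants and variables are equal -/
private theorem Rx_ext (x : τ) {P : Type} [CommRing P] (F G : Rx V K x →+* P)
    (hC : ∀ c : K, F (aa x (MvPolynomial.C (MvPolynomial.C c))) = G (aa x (MvPolynomial.C (MvPolynomial.C c))))
    (hX : ∀ y : τ, F (aa x (MvPolynomial.X y)) = G (aa x (MvPolynomial.X y)))
    (hg : ∀ (i : V) (y : τ), F (aa x (MvPolynomial.C (MvPolynomial.X (i, y)))) =
      G (aa x (MvPolynomial.C (MvPolynomial.X (i, y))))) : F = G := by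
  apply IsLocalization.ringHom_ext (Submonoid.powers (MvPolynomial.X x : RR τ V K))
  apply MvPolynomial.ringHom_ext
  · intro p
    have h : ((F.comp (aa x)).comp (MvPolynomial.C : MvPolynomial (V × τ) K →+* RR τ V K)) =
        ((G.comp (aa x)).comp MvPolynomial.C) := by
      apply MvPolynomial.ringHom_ext
      · intro c
        exact hC c
      · rintro ⟨i, y⟩
        exact hg i y
    exact congrArg (fun T => T p) h
  · intro y
    exact hX y

private noncomputable def tinv (x : τ) : Rx V K x :=
  IsLocalization.Away.invSelf (MvPolynomial.X x : RR τ V K)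

private theorem mul_tinv (x : τ) : (aa x (MvPolynomial.X x) : Rx V K x) * tinv x = 1 :=
  IsLocalization.Away.mul_invSelf _

private noncomputable def fPsi (x : τ) (i : V) : Rx V K x :=
  ∑ y : τ, aa x (MvPolynomial.C (MvPolynomial.X (i, y))) * aa x (MvPolynomial.X y)

private noncomputable def fPhi (x : τ) (i : V) : Rx V K x :=
  tinv x * (aa x (MvPolynomial.C (MvPolynomial.X (i, x))) -
    ∑ y ∈ Finset.univ.erase x, aa x (MvPolynomial.C (MvPolynomial.X (i, y))) * aa x (MvPolynomial.X y))

private theorem fPsi_split (x : τ) (i : V) :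
    (fPsi x i : Rx V K x) = aa x (MvPolynomial.C (MvPolynomial.X (i, x))) * aa x (MvPolynomial.X x) +
      ∑ y ∈ Finset.univ.erase x, aa x (MvPolynomial.C (MvPolynomial.X (i, y))) * aa x (MvPolynomial.X y) := by
  unfold fPsi
  exact (Finset.add_sum_erase Finset.univ
    (fun y => (aa x (MvPolynomial.C (MvPolynomial.X (i, y))) * aa x (MvPolynomial.X y) : Rx V K x))
    (Finset.mem_univ x)).symm

private theorem E1_erase (x : τ) (f : V → Rx V K x) (i : V) :
    E1 x f (∑ y ∈ Finset.univ.erase x, aa x (MvPolynomial.C (MvPolynomial.X (i, y))) * aa x (MvPolynomial.X y)) =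
      ∑ y ∈ Finset.univ.erase x, aa x (MvPolynomial.C (MvPolynomial.X (i, y))) * aa x (MvPolynomial.X y) := by
  rw [map_sum]
  refine Finset.sum_congr rfl fun y hy => ?_
  rw [map_mul, E1_aa, E1_aa, E0_X, E0_C_ne x f i y (Finset.ne_of_mem_erase hy)]

private theorem Psi_Phi (x : τ) : (E1 x (fPsi x)).comp (E1 x (fPhi x)) = RingHom.id (Rx V K x) := by
  apply Rx_ext x
  · intro c
    rw [RingHom.comp_apply, E1_aa, E0_CC, E1_aa, E0_CC, RingHom.id_apply]
  · intro y
    rw [RingHom.comp_apply, E1_aa, E0_X, E1_aa, E0_X, RingHom.id_apply]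
  · intro i y
    rw [RingHom.comp_apply, E1_aa, RingHom.id_apply]
    by_cases h : y = x
    · subst h
      rw [E0_C_same]
      have h1 : (aa y (MvPolynomial.X y) : Rx V K y) * E1 y (fPsi y) (tinv y) = 1 := by
        have := congrArg (E1 y (fPsi y)) (mul_tinv (V := V) (K := K) y)
        rwa [map_mul, E1_aa, E0_X, map_one] at this
      unfold fPhi
      rw [map_mul, map_sub, E1_aa, E0_C_same, E1_erase, fPsi_split]
      calc _ = (aa y (MvPolynomial.X y) * E1 y (fPsi y) (tinv y)) *
            aa y (MvPolynomial.C (MvPolynomial.X (i, y))) := by ring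
        _ = _ := by rw [h1, one_mul]
    · rw [E0_C_ne x _ i y h, E1_aa, E0_C_ne x _ i y h]

private theorem Phi_Psi (x : τ) : (E1 x (fPhi x)).comp (E1 x (fPsi x)) = RingHom.id (Rx V K x) := by
  apply Rx_ext x
  · intro c
    rw [RingHom.comp_apply, E1_aa, E0_CC, E1_aa, E0_CC, RingHom.id_apply]
  · intro y
    rw [RingHom.comp_apply, E1_aa, E0_X, E1_aa, E0_X, RingHom.id_apply]
  · intro i y
    rw [RingHom.comp_apply, E1_aa, RingHom.id_apply]
    by_cases h : y = x
    · subst h
      rw [E0_C_same, fPsi_split, map_add, map_mul, E1_erase, E1_aa, E1_aa, E0_X, E0_C_same]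
      unfold fPhi
      calc _ = (aa y (MvPolynomial.X y) * tinv y) *
            (aa y (MvPolynomial.C (MvPolynomial.X (i, y))) -
              ∑ z ∈ Finset.univ.erase y, aa y (MvPolynomial.C (MvPolynomial.X (i, z))) *
                aa y (MvPolynomial.X z)) +
            ∑ z ∈ Finset.univ.erase y, aa y (MvPolynomial.C (MvPolynomial.X (i, z))) *
              aa y (MvPolynomial.X z) := by ring
        _ = _ := by rw [mul_tinv, one_mul, sub_add_cancel]
    · rw [E0_C_ne x _ i y h, E1_aa, E0_C_ne x _ i y h]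

private theorem Psi_bij (x : τ) : Function.Bijective (E1 x (fPsi x) : Rx V K x →+* Rx V K x) := by
  constructor
  · intro a b hab
    have := congrArg (E1 x (fPhi x)) hab
    rw [← RingHom.comp_apply, ← RingHom.comp_apply, Phi_Psi] at this
    exact this
  · intro b
    refine ⟨E1 x (fPhi x) b, ?_⟩
    rw [← RingHom.comp_apply, Psi_Phi, RingHom.id_apply]

private theorem factor (x : τ) :
    (aa x).comp (rho : MvPolynomial (τ ⊕ V) K →+* RR τ V K) =
      (E1 x (fPsi x)).comp ((aa x).comp (rho0 x)) := by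
  apply MvPolynomial.ringHom_ext
  · intro c
    rw [RingHom.comp_apply, RingHom.comp_apply, RingHom.comp_apply, E1_aa]
    simp [rho, rho0, E0_CC]
  · rintro (y | i)
    · rw [RingHom.comp_apply, RingHom.comp_apply, RingHom.comp_apply, E1_aa]
      simp [rho, rho0, E0_X]
    · rw [RingHom.comp_apply, RingHom.comp_apply, RingHom.comp_apply, E1_aa]
      simp [rho, rho0, E0_C_same, fPsi]

end T3b

theorem rho_flat (x : τ) :
    ((algebraMap (MvPolynomial τ (MvPolynomial (V × τ) K))
      (Localization.Away (MvPolynomial.X x : MvPolynomial τ (MvPolynomial (V × τ) K)))).comp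
      (rho : MvPolynomial (τ ⊕ V) K →+* MvPolynomial τ (MvPolynomial (V × τ) K))).Flat := by
  have h1 : (algebraMap (RR τ V K) (Rx V K x)).Flat := by
    rw [RingHom.flat_algebraMap_iff]
    exact IsLocalization.flat _ (Submonoid.powers (MvPolynomial.X x : RR τ V K))
  have h2 := RingHom.Flat.comp (rho0_flat (V := V) (K := K) x) h1
  have h3 := RingHom.Flat.comp h2 (RingHom.Flat.of_bijective (Psi_bij (V := V) (K := K) x))
  rw [← factor] at h3
  exact h3

end Pool.Agent.LibMC34
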