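import Pool.Agent.LibMC34.T3b
import Pool.Agent.LibMC34.T1

set_option autoImplicit false

/-!
Row T3c (MC34, block P3). SHORT/MEDIUM. From flatness to cycles. `A := MvPolynomial (τ ⊕ V) K`, `Rx := Localization.Away (X x)`, `Algebra A Rx` by `RingHom.toAlgebra` of the composite of `rho_flat`; `flat_exact` (row T1) with `M1 = F.φ j`, `M2 = F.φ (j+1)` (`F.comp`, `F.exact`), applied to the image of `z` in `Rx`.
Then clear denominators: `IsLocalization.Away` / `IsLocalization.exist_integer_multiples`: `y = y0 / X x ^ a`, and an equation in `Rx` between images of elements of `R` holds in `R` after multiplication with a power of `X x` (`IsLocalization.eq_iff_exists`); finitely many coordinates: take the maximum of the powers.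
-/

namespace Pool.Agent.LibMC34

variable {τ V K : Type} [Fintype τ] [DecidableEq τ] [CommRing K]

private theorem T3c_gen {A R : Type} [CommRing A] [CommRing R] (ρ : A →+* R) (t : R)
    (hflat : ((algebraMap R (Localization.Away t)).comp ρ).Flat) {I J L : Type} [Fintype I] [Fintype J] [Fintype L]
    (M1 : Matrix I J A) (M2 : Matrix J L A) (h12 : M1 * M2 = 0)
    (hex : ∀ z : J → A, M1.mulVec z = 0 → ∃ y : L → A, M2.mulVec y = z) (z : J → R)
    (hz : (M1.map ρ).mulVec z = 0) :
    ∃ (a : ℕ) (y : L → R), (M2.map ρ).mulVec y = fun b => t ^ a * z b := by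
  classical
  let _ : Algebra A (Localization.Away t) := ((algebraMap R (Localization.Away t)).comp ρ).toAlgebra
  have _ : Module.Flat A (Localization.Away t) := hflat
  have hz' : (M1.map (algebraMap A (Localization.Away t))).mulVec
      (fun b => algebraMap R (Localization.Away t) (z b)) = 0 := by
    funext i
    have h1 := RingHom.map_mulVec (algebraMap R (Localization.Away t)) (M1.map ρ) z i
    rw [hz, Pi.zero_apply, map_zero] at h1
    exact h1.symm
  obtain ⟨y, hy⟩ := flat_exact M1 M2 h12 hex (fun b => algebraMap R (Localization.Away t) (z b)) hz'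
  obtain ⟨⟨b, n0, hb⟩, hint⟩ := IsLocalization.exist_integer_multiples_of_finite (Submonoid.powers t) y
  have hb' : t ^ n0 = b := hb
  have hint' : ∀ c, ∃ r : R, algebraMap R (Localization.Away t) r = algebraMap R (Localization.Away t) (t ^ n0) * y c := by
    intro c
    obtain ⟨r, hr⟩ := hint c
    refine ⟨r, ?_⟩
    rw [hr, hb']
    exact Algebra.smul_def b (y c)
  choose y0 hy0 using hint'
  have key : ∀ j, algebraMap R (Localization.Away t) (((M2.map ρ).mulVec y0) j) =
      algebraMap R (Localization.Away t) (t ^ n0 * z j) := by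
    intro j
    rw [RingHom.map_mulVec, map_mul]
    have h2 : (algebraMap R (Localization.Away t) : R → Localization.Away t) ∘ y0 =
        algebraMap R (Localization.Away t) (t ^ n0) • y := by
      funext c
      exact hy0 c
    rw [h2, Matrix.mulVec_smul, Pi.smul_apply, smul_eq_mul]
    congr 1
    exact congrFun hy j
  have hex' : ∀ j, ∃ n : ℕ, t ^ n * ((M2.map ρ).mulVec y0) j = t ^ n * (t ^ n0 * z j) := by
    intro j
    obtain ⟨⟨c, n, hc⟩, h3⟩ := (IsLocalization.eq_iff_exists (Submonoid.powers t) (Localization.Away t)).1 (key j)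
    have hc' : t ^ n = c := hc
    refine ⟨n, ?_⟩
    rw [hc']
    exact h3
  choose n hn using hex'
  refine ⟨Finset.univ.sup n + n0, t ^ Finset.univ.sup n • y0, ?_⟩
  funext j
  rw [Matrix.mulVec_smul, Pi.smul_apply, smul_eq_mul]
  have h4 : n j ≤ Finset.univ.sup n := Finset.le_sup (Finset.mem_univ j)
  obtain ⟨r, hr⟩ := Nat.exists_eq_add_of_le h4
  rw [hr, pow_add, mul_comm (t ^ n j), mul_assoc, hn j, pow_add, pow_add]
  ring

theorem rho_cycle (F : GCx (τ ⊕ V) K) (x : τ) (j : ℕ)
    (z : F.ix (j + 1) → MvPolynomial τ (MvPolynomial (V × τ) K)) (hz : ((F.φ j).map rho).mulVec z = 0) :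
    ∃ (a : ℕ) (y : F.ix (j + 2) → MvPolynomial τ (MvPolynomial (V × τ) K)),
      ((F.φ (j + 1)).map rho).mulVec y = fun b => MvPolynomial.X x ^ a * z b :=
  T3c_gen rho (MvPolynomial.X x) (rho_flat x) (F.φ j) (F.φ (j + 1)) (F.comp j) (F.exact j) z hz

end Pool.Agent.LibMC34
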