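import Pool.Agent.LibMC34.T2
import Pool.Agent.LibMC34.T3c

set_option autoImplicit false

/-!
Row T4 (MC34, block P3). SHORT/MEDIUM. The Laurent complex of a graded complex (fill the proofs `LF_supp`, `LF_comp`, `LF_ex`; the definition `LF` is ready). `LF_supp`: `F.hom`, `F.hom0`, `rho_hom`, `toLa_hom`. `LF_comp`: ring homomorphisms preserve matrix products (`Matrix.map_mul`), `F.comp`.
`LF_ex`: write `z b = toLa (r b)` (`toLa_surj`), `toLa_inj` turns the equation into `((F.φ j).map rho).mulVec r = 0`, then `rho_cycle` and apply `toLa` (`toLa_X`, `tpow` powers).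
-/

namespace Pool.Agent.LibMC34

variable {τ V K : Type} [Fintype τ] [DecidableEq τ] [CommRing K]

/-- the ring homomorphism `S → La` -/
noncomputable def rhoL : MvPolynomial (τ ⊕ V) K →+* La τ (MvPolynomial (V × τ) K) :=
  (toLa : MvPolynomial τ (MvPolynomial (V × τ) K) →ₐ[MvPolynomial (V × τ) K] La τ (MvPolynomial (V × τ) K)).toRingHom.comp rho

private theorem T4_rhoL (f : MvPolynomial (τ ⊕ V) K) :
    (rhoL f : La τ (MvPolynomial (V × τ) K)) = toLa (rho f) := rfl

private theorem T4_tpow {B : Type} [CommRing B] (x : τ) (a : ℕ) :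
    (tpow x 1 : La τ B) ^ a = tpow x (a : ℤ) := by
  induction a with
  | zero => rw [pow_zero, Nat.cast_zero, tpow_zero]
  | succ a ih => rw [pow_succ, ih, tpow_mul_tpow, Nat.cast_succ]

private theorem T4_mulVec {I J : Type} [Fintype J] (M : Matrix I J (MvPolynomial (τ ⊕ V) K))
    (r : J → MvPolynomial τ (MvPolynomial (V × τ) K)) (a : I) :
    (M.map (rhoL (τ := τ))).mulVec (fun b => toLa (r b)) a = toLa ((M.map rho).mulVec r a) := by
  simp only [Matrix.mulVec, dotProduct, Matrix.map_apply, T4_rhoL, map_sum, map_mul]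

theorem LF_supp (F : GCx (τ ⊕ V) K) (j : ℕ) (a : F.ix j) (b : F.ix (j + 1)) :
    Sup (fun α => (∀ i, 0 ≤ α i) ∧ ∑ i, α i + F.e j a = F.e (j + 1) b) (((F.φ j).map rhoL) a b) := by
  rw [Matrix.map_apply, T4_rhoL]
  rcases Nat.lt_or_ge (F.e (j + 1) b) (F.e j a) with h | h
  · rw [F.hom0 j a b h, map_zero, map_zero]
    exact Sup_zero _
  · refine Sup_mono (fun α hα => ?_) (toLa_hom (rho_hom (F.hom j a b h)))
    refine ⟨hα.1, ?_⟩
    rw [hα.2, Nat.cast_sub h]
    ring

theorem LF_comp (F : GCx (τ ⊕ V) K) (j : ℕ) : ((F.φ j).map (rhoL (τ := τ))) * ((F.φ (j + 1)).map rhoL) = 0 := by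
  rw [← Matrix.map_mul, F.comp, Matrix.map_zero _ (map_zero _)]

theorem LF_ex (F : GCx (τ ⊕ V) K) (x : τ) (j : ℕ) (z : F.ix (j + 1) → La τ (MvPolynomial (V × τ) K))
    (hz : ∀ b, Sup NN (z b)) (h : ((F.φ j).map rhoL).mulVec z = 0) :
    ∃ (a : ℕ) (y : F.ix (j + 2) → La τ (MvPolynomial (V × τ) K)), (∀ c, Sup NN (y c)) ∧
      ((F.φ (j + 1)).map rhoL).mulVec y = fun b => tpow x (a : ℤ) * z b := by
  choose r hr using fun b => toLa_surj (hz b)
  have hz' : z = fun b => toLa (r b) := by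
    funext b
    exact (hr b).symm
  have h1 : ((F.φ j).map rho).mulVec r = 0 := by
    funext a
    have h2 := congrFun h a
    rw [hz', T4_mulVec] at h2
    rw [Pi.zero_apply] at h2 ⊢
    exact toLa_inj (h2.trans (map_zero _).symm)
  obtain ⟨a, y, hy⟩ := rho_cycle F x j r h1
  refine ⟨a, fun c => toLa (y c), fun c => toLa_supp _, ?_⟩
  funext b
  rw [T4_mulVec, hy, map_mul, map_pow, toLa_X, T4_tpow, hr]

/-- the Laurent complex of a graded complex -/
noncomputable def LF (F : GCx (τ ⊕ V) K) : LCx τ (MvPolynomial (V × τ) K) where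
  ix := F.ix
  fin := F.fin
  e := F.e
  G := fun j => (F.φ j).map rhoL
  supp := fun j a b => LF_supp F j a b
  comp := LF_comp F
  ex := LF_ex F

end Pool.Agent.LibMC34
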