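import Pool.Agent.LibMC34.SDefs

set_option autoImplicit false

/-! Definitions for the rows T5 - T7 (MC34, block P3): the strand of degree 1 with nonnegative exponents. -/

namespace Pool.Agent.LibMC34

section
variable {D K : Type} [CommRing K] (F : GCx D K)

/-- the generators of degree 1 -/
abbrev ix1 (j : ℕ) := {b : F.ix j // F.e j b = 1}

noncomputable instance (j : ℕ) : Fintype (ix1 F j) := Fintype.ofFinite _

/-- the constant matrices of the strand -/
noncomputable def cst (j : ℕ) : Matrix (ix1 F j) (ix1 F (j + 1)) K := fun a b => (F.φ j a b).coeff 0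

/-- the generator `b` of the ideal as a vector of coefficients -/
noncomputable def lin (b : ix1 F 1) (x : D) : K := (F.φ 0 default b).coeff (Finsupp.single x 1)

end

section
variable {τ V K : Type} [Fintype τ] [DecidableEq τ] [Fintype V] [CommRing K]

/-- the linear form `f` after the substitution `eps_i = ∑ g_{i,x} t_x` -/
noncomputable def lam (f : τ ⊕ V → K) : τ → MvPolynomial (V × τ) K := fun x =>
  MvPolynomial.C (f (Sum.inl x)) + ∑ i, MvPolynomial.C (f (Sum.inr i)) * MvPolynomial.X (i, x)

/-- the strand at position `j + 1` -/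
noncomputable def emb (F : GCx (τ ⊕ V) K) (j : ℕ) (β : ix1 F (j + 1) → MvPolynomial (V × τ) K) :
    F.ix (j + 1) → La τ (MvPolynomial (V × τ) K) := by
  classical
  exact fun b => if h : F.e (j + 1) b = 1 then AddMonoidAlgebra.single 0 (β ⟨b, h⟩) else 0

/-- the strand at position `0` -/
noncomputable def emb0 (F : GCx (τ ⊕ V) K) (c : τ → MvPolynomial (V × τ) K) :
    F.ix 0 → La τ (MvPolynomial (V × τ) K) :=
  fun _ => ∑ x, AddMonoidAlgebra.single (Pi.single x 1) (c x)

end

end Pool.Agent.LibMC34
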