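import Pool.Agent.LibMC34.D1

set_option autoImplicit false

/-! MP_ed98ad, block Z: the functional `tau` on `R[x]/(D)` and the module of relations. -/

namespace Pool.Agent.LibMC34

open Polynomial

section
variable {R : Type} [CommRing R] {D : R[X]}

/-- coefficient number `l` of the representative of degree less than the degree of `D` -/
noncomputable def cf (hD : D.Monic) (l : ℕ) : AdjoinRoot D →ₗ[R] R :=
  (Polynomial.lcoeff R l) ∘ₗ (AdjoinRoot.modByMonicHom hD)

theorem cf_mk (hD : D.Monic) (l : ℕ) (f : R[X]) : cf hD l (AdjoinRoot.mk D f) = (f %ₘ D).coeff l := rfl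

theorem cf_root (hD : D.Monic) (m : ℕ) (hm : D.natDegree = m) (l : ℕ) (hl : l + 1 < m) (y : AdjoinRoot D) :
    cf hD (l + 1) (AdjoinRoot.root D * y) = cf hD l y - D.coeff (l + 1) * cf hD (m - 1) y := by
  nontriviality R
  induction y using AdjoinRoot.induction_on with
  | ih f =>
    have h0 : AdjoinRoot.mk D f = AdjoinRoot.mk D (f %ₘ D) := by
      rw [AdjoinRoot.mk_eq_mk, Polynomial.modByMonic_eq_sub_mul_div, sub_sub_cancel]
      exact dvd_mul_right _ _
    set r := f %ₘ D with hr
    have hrd : r.degree < D.degree := Polynomial.degree_modByMonic_lt f hD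
    have hrr : r %ₘ D = r := (Polynomial.modByMonic_eq_self_iff hD).2 hrd
    rw [h0, ← AdjoinRoot.mk_X, ← map_mul, cf_mk, cf_mk, cf_mk, hrr]
    have hdeg : D.degree = (m : ℕ) := by rw [Polynomial.degree_eq_natDegree hD.ne_zero, hm]
    have h1 : (X * r - C (r.coeff (m - 1)) * D).degree < D.degree := by
      rw [hdeg, Polynomial.degree_lt_iff_coeff_zero]
      intro n hn
      obtain ⟨n', rfl⟩ : ∃ n', n = n' + 1 := ⟨n - 1, by omega⟩
      rw [Polynomial.coeff_sub, Polynomial.coeff_X_mul, Polynomial.coeff_C_mul]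
      rcases Nat.eq_or_lt_of_le hn with h | h
      · have h2 : n' = m - 1 := by omega
        have h3 : D.coeff (n' + 1) = 1 := by
          rw [← h, ← hm]; exact hD
        rw [h3, h2, mul_one, sub_self]
      · have h2 : r.coeff n' = 0 := by
          apply Polynomial.coeff_eq_zero_of_degree_lt
          refine lt_of_lt_of_le hrd ?_
          rw [hdeg]
          exact_mod_cast (by omega : m ≤ n')
        have h3 : D.coeff (n' + 1) = 0 := by
          apply Polynomial.coeff_eq_zero_of_degree_lt
          rw [hdeg]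
          exact_mod_cast h
        rw [h2, h3, mul_zero, sub_zero]
    have h4 : (X * r) %ₘ D = X * r - C (r.coeff (m - 1)) * D := by
      have h5 := (Polynomial.div_modByMonic_unique (f := X * r) (C (r.coeff (m - 1))) (X * r - C (r.coeff (m - 1)) * D) hD
        ⟨by ring, h1⟩).2
      exact h5
    rw [h4, Polynomial.coeff_sub, Polynomial.coeff_X_mul, Polynomial.coeff_C_mul]
    ring

theorem exists_dual (hD : D.Monic) (m : ℕ) (hm : D.natDegree = m) :
    ∃ e : ℕ → AdjoinRoot D, ∀ l < m, ∀ y, cf hD l y = cf hD (m - 1) (e l * y) := by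
  have key : ∀ d l : ℕ, l + d + 1 = m → ∃ e : AdjoinRoot D, ∀ y, cf hD l y = cf hD (m - 1) (e * y) := by
    intro d
    induction d with
    | zero =>
      intro l hl
      refine ⟨1, fun y => ?_⟩
      rw [one_mul]
      congr 2
      omega
    | succ d ih =>
      intro l hl
      obtain ⟨e, he⟩ := ih (l + 1) (by omega)
      refine ⟨e * AdjoinRoot.root D + algebraMap R _ (D.coeff (l + 1)), fun y => ?_⟩
      have h1 := cf_root hD m hm l (by omega) y
      rw [he] at h1
      have h2 : (e * AdjoinRoot.root D + algebraMap R _ (D.coeff (l + 1))) * y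
          = e * (AdjoinRoot.root D * y) + (D.coeff (l + 1)) • y := by
        rw [Algebra.smul_def]; ring
      rw [h2, map_add, h1, map_smul, smul_eq_mul]
      ring
  have h3 : ∀ l : ℕ, ∃ e : AdjoinRoot D, l < m → ∀ y, cf hD l y = cf hD (m - 1) (e * y) := by
    intro l
    by_cases hl : l < m
    · obtain ⟨e, he⟩ := key (m - 1 - l) l (by omega)
      exact ⟨e, fun _ => he⟩
    · exact ⟨0, fun h => absurd h hl⟩
  choose e he using h3
  exact ⟨e, he⟩

theorem eq_zero_of_cf (hD : D.Monic) (m : ℕ) (hm : D.natDegree = m) (y : AdjoinRoot D) (h : ∀ l < m, cf hD l y = 0) : y = 0 := by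
  rcases subsingleton_or_nontrivial R with hR | hR
  · exact (Module.subsingleton R (AdjoinRoot D)).elim _ _
  induction y using AdjoinRoot.induction_on with
  | ih f =>
    have h1 : f %ₘ D = 0 := by
      ext n
      rw [Polynomial.coeff_zero]
      by_cases hn : n < m
      · exact h n hn
      · apply Polynomial.coeff_eq_zero_of_degree_lt
        refine lt_of_lt_of_le (Polynomial.degree_modByMonic_lt f hD) ?_
        rw [Polynomial.degree_eq_natDegree hD.ne_zero, hm]
        exact_mod_cast (not_lt.1 hn)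
    rw [AdjoinRoot.mk_eq_zero]
    exact (Polynomial.modByMonic_eq_zero_iff_dvd hD).1 h1

theorem tau_injective (hD : D.Monic) (m : ℕ) (hm : D.natDegree = m) (b : AdjoinRoot D)
    (h : ∀ y, cf hD (m - 1) (b * y) = 0) : b = 0 := by
  obtain ⟨e, he⟩ := exists_dual hD m hm
  apply eq_zero_of_cf hD m hm
  intro l hl
  rw [he l hl, mul_comm]
  exact h _

theorem tau_injective' (hD : D.Monic) (m : ℕ) (hm : D.natDegree = m) (b : AdjoinRoot D)
    (h : ∀ i : Fin m, cf hD (m - 1) (b * AdjoinRoot.root D ^ (i : ℕ)) = 0) : b = 0 := by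
  apply tau_injective hD m hm
  intro y
  nontriviality R
  induction y using AdjoinRoot.induction_on with
  | ih f =>
    have h0 : AdjoinRoot.mk D f = AdjoinRoot.mk D (f %ₘ D) := by
      rw [AdjoinRoot.mk_eq_mk, Polynomial.modByMonic_eq_sub_mul_div, sub_sub_cancel]
      exact dvd_mul_right _ _
    have hdeg : (f %ₘ D).natDegree < m ∨ m = 0 := by
      by_cases h1 : m = 0
      · exact Or.inr h1
      · left
        have := Polynomial.natDegree_modByMonic_lt f hD (by
          intro h2; rw [h2, Polynomial.natDegree_one] at hm; exact h1 hm.symm)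
        rwa [hm] at this
    rcases hdeg with hdeg | hdeg
    · rw [h0, (f %ₘ D).as_sum_range_C_mul_X_pow' hdeg, map_sum, Finset.mul_sum, map_sum]
      refine Finset.sum_eq_zero (fun i hi => ?_)
      have h3 : b * AdjoinRoot.mk D (C ((f %ₘ D).coeff i) * X ^ i) = ((f %ₘ D).coeff i) • (b * AdjoinRoot.root D ^ i) := by
        rw [map_mul, map_pow, AdjoinRoot.mk_X, AdjoinRoot.mk_C, Algebra.smul_def, AdjoinRoot.algebraMap_eq]
        ring
      rw [h3, map_smul, h ⟨i, Finset.mem_range.1 hi⟩, smul_zero]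
    · have h5 : b = 0 := by
        apply eq_zero_of_cf hD m (by rw [hm])
        intro l hl
        omega
      rw [h5, zero_mul, map_zero]

theorem dual_expand (hD : D.Monic) (m : ℕ) (hm : D.natDegree = m) (e : ℕ → AdjoinRoot D)
    (he : ∀ l < m, ∀ y, cf hD l y = cf hD (m - 1) (e l * y)) (b : AdjoinRoot D) :
    b = ∑ l : Fin m, (cf hD (m - 1) (b * AdjoinRoot.root D ^ (l : ℕ))) • e l := by
  rcases subsingleton_or_nontrivial R with hR | hR
  · exact (Module.subsingleton R (AdjoinRoot D)).elim _ _
  rw [← sub_eq_zero]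
  apply tau_injective' hD m hm
  intro i
  have hroot : AdjoinRoot.root D ^ (i : ℕ) = AdjoinRoot.mk D (X ^ (i : ℕ)) := by
    rw [map_pow, AdjoinRoot.mk_X]
  have h1 : (X ^ (i : ℕ) : R[X]) %ₘ D = X ^ (i : ℕ) := by
    rw [Polynomial.modByMonic_eq_self_iff hD, Polynomial.degree_X_pow, Polynomial.degree_eq_natDegree hD.ne_zero, hm]
    exact_mod_cast i.isLt
  have h2 : ∀ l : Fin m, cf hD (m - 1) (((cf hD (m - 1) (b * AdjoinRoot.root D ^ (l : ℕ))) • e l) * AdjoinRoot.root D ^ (i : ℕ))
      = cf hD (m - 1) (b * AdjoinRoot.root D ^ (l : ℕ)) * (if (l : ℕ) = (i : ℕ) then 1 else 0) := by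
    intro l
    rw [smul_mul_assoc, map_smul, ← he l l.isLt, smul_eq_mul]
    congr 1
    rw [hroot, cf_mk, h1, Polynomial.coeff_X_pow]
  rw [sub_mul, map_sub, Finset.sum_mul, map_sum, Finset.sum_eq_single i]
  · rw [h2, if_pos rfl, mul_one, sub_self]
  · intro l _ hl
    rw [h2, if_neg (fun h => hl (Fin.ext h)), mul_zero]
  · intro h; exact absurd (Finset.mem_univ _) h

end

end Pool.Agent.LibMC34
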