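import Pool.Agent.LibMC34.Z1

set_option autoImplicit false

/-! MP_ed98ad, block Z: the module of relations has a finite free resolution of length 1 as soon as `w_0, w_1` is a regular sequence. -/

namespace Pool.Agent.LibMC34

open Polynomial

section
variable {R : Type} [CommRing R] {D : R[X]}

/-- the three components of the functional -/
noncomputable def GF (w : Fin 3 → AdjoinRoot D) (f : Fin 3 → AdjoinRoot D) : Fin 3 → AdjoinRoot D :=
  ![f 0 * w 1 + f 1 * w 2, - (f 0 * w 0) + f 2 * w 2, - (f 1 * w 0) - f 2 * w 1]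

/-- the map to coefficient vectors -/
noncomputable def PH (hD : D.Monic) (m : ℕ) (w : Fin 3 → AdjoinRoot D) : (Fin 3 → AdjoinRoot D) →ₗ[R] (T m → R) where
  toFun f := fun x => cf hD (m - 1) (GF w f x.1 * AdjoinRoot.root D ^ (x.2 : ℕ))
  map_add' f g := by
    funext x
    rw [Pi.add_apply, ← map_add, ← add_mul]
    congr 2
    obtain ⟨c, i⟩ := x
    fin_cases c <;> simp [GF] <;> ring
  map_smul' r f := by
    funext x
    rw [Pi.smul_apply, RingHom.id_apply, ← map_smul, ← smul_mul_assoc]
    congr 2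
    obtain ⟨c, i⟩ := x
    fin_cases c <;> simp [GF, smul_add, smul_sub]

theorem PH_apply (hD : D.Monic) (m : ℕ) (w : Fin 3 → AdjoinRoot D) (f : Fin 3 → AdjoinRoot D) (x : T m) :
    PH hD m w f x = cf hD (m - 1) (GF w f x.1 * AdjoinRoot.root D ^ (x.2 : ℕ)) := rfl

theorem relv_eq (hD : D.Monic) (m : ℕ) (w : Fin 3 → R[X]) (a c : Fin 3) (l : ℕ) (x : T m) :
    relv m D w a c l x = (if x.1 = a then cf hD l (AdjoinRoot.root D ^ (x.2 : ℕ) * AdjoinRoot.mk D (w c)) else 0)
      - (if x.1 = c then cf hD l (AdjoinRoot.root D ^ (x.2 : ℕ) * AdjoinRoot.mk D (w a)) else 0) := by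
  have h1 : ∀ f : R[X], AdjoinRoot.root D ^ (x.2 : ℕ) * AdjoinRoot.mk D f = AdjoinRoot.mk D (X ^ (x.2 : ℕ) * f) := by
    intro f
    rw [map_mul, map_pow, AdjoinRoot.mk_X]
  rw [h1, h1, cf_mk, cf_mk]
  rfl

theorem relv_eq_PH (hD : D.Monic) (m : ℕ) (w : Fin 3 → R[X]) (l : ℕ) (e : AdjoinRoot D) (he : ∀ y, cf hD l y = cf hD (m - 1) (e * y)) :
    relv m D w 0 1 l = PH hD m (fun c => AdjoinRoot.mk D (w c)) (Pi.single 0 e) ∧
    relv m D w 0 2 l = PH hD m (fun c => AdjoinRoot.mk D (w c)) (Pi.single 1 e) ∧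
    relv m D w 1 2 l = PH hD m (fun c => AdjoinRoot.mk D (w c)) (Pi.single 2 e) := by
  refine ⟨?_, ?_, ?_⟩ <;>
  · funext x
    rw [relv_eq hD, PH_apply]
    simp only [he]
    obtain ⟨c, i⟩ := x
    have h1 : ∀ y z : AdjoinRoot D, e * (y * z) = e * z * y := fun y z => by ring
    fin_cases c <;> simp [GF, h1]

theorem relv_swap (m : ℕ) (w : Fin 3 → R[X]) (a c : Fin 3) (l : ℕ) : relv m D w c a l = - relv m D w a c l := by
  funext x
  simp [relv]

theorem relv_self (m : ℕ) (w : Fin 3 → R[X]) (a : Fin 3) (l : ℕ) : relv m D w a a l = 0 := by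
  funext x
  simp [relv]

/-- The module of relations is the range of `PH`. -/
theorem range_PH (hD : D.Monic) (m : ℕ) (hm : D.natDegree = m) (w : Fin 3 → R[X]) :
    LinearMap.range (PH hD m (fun c => AdjoinRoot.mk D (w c))) = Kap m D w := by
  obtain ⟨e, he⟩ := exists_dual hD m hm
  apply le_antisymm
  · rintro _ ⟨f, rfl⟩
    have h1 : f = Pi.single 0 (f 0) + Pi.single 1 (f 1) + Pi.single 2 (f 2) := by
      funext c
      fin_cases c <;> simp
    have h2 : ∀ (q : Fin 3) (a c : Fin 3), (∀ l < m, relv m D w a c l = PH hD m (fun c => AdjoinRoot.mk D (w c)) (Pi.single q (e l))) →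
        ∀ b, PH hD m (fun c => AdjoinRoot.mk D (w c)) (Pi.single q b) ∈ Kap m D w := by
      intro q a c h b
      have h3 : (Pi.single q b : Fin 3 → AdjoinRoot D) = ∑ l : Fin m, (cf hD (m - 1) (b * AdjoinRoot.root D ^ (l : ℕ))) • (Pi.single q (e l) : Fin 3 → AdjoinRoot D) := by
        conv_lhs => rw [dual_expand hD m hm e he b]
        funext c'
        rw [Finset.sum_apply]
        by_cases hc : c' = q
        · subst hc
          simp
        · simp [Pi.single_eq_of_ne hc]
      rw [h3, map_sum]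
      refine Submodule.sum_mem _ (fun l _ => ?_)
      rw [map_smul, ← h l l.isLt]
      exact Submodule.smul_mem _ _ (Submodule.subset_span ⟨a, c, l, rfl⟩)
    rw [h1, map_add, map_add]
    refine Submodule.add_mem _ (Submodule.add_mem _ ?_ ?_) ?_
    · exact h2 0 0 1 (fun l hl => (relv_eq_PH hD m w l (e l) (he l hl)).1) _
    · exact h2 1 0 2 (fun l hl => (relv_eq_PH hD m w l (e l) (he l hl)).2.1) _
    · exact h2 2 1 2 (fun l hl => (relv_eq_PH hD m w l (e l) (he l hl)).2.2) _
  · rw [Submodule.span_le]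
    rintro _ ⟨a, c, l, rfl⟩
    have h01 := (relv_eq_PH hD m w l (e l) (he l l.isLt)).1
    have h02 := (relv_eq_PH hD m w l (e l) (he l l.isLt)).2.1
    have h12 := (relv_eq_PH hD m w l (e l) (he l l.isLt)).2.2
    show relv m D w a c l ∈ LinearMap.range (PH hD m (fun c => AdjoinRoot.mk D (w c)))
    have m01 : relv m D w 0 1 l ∈ LinearMap.range (PH hD m (fun c => AdjoinRoot.mk D (w c))) := ⟨_, h01.symm⟩
    have m02 : relv m D w 0 2 l ∈ LinearMap.range (PH hD m (fun c => AdjoinRoot.mk D (w c))) := ⟨_, h02.symm⟩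
    have m12 : relv m D w 1 2 l ∈ LinearMap.range (PH hD m (fun c => AdjoinRoot.mk D (w c))) := ⟨_, h12.symm⟩
    fin_cases a <;> fin_cases c
    · rw [relv_self]; exact Submodule.zero_mem _
    · exact m01
    · exact m02
    · show relv m D w 1 0 l ∈ _
      rw [relv_swap]; exact Submodule.neg_mem _ m01
    · rw [relv_self]; exact Submodule.zero_mem _
    · exact m12
    · show relv m D w 2 0 l ∈ _
      rw [relv_swap]; exact Submodule.neg_mem _ m02
    · show relv m D w 2 1 l ∈ _
      rw [relv_swap]; exact Submodule.neg_mem _ m12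
    · rw [relv_self]; exact Submodule.zero_mem _

theorem PH_eq_zero (hD : D.Monic) (m : ℕ) (hm : D.natDegree = m) (w : Fin 3 → AdjoinRoot D) (f : Fin 3 → AdjoinRoot D)
    (h : PH hD m w f = 0) (c : Fin 3) : GF w f c = 0 := by
  apply tau_injective' hD m hm
  intro i
  exact congrFun h (c, i)

/-- Block Z for a regular pair. -/
theorem ffr_Kap (hD : D.Monic) (m : ℕ) (hm : D.natDegree = m) (w : Fin 3 → R[X])
    (h1 : ∀ b : AdjoinRoot D, AdjoinRoot.mk D (w 0) * b = 0 → b = 0)
    (h2 : ∀ b c : AdjoinRoot D, AdjoinRoot.mk D (w 1) * b = AdjoinRoot.mk D (w 0) * c → ∃ c', b = AdjoinRoot.mk D (w 0) * c') :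
    FFR R 1 (Kap m D w) := by
  apply ffr_conv'
  have i1 : Module.Finite R (AdjoinRoot D) := (AdjoinRoot.powerBasis' hD).finite
  have i2 : Module.Free R (AdjoinRoot D) := Module.Free.of_basis (AdjoinRoot.powerBasis' hD).basis
  set W : Fin 3 → AdjoinRoot D := fun c => AdjoinRoot.mk D (w c) with hW
  have hmem : ∀ f, PH hD m W f ∈ Kap m D w := by
    intro f
    rw [← range_PH hD m hm w]
    exact ⟨f, rfl⟩
  refine LibMJ36.FFR.cover 0 (Fin 3 → AdjoinRoot D) _ (LinearMap.codRestrict _ (PH hD m W) hmem) ?_ ?_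
  · rintro ⟨y, hy⟩
    rw [← range_PH hD m hm w] at hy
    obtain ⟨f, hf⟩ := hy
    exact ⟨f, Subtype.ext hf⟩
  · -- the kernel is `B`
    let β : AdjoinRoot D →ₗ[R] (Fin 3 → AdjoinRoot D) :=
      { toFun := fun b => ![b * W 2, - (b * W 1), b * W 0]
        map_add' := by
          intro x y
          funext c
          fin_cases c <;> simp [add_mul]
          ring
        map_smul' := by
          intro r x
          funext c
          fin_cases c <;> simp }
    have hβ : ∀ b, β b ∈ LinearMap.ker (LinearMap.codRestrict (Kap m D w) (PH hD m W) hmem) := by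
      intro b
      rw [LinearMap.mem_ker]
      apply Subtype.ext
      show PH hD m W (β b) = 0
      funext x
      rw [PH_apply]
      have h3 : GF W (β b) x.1 = 0 := by
        obtain ⟨c, i⟩ := x
        fin_cases c <;> simp [GF, β] <;> ring
      rw [h3, zero_mul, map_zero]
      rfl
    refine LibMJ36.FFR.congr 0 (AdjoinRoot D) _ (LinearEquiv.ofBijective (LinearMap.codRestrict _ β hβ) ⟨?_, ?_⟩) ⟨i1, i2⟩
    · rw [← LinearMap.ker_eq_bot, LinearMap.ker_eq_bot']
      intro b hb
      have h4 : β b = 0 := congrArg (fun z : LinearMap.ker (LinearMap.codRestrict (Kap m D w) (PH hD m W) hmem) => (z : Fin 3 → AdjoinRoot D)) hb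
      have h5 := congrFun h4 2
      have h6 : b * W 0 = 0 := h5
      exact h1 b (by rw [mul_comm]; exact h6)
    · rintro ⟨f, hf⟩
      have hf' : PH hD m W f = 0 := congrArg Subtype.val (LinearMap.mem_ker.1 hf)
      have g0 : f 0 * W 1 + f 1 * W 2 = 0 := PH_eq_zero hD m hm W f hf' 0
      have g1 : - (f 0 * W 0) + f 2 * W 2 = 0 := PH_eq_zero hD m hm W f hf' 1
      have g2 : - (f 1 * W 0) - f 2 * W 1 = 0 := PH_eq_zero hD m hm W f hf' 2
      obtain ⟨b, hb⟩ := h2 (f 2) (- f 1) (by
        show W 1 * f 2 = W 0 * (- f 1)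
        linear_combination (-1 : AdjoinRoot D) * g2)
      have hb' : f 2 = W 0 * b := hb
      have k1 : f 1 = - (b * W 1) := by
        have : W 0 * (f 1 + b * W 1) = 0 := by
          rw [hb'] at g2
          linear_combination (-1 : AdjoinRoot D) * g2
        have := h1 _ this
        linear_combination this
      have k0 : f 0 = b * W 2 := by
        have : W 0 * (f 0 - b * W 2) = 0 := by
          rw [hb'] at g1
          linear_combination (-1 : AdjoinRoot D) * g1
        have := h1 _ this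
        linear_combination this
      refine ⟨b, Subtype.ext ?_⟩
      show β b = f
      funext c
      fin_cases c
      · exact k0.symm
      · exact k1.symm
      · show b * W 0 = f 2
        rw [hb', mul_comm]

end

end Pool.Agent.LibMC34
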